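import Pool.Agent.Helper621.Cyc

/-!
# Assigning classes to pattern slots
-/

namespace Pool.Agent.Helper621

set_option linter.unusedSectionVars false

open Finset

theorem exists_assign {S E C : Type} [Fintype S] [DecidableEq E] [DecidableEq C] (f : S → E)
    (Λ : E → Finset C) (h : ∀ e, (univ.filter (fun s => f s = e)).card = (Λ e).card) :
    ∃ cls : S → C, (∀ s, cls s ∈ Λ (f s)) ∧ (∀ s s', f s = f s' → cls s = cls s' → s = s') ∧
      ∀ e, ∀ z ∈ Λ e, ∃ s, f s = e ∧ cls s = z := by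
  let eq : ∀ e, {s // s ∈ univ.filter (fun s => f s = e)} ≃ {z // z ∈ Λ e} := fun e =>
    Finset.equivOfCardEq (h e)
  let cls : S → C := fun s => (eq (f s) ⟨s, by simp⟩ : C)
  have hcls : ∀ e s (hs : s ∈ univ.filter (fun s => f s = e)), cls s = (eq e ⟨s, hs⟩ : C) := by
    intro e s hs
    have h1 : f s = e := by simpa using hs
    subst h1
    rfl
  refine ⟨cls, fun s => (eq (f s) _).2, ?_, ?_⟩
  · intro s s' hf hc
    have hs : s ∈ univ.filter (fun s => f s = f s') := by simpa using hf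
    have hs' : s' ∈ univ.filter (fun s => f s = f s') := by simp
    rw [hcls (f s') s hs, hcls (f s') s' hs'] at hc
    have := (eq (f s')).injective (Subtype.ext hc)
    simpa using this
  · intro e z hz
    obtain ⟨⟨s, hs⟩, hse⟩ := (eq e).surjective ⟨z, hz⟩
    refine ⟨s, by simpa using hs, ?_⟩
    rw [hcls e s hs, hse]

section Slot

variable {R W : Type} [Fintype R] [DecidableEq W] {k : ℕ}

/-- slots of a pattern system -/
abbrev Slot (R : Type) (k : ℕ) : Type := {x : R × (Fin k × Fin k) // x.2.1 < x.2.2}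

theorem card_slot_sym (P : R → Fin k → W) {w w' : W} (hw : w ≠ w') :
    (univ.filter (fun s : Slot R k =>
      s(P s.1.1 s.1.2.1, P s.1.1 s.1.2.2) = s(w, w'))).card =
    (univ.filter (fun x : R × (Fin k × Fin k) => P x.1 x.2.1 = w ∧ P x.1 x.2.2 = w')).card := by
  classical
  refine card_bij (fun s _ => if P s.1.1 s.1.2.1 = w then s.1 else (s.1.1, (s.1.2.2, s.1.2.1)))
    ?_ ?_ ?_
  · rintro ⟨⟨r, i, j⟩, hij⟩ hs
    simp only [mem_filter, mem_univ, true_and, Sym2.eq_iff] at hs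
    rcases hs with ⟨h1, h2⟩ | ⟨h1, h2⟩
    · rw [if_pos h1]
      simp only [mem_filter, mem_univ, true_and]
      exact ⟨h1, h2⟩
    · have : ¬ (P r i = w) := fun h => hw (h.symm.trans h1)
      rw [if_neg this]
      simp only [mem_filter, mem_univ, true_and]
      exact ⟨h2, h1⟩
  · rintro ⟨⟨r, i, j⟩, hij⟩ hs ⟨⟨r', i', j'⟩, hij'⟩ hs' heq
    simp only [mem_filter, mem_univ, true_and, Sym2.eq_iff] at hs hs'
    simp only at heq hij hij'
    by_cases h1 : P r i = w
    · by_cases h2 : P r' i' = w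
      · rw [if_pos h1, if_pos h2] at heq
        exact Subtype.ext heq
      · rw [if_pos h1, if_neg h2] at heq
        simp only [Prod.mk.injEq] at heq
        obtain ⟨_, rfl, rfl⟩ := heq
        exact absurd hij' (not_lt_of_gt hij)
    · by_cases h2 : P r' i' = w
      · rw [if_neg h1, if_pos h2] at heq
        simp only [Prod.mk.injEq] at heq
        obtain ⟨_, rfl, rfl⟩ := heq
        exact absurd hij' (not_lt_of_gt hij)
      · rw [if_neg h1, if_neg h2] at heq
        simp only [Prod.mk.injEq] at heq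
        obtain ⟨rfl, rfl, rfl⟩ := heq
        rfl
  · rintro ⟨r, i, j⟩ hx
    simp only [mem_filter, mem_univ, true_and] at hx
    have hij : i ≠ j := by
      rintro rfl
      exact hw (hx.1.symm.trans hx.2)
    rcases lt_or_gt_of_ne hij with h | h
    · refine ⟨⟨(r, (i, j)), h⟩, ?_, ?_⟩
      · simp [hx.1, hx.2]
      · simp [hx.1]
    · refine ⟨⟨(r, (j, i)), h⟩, ?_, ?_⟩
      · simp only [mem_filter, mem_univ, true_and, Sym2.eq_iff]
        exact Or.inr ⟨hx.2, hx.1⟩
      · have : ¬ (P r j = w) := fun h => hw (h.symm.trans hx.2)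
        simp [this]

/-- Blocks with prescribed classes covering prescribed class sets. -/
theorem exists_rblocks (M : ℕ) (hM : 0 < M) (k : ℕ) : ∃ N : ℕ, ∀ (F R W : Type) [Field F]
    [Fintype F] [DecidableEq F] [Fintype R] [DecidableEq W] (m : ℕ), 0 < m → Even m →
    Fintype.card F = M * m + 1 → N < Fintype.card F →
    ∀ (P : R → Fin k → W) (_ : ∀ r, Function.Injective (P r)) (Λ : W → W → Finset F)
    (_ : ∀ w w', Λ w w' = Λ w' w) (_ : ∀ w, Λ w w = ∅) (_ : ∀ w w', ∀ z ∈ Λ w w', z ^ M = 1)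
    (_ : ∀ w w', w ≠ w' → (univ.filter (fun x : R × (Fin k × Fin k) =>
      P x.1 x.2.1 = w ∧ P x.1 x.2.2 = w')).card = (Λ w w').card),
    ∃ b : R → Fin k → F,
      (∀ r i j, i ≠ j → (b r j - b r i) ^ m ∈ Λ (P r i) (P r j)) ∧
      (∀ r r' i j i' j', i ≠ j → i' ≠ j' → P r i = P r' i' → P r j = P r' j' →
        (b r j - b r i) ^ m = (b r' j' - b r' i') ^ m → r = r' ∧ i = i' ∧ j = j') ∧
      ∀ w w', ∀ z ∈ Λ w w', ∃ r i j, i ≠ j ∧ P r i = w ∧ P r j = w' ∧
        (b r j - b r i) ^ m = z := by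
  obtain ⟨N, hN⟩ := exists_sel M k hM 1
  refine ⟨N, fun F R W _ _ _ _ _ m hm hme hF hNF P hP Λ hΛs hΛ0 hΛM hcard => ?_⟩
  classical
  let f : Slot R k → Sym2 W := fun s => s(P s.1.1 s.1.2.1, P s.1.1 s.1.2.2)
  let Λ' : Sym2 W → Finset F := Sym2.lift ⟨Λ, hΛs⟩
  have hΛ' : ∀ w w', Λ' s(w, w') = Λ w w' := fun w w' => rfl
  have hfib : ∀ e, (univ.filter (fun s => f s = e)).card = (Λ' e).card := by
    intro e
    induction e using Sym2.ind with
    | _ w w' =>
      rw [hΛ']
      by_cases hw : w = w'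
      · subst hw
        rw [hΛ0, card_empty, card_eq_zero, filter_eq_empty_iff]
        rintro ⟨⟨r, i, j⟩, hij⟩ _ h
        simp only [f, Sym2.eq_iff] at h
        have h2 : P r i = P r j := by
          rcases h with ⟨h1, h2⟩ | ⟨h1, h2⟩ <;> rw [h1, h2]
        exact (ne_of_lt hij) (hP r h2)
      · rw [← hcard w w' hw, ← card_slot_sym P hw]
  obtain ⟨cls, hc1, hc2, hc3⟩ := exists_assign f Λ' hfib
  have hc1' : ∀ r i j (h : i < j), cls ⟨(r, (i, j)), h⟩ ∈ Λ (P r i) (P r j) := by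
    intro r i j h
    exact hc1 ⟨(r, (i, j)), h⟩
  have hsel : ∀ r : R, ∃ b : Fin k → F, ∀ i j (h : i < j),
      (b j - b i) ^ m = cls ⟨(r, (i, j)), h⟩ := by
    intro r
    set z : ℕ → ℕ → F := fun i j => if h : i < j ∧ j < k then
      cls ⟨(r, (⟨i, h.1.trans h.2⟩, ⟨j, h.2⟩)), h.1⟩ else 1 with hz
    obtain ⟨b, _, hb⟩ := hN F m hm hF hNF (fun _ => univ)
      (fun i _ => by rw [one_mul, card_univ]) z (by
        intro i j hij hj
        rw [hz]
        simp only [hij, hj, and_self, dite_true]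
        exact hΛM _ _ _ (hc1' r ⟨i, hij.trans hj⟩ ⟨j, hj⟩ hij))
    refine ⟨fun i => b i, fun i j h => ?_⟩
    have h' : (i : ℕ) < (j : ℕ) := h
    rw [hb i j h' j.2, hz]
    simp only [h', j.2, and_self, dite_true]
  choose b hb using hsel
  have hswap : ∀ r i j, (b r j - b r i) ^ m = (b r i - b r j) ^ m := by
    intro r i j
    rw [← neg_sub, hme.neg_pow]
  refine ⟨b, ?_, ?_, ?_⟩
  · intro r i j hij
    rcases lt_or_gt_of_ne hij with h | h
    · rw [hb r i j h]; exact hc1' r i j h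
    · rw [hswap, hb r j i h, hΛs]; exact hc1' r j i h
  · have aux : ∀ r r' i j i' j', i < j → i' < j' →
        s(P r i, P r j) = s(P r' i', P r' j') →
        (b r j - b r i) ^ m = (b r' j' - b r' i') ^ m → r = r' ∧ i = i' ∧ j = j' := by
      intro r r' i j i' j' hij hij' hs hcl
      rw [hb r i j hij, hb r' i' j' hij'] at hcl
      have := hc2 _ _ hs hcl
      simpa using this
    intro r r' i j i' j' hij hij' hi hj hcl
    rcases lt_or_gt_of_ne hij with h | h
    · rcases lt_or_gt_of_ne hij' with h' | h'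
      · exact aux r r' i j i' j' h h' (by rw [hi, hj]) hcl
      · exfalso
        obtain ⟨rfl, rfl, rfl⟩ := aux r r' i j j' i' h h' (by rw [hi, hj, Sym2.eq_swap])
          (by rw [hcl, hswap])
        exact hij (hP r hi)
    · rcases lt_or_gt_of_ne hij' with h' | h'
      · exfalso
        obtain ⟨rfl, rfl, rfl⟩ := aux r r' j i i' j' h h' (by rw [hi, hj, Sym2.eq_swap])
          (by rw [hswap, hcl])
        exact hij (hP r hj).symm
      · obtain ⟨h1, h2, h3⟩ := aux r r' j i j' i' h h' (by rw [hi, hj])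
          (by rw [hswap, hcl, hswap])
        exact ⟨h1, h3, h2⟩
  · intro w w' z hz
    obtain ⟨⟨⟨r, i, j⟩, hij⟩, hs, hcl⟩ := hc3 s(w, w') z (by rw [hΛ']; exact hz)
    simp only [f, Sym2.eq_iff] at hs
    have hij' : i < j := hij
    rcases hs with ⟨h1, h2⟩ | ⟨h1, h2⟩
    · exact ⟨r, i, j, ne_of_lt hij', h1, h2, by rw [hb r i j hij', hcl]⟩
    · exact ⟨r, j, i, ne_of_gt hij', h2, h1, by rw [hswap, hb r i j hij', hcl]⟩

end Slot

end Pool.Agent.Helper621
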