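import Pool.Agent.Helper621.Types

/-!
# The automorphism group is exactly the group
-/

namespace Pool.Agent.Helper621

set_option linter.unusedSectionVars false
set_option synthInstance.maxSize 2048

open Finset

section AutG

variable {G F T R : Type} [Group G] [Fintype G] [DecidableEq G]
  [Field F] [Fintype F] [DecidableEq F] [DecidableEq T] [Fintype T] {r M m k : ℕ}

theorem aut_is_group (D : RData F T R r M m k) (hF : Fintype.card F = M * m + 1)
    (hG : Nat.card G ∣ m) (hnat : ∀ x : F, ∃ n : ℕ, (n : F) = x)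
    (𝓗 : (Option (Option (Option G)) → Bool) → Set (Finset (Option (Lab r T))))
    (h𝓗inj : Function.Injective 𝓗)
    (h𝓗 : ∀ τ, (∀ B ∈ 𝓗 τ, B.card = k) ∧ ∀ x y, x ≠ y → ∃! B, B ∈ 𝓗 τ ∧ x ∈ B ∧ y ∈ B)
    {p : ℕ} (hp : p = Fintype.card (Lab r T) + 1)
    (hr : 2 ≤ r) (hk : 5 ≤ k) (hT : 3 ≤ Fintype.card T) (ε : T → ZMod 2)
    (hpat : ∀ x e, ∃ i j, colW ε (D.P x i) = e ∧ colW ε (D.P x j) = e ∧
      (D.P x i).2 ≠ (D.P x j).2)
    (hgen : ∀ τ : Typ p k r R, (∀ h : Fin p → F, Ker τ D.S.c (vsp ε D.P) h → h = 0) →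
      ∀ h, Ker τ D.S.c (fun a => D.b a.1 a.2) h → h = 0)
    (hbinj : ∀ x, Function.Injective (D.b x)) (hocc : ∀ w, ∃ x i, D.P x i = w)
    {N : ℕ} (hNe : Even N)
    (hsid : ∀ x x' i j i' j' l n l' n', i ≠ j → i' ≠ j' → l ≠ n → l' ≠ n' →
        (D.b x' j' - D.b x' i') ^ N * (D.b x n - D.b x l) ^ N =
          (D.b x' n' - D.b x' l') ^ N * (D.b x j - D.b x i) ^ N →
        (s(i', j') = s(l', n') ∧ s(i, j) = s(l, n)) ∨
          (x' = x ∧ s(i', j') = s(i, j) ∧ s(l', n') = s(l, n)))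
    (α : Equiv.Perm (Option ((Option G → F) × Lab r T)))
    (hα : ∀ E ∈ blocks2 (dirSet2 G (Option G) F m) D.BF.B (fun v => 𝓗 (tyV v)),
      E.map α.toEmbedding ∈ blocks2 (dirSet2 G (Option G) F m) D.BF.B (fun v => 𝓗 (tyV v)))
    (hα' : ∀ E ∈ blocks2 (dirSet2 G (Option G) F m) D.BF.B (fun v => 𝓗 (tyV v)),
      E.map α.symm.toEmbedding ∈
        blocks2 (dirSet2 G (Option G) F m) D.BF.B (fun v => 𝓗 (tyV v))) :
    ∃ g : G, α = pointHom2 G (Option G) F (Lab r T) g := by
  have hcardk : ∀ E ∈ blocks2 (dirSet2 G (Option G) F m) D.BF.B (fun v => 𝓗 (tyV v)),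
      E.card = k := fun E hE => design2_card D.BF _ (fun v => (h𝓗 _).1) E hE
  have hpair := design2_pairs (G := G) (Ω := Option G) D.S.hm hF hG D.BF
    (fun v => 𝓗 (tyV v)) (fun v => (h𝓗 _).2)
  obtain ⟨t0⟩ : Nonempty T := Fintype.card_pos_iff.1 (by omega)
  have hTne : Nonempty T := ⟨t0⟩
  have hWne : Nonempty (Lab r T) := ⟨(((⟨0, by omega⟩, ⟨0, by omega⟩), 0), t0)⟩
  obtain ⟨a, b, hba, hab, hnone, ha, hb⟩ := auto_holes D (fun v => 𝓗 (tyV v))
    (fun C hC hcard => closed_is_hole D hF hG _ hcardk hpair hp hr hk hT ε hpat hgen hC hcard)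
    α hα hα'
  have hainj : Function.Injective a := fun x y h => by rw [← hba x, h, hba]
  obtain ⟨f, haf, hadd, hsmul⟩ := auto_affine hr hnat (ω1 := none) (ω2 := some (1 : G))
    (by simp) D hF hG _ α hα hα' hba hab hnone ha hb
  have hex : ∃ u : Option G → F, u ∈ dirSet2 G (Option G) F m := by
    obtain ⟨c, _, hc⟩ := dirSet2_ex (G := G) (m := m) (v := (1 : Option G → F)) one_ne_zero
    exact ⟨_, hc⟩
  have hlab : ∀ v w, α (some (v, w)) = some (a v, w) := fun v w =>
    label_rigid hr (by omega) D _ hbinj hocc hNe hsid hex α hα hainj ha haf hadd hsmul v w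
  have hαmap : ∀ v z, α (Option.map (fun w => (v, w)) z) = Option.map (fun w => (a v, w)) z := by
    intro v z
    rcases z with _ | w
    · exact hnone
    · exact hlab v w
  have hsub : ∀ v, 𝓗 (tyV v) ⊆ 𝓗 (tyV (a v)) := by
    intro v H0 hH0
    have hE := hα (holeB v H0) (Or.inr ⟨v, H0, hH0, rfl⟩)
    have he : (holeB v H0).map α.toEmbedding = holeB (a v) H0 := by
      ext x
      unfold holeB
      rw [mem_map, mem_image]
      constructor
      · rintro ⟨y, hy, rfl⟩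
        obtain ⟨z, hz, rfl⟩ := mem_image.1 hy
        exact ⟨z, hz, (hαmap v z).symm⟩
      · rintro ⟨z, hz, rfl⟩
        exact ⟨_, mem_image_of_mem _ hz, hαmap v z⟩
    rw [he] at hE
    have hcH := (h𝓗 _).1 H0 hH0
    rcases hE with ⟨a', u', i, hu, hE⟩ | ⟨v', H1, hH1, hE⟩
    · exfalso
      obtain ⟨z1, hz1, z2, hz2, hz12⟩ := one_lt_card.1 (show 1 < H0.card by omega)
      have m1 : Option.map (fun w => (a v, w)) z1 ∈ crossB D.BF.B a' u' i := by
        rw [← hE, mem_holeB_map]; exact hz1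
      have m2 : Option.map (fun w => (a v, w)) z2 ∈ crossB D.BF.B a' u' i := by
        rw [← hE, mem_holeB_map]; exact hz2
      rcases z1 with _ | w1
      · exact none_notMem_crossB _ _ _ _ m1
      rcases z2 with _ | w2
      · exact none_notMem_crossB _ _ _ _ m2
      have := crossB_same D.BF (dirSet2_ne hu) m1 m2
      exact hz12 (by rw [this])
    · obtain ⟨z1, hz1, z2, hz2, hz12⟩ := one_lt_card.1 (show 1 < H0.card by omega)
      have hv : a v = v' := by
        have aux : ∀ w, some w ∈ H0 → a v = v' := by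
          intro w hw
          have h1 : some (a v, w) ∈ holeB v' H1 := by
            rw [← hE, mem_holeB]; exact ⟨rfl, hw⟩
          exact ((mem_holeB _ _ _ _).1 h1).1
        rcases z1 with _ | w1
        · rcases z2 with _ | w2
          · exact absurd rfl hz12
          · exact aux w2 hz2
        · exact aux w1 hz1
      subst hv
      have h1 : H0 = H1 := by
        ext z
        rw [← mem_holeB_map (a v) z H0, hE, mem_holeB_map]
      rw [h1]
      exact hH1
  have hty : ∀ v, tyV v = tyV (a v) := by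
    intro v
    apply h𝓗inj
    apply Set.Subset.antisymm (hsub v)
    intro H0 hH0
    have hcH := (h𝓗 _).1 H0 hH0
    obtain ⟨z1, hz1, z2, hz2, hz12⟩ := one_lt_card.1 (show 1 < H0.card by omega)
    obtain ⟨H1, ⟨hH1, h3, h4⟩, _⟩ := (h𝓗 (tyV v)).2 z1 z2 hz12
    have h5 : H0 = H1 := ((h𝓗 (tyV (a v))).2 z1 z2 hz12).unique ⟨hH0, hz1, hz2⟩
      ⟨hsub v hH1, h3, h4⟩
    rw [h5]
    exact hH1
  obtain ⟨g, hg⟩ := marked_is_group D.S.two_ne a f hainj haf hadd hsmul hty
  refine ⟨g, ?_⟩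
  apply Equiv.ext
  intro x
  rcases x with _ | ⟨v, w⟩
  · rw [hnone, pointHom2_none]
  · rw [hlab, pointHom2_some, hg]

end AutG

end Pool.Agent.Helper621
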