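import Pool.Agent.Helper621.Cyc

/-!
# Cyclotomic 2-(p,k,1) designs on `ZMod p`
-/

namespace Pool.Agent.Helper621

open Finset

theorem card_lt_pairs (k : ℕ) :
    2 * (univ.filter (fun x : Fin k × Fin k => x.1 < x.2)).card = k * (k - 1) := by
  have h1 : (univ.filter (fun x : Fin k × Fin k => x.1 < x.2)).card =
      (univ.filter (fun x : Fin k × Fin k => x.2 < x.1)).card := by
    refine card_bij' (fun x _ => (x.2, x.1)) (fun x _ => (x.2, x.1)) ?_ ?_ ?_ ?_
    · intro x hx; simpa using hx
    · intro x hx; simpa using hx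
    · intro x _; rfl
    · intro x _; rfl
  have h2 : (univ.filter (fun x : Fin k × Fin k => x.1 ≠ x.2)).card = k * k - k := by
    have h := offDiag_card (univ : Finset (Fin k))
    rw [card_univ, Fintype.card_fin] at h
    rw [← h]
    congr 1
    ext x
    simp
  have h3 : (univ.filter (fun x : Fin k × Fin k => x.1 ≠ x.2)).card =
      (univ.filter (fun x : Fin k × Fin k => x.1 < x.2)).card +
      (univ.filter (fun x : Fin k × Fin k => x.2 < x.1)).card := by
    rw [← card_union_of_disjoint]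
    · congr 1
      ext x
      simp only [mem_filter, mem_univ, true_and, mem_union]
      exact ne_iff_lt_or_gt
    · rw [disjoint_left]
      intro x hx hx2
      simp only [mem_filter, mem_univ, true_and] at hx hx2
      exact lt_asymm hx hx2
  rw [← h1] at h3
  rw [h2] at h3
  rw [Nat.mul_sub_one, h3]
  ring

theorem half_val {p : ℕ} [Fact p.Prime] (hp : 2 < p) {h : ZMod p} (hh : h ≠ 0) :
    (2 * h.val < p ∨ 2 * (-h).val < p) ∧ ¬ (2 * h.val < p ∧ 2 * (-h).val < p) := by
  have hodd : p % 2 = 1 := by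
    rcases (Fact.out : p.Prime).eq_two_or_odd with h | h
    · omega
    · exact h
  have h1 : (-h).val = p - h.val := by rw [ZMod.neg_val, if_neg hh]
  have h2 : h.val < p := ZMod.val_lt h
  have h3 : 0 < h.val := by
    rw [Nat.pos_iff_ne_zero]
    intro h4
    exact hh ((ZMod.val_eq_zero h).1 h4)
  rw [h1]
  omega

theorem exists_hole (k : ℕ) (hk : 2 ≤ k) : ∃ N : ℕ, ∀ p : ℕ, p.Prime → N < p →
    k * (k - 1) ∣ p - 1 → ∃ 𝓑 : Set (Finset (ZMod p)), (∀ B ∈ 𝓑, B.card = k) ∧
      ∀ x y : ZMod p, x ≠ y → ∃! B, B ∈ 𝓑 ∧ x ∈ B ∧ y ∈ B := by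
  set M := (univ.filter (fun x : Fin k × Fin k => x.1 < x.2)).card with hMdef
  have hM2 : 2 * M = k * (k - 1) := card_lt_pairs k
  have hM : 0 < M := by
    have : 0 < k * (k - 1) := Nat.mul_pos (by omega) (by omega)
    omega
  obtain ⟨N, hN⟩ := exists_sel M k hM 1
  refine ⟨N + 2, fun p hp hNp hdvd => ?_⟩
  have : Fact p.Prime := ⟨hp⟩
  obtain ⟨c, hc⟩ := hdvd
  have hp1 : 2 < p := by omega
  have hcpos : 0 < c := by
    rcases Nat.eq_zero_or_pos c with h | h
    · rw [h] at hc; omega
    · exact h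
  set m := 2 * c with hm
  have hmpos : 0 < m := by omega
  have hmeven : Even m := ⟨c, by omega⟩
  have hcard : Fintype.card (ZMod p) = M * m + 1 := by
    rw [ZMod.card, hm]
    have : M * (2 * c) = 2 * M * c := by ring
    rw [this, hM2, ← hc]; omega
  have hmu := card_mu hcard hM hmpos
  have e : {x // x ∈ univ.filter (fun x : Fin k × Fin k => x.1 < x.2)} ≃
      {x // x ∈ mu (ZMod p) M} := Fintype.equivOfCardEq (by
    rw [Fintype.card_coe, Fintype.card_coe, hmu])
  set z : ℕ → ℕ → ZMod p := fun i j => if h : i < j ∧ j < k then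
    (e ⟨(⟨i, h.1.trans h.2⟩, ⟨j, h.2⟩), by simpa using h.1⟩ : ZMod p) else 1 with hz
  obtain ⟨b, _, hb⟩ := hN (ZMod p) m hmpos hcard (by rw [ZMod.card]; omega) (fun _ => univ)
    (fun i _ => by rw [one_mul, card_univ]) z (by
      intro i j hij hj
      rw [hz]
      simp only [hij, hj, and_self, dite_true]
      exact mem_mu.1 (Subtype.mem _))
  have hb' : ∀ (i j : Fin k) (h : i < j), (b j - b i) ^ m =
      (e ⟨(i, j), by simpa using h⟩ : ZMod p) := by
    intro i j h
    have h' : (i : ℕ) < (j : ℕ) := h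
    rw [hb i j h' j.2, hz]
    simp only [h', j.2, and_self, dite_true]
  have hinj : ∀ i j i' j' : Fin k, i < j → i' < j' → (b j - b i) ^ m = (b j' - b i') ^ m →
      i = i' ∧ j = j' := by
    intro i j i' j' h h' heq
    rw [hb' i j h, hb' i' j' h'] at heq
    have := e.injective (Subtype.ext heq)
    simpa using this
  have hsurj : ∀ d : ZMod p, d ≠ 0 → ∃ i j : Fin k, i < j ∧ (b j - b i) ^ m = d ^ m := by
    intro d hd
    obtain ⟨⟨⟨i, j⟩, hij⟩, he⟩ := e.surjective ⟨d ^ m, mem_mu.2 (class_pow hcard hd)⟩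
    refine ⟨i, j, by simpa using hij, ?_⟩
    rw [hb' i j (by simpa using hij), he]
  have hbne : ∀ i j : Fin k, i ≠ j → b i ≠ b j := by
    have aux : ∀ i j : Fin k, i < j → b i ≠ b j := by
      intro i j hij heq
      have h1 := hb' i j hij
      rw [heq, sub_self, zero_pow hmpos.ne'] at h1
      have h2 := mem_mu.1 (e ⟨(i, j), by simpa using hij⟩).2
      rw [← h1, zero_pow hM.ne'] at h2
      exact zero_ne_one h2
    intro i j hij
    rcases lt_or_gt_of_ne hij with h | h
    · exact aux i j h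
    · exact (aux j i h).symm
  have hH0 : ∀ h : ZMod p, h ^ m = 1 → h ≠ 0 := by
    rintro h hh rfl
    rw [zero_pow hmpos.ne'] at hh
    exact zero_ne_one hh
  let blk : ZMod p → ZMod p → Finset (ZMod p) := fun a h =>
    (univ : Finset (Fin k)).image (fun i : Fin k => a + h * b i)
  have hblk : ∀ a h x, x ∈ blk a h ↔ ∃ i : Fin k, a + h * b i = x := by
    intro a h x
    simp [blk]
  refine ⟨{B | ∃ a h, h ^ m = 1 ∧ 2 * h.val < p ∧ B = blk a h}, ?_, ?_⟩
  · rintro B ⟨a, h, hh, _, rfl⟩
    have : Function.Injective (fun i : Fin k => a + h * b i) := by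
      intro i j hij
      by_contra hne
      exact hbne i j hne (mul_left_cancel₀ (hH0 h hh) (add_left_cancel hij))
    simp only [blk]
    rw [card_image_of_injective _ this, card_univ, Fintype.card_fin]
  · intro x y hxy
    -- canonical parameters
    have hd : y - x ≠ 0 := sub_ne_zero.2 hxy.symm
    obtain ⟨i, j, hij, hcl⟩ := hsurj (y - x) hd
    have hbij : b j - b i ≠ 0 := sub_ne_zero.2 (hbne j i (ne_of_gt hij))
    set h := (y - x) / (b j - b i) with hh
    have hhm : h ^ m = 1 := by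
      rw [hh, div_pow, hcl, div_self]
      exact pow_ne_zero _ hd
    have hh0 := hH0 h hhm
    have hmul : h * (b j - b i) = y - x := div_mul_cancel₀ _ hbij
    -- uniqueness of the unordered data
    have huniq : ∀ a' h', h' ^ m = 1 → x ∈ blk a' h' → y ∈ blk a' h' →
        (h' = h ∧ a' = x - h * b i) ∨ (h' = -h ∧ a' = x + h * b j) := by
      intro a' h' hh' hx hy
      obtain ⟨i', hi'⟩ := (hblk _ _ _).1 hx
      obtain ⟨j', hj'⟩ := (hblk _ _ _).1 hy
      have hdiff : h' * (b j' - b i') = y - x := by rw [← hi', ← hj']; ring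
      have hne : i' ≠ j' := by
        rintro rfl
        rw [sub_self, mul_zero] at hdiff
        exact hd hdiff.symm
      have hc2 : (b j' - b i') ^ m = (y - x) ^ m := by
        rw [← hdiff, mul_pow, hh', one_mul]
      rcases lt_or_gt_of_ne hne with hlt | hgt
      · obtain ⟨rfl, rfl⟩ := hinj i j i' j' hij hlt (by rw [hcl, hc2])
        left
        have h1 : h' = h := by
          have : h' * (b j - b i) = h * (b j - b i) := by rw [hdiff, hmul]
          exact mul_right_cancel₀ hbij this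
        refine ⟨h1, ?_⟩
        rw [← hi', h1]; ring
      · have hc3 : (b i' - b j') ^ m = (y - x) ^ m := by
          rw [← hc2, ← neg_sub, hmeven.neg_pow]
        obtain ⟨rfl, rfl⟩ := hinj i j j' i' hij hgt (by rw [hcl, hc3])
        right
        have h1 : h' = -h := by
          have : h' * (b j - b i) = -h * (b j - b i) := by
            rw [neg_mul, hmul, ← hdiff]; ring
          exact mul_right_cancel₀ hbij this
        refine ⟨h1, ?_⟩
        rw [← hi', h1]; ring
    have hmem1 : x ∈ blk (x - h * b i) h ∧ y ∈ blk (x - h * b i) h := by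
      constructor
      · rw [hblk]; exact ⟨i, by ring⟩
      · rw [hblk]; exact ⟨j, by linear_combination hmul⟩
    have hmem2 : x ∈ blk (x + h * b j) (-h) ∧ y ∈ blk (x + h * b j) (-h) := by
      constructor
      · rw [hblk]; exact ⟨j, by ring⟩
      · rw [hblk]; exact ⟨i, by linear_combination hmul⟩
    obtain ⟨hor, hnand⟩ := half_val hp1 hh0
    rcases hor with hpos | hneg
    · refine ⟨blk (x - h * b i) h, ⟨⟨_, _, hhm, hpos, rfl⟩, hmem1⟩, ?_⟩
      rintro B ⟨⟨a', h', hh', hv, rfl⟩, hx, hy⟩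
      rcases huniq a' h' hh' hx hy with ⟨rfl, rfl⟩ | ⟨rfl, rfl⟩
      · rfl
      · exact absurd ⟨hpos, hv⟩ hnand
    · refine ⟨blk (x + h * b j) (-h), ⟨⟨_, _, ?_, hneg, rfl⟩, hmem2⟩, ?_⟩
      · rw [hmeven.neg_pow, hhm]
      rintro B ⟨⟨a', h', hh', hv, rfl⟩, hx, hy⟩
      rcases huniq a' h' hh' hx hy with ⟨rfl, rfl⟩ | ⟨rfl, rfl⟩
      · exact absurd ⟨hv, hneg⟩ hnand
      · rfl

end Pool.Agent.Helper621
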