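import Pool.Agent.Helper621.MkBase
import Pool.Agent.Helper621.Hole

/-!
# Every finite group acts faithfully on a 2-(v,k,1) design, for every k ≥ 3
-/

namespace Pool.Agent.Helper621

set_option linter.unusedSectionVars false

open Finset

/-- Transport of a design with a group action to `Fin v`. -/
theorem transport_fin {X : Type} [Fintype X] {G : Type} [Group G] {k : ℕ}
    (𝓑 : Set (Finset X)) (h1 : ∀ B ∈ 𝓑, B.card = k)
    (h2 : ∀ x y, x ≠ y → ∃! B, B ∈ 𝓑 ∧ x ∈ B ∧ y ∈ B)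
    (φ : G →* Equiv.Perm X) (hφ : Function.Injective φ)
    (h3 : ∀ g : G, ∀ B ∈ 𝓑, B.map (φ g).toEmbedding ∈ 𝓑) (hX : ∃ x y : X, x ≠ y) :
    ∃ (v : ℕ) (B : Finset (Finset (Fin v))), k ≤ v ∧ (∀ b ∈ B, b.card = k) ∧
      (∀ x y : Fin v, x ≠ y → ∃! b, b ∈ B ∧ x ∈ b ∧ y ∈ b) ∧
      ∃ ψ : G →* Equiv.Perm (Fin v), Function.Injective ψ ∧
        ∀ g, ∀ b ∈ B, b.map (ψ g).toEmbedding ∈ B := by
  classical
  let e : X ≃ Fin (Fintype.card X) := Fintype.equivFin X
  have hmm : ∀ b : Finset X, (b.map e.toEmbedding).map e.symm.toEmbedding = b := by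
    intro b
    ext x
    simp
  have hmm' : ∀ b : Finset (Fin (Fintype.card X)),
      (b.map e.symm.toEmbedding).map e.toEmbedding = b := by
    intro b
    ext x
    simp
  let ψ : G →* Equiv.Perm (Fin (Fintype.card X)) :=
    { toFun := fun g => (e.symm.trans (φ g)).trans e
      map_one' := by ext x; simp
      map_mul' := fun g h => by ext x; simp }
  refine ⟨Fintype.card X, univ.filter (fun b => b.map e.symm.toEmbedding ∈ 𝓑), ?_, ?_, ?_,
    ψ, ?_, ?_⟩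
  · obtain ⟨x, y, hxy⟩ := hX
    obtain ⟨B, ⟨hB, _, _⟩, _⟩ := h2 x y hxy
    rw [← h1 B hB]
    exact card_le_univ B
  · intro b hb
    rw [mem_filter] at hb
    have := h1 _ hb.2
    rwa [card_map] at this
  · intro x y hxy
    obtain ⟨B, ⟨hB, hx, hy⟩, huniq⟩ := h2 (e.symm x) (e.symm y)
      (fun h => hxy (e.symm.injective h))
    refine ⟨B.map e.toEmbedding, ⟨?_, ?_, ?_⟩, ?_⟩
    · rw [mem_filter]
      exact ⟨mem_univ _, by rw [hmm]; exact hB⟩
    · rw [mem_map]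
      exact ⟨e.symm x, hx, by simp⟩
    · rw [mem_map]
      exact ⟨e.symm y, hy, by simp⟩
    · rintro C ⟨hC, hxC, hyC⟩
      rw [mem_filter] at hC
      have h4 := huniq (C.map e.symm.toEmbedding) ⟨hC.2, mem_map_of_mem _ hxC,
        mem_map_of_mem _ hyC⟩
      rw [← hmm' C, h4]
  · intro g h hgh
    apply hφ
    ext x
    have h5 := congrArg (fun σ : Equiv.Perm (Fin (Fintype.card X)) => σ (e x)) hgh
    simpa [ψ] using h5
  · intro g b hb
    rw [mem_filter] at hb ⊢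
    refine ⟨mem_univ _, ?_⟩
    have h6 := h3 g _ hb.2
    have h7 : (b.map (ψ g).toEmbedding).map e.symm.toEmbedding =
        (b.map e.symm.toEmbedding).map (φ g).toEmbedding := by
      rw [map_map, map_map]
      congr 1
      ext x
      simp [ψ]
    rw [h7]
    exact h6

/-- Transport of a design along an equivalence. -/
theorem transport_equiv {X X' : Type} (e : X ≃ X') {k : ℕ} (𝓑 : Set (Finset X))
    (h1 : ∀ B ∈ 𝓑, B.card = k) (h2 : ∀ x y, x ≠ y → ∃! B, B ∈ 𝓑 ∧ x ∈ B ∧ y ∈ B) :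
    ∃ 𝓒 : Set (Finset X'), (∀ B ∈ 𝓒, B.card = k) ∧
      ∀ x y, x ≠ y → ∃! B, B ∈ 𝓒 ∧ x ∈ B ∧ y ∈ B := by
  have hmm : ∀ b : Finset X, (b.map e.toEmbedding).map e.symm.toEmbedding = b := by
    intro b
    ext x
    simp
  have hmm' : ∀ b : Finset X', (b.map e.symm.toEmbedding).map e.toEmbedding = b := by
    intro b
    ext x
    simp
  refine ⟨{b | b.map e.symm.toEmbedding ∈ 𝓑}, ?_, ?_⟩
  · intro b hb
    have := h1 _ hb
    rwa [card_map] at this
  · intro x y hxy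
    obtain ⟨B, ⟨hB, hx, hy⟩, huniq⟩ := h2 (e.symm x) (e.symm y)
      (fun h => hxy (e.symm.injective h))
    refine ⟨B.map e.toEmbedding, ⟨?_, ?_, ?_⟩, ?_⟩
    · change (B.map e.toEmbedding).map e.symm.toEmbedding ∈ 𝓑
      rw [hmm]; exact hB
    · rw [mem_map]
      exact ⟨e.symm x, hx, by simp⟩
    · rw [mem_map]
      exact ⟨e.symm y, hy, by simp⟩
    · rintro C ⟨hC, hxC, hyC⟩
      have h4 := huniq (C.map e.symm.toEmbedding) ⟨hC, mem_map_of_mem _ hxC,
        mem_map_of_mem _ hyC⟩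
      rw [← hmm' C, h4]

/-- the arithmetic behind the choice of multiplicities -/
theorem arith_choice {K s1 δ rr N2 t k : ℕ} (hk : 2 ≤ k) (hK : 2 ≤ K) (hs1 : s1 ≤ δ * rr)
    (ht : K ≤ 2 * (t - 1)) :
    K * ((2 * rr * δ ^ 2 * (t - 1) - (K - 2) * s1 * δ) * (N2 * δ ^ (k - 2))) +
      (K - 2) * (K * ((s1 * δ ^ (k - 1)) * N2)) =
      rr * (2 * (K * (δ ^ k * ((t - 1) * N2)))) := by
  obtain ⟨k', rfl⟩ : ∃ k', k = k' + 2 := ⟨k - 2, by omega⟩
  have e1 : k' + 2 - 2 = k' := by omega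
  have e2 : k' + 2 - 1 = k' + 1 := by omega
  rw [e1, e2]
  have hle : (K - 2) * s1 * δ ≤ 2 * rr * δ ^ 2 * (t - 1) := by
    calc (K - 2) * s1 * δ ≤ K * (δ * rr) * δ := by
          apply Nat.mul_le_mul_right
          exact Nat.mul_le_mul (by omega) hs1
      _ = rr * δ ^ 2 * K := by ring
      _ ≤ rr * δ ^ 2 * (2 * (t - 1)) := Nat.mul_le_mul_left _ ht
      _ = 2 * rr * δ ^ 2 * (t - 1) := by ring
  obtain ⟨A, hA⟩ : ∃ A, 2 * rr * δ ^ 2 * (t - 1) = (K - 2) * s1 * δ + A :=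
    ⟨_, (Nat.add_sub_cancel' hle).symm⟩
  rw [hA, Nat.add_sub_cancel_left]
  have e3 : rr * (2 * (K * (δ ^ (k' + 2) * ((t - 1) * N2)))) =
      K * (2 * rr * δ ^ 2 * (t - 1)) * (δ ^ k' * N2) := by ring
  rw [e3, hA]
  ring

theorem main_eff (k : ℕ) (hk : 3 ≤ k) (G : Type) [Group G] [Finite G] :
    ∃ (v : ℕ) (B : Finset (Finset (Fin v))), k ≤ v ∧ (∀ b ∈ B, b.card = k) ∧
      (∀ x y : Fin v, x ≠ y → ∃! b, b ∈ B ∧ x ∈ b ∧ y ∈ b) ∧
      ∃ ψ : G →* Equiv.Perm (Fin v), Function.Injective ψ ∧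
        ∀ g, ∀ b ∈ B, b.map (ψ g).toEmbedding ∈ B := by
  classical
  obtain ⟨r, hr⟩ : ∃ r, r = k / 2 := ⟨_, rfl⟩
  have hrpos : 0 < r := by omega
  have hkr : 2 * r + (if k % 2 = 1 then 1 else 0) = k := by
    split_ifs <;> omega
  set K := k * (k - 1) with hKdef
  have hK6 : 6 ≤ K := by
    have : 3 * 2 ≤ k * (k - 1) := Nat.mul_le_mul hk (by omega)
    exact this
  have hkK : k ≤ K := by
    have : k * 1 ≤ k * (k - 1) := Nat.mul_le_mul_left _ (by omega)
    omega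
  set δ := r * r * 3 with hδ
  have hδpos : 0 < δ := by positivity
  -- the hole design
  obtain ⟨N1, hN1⟩ := exists_hole k (by omega)
  obtain ⟨p, hp, hpN, hpmod⟩ := Nat.exists_prime_gt_modEq_one (k := δ * K)
    (N1 + δ * (K + 2) + 1) (by positivity)
  obtain ⟨u, hu⟩ := (Nat.modEq_iff_dvd' hp.one_lt.le).1 hpmod.symm
  set t := K * u with ht
  have hpt : p = δ * t + 1 := by
    have : p - 1 = δ * t := by rw [hu, ht]; ring
    have := hp.one_lt
    omega
  have htK : K + 2 ≤ t := by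
    by_contra hcon
    have h1 : t ≤ K + 2 := by omega
    have h2 : δ * t ≤ δ * (K + 2) := Nat.mul_le_mul_left _ h1
    omega
  obtain ⟨H0, hH01, hH02⟩ := hN1 p hp (by omega) ⟨δ * u, by rw [hu]; ring⟩
  -- labels
  have : NeZero p := ⟨hp.ne_zero⟩
  have hcardW : Fintype.card (Option (Lab r (Fin t))) = Fintype.card (ZMod p) := by
    rw [Fintype.card_option, ZMod.card, hpt]
    simp [hδ, ZMod.card]
  have eW : ZMod p ≃ Option (Lab r (Fin t)) := (Fintype.equivOfCardEq hcardW).symm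
  obtain ⟨H, hH1, hH2⟩ := transport_equiv eW H0 hH01 hH02
  -- multiplicities
  set N2 := (t - 2).factorial with hN2
  have hN2pos : 0 < N2 := Nat.factorial_pos _
  set M0 := 2 * (K * (δ ^ k * ((t - 1) * N2))) with hM0
  have hM0pos : 0 < M0 := by
    have : 0 < t - 1 := by omega
    positivity
  obtain ⟨M, hM⟩ : ∃ M, M = r * r * M0 := ⟨_, rfl⟩
  have hMpos : 0 < M := by rw [hM]; positivity
  have hMe : Even M := ⟨r * r * (K * (δ ^ k * ((t - 1) * N2))), by rw [hM, hM0]; ring⟩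
  -- row sums
  let a0 : (Fin r × Fin r) × ZMod 3 := ((⟨0, hrpos⟩, ⟨0, hrpos⟩), 0)
  set s1 := ∑ b, phi r k a0 b with hs1
  have hcardD : Fintype.card ((Fin r × Fin r) × ZMod 3) = δ := by
    simp [hδ, ZMod.card]
  have hs1le : s1 ≤ δ * (r * r) := by
    rw [hs1, ← hcardD]
    refine (sum_le_card_nsmul _ _ (r * r) fun b _ => phi_le _ _).trans ?_
    rw [smul_eq_mul, card_univ]
  obtain ⟨A, hA⟩ : ∃ A, A = 2 * (r * r) * δ ^ 2 * (t - 1) - (K - 2) * s1 * δ := ⟨_, rfl⟩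
  have harith := arith_choice (K := K) (s1 := s1) (δ := δ) (rr := r * r) (N2 := N2) (t := t)
    (k := k) (by omega) (by omega) hs1le (by omega)
  rw [← hA] at harith
  -- the big field
  obtain ⟨Na, hNa⟩ := exists_rblocks M hMpos k
  obtain ⟨Nb, hNb⟩ := exists_sdata r hrpos M hMpos hMe
  have hG : 0 < Nat.card G := Nat.card_pos
  obtain ⟨q, hq, hqN, hqmod⟩ := Nat.exists_prime_gt_modEq_one (k := 2 * M * Nat.card G)
    (Na + Nb + 2) (by positivity)
  obtain ⟨u', hu'⟩ := (Nat.modEq_iff_dvd' hq.one_lt.le).1 hqmod.symm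
  set m := 2 * Nat.card G * u' with hm
  have hqm : q = M * m + 1 := by
    have h1 : q - 1 = M * m := by rw [hu', hm]; ring
    have := hq.one_lt
    omega
  have hmpos : 0 < m := by
    rcases Nat.eq_zero_or_pos m with h | h
    · rw [h] at hqm; omega
    · exact h
  have hme : Even m := ⟨Nat.card G * u', by rw [hm]; ring⟩
  have hGm : Nat.card G ∣ m := ⟨2 * u', by rw [hm]; ring⟩
  have : Fact q.Prime := ⟨hq⟩
  have hcardF : Fintype.card (ZMod q) = M * m + 1 := by rw [ZMod.card, hqm]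
  have h2ne : (2 : ZMod q) ≠ 0 := by
    intro h
    have h1 : ((2 : ℕ) : ZMod q) = 0 := by exact_mod_cast h
    rw [ZMod.natCast_eq_zero_iff] at h1
    have := Nat.le_of_dvd (by norm_num) h1
    omega
  obtain ⟨S, hSψ⟩ := hNb (ZMod q) m hmpos hme hcardF (by rw [ZMod.card]; omega) h2ne M0 hM.symm
  -- patterns
  have hkt : k ≤ t := by omega
  let κ : Fin k → Fin t := Fin.castLE hkt
  have hκ : Function.Injective κ := Fin.castLE_injective hkt
  let i0 : Fin k := ⟨0, by omega⟩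
  let i1 : Fin k := ⟨1, by omega⟩
  have h01 : i0 ≠ i1 := by
    intro h
    simp [i0, i1, Fin.ext_iff] at h
  have hcardT : Fintype.card (Fin t) = t := Fintype.card_fin t
  have hmu : (mu (ZMod q) M).card = M := card_mu hcardF hMpos hmpos
  have hslots : ∀ w w' : Lab r (Fin t), w ≠ w' →
      (univ.filter (fun x : PatIdx ((Fin r × Fin r) × ZMod 3) (Fin t) k A K (phi r k) ×
        (Fin k × Fin k) => pat i0 i1 κ x.1 x.2.1 = w ∧ pat i0 i1 κ x.1 x.2.2 = w')).card =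
      (lam S (k % 2 = 1) w w').card := by
    intro w w' hw
    rw [card_slots hk phi_symm (fun a => phi_sum a a0) h01 hκ (by rw [hcardT]; omega) w w' hw,
      card_lam S hM.symm hmu hSψ w w', hcardT, hcardD]
    by_cases hww : w.2 = w'.2
    · rw [if_pos hww, if_pos hww, hM0]
      ring
    · rw [if_neg hww, if_neg hww, ← hKdef, ← hN2, ← hs1, hM, hM0, harith]
  obtain ⟨b, hb1, hb2, hb3⟩ := hNa (ZMod q)
    (PatIdx ((Fin r × Fin r) × ZMod 3) (Fin t) k A K (phi r k)) (Lab r (Fin t)) m hmpos hme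
    hcardF (by rw [ZMod.card]; omega) (pat i0 i1 κ) (pat_injective phi_self h01 hκ)
    (lam S (k % 2 = 1)) (lam_symm S _) (lam_self S _)
    (fun w w' z hz => ((mem_lam S _ w w' z).1 hz).1) hslots
  obtain ⟨BF⟩ := exists_baseFam S (k % 2 = 1) hkr (pat i0 i1 κ) (pat_injective phi_self h01 hκ)
    (lam S (k % 2 = 1)) (mem_lam S _) b hb1 hb2 hb3
  have : Fintype G := Fintype.ofFinite G
  have : Nonempty (Lab r (Fin t)) := ⟨(a0, ⟨0, by omega⟩)⟩
  obtain ⟨𝓑, h𝓑1, h𝓑2, h𝓑3⟩ := exists_design_of_baseFam hmpos hcardF hGm BF H hH1 hH2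
  refine transport_fin 𝓑 h𝓑1 h𝓑2 (pointHom G (ZMod q) (Lab r (Fin t))) pointHom_injective
    (fun g B hB => h𝓑3 g B hB) ⟨none, some (0, (a0, ⟨0, by omega⟩)), by simp⟩

end Pool.Agent.Helper621
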