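import Pool.Agent.Helper621.Sys
import Pool.Agent.Helper621.Assign

/-!
# Generic blocks with prescribed classes and Sidon classes at a finer level
-/

namespace Pool.Agent.Helper621

set_option linter.unusedSectionVars false

open Finset

theorem two_pow_sidon_aux {a b c d : ℕ} (hab : a ≤ b) (hcd : c ≤ d)
    (h : 2 ^ a + 2 ^ b = 2 ^ c + 2 ^ d) : a = c ∧ b = d := by
  have key : ∀ {a b c d : ℕ}, a ≤ b → 2 ^ a + 2 ^ b = 2 ^ c + 2 ^ d → ¬ b < d := by
    intro a b c d hab h hbd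
    have h1 : 2 ^ a ≤ 2 ^ b := Nat.pow_le_pow_right (by norm_num) hab
    have h2 : 2 ^ (b + 1) ≤ 2 ^ d := Nat.pow_le_pow_right (by norm_num) hbd
    have h3 : 0 < 2 ^ c := by positivity
    rw [pow_succ] at h2
    omega
  have h1 := key hab h
  have h2 := key hcd h.symm
  have hbd : b = d := by omega
  subst hbd
  refine ⟨Nat.pow_right_injective le_rfl (show 2 ^ a = 2 ^ c by omega), rfl⟩

theorem two_pow_sidon {a b c d : ℕ} (h : 2 ^ a + 2 ^ b = 2 ^ c + 2 ^ d) :
    (a = c ∧ b = d) ∨ (a = d ∧ b = c) := by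
  rcases le_total a b with h1 | h1 <;> rcases le_total c d with h2 | h2
  · exact Or.inl (two_pow_sidon_aux h1 h2 h)
  · exact Or.inr (two_pow_sidon_aux h1 h2 (by rw [h, add_comm]))
  · have := two_pow_sidon_aux h1 h2 (by rw [add_comm, h])
    exact Or.inr ⟨this.2, this.1⟩
  · have := two_pow_sidon_aux h1 h2 (by rw [add_comm, h, add_comm])
    exact Or.inl ⟨this.2, this.1⟩

theorem exists_root {F : Type} [Field F] [Fintype F] {M' N : ℕ}
    (hN : 0 < N) (hF : Fintype.card F = M' * N + 1) :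
    ∃ η : F, η ^ M' = 1 ∧ ∀ x y, x < M' → y < M' → η ^ x = η ^ y → x = y := by
  classical
  obtain ⟨g, hg⟩ := IsCyclic.exists_generator (α := Fˣ)
  have h1 : orderOf g = M' * N := by
    rw [orderOf_eq_card_of_forall_mem_zpowers hg, Nat.card_eq_fintype_card, Fintype.card_units,
      hF]
    omega
  have h2 : orderOf (g ^ N) = M' := by
    rw [orderOf_pow_of_dvd hN.ne' (by rw [h1]; exact Dvd.intro_left _ rfl), h1]
    exact Nat.mul_div_cancel _ hN
  refine ⟨((g ^ N : Fˣ) : F), ?_, ?_⟩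
  · rw [← Units.val_pow_eq_pow_val]
    have := pow_orderOf_eq_one (g ^ N)
    rw [h2] at this
    rw [this, Units.val_one]
  · intro x y hx hy hxy
    rw [← Units.val_pow_eq_pow_val, ← Units.val_pow_eq_pow_val] at hxy
    have h3 := Units.ext hxy
    exact pow_injOn_Iio_orderOf (by rw [h2]; exact hx) (by rw [h2]; exact hy) h3

/-- the fine modulus -/
def fineM (M k cR : ℕ) : ℕ := M * 2 ^ (cR * (k * k) + 2) + 1

theorem exists_rblocks2 (M k p r cR : ℕ) (hM : 0 < M) : ∃ N : ℕ, ∀ (F R W : Type) [Field F]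
    [Fintype F] [DecidableEq F] [Fintype R] [DecidableEq W] (m' : ℕ), 0 < m' → Even m' →
    Fintype.card F = (M * fineM M k cR) * m' + 1 → N < Fintype.card F → Fintype.card R = cR →
    ∀ (P : R → Fin k → W) (_ : ∀ r, Function.Injective (P r)) (Λ : W → W → Finset F)
    (_ : ∀ w w', Λ w w' = Λ w' w) (_ : ∀ w, Λ w w = ∅) (_ : ∀ w w', ∀ z ∈ Λ w w', z ^ M = 1)
    (_ : ∀ w w', w ≠ w' → (univ.filter (fun x : R × (Fin k × Fin k) =>
      P x.1 x.2.1 = w ∧ P x.1 x.2.2 = w')).card = (Λ w w').card)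
    (c : Fin r → F) (vs : R → Fin k → F),
    ∃ b : R → Fin k → F,
      (∀ r i j, i ≠ j → (b r j - b r i) ^ (fineM M k cR * m') ∈ Λ (P r i) (P r j)) ∧
      (∀ r r' i j i' j', i ≠ j → i' ≠ j' → P r i = P r' i' → P r j = P r' j' →
        (b r j - b r i) ^ (fineM M k cR * m') = (b r' j' - b r' i') ^ (fineM M k cR * m') →
          r = r' ∧ i = i' ∧ j = j') ∧
      (∀ w w', ∀ z ∈ Λ w w', ∃ r i j, i ≠ j ∧ P r i = w ∧ P r j = w' ∧
        (b r j - b r i) ^ (fineM M k cR * m') = z) ∧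
      (∀ x x' i j i' j' l n l' n', i ≠ j → i' ≠ j' → l ≠ n → l' ≠ n' →
        (b x' j' - b x' i') ^ (M * m') * (b x n - b x l) ^ (M * m') =
          (b x' n' - b x' l') ^ (M * m') * (b x j - b x i) ^ (M * m') →
        (s(i', j') = s(l', n') ∧ s(i, j) = s(l, n)) ∨
          (x' = x ∧ s(i', j') = s(i, j) ∧ s(l', n') = s(l, n))) ∧
      ∀ τ : Typ p k r R, (∀ h, Ker τ c (fun a => vs a.1 a.2) h → h = 0) →
        ∀ h, Ker τ c (fun a => b a.1 a.2) h → h = 0 := by
  classical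
  set M' := fineM M k cR with hM'
  have hM'pos : 0 < M' := by rw [hM']; unfold fineM; omega
  obtain ⟨N, hN⟩ := exists_shapes (M * M') k p r cR (by positivity)
  refine ⟨N, fun F R W _ _ _ _ _ m' hm hme hF hNF hcR P hP Λ hΛs hΛ0 hΛM hcard c vs => ?_⟩
  let f : Slot R k → Sym2 W := fun s => s(P s.1.1 s.1.2.1, P s.1.1 s.1.2.2)
  let Λ' : Sym2 W → Finset F := Sym2.lift ⟨Λ, hΛs⟩
  have hΛ' : ∀ w w', Λ' s(w, w') = Λ w w' := fun w w' => rfl
  have hfib : ∀ e, (univ.filter (fun s => f s = e)).card = (Λ' e).card := by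
    intro e
    induction e using Sym2.ind with
    | _ w w' =>
      rw [hΛ']
      by_cases hw : w = w'
      · subst hw
        rw [hΛ0, card_empty, card_eq_zero, filter_eq_empty_iff]
        rintro ⟨⟨r, i, j⟩, hij⟩ _ h
        simp only [f, Sym2.eq_iff] at h
        have h2 : P r i = P r j := by
          rcases h with ⟨h1, h2⟩ | ⟨h1, h2⟩ <;> rw [h1, h2]
        exact (ne_of_lt hij) (hP r h2)
      · rw [← hcard w w' hw, ← card_slot_sym P hw]
  obtain ⟨cls, hc1, hc2, hc3⟩ := exists_assign f Λ' hfib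
  have hc1' : ∀ r i j (h : i < j), cls ⟨(r, (i, j)), h⟩ ∈ Λ (P r i) (P r j) := by
    intro r i j h
    exact hc1 ⟨(r, (i, j)), h⟩
  have hclsM : ∀ s : Slot R k, cls s ^ M = 1 := by
    rintro ⟨⟨r, i, j⟩, hij⟩
    exact hΛM _ _ _ (hc1' r i j hij)
  -- the root of unity
  obtain ⟨η, hη1, hη2⟩ := exists_root (F := F) (M' := M') (N := M * m') (by positivity)
    (by rw [hF]; ring)
  -- slot numbers
  set L := cR * (k * k) with hL
  have hcardS : Fintype.card (Slot R k) ≤ L := by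
    refine (Fintype.card_subtype_le _).trans ?_
    rw [Fintype.card_prod, Fintype.card_prod, Fintype.card_fin, hcR]
  let num : Slot R k → ℕ := fun s => (Fintype.equivFin (Slot R k) s : ℕ)
  have hnumL : ∀ s, num s < L := fun s => (Fintype.equivFin (Slot R k) s).2.trans_le hcardS
  have hnuminj : ∀ s s', num s = num s' → s = s' := by
    intro s s' h
    exact (Fintype.equivFin (Slot R k)).injective (Fin.ext h)
  obtain ⟨M1, hM1⟩ : ∃ M1, M = M1 + 1 := ⟨M - 1, by omega⟩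
  set E := 2 ^ (L + 2) with hE
  have hM'E : M' = M * E + 1 := rfl
  let ζ : Slot R k → F := fun s => cls s * (η ^ 2 ^ num s) ^ (M1 * E + 1)
  have hη3 : ∀ s, (η ^ 2 ^ num s) ^ M' = 1 := by
    intro s
    rw [← pow_mul, mul_comm, pow_mul, hη1, one_pow]
  have hζM' : ∀ s, ζ s ^ M' = cls s := by
    intro s
    simp only [ζ]
    rw [mul_pow, ← pow_mul, mul_comm (M1 * E + 1) M', pow_mul (η ^ 2 ^ num s) M', hη3, one_pow,
      mul_one, hM'E, pow_succ, pow_mul, hclsM, one_pow, one_mul]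
  have hζM : ∀ s, ζ s ^ M = η ^ 2 ^ num s := by
    intro s
    simp only [ζ]
    have e1 : (M1 * E + 1) * M = M' * M1 + 1 := by rw [hM'E, hM1]; ring
    rw [mul_pow, hclsM, one_mul, ← pow_mul, e1, pow_succ, pow_mul (η ^ 2 ^ num s) M', hη3,
      one_pow, one_mul]
  have hζ1 : ∀ s, ζ s ^ (M * M') = 1 := by
    intro s
    rw [mul_comm, pow_mul, hζM', hclsM]
  obtain ⟨b, hb, hgen⟩ := hN F R m' hm hF hNF hcR
    (fun x i j => if h : i < j then ζ ⟨(x, (i, j)), h⟩ else 1) (by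
      intro x i j h
      rw [dif_pos h]
      exact hζ1 _) c vs
  have hb' : ∀ x i j (h : i < j), (b x j - b x i) ^ m' = ζ ⟨(x, (i, j)), h⟩ := by
    intro x i j h
    rw [hb x i j h, dif_pos h]
  have hbm : ∀ x i j (h : i < j), (b x j - b x i) ^ (M' * m') = cls ⟨(x, (i, j)), h⟩ := by
    intro x i j h
    rw [mul_comm, pow_mul, hb' x i j h, hζM']
  have hbf : ∀ x i j (h : i < j), (b x j - b x i) ^ (M * m') =
      η ^ 2 ^ num ⟨(x, (i, j)), h⟩ := by
    intro x i j h
    rw [mul_comm, pow_mul, hb' x i j h, hζM]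
  have hmE1 : Even (M' * m') := hme.mul_left _
  have hmE2 : Even (M * m') := hme.mul_left _
  have hswap : ∀ x i j, (b x j - b x i) ^ (M' * m') = (b x i - b x j) ^ (M' * m') := by
    intro x i j
    rw [← neg_sub, hmE1.neg_pow]
  have hswap2 : ∀ x i j, (b x j - b x i) ^ (M * m') = (b x i - b x j) ^ (M * m') := by
    intro x i j
    rw [← neg_sub, hmE2.neg_pow]
  -- slot of an unordered pair
  have hslot : ∀ x i j, i ≠ j → ∃ s : Slot R k, s.1.1 = x ∧ s(s.1.2.1, s.1.2.2) = s(i, j) ∧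
      (b x j - b x i) ^ (M * m') = η ^ 2 ^ num s := by
    intro x i j hij
    rcases lt_or_gt_of_ne hij with h | h
    · exact ⟨⟨(x, (i, j)), h⟩, rfl, rfl, hbf x i j h⟩
    · exact ⟨⟨(x, (j, i)), h⟩, rfl, Sym2.eq_swap, by rw [hswap2]; exact hbf x j i h⟩
  refine ⟨b, ?_, ?_, ?_, ?_, hgen⟩
  · intro r i j hij
    rcases lt_or_gt_of_ne hij with h | h
    · rw [hbm r i j h]; exact hc1' r i j h
    · rw [hswap, hbm r j i h, hΛs]; exact hc1' r j i h
  · have aux : ∀ r r' i j i' j', i < j → i' < j' →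
        s(P r i, P r j) = s(P r' i', P r' j') →
        (b r j - b r i) ^ (M' * m') = (b r' j' - b r' i') ^ (M' * m') →
          r = r' ∧ i = i' ∧ j = j' := by
      intro r r' i j i' j' hij hij' hs hcl
      rw [hbm r i j hij, hbm r' i' j' hij'] at hcl
      have := hc2 _ _ hs hcl
      simpa using this
    intro r r' i j i' j' hij hij' hi hj hcl
    rcases lt_or_gt_of_ne hij with h | h
    · rcases lt_or_gt_of_ne hij' with h' | h'
      · exact aux r r' i j i' j' h h' (by rw [hi, hj]) hcl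
      · exfalso
        obtain ⟨rfl, rfl, rfl⟩ := aux r r' i j j' i' h h' (by rw [hi, hj, Sym2.eq_swap])
          (by rw [hcl, hswap])
        exact hij (hP r hi)
    · rcases lt_or_gt_of_ne hij' with h' | h'
      · exfalso
        obtain ⟨rfl, rfl, rfl⟩ := aux r r' j i i' j' h h' (by rw [hi, hj, Sym2.eq_swap])
          (by rw [hswap, hcl])
        exact hij (hP r hj).symm
      · obtain ⟨h1, h2, h3⟩ := aux r r' j i j' i' h h' (by rw [hi, hj])
          (by rw [hswap, hcl, hswap])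
        exact ⟨h1, h3, h2⟩
  · intro w w' z hz
    obtain ⟨⟨⟨r, i, j⟩, hij⟩, hs, hcl⟩ := hc3 s(w, w') z (by rw [hΛ']; exact hz)
    simp only [f, Sym2.eq_iff] at hs
    have hij' : i < j := hij
    rcases hs with ⟨h1, h2⟩ | ⟨h1, h2⟩
    · exact ⟨r, i, j, ne_of_lt hij', h1, h2, by rw [hbm r i j hij', hcl]⟩
    · exact ⟨r, j, i, ne_of_gt hij', h2, h1, by rw [hswap, hbm r i j hij', hcl]⟩
  · intro x x' i j i' j' l n l' n' h1 h2 h3 h4 heq
    obtain ⟨sA, hA1, hA2, hA3⟩ := hslot x i j h1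
    obtain ⟨sA', hA1', hA2', hA3'⟩ := hslot x' i' j' h2
    obtain ⟨sB, hB1, hB2, hB3⟩ := hslot x l n h3
    obtain ⟨sB', hB1', hB2', hB3'⟩ := hslot x' l' n' h4
    rw [hA3, hA3', hB3, hB3', ← pow_add, ← pow_add] at heq
    have hbound : ∀ s s' : Slot R k, 2 ^ num s + 2 ^ num s' < M' := by
      intro s s'
      have e1 : 2 ^ num s ≤ 2 ^ L := Nat.pow_le_pow_right (by norm_num) (hnumL s).le
      have e2 : 2 ^ num s' ≤ 2 ^ L := Nat.pow_le_pow_right (by norm_num) (hnumL s').le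
      have e3 : E = 2 ^ L * 4 := by rw [hE, pow_add]; norm_num
      have e4 : 1 * E ≤ M * E := Nat.mul_le_mul_right _ hM
      omega
    have h5 := hη2 _ _ (hbound _ _) (hbound _ _) heq
    rcases two_pow_sidon h5 with ⟨h6, h7⟩ | ⟨h6, h7⟩
    · left
      have h8 := hnuminj _ _ h6
      have h9 := hnuminj _ _ h7
      subst h8 h9
      exact ⟨hA2'.symm.trans hB2', hA2.symm.trans hB2⟩
    · right
      have h8 := hnuminj _ _ h6
      have h9 := hnuminj _ _ h7
      subst h8 h9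
      exact ⟨hA1'.symm.trans hA1, hA2'.symm.trans hA2, hB2'.symm.trans hB2⟩

end Pool.Agent.Helper621
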