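import Mathlib

/-!
# Bijections preserving line-closed sets are affine (additive version)
-/

namespace Pool.Agent.Helper621

section Ftag

variable {F V : Type} [Field F] [AddCommGroup V] [Module F V]

/-- closed under taking lines -/
def LineClosed (F : Type) {V : Type} [Field F] [AddCommGroup V] [Module F V] (A : Set V) : Prop :=
  ∀ x ∈ A, ∀ y ∈ A, ∀ t : F, x + t • (y - x) ∈ A

theorem lineClosed_line (x d : V) : LineClosed F {v : V | ∃ t : F, v = x + t • d} := by
  rintro _ ⟨t, rfl⟩ _ ⟨s, rfl⟩ u
  refine ⟨t + u * (s - t), ?_⟩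
  module

theorem lineClosed_plane (x y : V) :
    LineClosed F {v : V | ∃ s t : F, v = s • x + t • y} := by
  rintro _ ⟨s, t, rfl⟩ _ ⟨s', t', rfl⟩ u
  refine ⟨s + u * (s' - s), t + u * (t' - t), ?_⟩
  module

/-- independence of two vectors -/
def Indep2 (F : Type) {V : Type} [Field F] [AddCommGroup V] [Module F V] (x y : V) : Prop :=
  (∀ c : F, y ≠ c • x) ∧ ∀ c : F, x ≠ c • y

theorem indep2_of {x z : V} (hx : x ≠ 0) (hz : ∀ c : F, z ≠ c • x) : Indep2 F x z := by
  refine ⟨hz, fun c hc => ?_⟩
  by_cases h : c = 0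
  · rw [h, zero_smul] at hc
    exact hx hc
  · apply hz c⁻¹
    rw [hc, smul_smul, inv_mul_cancel₀ h, one_smul]

theorem additive_of_lineClosed (h2 : (2 : F) ≠ 0) (f g : V → V) (hgf : ∀ x, g (f x) = x)
    (hfg : ∀ x, f (g x) = x) (hf0 : f 0 = 0)
    (hf : ∀ A : Set V, LineClosed F A → LineClosed F {v | g v ∈ A})
    (hg : ∀ A : Set V, LineClosed F A → LineClosed F {v | f v ∈ A})
    (hdim : ∀ x : V, ∃ z : V, ∀ c : F, z ≠ c • x) (x y : V) : f (x + y) = f x + f y := by
  have hg0 : g 0 = 0 := by
    have := hgf 0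
    rwa [hf0] at this
  -- independent case
  have key : ∀ x y : V, Indep2 F x y → f (x + y) = f x + f y := by
    intro x y hxy
    -- f (x + y) lies in the plane of f x, f y
    obtain ⟨α, β, hαβ⟩ : ∃ α β : F, f (x + y) = α • f x + β • f y := by
      have h := hg _ (lineClosed_plane (F := F) (f x) (f y))
      have hx : x ∈ {v | f v ∈ {v : V | ∃ s t : F, v = s • f x + t • f y}} :=
        ⟨1, 0, by rw [one_smul, zero_smul, add_zero]⟩
      have hy : y ∈ {v | f v ∈ {v : V | ∃ s t : F, v = s • f x + t • f y}} :=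
        ⟨0, 1, by rw [one_smul, zero_smul, zero_add]⟩
      have h0 : (0 : V) ∈ {v | f v ∈ {v : V | ∃ s t : F, v = s • f x + t • f y}} :=
        ⟨0, 0, by rw [hf0, zero_smul, zero_smul, add_zero]⟩
      have hm := h x hx y hy (2⁻¹ : F)
      have hs := h 0 h0 _ hm (2 : F)
      have e : (0 : V) + (2 : F) • (x + (2⁻¹ : F) • (y - x) - 0) = x + y := by
        have h3 : (2 : F) * 2⁻¹ = 1 := mul_inv_cancel₀ h2
        rw [zero_add, sub_zero, smul_add, smul_smul, h3, one_smul, two_smul]
        abel
      rw [e] at hs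
      exact hs
    -- lines through f (x + y)
    have hline : ∀ u d : V, Indep2 F u d → ∀ α β : F, f (u + d) = α • f u + β • f d →
        α = 1 := by
      intro u d hud α β hZ
      by_contra hα
      have hα' : 1 - α ≠ 0 := sub_ne_zero.2 (Ne.symm hα)
      set s : F := (1 - α)⁻¹ with hs
      -- the point on the line through f u and f (u + d)
      have h := hf _ (lineClosed_line (F := F) u d)
      have hu : f u ∈ {v | g v ∈ {v : V | ∃ t : F, v = u + t • d}} :=
        ⟨0, by rw [hgf, zero_smul, add_zero]⟩
      have hZ' : f (u + d) ∈ {v | g v ∈ {v : V | ∃ t : F, v = u + t • d}} :=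
        ⟨1, by rw [hgf, one_smul]⟩
      obtain ⟨t, ht⟩ := h _ hu _ hZ' s
      -- it is a multiple of f d
      have h' := hf _ (lineClosed_line (F := F) (0 : V) d)
      have h0 : (0 : V) ∈ {v | g v ∈ {v : V | ∃ t : F, v = 0 + t • d}} :=
        ⟨0, by rw [hg0, zero_smul, add_zero]⟩
      have hd : f d ∈ {v | g v ∈ {v : V | ∃ t : F, v = 0 + t • d}} :=
        ⟨1, by rw [hgf, one_smul, zero_add]⟩
      obtain ⟨t', ht'⟩ := h' _ h0 _ hd (s * β)
      have heq : f u + s • (f (u + d) - f u) = 0 + (s * β) • (f d - 0) := by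
        have h4 : s * (1 - α) = 1 := inv_mul_cancel₀ hα'
        rw [hZ, sub_zero, zero_add]
        have h5 : f u + s • (α • f u + β • f d - f u) =
            (1 - s * (1 - α)) • f u + (s * β) • f d := by module
        rw [h5, h4, sub_self, zero_smul, zero_add]
      rw [heq, ht', zero_add] at ht
      -- u is a multiple of d
      apply hud.2 (t' - t)
      rw [sub_smul, ht]
      abel
    have hα := hline x y hxy α β hαβ
    have hβ := hline y x ⟨hxy.2, hxy.1⟩ β α (by rw [add_comm y x, hαβ, add_comm])
    rw [hαβ, hα, hβ, one_smul, one_smul]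
  by_cases hx : x = 0
  · rw [hx, hf0, zero_add, zero_add]
  by_cases hy : y = 0
  · rw [hy, hf0, add_zero, add_zero]
  by_cases hc : ∀ c : F, y ≠ c • x
  · exact key x y (indep2_of hx hc)
  · push Not at hc
    obtain ⟨c, hc⟩ := hc
    have hc0 : c ≠ 0 := by
      rintro rfl
      rw [zero_smul] at hc
      exact hy hc
    obtain ⟨z, hz⟩ := hdim x
    have hyz : Indep2 F y z := by
      refine indep2_of hy fun e he => ?_
      apply hz (e * c)
      rw [he, hc, smul_smul]
    have h1 := key y z hyz
    have hxyz : Indep2 F x (y + z) := by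
      refine indep2_of hx fun e he => ?_
      apply hz (e - c)
      rw [sub_smul, ← he, ← hc]
      abel
    have h3 := key x (y + z) hxyz
    by_cases hs : x + y = 0
    · have h4 : x + (y + z) = z := by rw [← add_assoc, hs, zero_add]
      rw [h4, h1] at h3
      rw [hs, hf0]
      have h5 : f z = (f x + f y) + f z := by rw [add_assoc]; exact h3
      have h6 : (f x + f y) = 0 := by
        have := congrArg (fun v => v - f z) h5
        simpa using this.symm
      exact h6.symm
    · have hsz : Indep2 F (x + y) z := by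
        refine indep2_of hs fun e he => ?_
        apply hz (e * (1 + c))
        rw [he, hc]
        module
      have h4 := key (x + y) z hsz
      rw [add_assoc, h3, h1] at h4
      have h5 : (f x + f y) + f z = f (x + y) + f z := by rw [← h4]; abel
      exact (add_right_cancel h5).symm

end Ftag

end Pool.Agent.Helper621
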