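import Pool.Agent.Helper621.Holes
import Pool.Agent.Helper621.Ftag

/-!
# Automorphisms permute the holes and are affine on holes
-/

namespace Pool.Agent.Helper621

set_option linter.unusedSectionVars false

open Finset

section Auto

variable {G Ω F T R : Type} [Group G] [Finite G] [MulAction G Ω] [Fintype Ω] [DecidableEq Ω]
  [Field F] [Fintype F] [DecidableEq F] [DecidableEq T] [Fintype T] {r M m k : ℕ}

theorem holeB_univ_inj [Nonempty (Lab r T)] {v v' : Ω → F}
    (h : holeB v (univ : Finset (Option (Lab r T))) = holeB v' univ) : v = v' := by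
  obtain ⟨w⟩ := (inferInstance : Nonempty (Lab r T))
  have h1 : some (v, w) ∈ holeB v (univ : Finset (Option (Lab r T))) := by
    rw [mem_holeB]; exact ⟨rfl, mem_univ _⟩
  rw [h, mem_holeB] at h1
  exact h1.1

theorem auto_holes [Nonempty (Lab r T)] [Nonempty Ω] (D : RData F T R r M m k)
    (H : (Ω → F) → Set (Finset (Option (Lab r T))))
    (hS1 : ∀ C : Finset (Option ((Ω → F) × Lab r T)),
      Clos (blocks2 (dirSet2 G Ω F m) D.BF.B H) C →
      C.card = Fintype.card (Lab r T) + 1 → ∃ v, C = holeB v univ)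
    (α : Equiv.Perm (Option ((Ω → F) × Lab r T)))
    (hα : ∀ E ∈ blocks2 (dirSet2 G Ω F m) D.BF.B H,
      E.map α.toEmbedding ∈ blocks2 (dirSet2 G Ω F m) D.BF.B H)
    (hα' : ∀ E ∈ blocks2 (dirSet2 G Ω F m) D.BF.B H,
      E.map α.symm.toEmbedding ∈ blocks2 (dirSet2 G Ω F m) D.BF.B H) :
    ∃ a b : (Ω → F) → (Ω → F), (∀ v, b (a v) = v) ∧ (∀ v, a (b v) = v) ∧ α none = none ∧
      (∀ v w, ∃ w', α (some (v, w)) = some (a v, w')) ∧
      (∀ v w, ∃ w', α.symm (some (v, w)) = some (b v, w')) := by
  classical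
  have h1 : ∀ v : Ω → F, ∃ v' : Ω → F,
      (holeB v (univ : Finset (Option (Lab r T)))).map α.toEmbedding = holeB v' univ := by
    intro v
    apply hS1 _ ((clos_hole D H v).map α hα')
    rw [card_map]
    exact card_holeB v
  have h2 : ∀ v : Ω → F, ∃ v' : Ω → F,
      (holeB v (univ : Finset (Option (Lab r T)))).map α.symm.toEmbedding = holeB v' univ := by
    intro v
    apply hS1 _ ((clos_hole D H v).map α.symm (by simpa using hα))
    rw [card_map]
    exact card_holeB v
  choose a ha using h1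
  choose b hb using h2
  have hmm : ∀ s : Finset (Option ((Ω → F) × Lab r T)),
      (s.map α.toEmbedding).map α.symm.toEmbedding = s := by
    intro s
    ext x
    simp
  have hmm' : ∀ s : Finset (Option ((Ω → F) × Lab r T)),
      (s.map α.symm.toEmbedding).map α.toEmbedding = s := by
    intro s
    ext x
    simp
  have hba : ∀ v, b (a v) = v := by
    intro v
    apply holeB_univ_inj (r := r) (T := T)
    rw [← hb, ← ha, hmm]
  have hab : ∀ v, a (b v) = v := by
    intro v
    apply holeB_univ_inj (r := r) (T := T)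
    rw [← ha, ← hb, hmm']
  have hnone : α none = none := by
    have h3 : ∀ v, α none ∈ holeB (a v) (univ : Finset (Option (Lab r T))) := by
      intro v
      rw [← ha]
      exact mem_map_of_mem α.toEmbedding ((none_mem_holeB _ _).2 (mem_univ _))
    rcases hx : α none with _ | ⟨x, w⟩
    · rfl
    · exfalso
      have h4 : ∀ v, a v = x := by
        intro v
        have := h3 v
        rw [hx, mem_holeB] at this
        exact this.1.symm
      have h5 : (0 : Ω → F) = 1 := by rw [← hba 0, ← hba 1, h4, h4]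
      exact zero_ne_one h5
  have hnone' : α.symm none = none := by
    rw [Equiv.symm_apply_eq, hnone]
  refine ⟨a, b, hba, hab, hnone, ?_, ?_⟩
  · intro v w
    have h3 : α (some (v, w)) ∈ holeB (a v) (univ : Finset (Option (Lab r T))) := by
      rw [← ha]
      exact mem_map_of_mem α.toEmbedding ((mem_holeB _ _ _ _).2 ⟨rfl, mem_univ _⟩)
    rcases hx : α (some (v, w)) with _ | ⟨x, w'⟩
    · rw [← hnone] at hx
      exact absurd (α.injective hx) (by simp)
    · rw [hx, mem_holeB] at h3
      exact ⟨w', by rw [h3.1]⟩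
  · intro v w
    have h3 : α.symm (some (v, w)) ∈ holeB (b v) (univ : Finset (Option (Lab r T))) := by
      rw [← hb]
      exact mem_map_of_mem α.symm.toEmbedding ((mem_holeB _ _ _ _).2 ⟨rfl, mem_univ _⟩)
    rcases hx : α.symm (some (v, w)) with _ | ⟨x, w'⟩
    · rw [← hnone'] at hx
      exact absurd (α.symm.injective hx) (by simp)
    · rw [hx, mem_holeB] at h3
      exact ⟨w', by rw [h3.1]⟩

/-- the union of the holes over a set -/
noncomputable def EA (r : ℕ) (T : Type) [DecidableEq T] [Fintype T] (A : Set (Ω → F)) :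
    Finset (Option ((Ω → F) × Lab r T)) :=
  @Finset.filter _ (fun x => ∀ v w, x = some (v, w) → v ∈ A) (Classical.decPred _) univ

theorem mem_EA (A : Set (Ω → F)) (x : Option ((Ω → F) × Lab r T)) :
    x ∈ EA r T A ↔ ∀ v w, x = some (v, w) → v ∈ A := by
  classical
  unfold EA
  simp only [mem_filter, mem_univ, true_and]

theorem mem_EA_some (A : Set (Ω → F)) (v : Ω → F) (w : Lab r T) :
    some (v, w) ∈ EA r T A ↔ v ∈ A := by
  rw [mem_EA]
  constructor
  · intro h; exact h v w rfl
  · intro h v' w' he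
    simp only [Option.some.injEq, Prod.mk.injEq] at he
    rw [← he.1]; exact h

theorem mem_EA_none (A : Set (Ω → F)) : (none : Option ((Ω → F) × Lab r T)) ∈ EA r T A := by
  rw [mem_EA]
  intro v w h
  simp at h

theorem clos_EA (D : RData F T R r M m k) (H : (Ω → F) → Set (Finset (Option (Lab r T))))
    {A : Set (Ω → F)} (hA : LineClosed F A) :
    Clos (blocks2 (dirSet2 G Ω F m) D.BF.B H) (EA r T A) := by
  intro E hE x hx y hy hxy hxC hyC
  rcases hE with ⟨a, u, i, hu, rfl⟩ | ⟨v', H0, _, rfl⟩
  · rcases x with _ | ⟨v1, w1⟩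
    · exact absurd hx (none_notMem_crossB _ _ _ _)
    rcases y with _ | ⟨v2, w2⟩
    · exact absurd hy (none_notMem_crossB _ _ _ _)
    have hv : v1 ≠ v2 := by
      rintro rfl
      exact hxy (by rw [crossB_same D.BF (dirSet2_ne hu) hx hy])
    rw [mem_EA_some] at hxC hyC
    intro z hz
    rcases z with _ | ⟨v3, w3⟩
    · exact mem_EA_none A
    rw [mem_EA_some]
    rw [mem_crossB] at hx hy hz
    obtain ⟨β1, _, rfl⟩ := hx
    obtain ⟨β2, _, rfl⟩ := hy
    obtain ⟨β3, _, rfl⟩ := hz
    have hβ : β2 - β1 ≠ 0 := by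
      intro h
      apply hv
      rw [sub_eq_zero.1 h]
    have h := hA _ hxC _ hyC ((β3 - β1) / (β2 - β1))
    have e : a + β1 • u + ((β3 - β1) / (β2 - β1)) • (a + β2 • u - (a + β1 • u)) =
        a + β3 • u := by
      have e1 : a + β2 • u - (a + β1 • u) = (β2 - β1) • u := by module
      rw [e1, smul_smul, div_mul_cancel₀ _ hβ]
      module
    rw [e] at h
    exact h
  · intro z hz
    rcases z with _ | ⟨v3, w3⟩
    · exact mem_EA_none A
    rw [mem_EA_some]
    rw [mem_holeB] at hz
    rw [hz.1]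
    rcases x with _ | ⟨v1, w1⟩
    · rcases y with _ | ⟨v2, w2⟩
      · exact absurd rfl hxy
      · rw [mem_holeB] at hy
        rw [mem_EA_some, hy.1] at hyC
        exact hyC
    · rw [mem_holeB] at hx
      rw [mem_EA_some, hx.1] at hxC
      exact hxC

/-- closure under a fixed ratio forces everything, over a prime field -/
theorem full_of_ratio (hnat : ∀ x : F, ∃ n : ℕ, (n : F) = x) {θ : F} (h0 : θ ≠ 0) (h1 : θ ≠ 1)
    (L : Set F) (hL0 : (0 : F) ∈ L) (hL1 : (1 : F) ∈ L)
    (hL : ∀ s ∈ L, ∀ s' ∈ L, s + θ * (s' - s) ∈ L) (x : F) : x ∈ L := by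
  classical
  let LF : Finset F := univ.filter (fun x => x ∈ L)
  have hLF : ∀ x, x ∈ LF ↔ x ∈ L := fun x => by simp [LF]
  have himg : LF.image (fun x => θ * x) = LF := by
    apply eq_of_subset_of_card_le
    · intro y hy
      obtain ⟨x, hx, rfl⟩ := mem_image.1 hy
      rw [hLF] at hx ⊢
      have := hL 0 hL0 x hx
      simpa using this
    · rw [card_image_of_injective]
      intro x y hxy
      exact mul_left_cancel₀ h0 hxy
  have hstep : ∀ x, x ∈ L → x + (1 - θ) ∈ L := by
    intro x hx
    have : x ∈ LF.image (fun x => θ * x) := by rw [himg, hLF]; exact hx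
    obtain ⟨x0, hx0, rfl⟩ := mem_image.1 this
    rw [hLF] at hx0
    have := hL 1 hL1 x0 hx0
    have e : 1 + θ * (x0 - 1) = θ * x0 + (1 - θ) := by ring
    rw [e] at this
    exact this
  have hn : ∀ n : ℕ, (n : F) * (1 - θ) ∈ L := by
    intro n
    induction n with
    | zero => simpa using hL0
    | succ n ih =>
      have := hstep _ ih
      have e : (n : F) * (1 - θ) + (1 - θ) = ((n + 1 : ℕ) : F) * (1 - θ) := by push_cast; ring
      rw [e] at this
      exact this
  have hd : (1 - θ) ≠ 0 := sub_ne_zero.2 (Ne.symm h1)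
  obtain ⟨n, hn'⟩ := hnat (x / (1 - θ))
  have := hn n
  rw [hn', div_mul_cancel₀ _ hd] at this
  exact this

theorem lineClosed_of_clos [Nonempty T] (hr : 2 ≤ r) (hnat : ∀ x : F, ∃ n : ℕ, (n : F) = x)
    (D : RData F T R r M m k) (hF : Fintype.card F = M * m + 1)
    (hG : Nat.card G ∣ m) (H : (Ω → F) → Set (Finset (Option (Lab r T))))
    {A : Set (Ω → F)} (hA : Clos (blocks2 (dirSet2 G Ω F m) D.BF.B H) (EA r T A)) :
    LineClosed F A := by
  obtain ⟨t0⟩ := (inferInstance : Nonempty T)
  let i0 : Fin r := ⟨0, by omega⟩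
  let i1 : Fin r := ⟨1, by omega⟩
  have h01 : i0 ≠ i1 := by simp [i0, i1, Fin.ext_iff]
  obtain ⟨n1, n2⟩ := D.S.cc_ne h01
  have hc0 := D.S.c_ne i0
  have h2 := D.S.two_ne
  set θ : F := (1 + D.S.c i1 / D.S.c i0) / 2 with hθ
  have hθ0 : θ ≠ 0 := by
    intro h
    rw [hθ, div_eq_zero_iff] at h
    rcases h with h | h
    · apply n2
      have h3 : D.S.c i0 * (1 + D.S.c i1 / D.S.c i0) = 0 := by rw [h, mul_zero]
      rw [mul_add, mul_one, mul_div_cancel₀ _ hc0] at h3
      rw [add_comm]; exact h3
    · exact h2 h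
  have hθ1 : θ ≠ 1 := by
    intro h
    rw [hθ, div_eq_one_iff_eq h2] at h
    apply n1
    have h3 : D.S.c i1 / D.S.c i0 = 1 := by linear_combination h
    rw [div_eq_one_iff_eq hc0] at h3
    rw [h3, sub_self]
  have key : ∀ y ∈ A, ∀ y' ∈ A, y + θ • (y' - y) ∈ A := by
    intro y hy y' hy'
    by_cases hne : y = y'
    · rw [hne, sub_self, smul_zero, add_zero]; exact hy'
    · set w0 : Lab r T := (((i0, i0), 0), t0) with hw0
      rcases cross_cases (G := G) D hF hG hne w0 w0 with ⟨a, u, c, t, j, z, hu, h3, h4, _⟩ |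
        ⟨a, u, x, hu, h3, h4, ζ, hζ⟩
      · have hsub := cross_sub D H hA hu hne h3 h4 ((mem_EA_some _ _ _).2 hy)
          ((mem_EA_some _ _ _).2 hy')
        obtain ⟨⟨y1, s1, e1⟩, ⟨y2, s2, e2⟩⟩ := mem_S_fst D hne h3 h4 rfl
        have hlab : ∀ y : Fin r, (((i0, i0), (0 : ZMod 3)), t0) = ((slab M (z : F) j y, c), t) →
            y = i0 := by
          intro y hy
          simp only [Prod.mk.injEq] at hy
          have h5 := hy.1.1
          unfold slab at h5
          split_ifs at h5
          · exact (Prod.mk.inj h5).1.symm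
          · exact (Prod.mk.inj h5).2.symm
        have hy1 := hlab y1 (Prod.mk.inj e1).2
        have hy2 := hlab y2 (Prod.mk.inj e2).2
        rw [hy1] at e1
        rw [hy2] at e2
        have f1 : y = (spt D a u c t j z i0 s1).1 := (Prod.mk.inj e1).1
        have f2 : y' = (spt D a u c t j z i0 s2).1 := (Prod.mk.inj e2).1
        have hm := hsub (spt_mem D a u c t j z i1 s2)
        have hm' : (spt D a u c t j z i1 s2).1 ∈ A := (mem_EA_some (r := r) (T := T) _ _ _).1 hm
        have e3 : θ * 2 = 1 + D.S.c i1 / D.S.c i0 := div_mul_cancel₀ _ h2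
        have e4 : θ * 2 * D.S.c i0 = D.S.c i0 + D.S.c i1 := by
          rw [e3, add_mul, one_mul, div_mul_cancel₀ _ hc0]
        have e5 : y + θ • (y' - y) = (spt D a u c t j z i1 s2).1 := by
          rw [f1, f2]
          cases s1 <;> cases s2
          · exact absurd (f1.trans f2.symm) hne
          · simp only [spt, Bool.false_eq_true, if_false, if_true]
            have : a + (-(D.S.ρ z * D.S.c i0)) • u + θ • (a + (D.S.ρ z * D.S.c i0) • u -
                (a + (-(D.S.ρ z * D.S.c i0)) • u)) =
                a + (D.S.ρ z * (θ * 2 * D.S.c i0) - D.S.ρ z * D.S.c i0) • u := by module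
            rw [this, e4]
            congr 2
            ring
          · simp only [spt, Bool.false_eq_true, if_false, if_true]
            have : a + (D.S.ρ z * D.S.c i0) • u + θ • (a + (-(D.S.ρ z * D.S.c i0)) • u -
                (a + (D.S.ρ z * D.S.c i0) • u)) =
                a + (D.S.ρ z * D.S.c i0 - D.S.ρ z * (θ * 2 * D.S.c i0)) • u := by module
            rw [this, e4]
            congr 2
            ring
          · exact absurd (f1.trans f2.symm) hne
        rw [e5]
        exact hm'
      · exact absurd (Lined.scov D ⟨rfl, rfl, Or.inl rfl⟩ ζ) hζ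
  intro x hx x' hx' t
  refine full_of_ratio hnat hθ0 hθ1 {s : F | x + s • (x' - x) ∈ A} ?_ ?_ ?_ t
  · change x + (0 : F) • (x' - x) ∈ A
    rw [zero_smul, add_zero]; exact hx
  · change x + (1 : F) • (x' - x) ∈ A
    rw [one_smul, add_sub_cancel]; exact hx'
  · intro s hs s' hs'
    have := key _ hs _ hs'
    have e : x + s • (x' - x) + θ • (x + s' • (x' - x) - (x + s • (x' - x))) =
        x + (s + θ * (s' - s)) • (x' - x) := by module
    rw [e] at this
    exact this

end Auto

end Pool.Agent.Helper621
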