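import Pool.Agent.Helper621.Auto

/-!
# Automorphisms are affine on holes and preserve labels
-/

namespace Pool.Agent.Helper621

set_option linter.unusedSectionVars false

open Finset

section Auto2

variable {G Ω F T R : Type} [Group G] [Finite G] [MulAction G Ω] [Fintype Ω] [DecidableEq Ω]
  [Field F] [Fintype F] [DecidableEq F] [DecidableEq T] [Fintype T] {r M m k : ℕ}

theorem exists_indep {ω1 ω2 : Ω} (hω : ω1 ≠ ω2) (x : Ω → F) : ∃ z : Ω → F, ∀ c : F, z ≠ c • x := by
  by_cases hx : x ω1 = 0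
  · refine ⟨Pi.single ω1 1, fun c h => ?_⟩
    have := congrFun h ω1
    rw [Pi.single_eq_same, Pi.smul_apply, hx, smul_zero] at this
    exact one_ne_zero this
  · refine ⟨Pi.single ω2 1, fun c h => ?_⟩
    have h1 := congrFun h ω1
    have h2 := congrFun h ω2
    rw [Pi.single_eq_of_ne hω, Pi.smul_apply, smul_eq_mul] at h1
    rw [Pi.single_eq_same, Pi.smul_apply, smul_eq_mul] at h2
    have h3 : c = 0 := (mul_eq_zero.1 h1.symm).resolve_right hx
    rw [h3, zero_mul] at h2
    exact one_ne_zero h2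

theorem auto_affine [Nonempty T] (hr : 2 ≤ r) (hnat : ∀ x : F, ∃ n : ℕ, (n : F) = x)
    {ω1 ω2 : Ω} (hω : ω1 ≠ ω2)
    (D : RData F T R r M m k) (hF : Fintype.card F = M * m + 1)
    (hG : Nat.card G ∣ m) (H : (Ω → F) → Set (Finset (Option (Lab r T))))
    (α : Equiv.Perm (Option ((Ω → F) × Lab r T)))
    (hα : ∀ E ∈ blocks2 (dirSet2 G Ω F m) D.BF.B H,
      E.map α.toEmbedding ∈ blocks2 (dirSet2 G Ω F m) D.BF.B H)
    (hα' : ∀ E ∈ blocks2 (dirSet2 G Ω F m) D.BF.B H,
      E.map α.symm.toEmbedding ∈ blocks2 (dirSet2 G Ω F m) D.BF.B H)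
    {a b : (Ω → F) → (Ω → F)} (hba : ∀ v, b (a v) = v) (hab : ∀ v, a (b v) = v)
    (hnone : α none = none) (ha : ∀ v w, ∃ w', α (some (v, w)) = some (a v, w'))
    (hb : ∀ v w, ∃ w', α.symm (some (v, w)) = some (b v, w')) :
    ∃ f : (Ω → F) → (Ω → F), (∀ v, a v = a 0 + f v) ∧ (∀ x y, f (x + y) = f x + f y) ∧
      ∀ (c : F) x, f (c • x) = c • f x := by
  classical
  obtain ⟨t0⟩ := (inferInstance : Nonempty T)
  let w0 : Lab r T := (((⟨0, by omega⟩, ⟨0, by omega⟩), 0), t0)
  have hnone' : α.symm none = none := by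
    rw [Equiv.symm_apply_eq, hnone]
  have hA : ∀ A : Set (Ω → F), LineClosed F A → LineClosed F {v | b v ∈ A} := by
    intro A hA
    apply lineClosed_of_clos hr hnat D hF hG H
    have h1 : EA r T {v | b v ∈ A} = (EA r T A).map α.toEmbedding := by
      ext x
      rw [mem_map]
      constructor
      · intro hx
        refine ⟨α.symm x, ?_, by simp⟩
        rcases x with _ | ⟨v, w⟩
        · rw [hnone']; exact mem_EA_none A
        · obtain ⟨w', hw'⟩ := hb v w
          rw [hw', mem_EA_some]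
          rw [mem_EA_some] at hx
          exact hx
      · rintro ⟨y, hy, rfl⟩
        rcases y with _ | ⟨v, w⟩
        · simp only [Equiv.coe_toEmbedding]
          rw [hnone]; exact mem_EA_none _
        · obtain ⟨w', hw'⟩ := ha v w
          simp only [Equiv.coe_toEmbedding]
          rw [hw', mem_EA_some]
          rw [mem_EA_some] at hy
          change b (a v) ∈ A
          rw [hba]
          exact hy
    rw [h1]
    exact (clos_EA D H hA).map α hα'
  have hA' : ∀ A : Set (Ω → F), LineClosed F A → LineClosed F {v | a v ∈ A} := by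
    intro A hA
    apply lineClosed_of_clos hr hnat D hF hG H
    have h1 : EA r T {v | a v ∈ A} = (EA r T A).map α.symm.toEmbedding := by
      ext x
      rw [mem_map]
      constructor
      · intro hx
        refine ⟨α x, ?_, by simp⟩
        rcases x with _ | ⟨v, w⟩
        · rw [hnone]; exact mem_EA_none A
        · obtain ⟨w', hw'⟩ := ha v w
          rw [hw', mem_EA_some]
          rw [mem_EA_some] at hx
          exact hx
      · rintro ⟨y, hy, rfl⟩
        rcases y with _ | ⟨v, w⟩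
        · simp only [Equiv.coe_toEmbedding]
          rw [hnone']; exact mem_EA_none _
        · obtain ⟨w', hw'⟩ := hb v w
          simp only [Equiv.coe_toEmbedding]
          rw [hw', mem_EA_some]
          rw [mem_EA_some] at hy
          change a (b v) ∈ A
          rw [hab]
          exact hy
    rw [h1]
    exact (clos_EA D H hA).map α.symm (by simpa using hα)
  have htrans : ∀ (A : Set (Ω → F)) (d : Ω → F), LineClosed F A → LineClosed F {v | v + d ∈ A} := by
    intro A d hA x hx y hy t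
    have := hA _ hx _ hy t
    have e : x + d + t • (y + d - (x + d)) = x + t • (y - x) + d := by module
    rw [e] at this
    exact this
  let f : (Ω → F) → (Ω → F) := fun v => a v - a 0
  let g : (Ω → F) → (Ω → F) := fun v => b (v + a 0)
  have hadd : ∀ x y, f (x + y) = f x + f y := by
    intro x y
    apply additive_of_lineClosed (F := F) D.S.two_ne f g
    · intro x
      simp only [f, g, sub_add_cancel, hba]
    · intro x
      simp only [f, g, hab, add_sub_cancel_right]
    · simp only [f, sub_self]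
    · intro A h
      exact htrans _ (a 0) (hA A h)
    · intro A h
      have h1 := hA' _ (htrans A (-(a 0)) h)
      have e : {v | f v ∈ A} = {v | a v ∈ {v | v + -(a 0) ∈ A}} := by
        ext v
        simp only [f, Set.mem_ofPred_eq, sub_eq_add_neg]
      rw [e]
      exact h1
    · exact exists_indep hω
  refine ⟨f, fun v => by simp only [f]; abel, hadd, ?_⟩
  intro c x
  obtain ⟨n, rfl⟩ := hnat c
  have hf0 : f 0 = 0 := by simp only [f, sub_self]
  induction n with
  | zero => simp only [Nat.cast_zero, zero_smul]; exact hf0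
  | succ n ih =>
    rw [Nat.cast_succ, add_smul, one_smul, hadd, ih, add_smul, one_smul]

theorem label_rigid (hr : 2 ≤ r) (hk : 3 ≤ k)
    (D : RData F T R r M m k)
    (H : (Ω → F) → Set (Finset (Option (Lab r T))))
    (hbinj : ∀ x, Function.Injective (D.b x)) (hocc : ∀ w, ∃ x i, D.P x i = w)
    {N : ℕ} (hNe : Even N)
    (hsid : ∀ x x' i j i' j' l n l' n', i ≠ j → i' ≠ j' → l ≠ n → l' ≠ n' →
        (D.b x' j' - D.b x' i') ^ N * (D.b x n - D.b x l) ^ N =
          (D.b x' n' - D.b x' l') ^ N * (D.b x j - D.b x i) ^ N →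
        (s(i', j') = s(l', n') ∧ s(i, j) = s(l, n)) ∨
          (x' = x ∧ s(i', j') = s(i, j) ∧ s(l', n') = s(l, n)))
    (hex : ∃ u : Ω → F, u ∈ dirSet2 G Ω F m)
    (α : Equiv.Perm (Option ((Ω → F) × Lab r T)))
    (hα : ∀ E ∈ blocks2 (dirSet2 G Ω F m) D.BF.B H,
      E.map α.toEmbedding ∈ blocks2 (dirSet2 G Ω F m) D.BF.B H)
    {a f : (Ω → F) → (Ω → F)} (hainj : Function.Injective a)
    (ha : ∀ v w, ∃ w', α (some (v, w)) = some (a v, w'))
    (haf : ∀ v, a v = a 0 + f v) (hadd : ∀ x y, f (x + y) = f x + f y)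
    (hsmul : ∀ (c : F) x, f (c • x) = c • f x) (v : Ω → F) (w : Lab r T) :
    α (some (v, w)) = some (a v, w) := by
  classical
  obtain ⟨x, i0, rfl⟩ := hocc w
  obtain ⟨u, hu⟩ := hex
  have hu0 : u ≠ 0 := dirSet2_ne hu
  have hfu : f u ≠ 0 := by
    intro h
    apply hu0
    apply hainj
    rw [haf u, h, add_zero]
  set a0 : Ω → F := v - D.b x i0 • u with ha0
  have hE := hα _ (crossB_mem D H (a := a0) (Sum.inr x) hu)
  have hpt : ∀ n, ∃ w', α (some (rpt D a0 u x n)) = some (a (a0 + D.b x n • u), w') := by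
    intro n
    exact ha _ _
  choose w' hw' using hpt
  have hmemE : ∀ n, some (a (a0 + D.b x n • u), w' n) ∈
      (crossB D.BF.B a0 u (Sum.inr x)).map α.toEmbedding := by
    intro n
    rw [← hw' n]
    exact mem_map_of_mem α.toEmbedding (rpt_mem D a0 u x n)
  have hvne : ∀ n l, n ≠ l → a (a0 + D.b x n • u) ≠ a (a0 + D.b x l • u) := by
    intro n l hnl h
    have h1 := add_left_cancel (hainj h)
    have h2 : (D.b x n - D.b x l) • u = 0 := by rw [sub_smul, h1, sub_self]
    rcases smul_eq_zero.1 h2 with h3 | h3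
    · exact hnl (hbinj x (sub_eq_zero.1 h3))
    · exact hu0 h3
  have hi : ∃ n0 n1 : Fin k, n0 ≠ n1 := ⟨⟨0, by omega⟩, ⟨1, by omega⟩, by simp [Fin.ext_iff]⟩
  obtain ⟨n0, n1, hn01⟩ := hi
  -- the image block is a cross block
  rcases hE with ⟨a', u', i', hu', hE'⟩ | ⟨v', H0, _, hE'⟩
  swap
  · exfalso
    have h1 := hmemE n0
    have h2 := hmemE n1
    rw [hE', mem_holeB] at h1 h2
    exact hvne n0 n1 hn01 (h1.1.trans h2.1.symm)
  have hu'0 : u' ≠ 0 := dirSet2_ne hu'
  have hβ : ∀ n, ∃ β, (β, w' n) ∈ D.BF.B i' ∧ a' + β • u' = a 0 + f a0 + D.b x n • f u := by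
    intro n
    have h1 := hmemE n
    rw [hE', mem_crossB] at h1
    obtain ⟨β, hβ1, hβ2⟩ := h1
    refine ⟨β, hβ1, ?_⟩
    rw [hβ2, haf, hadd, hsmul, add_assoc]
  choose β hβ1 hβ2 using hβ
  have hdiff : ∀ n l, (β n - β l) • u' = (D.b x n - D.b x l) • f u := by
    intro n l
    have h1 : (β n - β l) • u' = (a' + β n • u') - (a' + β l • u') := by module
    rw [h1, hβ2, hβ2]
    module
  set c : F := (β n0 - β n1) / (D.b x n0 - D.b x n1) with hc
  have hb01 : D.b x n0 - D.b x n1 ≠ 0 := sub_ne_zero.2 fun h => hn01 (hbinj x h)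
  have hfuc : f u = c • u' := by
    have h1 : (D.b x n0 - D.b x n1) • f u = (D.b x n0 - D.b x n1) • (c • u') := by
      rw [← hdiff, smul_smul, hc, mul_div_cancel₀ _ hb01]
    exact smul_right_injective _ hb01 h1
  have hc0 : c ≠ 0 := by
    intro h
    rw [h, zero_smul] at hfuc
    exact hfu hfuc
  have hβd : ∀ n l, β n - β l = c * (D.b x n - D.b x l) := by
    intro n l
    have h1 := hdiff n l
    rw [hfuc, smul_smul] at h1
    have h2 : (β n - β l - (D.b x n - D.b x l) * c) • u' = 0 := by rw [sub_smul, h1, sub_self]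
    have h3 := (smul_eq_zero.1 h2).resolve_right hu'0
    linear_combination h3
  have hβinj : Function.Injective β := by
    intro n l h
    by_contra hne
    have h1 := hβd n l
    rw [h, sub_self] at h1
    rcases mul_eq_zero.1 h1.symm with h2 | h2
    · exact hc0 h2
    · exact hne (hbinj x (sub_eq_zero.1 h2))
  rcases i' with ⟨⟨c1, t1⟩, ⟨j, z⟩⟩ | x'
  · -- symmetric block: impossible
    exfalso
    have hhit : ∀ γ w, (γ, w) ∈ D.BF.B (Sum.inl ((c1, t1), (j, z))) → ∃ n, β n = γ := by
      intro γ w hγ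
      have h1 : some (a' + γ • u', w) ∈ crossB D.BF.B a' u' (Sum.inl ((c1, t1), (j, z))) := by
        rw [mem_crossB]
        exact ⟨γ, hγ, rfl⟩
      rw [← hE', mem_map] at h1
      obtain ⟨y, hy, hy2⟩ := h1
      rcases y with _ | ⟨v1, w1⟩
      · exact absurd hy (none_notMem_crossB _ _ _ _)
      obtain ⟨n, hn⟩ := mem_R D hy
      refine ⟨n, ?_⟩
      rw [hn] at hy2
      simp only [Equiv.coe_toEmbedding] at hy2
      rw [hw' n] at hy2
      simp only [Option.some.injEq, Prod.mk.injEq] at hy2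
      have h3 := hβ2 n
      rw [add_assoc (a 0), ← hsmul, ← hadd, ← haf, hy2.1] at h3
      have h4 := add_left_cancel h3
      have h5 : (β n - γ) • u' = 0 := by rw [sub_smul, h4, sub_self]
      exact sub_eq_zero.1 ((smul_eq_zero.1 h5).resolve_right hu'0)
    have hmem : ∀ (y : Fin r) (s : Bool), ∃ n, β n =
        (if s = true then D.S.ρ z * D.S.c y else -(D.S.ρ z * D.S.c y)) := by
      intro y s
      apply hhit _ ((slab M (z : F) j y, c1), t1)
      rw [D.hBl]
      left
      refine ⟨y, rfl, ?_⟩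
      split_ifs
      · exact Or.inl rfl
      · exact Or.inr rfl
    let y0 : Fin r := ⟨0, by omega⟩
    let y1 : Fin r := ⟨1, by omega⟩
    have hy01 : y0 ≠ y1 := by simp [y0, y1, Fin.ext_iff]
    obtain ⟨q1, hq1⟩ := hmem y0 true
    obtain ⟨q2, hq2⟩ := hmem y0 false
    obtain ⟨q3, hq3⟩ := hmem y1 true
    obtain ⟨q4, hq4⟩ := hmem y1 false
    simp only [if_true, Bool.false_eq_true, if_false] at hq1 hq2 hq3 hq4
    have hρ := D.S.ρ_ne z.2
    obtain ⟨m1, m2⟩ := D.S.cc_ne hy01
    have hc0' := D.S.c_ne y0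
    have hc1' := D.S.c_ne y1
    have h2ne := D.S.two_ne
    have d12 : q1 ≠ q2 := by
      rintro rfl
      have : 2 * (D.S.ρ z * D.S.c y0) = 0 := by linear_combination hq2 - hq1
      exact mul_ne_zero h2ne (mul_ne_zero hρ hc0') this
    have d13 : q1 ≠ q3 := by
      rintro rfl
      have : D.S.ρ z * (D.S.c y1 - D.S.c y0) = 0 := by linear_combination hq1 - hq3
      exact mul_ne_zero hρ m1 this
    have d24 : q2 ≠ q4 := by
      rintro rfl
      have : D.S.ρ z * (D.S.c y1 - D.S.c y0) = 0 := by linear_combination hq4 - hq2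
      exact mul_ne_zero hρ m1 this
    have d23 : q2 ≠ q3 := by
      rintro rfl
      have : D.S.ρ z * (D.S.c y1 + D.S.c y0) = 0 := by linear_combination hq2 - hq3
      exact mul_ne_zero hρ m2 this
    have hbb : D.b x q1 - D.b x q3 = -(D.b x q2 - D.b x q4) := by
      have h1 := hβd q1 q3
      have h2 := hβd q2 q4
      rw [hq1, hq3] at h1
      rw [hq2, hq4] at h2
      have h3 : c * ((D.b x q1 - D.b x q3) + (D.b x q2 - D.b x q4)) = 0 := by
        linear_combination -h1 - h2
      have h4 := (mul_eq_zero.1 h3).resolve_left hc0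
      linear_combination h4
    have h5 := hsid x x q1 q2 q3 q1 q1 q2 q4 q2 d12 d13.symm d12 d24.symm (by
      rw [hbb, hNe.neg_pow])
    rcases h5 with ⟨h5, _⟩ | ⟨_, h5, _⟩
    · rw [Sym2.eq_iff] at h5
      rcases h5 with ⟨_, h6⟩ | ⟨h6, _⟩
      · exact d12 h6
      · exact d23 h6.symm
    · rw [Sym2.eq_iff] at h5
      rcases h5 with ⟨h6, _⟩ | ⟨h6, _⟩
      · exact d13 h6.symm
      · exact d23 h6.symm
  · -- generic block
    have hσ : ∀ n, ∃ l, D.b x' l = β n ∧ D.P x' l = w' n := fun n => (D.hBr _ _ _).1 (hβ1 n)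
    choose σ hσ1 hσ2 using hσ
    have hσinj : Function.Injective σ := by
      intro n l h
      apply hβinj
      rw [← hσ1, ← hσ1, h]
    have hsd : ∀ n l, D.b x' (σ n) - D.b x' (σ l) = c * (D.b x n - D.b x l) := by
      intro n l
      rw [hσ1, hσ1, hβd]
    have hpairs : ∀ l n l' n', l ≠ n → l' ≠ n' → s(l, n) ≠ s(l', n') →
        x' = x ∧ s(σ l, σ n) = s(l, n) := by
      intro l n l' n' h1 h2 h3
      have h4 := hsid x x' l n (σ l) (σ n) l' n' (σ l') (σ n') h1 (fun h => h1 (hσinj h)) h2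
        (fun h => h2 (hσinj h)) (by
          rw [hsd, hsd, mul_pow, mul_pow]
          ring)
      rcases h4 with ⟨_, h5⟩ | ⟨h5, h6, _⟩
      · exact absurd h5 h3
      · exact ⟨h5, h6⟩
    have hthird : ∀ n : Fin k, ∃ l l', l ≠ n ∧ l' ≠ n ∧ l ≠ l' := by
      intro n
      by_cases h0 : n = ⟨0, by omega⟩
      · exact ⟨⟨1, by omega⟩, ⟨2, by omega⟩, by rw [h0]; simp [Fin.ext_iff],
          by rw [h0]; simp [Fin.ext_iff], by simp [Fin.ext_iff]⟩
      · by_cases h1 : n = ⟨1, by omega⟩
        · exact ⟨⟨0, by omega⟩, ⟨2, by omega⟩, by rw [h1]; simp [Fin.ext_iff],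
            by rw [h1]; simp [Fin.ext_iff], by simp [Fin.ext_iff]⟩
        · exact ⟨⟨0, by omega⟩, ⟨1, by omega⟩, fun h => h0 h.symm, fun h => h1 h.symm,
            by simp [Fin.ext_iff]⟩
    have hfix : ∀ n, x' = x ∧ σ n = n := by
      intro n
      obtain ⟨l, l', h1, h2, h3⟩ := hthird n
      have hne : s(l, n) ≠ s(l', n) := by
        intro h
        rw [Sym2.eq_iff] at h
        rcases h with ⟨h, _⟩ | ⟨h, _⟩
        · exact h3 h
        · exact h1 h
      obtain ⟨e1, e2⟩ := hpairs l n l' n h1 h2 hne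
      obtain ⟨_, e3⟩ := hpairs l' n l n h2 h1 hne.symm
      refine ⟨e1, ?_⟩
      rw [Sym2.eq_iff] at e2 e3
      rcases e2 with ⟨_, e2⟩ | ⟨e2, e2'⟩
      · exact e2
      · rcases e3 with ⟨_, e3⟩ | ⟨e3, e3'⟩
        · exact e3
        · exact absurd (e2'.symm.trans e3') h3
    obtain ⟨hx, hi0⟩ := hfix i0
    subst hx
    have h1 := hw' i0
    have h2 : rpt D a0 u x' i0 = (v, D.P x' i0) := by
      simp only [rpt, ha0, sub_add_cancel]
    rw [h2] at h1
    rw [h1, ← hσ2 i0, hi0]
    have h3 : a0 + D.b x' i0 • u = v := by rw [ha0, sub_add_cancel]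
    rw [h3]

end Auto2

end Pool.Agent.Helper621
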