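import Pool.Agent.Helper621.Squag

set_option autoImplicit false

namespace Pool.Agent.Helper621

open Squag

section Bose

variable {R : Type*} [CommRing R] [DecidableEq R]

/-- the Bose operation -/
def boseOp (c : R) (p q : R × ZMod 3) : R × ZMod 3 :=
  if p.2 = q.2 then (if p.1 = q.1 then p else (c * (p.1 + q.1), p.2 + 1))
  else if q.2 = p.2 + 1 then (if p.1 = q.1 then (p.1, p.2 + 2) else (2 * q.1 - p.1, p.2))
  else (if p.1 = q.1 then (p.1, q.2 + 2) else (2 * p.1 - q.1, q.2))

theorem zmod3_cases (i j : ZMod 3) : j = i ∨ j = i + 1 ∨ i = j + 1 := by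
  revert i j; decide

theorem boseOp_same {c : R} {x y : R} (i : ZMod 3) (h : x ≠ y) :
    boseOp c (x, i) (y, i) = (c * (x + y), i + 1) := by
  simp [boseOp, h]

theorem boseOp_self {c : R} (p : R × ZMod 3) :
    boseOp c p p = p := by
  simp [boseOp]

theorem z3a (i : ZMod 3) : i ≠ i + 1 := by revert i; decide
theorem z3b (i : ZMod 3) : i + 1 ≠ i := by revert i; decide
theorem z3c (i : ZMod 3) : i ≠ i + 1 + 1 := by revert i; decide
theorem z3d (i : ZMod 3) : i + 1 + 1 + 1 = i := by revert i; decide
theorem z3e (i : ZMod 3) : i + 2 = i + 1 + 1 := by revert i; decide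

theorem boseOp_up {c : R} {x y : R} (i : ZMod 3) (h : x ≠ y) :
    boseOp c (x, i) (y, i + 1) = (2 * y - x, i) := by
  simp [boseOp, h]

theorem boseOp_up' {c : R} {x : R} (i : ZMod 3) :
    boseOp c (x, i) (x, i + 1) = (x, i + 1 + 1) := by
  simp [boseOp, z3e]

theorem boseOp_down {c : R} {x y : R} (i : ZMod 3) (h : x ≠ y) :
    boseOp c (x, i + 1) (y, i) = (2 * x - y, i) := by
  simp [boseOp, h, z3c]

theorem boseOp_down' {c : R} {x : R} (i : ZMod 3) :
    boseOp c (x, i + 1) (x, i) = (x, i + 1 + 1) := by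
  simp [boseOp, z3c, z3e]

theorem boseOp_comm {c : R} (p q : R × ZMod 3) : boseOp c p q = boseOp c q p := by
  obtain ⟨x, i⟩ := p
  obtain ⟨y, j⟩ := q
  by_cases hxy : x = y
  · subst hxy
    rcases zmod3_cases i j with rfl | rfl | rfl
    · rfl
    · rw [boseOp_up', boseOp_down']
    · rw [boseOp_up', boseOp_down']
  · rcases zmod3_cases i j with rfl | rfl | rfl
    · rw [boseOp_same _ hxy, boseOp_same _ (Ne.symm hxy), add_comm]
    · rw [boseOp_up _ hxy, boseOp_down _ (Ne.symm hxy)]
    · rw [boseOp_up _ (Ne.symm hxy), boseOp_down _ hxy]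

theorem two_mul_c {c : R} (hc : 2 * c = 1) (x : R) : 2 * (c * x) = x := by
  rw [← mul_assoc, hc, one_mul]

theorem ne_mid {c : R} (hc : 2 * c = 1) {x y : R} (h : x ≠ y) : x ≠ c * (x + y) := by
  intro e
  have := congrArg (fun t => 2 * t) e
  simp only [two_mul_c hc] at this
  apply h
  linear_combination this

theorem ne_refl {c : R} (hc : 2 * c = 1) {x y : R} (h : x ≠ y) : x ≠ 2 * y - x := by
  intro e
  have h2 : 2 * x = 2 * y := by linear_combination e
  have := congrArg (fun t => c * t) h2
  simp only [← mul_assoc, mul_comm c 2, hc, one_mul] at this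
  exact h this

theorem boseOp_inv {c : R} (hc : 2 * c = 1) (p q : R × ZMod 3) :
    boseOp c p (boseOp c p q) = q := by
  obtain ⟨x, i⟩ := p
  obtain ⟨y, j⟩ := q
  by_cases hxy : x = y
  · subst hxy
    rcases zmod3_cases i j with rfl | rfl | rfl
    · rw [boseOp_self, boseOp_self]
    · rw [boseOp_up']
      have := boseOp_down' (c := c) (x := x) (i := i + 1 + 1)
      rw [z3d] at this
      exact this
    · rw [boseOp_down', boseOp_up', z3d]
  · rcases zmod3_cases i j with rfl | rfl | rfl
    · rw [boseOp_same _ hxy, boseOp_up _ (ne_mid hc hxy), two_mul_c hc]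
      congr 1; ring
    · rw [boseOp_up _ hxy, boseOp_same _ (ne_refl hc hxy)]
      congr 1
      linear_combination (y) * hc
    · rw [boseOp_down _ hxy, boseOp_down]
      · congr 1; ring
      · intro e
        apply hxy
        linear_combination -e

/-- Bose's Steiner quasigroup -/
def bose (c : R) (hc : 2 * c = 1) : Squag (R × ZMod 3) where
  op := boseOp c
  idem := boseOp_self
  comm := boseOp_comm
  inv := boseOp_inv hc

end Bose

theorem zmod_half (m : ℕ) : 2 * ((m : ZMod (2 * m + 1)) + 1) = 1 := by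
  have : ((2 * m + 1 : ℕ) : ZMod (2 * m + 1)) = 0 := ZMod.natCast_self _
  push_cast at this
  linear_combination this

/-- a Steiner quasigroup on every finite type of cardinality `3 (2m+1)` -/
theorem exists_squag (L : Type*) [Fintype L] (m : ℕ) (h : Fintype.card L = 3 * (2 * m + 1)) :
    Nonempty (Squag L) := by
  have e : L ≃ ZMod (2 * m + 1) × ZMod 3 := by
    apply Fintype.equivOfCardEq
    rw [Fintype.card_prod, ZMod.card, ZMod.card, h, mul_comm]
  exact ⟨(bose _ (zmod_half m)).transport e⟩

end Pool.Agent.Helper621
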