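import Pool.Agent.Helper621.Concrete

set_option autoImplicit false

namespace Pool.Agent.Helper621

open Classical

variable {G : Type*} [Group G] [Fintype G] {m : ℕ}

theorem card_decomp (z : G) (hz : z * z * z = 1) (ι : G → ℕ) (hι : Function.Injective ι) :
    Nat.card G = Nat.card {d : G // d = 1 ∨ d = z ∨ d = z⁻¹} +
      Nat.card {t : G // t ≠ 1 ∧ t * t = 1} + 2 * Nat.card {e // Pos z ι e} := by
  have hz' : z⁻¹ * z⁻¹ * z⁻¹ = 1 := by
    have := congrArg (fun g => g⁻¹) hz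
    simpa [mul_assoc] using this
  have key : ∀ t : G, t * t = 1 → t ≠ 1 → ∀ u : G, u * u * u = 1 → t ≠ u := by
    intro t h2 h1 u hu e
    apply h1
    rw [← e, h2, one_mul] at hu
    exact hu
  have sq_inv : ∀ d : G, d⁻¹ * d⁻¹ = 1 ↔ d * d = 1 := by
    intro d
    rw [← mul_inv_rev, inv_eq_one]
  simp only [Nat.card_eq_fintype_card, Fintype.card_subtype, Finset.card_filter]
  have e1 : (Finset.univ : Finset G).sum (fun e => if Pos z ι e then 1 else 0) =
      (Finset.univ : Finset G).sum (fun e => if Pos z ι e⁻¹ then 1 else 0) := by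
    exact (Equiv.sum_comp (Equiv.inv G) (fun e => if Pos z ι e then 1 else 0)).symm
  rw [two_mul]
  nth_rewrite 2 [e1]
  rw [← Finset.sum_add_distrib, ← Finset.sum_add_distrib, ← Finset.sum_add_distrib,
    Fintype.card_eq_sum_ones]
  apply Finset.sum_congr rfl
  intro d _
  by_cases h3 : d = 1 ∨ d = z ∨ d = z⁻¹
  · have a1 : ¬ (d ≠ 1 ∧ d * d = 1) := by
      rintro ⟨b1, b2⟩
      rcases h3 with h | h | h
      · exact b1 h
      · exact key d b2 b1 z hz h
      · exact key d b2 b1 z⁻¹ hz' h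
    have a2 : ¬ Pos z ι d := by
      rintro ⟨b1, b2, b3, b4⟩
      rcases h3 with h | h | h
      · apply b1; rw [h, one_mul]
      · exact b2 h
      · exact b3 h
    have a3 : ¬ Pos z ι d⁻¹ := by
      rintro ⟨b1, b2, b3, b4⟩
      rcases h3 with h | h | h
      · apply b1; rw [h]; simp
      · apply b3; rw [h]
      · apply b2; rw [h]; simp
    simp [h3, a1, a2, a3]
  · have h3' := h3
    push Not at h3
    by_cases h2 : d * d = 1
    · have a2 : ¬ Pos z ι d := fun h => h.1 h2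
      have a3 : ¬ Pos z ι d⁻¹ := fun h => h.1 ((sq_inv d).2 h2)
      simp [h3.1, h3.2.1, h3.2.2, h2, a2, a3]
    · have h4 : d ≠ d⁻¹ := fun e => h2 (by nth_rewrite 1 [e]; simp)
      have h5 : ι d ≠ ι d⁻¹ := fun e => h4 (hι e)
      have b1 : d⁻¹ ≠ z := fun e => h3.2.2 (by rw [← e, inv_inv])
      have b2 : d⁻¹ ≠ z⁻¹ := fun e => h3.2.1 (inv_injective e)
      rcases lt_or_gt_of_ne h5 with h | h
      · have a2 : Pos z ι d := ⟨h2, h3.2.1, h3.2.2, h⟩
        have a3 : ¬ Pos z ι d⁻¹ := by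
          rintro ⟨_, _, _, b4⟩
          rw [inv_inv] at b4
          omega
        simp [h3.1, h3.2.1, h3.2.2, h2, a2, a3]
      · have a2 : ¬ Pos z ι d := by
          rintro ⟨_, _, _, b4⟩
          omega
        have a3 : Pos z ι d⁻¹ := ⟨fun e => h2 ((sq_inv d).1 e), b1, b2, by rwa [inv_inv]⟩
        simp [h3.1, h3.2.1, h3.2.2, h2, a2, a3]

theorem card_S3_one : Nat.card {d : G // d = 1 ∨ d = 1 ∨ d = (1 : G)⁻¹} = 1 := by
  rw [Nat.card_eq_one_iff_unique]
  constructor
  · constructor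
    rintro ⟨a, ha⟩ ⟨b, hb⟩
    simp at ha hb
    simp [ha, hb]
  · exact ⟨⟨1, Or.inl rfl⟩⟩

theorem card_S3 (z : G) (hz : z * z * z = 1) (h1 : z ≠ 1) :
    Nat.card {d : G // d = 1 ∨ d = z ∨ d = z⁻¹} = 3 := by
  have h2 : z ≠ z⁻¹ := by
    intro e
    apply h1
    have : z * z = 1 := by nth_rewrite 1 [e]; simp
    rw [this, one_mul] at hz
    exact hz
  rw [Nat.card_eq_fintype_card, Fintype.card_subtype]
  have : (Finset.univ.filter (fun d => d = 1 ∨ d = z ∨ d = z⁻¹)) = {1, z, z⁻¹} := by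
    ext d; simp
  rw [this, Finset.card_eq_three]
  refine ⟨1, z, z⁻¹, h1.symm, ?_, h2, rfl⟩
  intro e
  apply h1
  have := e.symm
  simpa using this

section frame

variable (z : G) (hz : z * z * z = 1) (ι : G → ℕ) (hι : Function.Injective ι)
    (ψ : {e // Pos z ι e} × Bool ↪ {δ : ZMod (2 * m + 1) // δ ≠ 0})

theorem card_nonzero : Nat.card {δ : ZMod (2 * m + 1) // δ ≠ 0} = 2 * m := by
  rw [Nat.card_eq_fintype_card, Fintype.card_subtype_compl, ZMod.card, Fintype.card_subtype_eq]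
  omega

theorem card_notAllowed :
    Nat.card {q : Col m × G // ¬ (mkFrame z hz ι hι ψ).Allowed q.1 q.2} =
      4 * Nat.card {e // Pos z ι e} := by
  have hty : ∀ q, tyC ψ (Sum.inr (ψ q)) = some q.1.1 := by
    intro q; simp [tyC, tau_psi]
  let f : ({e // Pos z ι e} × Bool) × Bool →
      {q : Col m × G // ¬ (mkFrame z hz ι hι ψ).Allowed q.1 q.2} := fun p =>
    ⟨(Sum.inr (ψ p.1), if p.2 = true then 1 else p.1.1.1), by
      intro h
      have := h _ (hty p.1)
      by_cases hp : p.2 = true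
      · simp [hp] at this
      · simp [hp] at this⟩
  have hf : Function.Bijective f := by
    constructor
    · rintro ⟨q, c⟩ ⟨q', c'⟩ h
      simp only [f, Subtype.mk.injEq, Prod.mk.injEq, Sum.inr.injEq] at h
      obtain ⟨h1, h2⟩ := h
      have hq := ψ.injective h1
      subst hq
      have h1 : q.1.1 ≠ 1 := by
        intro e
        apply q.1.2.1
        rw [e, one_mul]
      cases c <;> cases c' <;> simp_all
    · rintro ⟨⟨δ, g⟩, h⟩
      simp only [Frame.Allowed] at h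
      push Not at h
      obtain ⟨e, he, hg⟩ := h
      rcases δ with c | δ
      · simp [mkFrame, tyC] at he
      · simp only [mkFrame, tyC, Option.map_eq_some_iff] at he
        obtain ⟨q, hq, rfl⟩ := he
        have h3 := psi_of_tau ψ hq
        by_cases hg1 : g = 1
        · refine ⟨(q, true), ?_⟩
          simp [f, h3, hg1]
        · refine ⟨(q, false), ?_⟩
          simp [f, h3, hg hg1]
  rw [← Nat.card_congr (Equiv.ofBijective f hf), Nat.card_prod, Nat.card_prod]
  simp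
  ring

theorem card_allowed :
    Nat.card {q : Col m × G // (mkFrame z hz ι hι ψ).Allowed q.1 q.2} +
      4 * Nat.card {e // Pos z ι e} = (4 * m + 1) * Nat.card G := by
  rw [← card_notAllowed z hz ι hι ψ, ← Nat.card_sum,
    Nat.card_congr (Equiv.sumCompl (fun q : Col m × G => (mkFrame z hz ι hι ψ).Allowed q.1 q.2)),
    Nat.card_prod, Nat.card_sum, card_nonzero, Nat.card_zmod]
  ring

theorem card_label :
    Nat.card (mkFrame z hz ι hι ψ).Label + 6 * Nat.card {e // Pos z ι e} +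
      Nat.card {d : G // d = 1 ∨ d = z ∨ d = z⁻¹} = 2 * (2 * m + 1) * Nat.card G := by
  have h1 := card_allowed z hz ι hι ψ
  have h2 := card_decomp z hz ι hι
  have h3 : Nat.card (mkFrame z hz ι hι ψ).Label = Nat.card {t : G // t ≠ 1 ∧ t * t = 1} +
      Nat.card {q : Col m × G // (mkFrame z hz ι hι ψ).Allowed q.1 q.2} := Nat.card_sum
  have h4 : 2 * (2 * m + 1) * Nat.card G = (4 * m + 1) * Nat.card G + Nat.card G := by ring
  rw [h3, h4]
  omega

end frame

theorem exists_m (n M : ℕ) (h3 : ¬ 3 ∣ n) : ∃ m, M ≤ m ∧ m ≤ M + 2 ∧ ((2 * m + 1) * n) % 3 = 2 := by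
  have hn : n % 3 = 1 ∨ n % 3 = 2 := by omega
  have hM : M % 3 = 0 ∨ M % 3 = 1 ∨ M % 3 = 2 := by omega
  have key : ∀ m, ((2 * m + 1) * n) % 3 = (((2 * m + 1) % 3) * (n % 3)) % 3 := by
    intro m; exact Nat.mul_mod _ _ _
  have : ∃ m, M ≤ m ∧ m ≤ M + 2 ∧ (2 * m + 1) % 3 = (2 * n) % 3 := by
    have h : ((2 * M + 1) % 3 = (2 * n) % 3) ∨ ((2 * (M + 1) + 1) % 3 = (2 * n) % 3) ∨
      ((2 * (M + 2) + 1) % 3 = (2 * n) % 3) := by omega
    rcases h with h | h | h
    · exact ⟨M, by omega, by omega, h⟩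
    · exact ⟨M + 1, by omega, by omega, h⟩
    · exact ⟨M + 2, by omega, by omega, h⟩
  obtain ⟨m, h1, h2, h4⟩ := this
  refine ⟨m, h1, h2, ?_⟩
  rw [key, h4]
  rcases hn with hn | hn
  · have : 2 * n % 3 = 2 := by omega
    rw [this, hn]
  · have : 2 * n % 3 = 1 := by omega
    rw [this, hn]

/-- the main existence statement for frames -/
theorem exists_frame (G : Type*) [Group G] [Fintype G] (M : ℕ) (hM : Nat.card G ≤ 2 * M) :
    ∃ m, M ≤ m ∧ m ≤ M + 2 ∧ ∃ (z : G) (hz : z * z * z = 1) (ι : G → ℕ)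
      (hι : Function.Injective ι)
      (ψ : {e // Pos z ι e} × Bool ↪ {δ : ZMod (2 * m + 1) // δ ≠ 0}) (k : ℕ),
      Nat.card (mkFrame z hz ι hι ψ).Label = 3 * (2 * k + 1) := by
  obtain ⟨ι, hι⟩ : ∃ ι : G → ℕ, Function.Injective ι :=
    ⟨fun g => (Fintype.equivFin G g).val, fun a b h => (Fintype.equivFin G).injective (Fin.ext h)⟩
  have hψ : ∀ (z : G) (hz : z * z * z = 1) (m : ℕ), M ≤ m →
      Nonempty ({e // Pos z ι e} × Bool ↪ {δ : ZMod (2 * m + 1) // δ ≠ 0}) := by
    intro z hz m hm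
    apply Function.Embedding.nonempty_of_card_le
    rw [← Nat.card_eq_fintype_card, ← Nat.card_eq_fintype_card, card_nonzero, Nat.card_prod]
    have := card_decomp z hz ι hι
    have h2 : Nat.card Bool = 2 := by simp
    rw [h2]
    omega
  by_cases h3 : 3 ∣ Nat.card G
  · have : Fact (Nat.Prime 3) := ⟨Nat.prime_three⟩
    obtain ⟨z, hz⟩ := exists_prime_orderOf_dvd_card' (G := G) 3 h3
    have hz3 : z * z * z = 1 := by
      have := pow_orderOf_eq_one z
      rw [hz, pow_succ, pow_two] at this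
      exact this
    have hz1 : z ≠ 1 := by
      intro e
      rw [e, orderOf_one] at hz
      omega
    obtain ⟨ψ⟩ := hψ z hz3 M le_rfl
    refine ⟨M, le_rfl, by omega, z, hz3, ι, hι, ψ, ?_⟩
    have h := card_label z hz3 ι hι ψ
    rw [card_S3 z hz3 hz1] at h
    obtain ⟨q, hq⟩ := h3
    have e : 2 * (2 * M + 1) * Nat.card G = 6 * ((2 * M + 1) * q) := by rw [hq]; ring
    rw [e] at h
    refine ⟨(Nat.card (mkFrame z hz3 ι hι ψ).Label / 3 - 1) / 2, ?_⟩
    omega
  · obtain ⟨m, hm1, hm2, hm3⟩ := exists_m (Nat.card G) M h3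
    obtain ⟨ψ⟩ := hψ 1 (by simp) m hm1
    refine ⟨m, hm1, hm2, 1, by simp, ι, hι, ψ, ?_⟩
    have h := card_label 1 (by simp) ι hι ψ
    rw [card_S3_one] at h
    have e : 2 * (2 * m + 1) * Nat.card G = 2 * ((2 * m + 1) * Nat.card G) := by ring
    rw [e] at h
    refine ⟨(Nat.card (mkFrame 1 (by simp) ι hι ψ).Label / 3 - 1) / 2, ?_⟩
    omega

end Pool.Agent.Helper621
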