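import Pool.Agent.Helper621.RDat

/-!
# A closed set containing a generic block: functions compatible with the colours are constant
-/

namespace Pool.Agent.Helper621

set_option linter.unusedSectionVars false

open Finset

section CaseA

variable {G Ω F T R : Type} [Group G] [Finite G] [MulAction G Ω] [Fintype Ω] [DecidableEq Ω]
  [Field F] [Fintype F] [DecidableEq F] [DecidableEq T] [Fintype T] {r M m k : ℕ}

theorem zmod2_ne_cases (a b x : ZMod 2) (h : a ≠ b) : x = a ∨ x = b := by
  revert a b x; decide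

theorem zmod2_add_one_ne (a : ZMod 2) : a + 1 ≠ a := by
  revert a; decide

/-- colour of a label -/
def colW (ε : T → ZMod 2) (w : Lab r T) : ZMod 2 :=
  ε w.2 + if w.1.1.1 = w.1.1.2 then 1 else 0

theorem colW_slab (ε : T → ZMod 2) (M : ℕ) (z : F) (j y : Fin r) (c : ZMod 3) (t : T) :
    colW ε ((slab M z j y, c), t) = ε t + if y = j then 1 else 0 := by
  unfold colW slab
  split_ifs with h1 h2 h3 h4 <;> simp_all

/-- cardinality of the finite part -/
theorem card_fin_part {X : Type} [DecidableEq X] (C : Finset (Option X)) :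
    C.card ≤ (eraseNone C).card + 1 := by
  rw [card_eraseNone_eq_card_erase]
  have := pred_card_le_card_erase (s := C) (a := none)
  omega

/-- if no label repeats then every label occurs -/
theorem all_labels {V W : Type} [DecidableEq V] [DecidableEq W] [Fintype W]
    (C : Finset (Option (V × W)))
    (hC : C.card = Fintype.card W + 1)
    (hno : ∀ v v' w, some (v, w) ∈ C → some (v', w) ∈ C → v = v') (w : W) :
    ∃ v, some (v, w) ∈ C := by
  have h1 := card_fin_part C
  have h2 : ((eraseNone C).image Prod.snd).card = (eraseNone C).card := by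
    apply card_image_of_injOn
    rintro ⟨v, w⟩ h ⟨v', w'⟩ h' he
    simp only at he
    subst he
    rw [mem_coe, mem_eraseNone] at h h'
    rw [hno v v' w h h']
  have h3 : (eraseNone C).image Prod.snd = univ := by
    apply eq_univ_of_card
    apply le_antisymm (card_le_univ _)
    omega
  have h4 : w ∈ (eraseNone C).image Prod.snd := by rw [h3]; exact mem_univ _
  obtain ⟨⟨v, w'⟩, h5, rfl⟩ := mem_image.1 h4
  exact ⟨v, mem_eraseNone.1 h5⟩

theorem caseA (D : RData F T R r M m k) (hF : Fintype.card F = M * m + 1)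
    (hG : Nat.card G ∣ m) (H : (Ω → F) → Set (Finset (Option (Lab r T))))
    {C : Finset (Option ((Ω → F) × Lab r T))}
    (hC : Clos (blocks2 (dirSet2 G Ω F m) D.BF.B H) C)
    (hcard : C.card = Fintype.card (Lab r T) + 1) (hr : 2 ≤ r) (ε : T → ZMod 2)
    (hpat : ∀ x e, ∃ i j, colW ε (D.P x i) = e ∧ colW ε (D.P x j) = e ∧
      (D.P x i).2 ≠ (D.P x j).2)
    {a0 u0 : Ω → F} {x0 : R} (h0 : crossB D.BF.B a0 u0 (Sum.inr x0) ⊆ C)
    (g : (Ω → F) × Lab r T → F)
    (g1 : ∀ v w w', some (v, w) ∈ C → some (v, w') ∈ C → g (v, w) = g (v, w'))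
    (g2 : ∀ a u x, u ∈ dirSet2 G Ω F m → crossB D.BF.B a u (Sum.inr x) ⊆ C → ∀ i j,
      colW ε (D.P x i) = colW ε (D.P x j) → g (rpt D a u x i) = g (rpt D a u x j))
    (g3 : ∀ a u c t j z, u ∈ dirSet2 G Ω F m →
      crossB D.BF.B a u (Sum.inl ((c, t), (j, z))) ⊆ C → ∀ y y',
      g (spt D a u c t j z y true) + g (spt D a u c t j z y false) =
        g (spt D a u c t j z y' true) + g (spt D a u c t j z y' false))
    {P Q : (Ω → F) × Lab r T} (hP : some P ∈ C) (hQ : some Q ∈ C) : g P = g Q := by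
  classical
  -- same colour, different fibres
  have aux : ∀ P Q : (Ω → F) × Lab r T, some P ∈ C → some Q ∈ C → colW ε P.2 = colW ε Q.2 →
      P.2.2 ≠ Q.2.2 → g P = g Q := by
    rintro ⟨v, w⟩ ⟨v', w'⟩ hP hQ hcol hT
    by_cases hv : v = v'
    · subst hv
      exact g1 _ _ _ hP hQ
    · rcases cross_cases (G := G) D hF hG hv w w' with ⟨a, u, c, t, j, z, _, _, _, ζ, hζ⟩ |
        ⟨a, u, x, hu, h1, h2, _⟩
      · exact absurd hζ.1 hT
      · have hsub := cross_sub D H hC hu hv h1 h2 hP hQ
        obtain ⟨i, hi⟩ := mem_R D h1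
        obtain ⟨j, hj⟩ := mem_R D h2
        rw [hi, hj]
        apply g2 a u x hu hsub
        have e1 : w = D.P x i := (Prod.mk.inj hi).2
        have e2 : w' = D.P x j := (Prod.mk.inj hj).2
        rw [← e1, ← e2]
        exact hcol
  -- same colour
  have same : ∀ P Q : (Ω → F) × Lab r T, some P ∈ C → some Q ∈ C → colW ε P.2 = colW ε Q.2 →
      g P = g Q := by
    intro P Q hP hQ hcol
    by_cases hT : P.2.2 = Q.2.2
    · obtain ⟨i, j, hi, hj, hij⟩ := hpat x0 (colW ε P.2)
      have m1 : some (rpt D a0 u0 x0 i) ∈ C := h0 (rpt_mem D a0 u0 x0 i)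
      have m2 : some (rpt D a0 u0 x0 j) ∈ C := h0 (rpt_mem D a0 u0 x0 j)
      by_cases hi2 : (D.P x0 i).2 = P.2.2
      · have hj2 : P.2.2 ≠ (D.P x0 j).2 := fun h => hij (hi2.trans h)
        have e1 := aux P (rpt D a0 u0 x0 j) hP m2 hj.symm hj2
        have e2 := aux (rpt D a0 u0 x0 j) Q m2 hQ (hj.trans hcol) (fun h => hj2 (hT.trans h.symm))
        rw [e1, e2]
      · have e1 := aux P (rpt D a0 u0 x0 i) hP m1 hi.symm (fun h => hi2 h.symm)
        have e2 := aux (rpt D a0 u0 x0 i) Q m1 hQ (hi.trans hcol)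
          (fun h => hi2 (h.trans hT.symm))
        rw [e1, e2]
    · exact aux P Q hP hQ hcol hT
  -- it suffices to join the two colours
  have join : (∃ P Q : (Ω → F) × Lab r T, some P ∈ C ∧ some Q ∈ C ∧
      colW ε P.2 ≠ colW ε Q.2 ∧ g P = g Q) → g P = g Q := by
    rintro ⟨P', Q', hP', hQ', hne, he⟩
    rcases zmod2_ne_cases _ _ (colW ε P.2) hne with h1 | h1 <;>
      rcases zmod2_ne_cases _ _ (colW ε Q.2) hne with h2 | h2
    · exact same P Q hP hQ (h1.trans h2.symm)
    · rw [same P P' hP hP' h1, he, same Q' Q hQ' hQ h2.symm]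
    · rw [same P Q' hP hQ' h1, ← he, same P' Q hP' hQ h2.symm]
    · exact same P Q hP hQ (h1.trans h2.symm)
  apply join
  by_cases hrep : ∃ v v' w, v ≠ v' ∧ some (v, w) ∈ C ∧ some (v', w) ∈ C
  · obtain ⟨v, v', w, hv, h1, h2⟩ := hrep
    rcases cross_cases (G := G) D hF hG hv w w with ⟨a, u, c, t, j, z, hu, h3, h4, _⟩ |
        ⟨a, u, x, hu, h3, h4, ζ, hζ⟩
    · have hsub := cross_sub D H hC hu hv h3 h4 h1 h2
      obtain ⟨y, hy⟩ : ∃ y : Fin r, y ≠ j := by
        by_cases hj : j = ⟨0, by omega⟩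
        · exact ⟨⟨1, by omega⟩, by rw [hj]; simp [Fin.ext_iff]⟩
        · exact ⟨⟨0, by omega⟩, fun h => hj h.symm⟩
      have hm : ∀ y s, some (spt D a u c t j z y s) ∈ C := fun y s =>
        hsub (spt_mem D a u c t j z y s)
      have hcol : ∀ y s, colW ε (spt D a u c t j z y s).2 = ε t + if y = j then 1 else 0 := by
        intro y s
        exact colW_slab ε M _ j y c t
      refine ⟨spt D a u c t j z j true, spt D a u c t j z y true, hm _ _, hm _ _, ?_, ?_⟩
      · rw [hcol, hcol, if_pos rfl, if_neg hy, add_zero]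
        exact zmod2_add_one_ne _
      · have e1 := g3 a u c t j z hu hsub j y
        rw [same _ _ (hm j false) (hm j true) (by rw [hcol, hcol]),
          same _ _ (hm y false) (hm y true) (by rw [hcol, hcol])] at e1
        have e2 : (2 : F) * (g (spt D a u c t j z j true) - g (spt D a u c t j z y true)) = 0 := by
          linear_combination e1
        rcases mul_eq_zero.1 e2 with h5 | h5
        · exact absurd h5 D.S.two_ne
        · exact sub_eq_zero.1 h5
    · exfalso
      exact hζ (Lined.scov D ⟨rfl, rfl, Or.inl rfl⟩ ζ)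
  · push Not at hrep
    have hno : ∀ v v' w, some (v, w) ∈ C → some (v', w) ∈ C → v = v' := by
      intro v v' w h1 h2
      by_contra hne
      exact hrep v v' w hne h1 h2
    obtain ⟨t0⟩ : Nonempty T := ⟨(P.2).2⟩
    set w1 : Lab r T := (((⟨0, by omega⟩, ⟨0, by omega⟩), 0), t0) with hw1
    set w2 : Lab r T := (((⟨1, by omega⟩, ⟨0, by omega⟩), 0), t0) with hw2
    obtain ⟨v1, hv1⟩ := all_labels C hcard hno w1
    obtain ⟨v2, hv2⟩ := all_labels C hcard hno w2
    refine ⟨(v1, w1), (v2, w2), hv1, hv2, ?_, ?_⟩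
    · simp only [colW, hw1, hw2, if_true]
      rw [if_neg (by simp [Fin.ext_iff]), add_zero]
      exact zmod2_add_one_ne _
    · by_cases hv : v1 = v2
      · subst hv
        exact g1 _ _ _ hv1 hv2
      · exfalso
        rcases cross_cases (G := G) D hF hG hv w1 w2 with ⟨a, u, c, t, j, z, hu, h3, h4, _⟩ |
          ⟨a, u, x, hu, h3, h4, ζ, hζ⟩
        · have hsub := cross_sub D H hC hu hv h3 h4 hv1 hv2
          have m1 := hsub (spt_mem D a u c t j z j true)
          have m2 := hsub (spt_mem D a u c t j z j false)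
          exact spt_fst_ne D (dirSet2_ne hu) c t j z j (hno _ _ _ m1 m2)
        · exact hζ (Lined.scov D (w := w1) (w' := w2) ⟨rfl, rfl, Or.inr rfl⟩ ζ)

end CaseA

end Pool.Agent.Helper621
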