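import Pool.Agent.Helper621.CaseA

/-!
# A closed set without generic blocks is small
-/

namespace Pool.Agent.Helper621

set_option linter.unusedSectionVars false

open Finset

section Coord

variable {F : Type} [Field F] [DecidableEq F] {r M : ℕ}

/-- line coordinate -/
def lc (M : ℕ) (z : F) (yy : Fin r × Fin r) : Fin r := if z ^ (M / 2) = 1 then yy.2 else yy.1

/-- other coordinate -/
def oc (M : ℕ) (z : F) (yy : Fin r × Fin r) : Fin r := if z ^ (M / 2) = 1 then yy.1 else yy.2

theorem slab_lc_oc (z : F) (yy : Fin r × Fin r) : slab M z (lc M z yy) (oc M z yy) = yy := by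
  unfold slab lc oc
  split_ifs <;> rfl

theorem exists_fin_ne (hr : 2 ≤ r) (j : Fin r) : ∃ y : Fin r, y ≠ j := by
  by_cases hj : j = ⟨0, by omega⟩
  · exact ⟨⟨1, by omega⟩, by rw [hj]; simp [Fin.ext_iff]⟩
  · exact ⟨⟨0, by omega⟩, fun h => hj h.symm⟩

end Coord

section CaseB

variable {G Ω F T R : Type} [Group G] [Finite G] [MulAction G Ω] [Fintype Ω] [DecidableEq Ω]
  [Field F] [Fintype F] [DecidableEq F] [DecidableEq T] [Fintype T] {r M m k : ℕ}

theorem clos_hole (D : RData F T R r M m k) (H : (Ω → F) → Set (Finset (Option (Lab r T))))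
    (v : Ω → F) : Clos (blocks2 (dirSet2 G Ω F m) D.BF.B H) (holeB v univ) := by
  intro E hE x hx y hy hxy hxC hyC
  rcases hE with ⟨a, u, i, hu, rfl⟩ | ⟨v', H0, _, rfl⟩
  · exfalso
    rcases x with _ | ⟨v1, w1⟩
    · exact none_notMem_crossB _ _ _ _ hx
    rcases y with _ | ⟨v2, w2⟩
    · exact none_notMem_crossB _ _ _ _ hy
    rw [mem_holeB] at hxC hyC
    obtain ⟨rfl, _⟩ := hxC
    obtain ⟨rfl, _⟩ := hyC
    exact hxy (by rw [crossB_same D.BF (dirSet2_ne hu) hx hy])
  · have hv : v' = v := by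
      rcases x with _ | ⟨v1, w1⟩
      · rcases y with _ | ⟨v2, w2⟩
        · exact absurd rfl hxy
        · rw [mem_holeB] at hy hyC
          exact hy.1.symm.trans hyC.1
      · rw [mem_holeB] at hx hxC
        exact hx.1.symm.trans hxC.1
    subst hv
    exact image_subset_image (subset_univ _)

theorem caseB_grid (D : RData F T R r M m k) (hF : Fintype.card F = M * m + 1)
    (hG : Nat.card G ∣ m) (H : (Ω → F) → Set (Finset (Option (Lab r T))))
    (hpair : ∀ x y : Option ((Ω → F) × Lab r T), x ≠ y →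
      ∃! E, E ∈ blocks2 (dirSet2 G Ω F m) D.BF.B H ∧ x ∈ E ∧ y ∈ E)
    {C : Finset (Option ((Ω → F) × Lab r T))}
    (hC : Clos (blocks2 (dirSet2 G Ω F m) D.BF.B H) C) (hr : 2 ≤ r)
    (hnoR : ∀ a u x, u ∈ dirSet2 G Ω F m → ¬ crossB D.BF.B a u (Sum.inr x) ⊆ C)
    {a0 u0 : Ω → F} {c : ZMod 3} {τ : T} {j0 : Fin r} {z0 : {z : F // z ^ M = 1}}
    (hu0 : u0 ∈ dirSet2 G Ω F m)
    (h0 : crossB D.BF.B a0 u0 (Sum.inl ((c, τ), (j0, z0))) ⊆ C)
    (hτ : ∀ v w, some (v, w) ∈ C → w.2 = τ) :
    ((eraseNone C).filter (fun x => x.2.1.2 = c)).card ≤ 2 * r := by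
  classical
  -- relations between points
  have rel : ∀ (v v' : Ω → F) (w w' : Lab r T), v ≠ v' → some (v, w) ∈ C → some (v', w') ∈ C →
      (∃ a u c t j z, u ∈ dirSet2 G Ω F m ∧
      some (v, w) ∈ crossB D.BF.B a u (Sum.inl ((c, t), (j, z))) ∧
      some (v', w') ∈ crossB D.BF.B a u (Sum.inl ((c, t), (j, z))) ∧
      crossB D.BF.B a u (Sum.inl ((c, t), (j, z))) ⊆ C ∧
      ∃ ζ, SCov D.S D.o w w' ζ) := by
    intro v v' w w' hne hv hv'
    rcases cross_cases (G := G) D hF hG hne w w' with ⟨a, u, c, t, j, z, hu, h1, h2, hζ⟩ |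
        ⟨a, u, x, hu, h1, h2, _⟩
    · exact ⟨a, u, c, t, j, z, hu, h1, h2, cross_sub D H hC hu hne h1 h2 hv hv', hζ⟩
    · exact absurd (cross_sub D H hC hu hne h1 h2 hv hv') (hnoR a u x hu)
  -- claim 1
  have claim1 : ∀ v w, some (v, w) ∈ C → w.1.2 = c → lc M (z0 : F) w.1.1 = j0 := by
    intro v w hv hc
    by_contra hlc
    obtain ⟨y, hy⟩ := exists_fin_ne hr (oc M (z0 : F) w.1.1)
    obtain ⟨s, hs⟩ : ∃ s, v ≠ (spt D a0 u0 c τ j0 z0 y s).1 := by
      by_cases h : v = (spt D a0 u0 c τ j0 z0 y true).1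
      · exact ⟨false, fun h' => spt_fst_ne D (dirSet2_ne hu0) c τ j0 z0 y (h.symm.trans h')⟩
      · exact ⟨true, h⟩
    obtain ⟨_, _, _, _, _, _, _, _, _, _, ζ, hζ⟩ := rel v _ w (spt D a0 u0 c τ j0 z0 y s).2 hs hv
      (h0 (spt_mem D a0 u0 c τ j0 z0 y s))
    have hl := (lined_of_scov D hζ hc).2.2
    simp only [spt, slab] at hl
    unfold lc at hlc
    unfold oc at hy
    split_ifs at hl hlc hy with hz
    · rcases hl with h | h
      · exact hy h.symm
      · exact hlc h
    · rcases hl with h | h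
      · exact hlc h
      · exact hy h.symm
  -- blocks through two points with the same label
  have blk : ∀ (i : Fin r) (v0 v1 : Ω → F), v0 ≠ v1 →
      some (v0, (((slab M (z0 : F) j0 i, c), τ) : Lab r T)) ∈ C →
      some (v1, (((slab M (z0 : F) j0 i, c), τ) : Lab r T)) ∈ C →
      ∃ (a u : Ω → F) (z1 : {z : F // z ^ M = 1}), u ∈ dirSet2 G Ω F m ∧
        crossB D.BF.B a u (Sum.inl ((c, τ), (j0, z1))) ⊆ C ∧
        (∀ y, slab M (z1 : F) j0 y = slab M (z0 : F) j0 y) ∧
        ∃ s, v0 = (spt D a u c τ j0 z1 i s).1 ∧ v1 = (spt D a u c τ j0 z1 i (!s)).1 := by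
    intro i v0 v1 hne h1 h2
    obtain ⟨a, u, c1, t1, j1, z1, hu, h3, h4, hsub, _⟩ := rel v0 v1 _ _ hne h1 h2
    obtain ⟨⟨y1, s1, e1⟩, ⟨y2, s2, e2⟩⟩ := mem_S_fst D hne h3 h4 rfl
    have l1 : ((slab M (z0 : F) j0 i, c), τ) = ((slab M (z1 : F) j1 y1, c1), t1) :=
      (Prod.mk.inj e1).2
    have l2 : ((slab M (z0 : F) j0 i, c), τ) = ((slab M (z1 : F) j1 y2, c1), t1) :=
      (Prod.mk.inj e2).2
    simp only [Prod.mk.injEq] at l1 l2
    obtain ⟨⟨l1, rfl⟩, rfl⟩ := l1
    obtain ⟨⟨l2, _⟩, _⟩ := l2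
    have hlcall : ∀ y, lc M (z0 : F) (slab M (z1 : F) j1 y) = j0 := fun y =>
      claim1 _ _ (hsub (spt_mem D a u c τ j1 z1 y true)) rfl
    have hz : ((z1 : F) ^ (M / 2) = 1) ↔ ((z0 : F) ^ (M / 2) = 1) := by
      by_contra hcon
      obtain ⟨y, hy⟩ := exists_fin_ne hr j0
      have h5 := hlcall y
      unfold lc slab at h5
      split_ifs at h5 with ha hb hb
      · exact hcon ⟨fun _ => ha, fun _ => hb⟩
      · exact hy h5
      · exact hy h5
      · exact hcon ⟨fun h => absurd h hb, fun h => absurd h ha⟩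
    have hslab : ∀ j y : Fin r, slab M (z1 : F) j y = slab M (z0 : F) j y := by
      intro j y
      simp only [slab, hz]
    have hj : j1 = j0 := by
      have h5 := hlcall i
      rw [hslab] at h5
      unfold lc slab at h5
      split_ifs at h5
      · exact h5
      · exact h5
    subst hj
    rw [hslab] at l1 l2
    have hy1 : i = y1 := (slab_inj l1).2
    have hy2 : i = y2 := (slab_inj l2).2
    subst hy1 hy2
    have f1 : v0 = (spt D a u c τ j1 z1 i s1).1 := (Prod.mk.inj e1).1
    have f2 : v1 = (spt D a u c τ j1 z1 i s2).1 := (Prod.mk.inj e2).1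
    have hs : s2 = !s1 := by
      cases s1 <;> cases s2
      · exact absurd (f1.trans f2.symm) hne
      · rfl
      · rfl
      · exact absurd (f1.trans f2.symm) hne
    subst hs
    exact ⟨a, u, z1, hu, hsub, fun y => hslab _ y, s1, f1, f2⟩
  set A : Fin r → Finset (Ω → F) := fun i =>
    univ.filter (fun v => some (v, (((slab M (z0 : F) j0 i, c), τ) : Lab r T)) ∈ C) with hA
  -- claim 2
  have claim2 : ∀ i i', i ≠ i' → 2 * (A i).card ≤ (A i').card + 2 := by
    intro i i' hii
    rcases (A i).eq_empty_or_nonempty with h | ⟨v0, hv0⟩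
    · rw [h]; simp
    · have hv0' : some (v0, (((slab M (z0 : F) j0 i, c), τ) : Lab r T)) ∈ C :=
        (mem_filter.1 hv0).2
      have hch : ∀ v1 : Ω → F, ∃ (a u : Ω → F) (z1 : {z : F // z ^ M = 1}),
          v1 ∈ (A i).erase v0 → (u ∈ dirSet2 G Ω F m ∧
          crossB D.BF.B a u (Sum.inl ((c, τ), (j0, z1))) ⊆ C ∧
          (∀ y, slab M (z1 : F) j0 y = slab M (z0 : F) j0 y) ∧
          ∃ s, v0 = (spt D a u c τ j0 z1 i s).1 ∧ v1 = (spt D a u c τ j0 z1 i (!s)).1) := by
        intro v1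
        by_cases hv1 : v1 ∈ (A i).erase v0
        · rw [mem_erase] at hv1
          obtain ⟨a, u, z1, h⟩ := blk i v0 v1 hv1.1.symm hv0' (mem_filter.1 hv1.2).2
          exact ⟨a, u, z1, fun _ => h⟩
        · exact ⟨0, 0, z0, fun h => absurd h hv1⟩
      choose a u z1 hspec using hch
      have hmaps : ∀ x ∈ (A i).erase v0 ×ˢ (univ : Finset Bool),
          (spt D (a x.1) (u x.1) c τ j0 (z1 x.1) i' x.2).1 ∈ A i' := by
        rintro ⟨v1, s⟩ hx
        rw [mem_product] at hx
        obtain ⟨_, hsub, hsl, _⟩ := hspec v1 hx.1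
        simp only [hA, mem_filter, mem_univ, true_and]
        have := hsub (spt_mem D (a v1) (u v1) c τ j0 (z1 v1) i' s)
        rw [← hsl]
        exact this
      have hinj : Set.InjOn (fun x : (Ω → F) × Bool =>
          (spt D (a x.1) (u x.1) c τ j0 (z1 x.1) i' x.2).1)
          ((A i).erase v0 ×ˢ (univ : Finset Bool) : Finset ((Ω → F) × Bool)) := by
        rintro ⟨v1, s⟩ hx ⟨v1', s'⟩ hx' heq
        rw [mem_coe, mem_product] at hx hx'
        simp only at heq hx hx'
        obtain ⟨hu, hsub, hsl, s1, f1, f2⟩ := hspec v1 hx.1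
        obtain ⟨hu', hsub', hsl', s1', f1', f2'⟩ := hspec v1' hx'.1
        set X := (spt D (a v1) (u v1) c τ j0 (z1 v1) i' s).1 with hX
        -- the two blocks
        have m1 : some (v0, (((slab M (z0 : F) j0 i, c), τ) : Lab r T)) ∈
            crossB D.BF.B (a v1) (u v1) (Sum.inl ((c, τ), (j0, z1 v1))) := by
          rw [f1, ← hsl]
          exact spt_mem D _ _ c τ j0 (z1 v1) i s1
        have m2 : some (X, (((slab M (z0 : F) j0 i', c), τ) : Lab r T)) ∈
            crossB D.BF.B (a v1) (u v1) (Sum.inl ((c, τ), (j0, z1 v1))) := by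
          rw [← hsl]
          exact spt_mem D _ _ c τ j0 (z1 v1) i' s
        have m1' : some (v0, (((slab M (z0 : F) j0 i, c), τ) : Lab r T)) ∈
            crossB D.BF.B (a v1') (u v1') (Sum.inl ((c, τ), (j0, z1 v1'))) := by
          rw [f1', ← hsl']
          exact spt_mem D _ _ c τ j0 (z1 v1') i s1'
        have m2' : some (X, (((slab M (z0 : F) j0 i', c), τ) : Lab r T)) ∈
            crossB D.BF.B (a v1') (u v1') (Sum.inl ((c, τ), (j0, z1 v1'))) := by
          rw [heq, ← hsl']
          exact spt_mem D _ _ c τ j0 (z1 v1') i' s'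
        have hne : (some (v0, (((slab M (z0 : F) j0 i, c), τ) : Lab r T))) ≠
            some (X, (((slab M (z0 : F) j0 i', c), τ) : Lab r T)) := by
          intro h
          simp only [Option.some.injEq, Prod.mk.injEq] at h
          exact hii (slab_inj h.2.1.1).2
        have hblk : crossB D.BF.B (a v1) (u v1) (Sum.inl ((c, τ), (j0, z1 v1))) =
            crossB D.BF.B (a v1') (u v1') (Sum.inl ((c, τ), (j0, z1 v1'))) :=
          (hpair _ _ hne).unique ⟨crossB_mem D H _ hu, m1, m2⟩ ⟨crossB_mem D H _ hu', m1', m2'⟩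
        have m3 : some (v1', (((slab M (z0 : F) j0 i, c), τ) : Lab r T)) ∈
            crossB D.BF.B (a v1) (u v1) (Sum.inl ((c, τ), (j0, z1 v1))) := by
          have e3 : (v1', (((slab M (z0 : F) j0 i, c), τ) : Lab r T)) =
              spt D (a v1') (u v1') c τ j0 (z1 v1') i (!s1') :=
            Prod.ext f2' (by simp only [spt]; rw [hsl'])
          rw [hblk, e3]
          exact spt_mem D _ _ c τ j0 (z1 v1') i (!s1')
        have hv0v1' : v0 ≠ v1' := (mem_erase.1 hx'.1).1.symm
        obtain ⟨_, ⟨y, s2, e2⟩⟩ := mem_S_fst D hv0v1' m1 m3 rfl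
        have l2 : ((slab M (z0 : F) j0 i, c), τ) = ((slab M (z1 v1 : F) j0 y, c), τ) :=
          (Prod.mk.inj e2).2
        simp only [Prod.mk.injEq, and_true] at l2
        rw [← hsl] at l2
        have hy : i = y := (slab_inj l2).2
        subst hy
        have f3 : v1' = (spt D (a v1) (u v1) c τ j0 (z1 v1) i s2).1 := (Prod.mk.inj e2).1
        have hs2 : s2 = !s1 := by
          cases s1 <;> cases s2
          · exact absurd (f1.trans f3.symm) hv0v1'
          · rfl
          · rfl
          · exact absurd (f1.trans f3.symm) hv0v1'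
        have hv : v1 = v1' := by rw [f2, f3, hs2]
        subst hv
        have hss : s = s' := by
          have hn := spt_fst_ne D (a := a v1) (dirSet2_ne hu) c τ j0 (z1 v1) i'
          cases s <;> cases s'
          · rfl
          · exact absurd heq.symm hn
          · exact absurd heq hn
          · rfl
        rw [hss]
      have h5 := card_le_card_of_injOn _ hmaps hinj
      rw [card_product, card_erase_of_mem hv0, card_univ, Fintype.card_bool] at h5
      omega
  have hA2 : ∀ i, (A i).card ≤ 2 := by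
    intro i
    obtain ⟨i', hi'⟩ := exists_fin_ne hr i
    have h1 := claim2 i i' hi'.symm
    have h2 := claim2 i' i hi'
    omega
  have hsub : (eraseNone C).filter (fun x => x.2.1.2 = c) ⊆
      (univ : Finset (Fin r)).biUnion (fun i => (A i).image
        (fun v => (v, (((slab M (z0 : F) j0 i, c), τ) : Lab r T)))) := by
    rintro ⟨v, w⟩ hx
    rw [mem_filter, mem_eraseNone] at hx
    obtain ⟨hx1, hx2⟩ := hx
    have h1 := claim1 v w hx1 hx2
    have h2 := hτ v w hx1
    have h3 : w = ((slab M (z0 : F) j0 (oc M (z0 : F) w.1.1), c), τ) := by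
      rw [← h1, slab_lc_oc, ← h2]
      simp only at hx2
      rw [← hx2]
    rw [mem_biUnion]
    refine ⟨oc M (z0 : F) w.1.1, mem_univ _, ?_⟩
    rw [mem_image]
    refine ⟨v, ?_, ?_⟩
    · simp only [hA, mem_filter, mem_univ, true_and]
      rw [← h3]
      exact hx1
    · rw [← h3]
  refine (card_le_card hsub).trans (card_biUnion_le.trans ?_)
  refine (sum_le_card_nsmul _ _ 2 fun i _ => card_image_le.trans (hA2 i)).trans ?_
  rw [smul_eq_mul, card_univ, Fintype.card_fin, mul_comm]

theorem caseB (D : RData F T R r M m k) (hF : Fintype.card F = M * m + 1)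
    (hG : Nat.card G ∣ m) (H : (Ω → F) → Set (Finset (Option (Lab r T))))
    (hcardk : ∀ E ∈ blocks2 (dirSet2 G Ω F m) D.BF.B H, E.card = k)
    (hpair : ∀ x y : Option ((Ω → F) × Lab r T), x ≠ y →
      ∃! E, E ∈ blocks2 (dirSet2 G Ω F m) D.BF.B H ∧ x ∈ E ∧ y ∈ E)
    {C : Finset (Option ((Ω → F) × Lab r T))}
    (hC : Clos (blocks2 (dirSet2 G Ω F m) D.BF.B H) C)
    (hcard : C.card = Fintype.card (Lab r T) + 1) (hr : 2 ≤ r) (hk : 5 ≤ k)
    (hT : 3 ≤ Fintype.card T)
    (hnoR : ∀ a u x, u ∈ dirSet2 G Ω F m → ¬ crossB D.BF.B a u (Sum.inr x) ⊆ C)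
    {v v' : Ω → F} {w w' : Lab r T} (hne : v ≠ v') (hv : some (v, w) ∈ C)
    (hv' : some (v', w') ∈ C) : False := by
  classical
  have relT : ∀ (v v' : Ω → F) (w w' : Lab r T), v ≠ v' → some (v, w) ∈ C →
      some (v', w') ∈ C → w.2 = w'.2 := by
    intro v v' w w' hne hv hv'
    rcases cross_cases (G := G) D hF hG hne w w' with ⟨a, u, c, t, j, z, hu, h1, h2, ζ, hζ⟩ |
        ⟨a, u, x, hu, h1, h2, _⟩
    · exact hζ.1
    · exact absurd (cross_sub D H hC hu hne h1 h2 hv hv') (hnoR a u x hu)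
  have hτ : ∀ v1 w1, some (v1, w1) ∈ C → w1.2 = w.2 := by
    intro v1 w1 h1
    by_cases h : v1 = v
    · have h2 : v1 ≠ v' := by
        rintro rfl
        exact hne h.symm
      rw [relT v1 v' w1 w' h2 h1 hv', relT v v' w w' hne hv hv']
    · exact relT v1 v w1 w h h1 hv
  have hcardW : Fintype.card (Lab r T) = r * r * 3 * Fintype.card T := by
    simp [ZMod.card]
  have hgrid : ∀ c : ZMod 3, 3 * ((eraseNone C).filter (fun x => x.2.1.2 = c)).card <
      Fintype.card (Lab r T) := by
    intro c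
    by_cases hex : ∃ v1 v2 w1 w2, v1 ≠ v2 ∧ some (v1, w1) ∈ C ∧ some (v2, w2) ∈ C ∧
        w1.1.2 = c ∧ w2.1.2 = c
    · obtain ⟨v1, v2, w1, w2, hne12, h1, h2, hc1, hc2⟩ := hex
      rcases cross_cases (G := G) D hF hG hne12 w1 w2 with ⟨a, u, c', t, j, z, hu, h3, h4, _⟩ |
        ⟨a, u, x, hu, h3, h4, _⟩
      · have hsub := cross_sub D H hC hu hne12 h3 h4 h1 h2
        obtain ⟨⟨y1, s1, e1⟩, _⟩ := mem_S_fst D hne12 h3 h4 (hc1.trans hc2.symm)
        have l1 : w1 = ((slab M (z : F) j y1, c'), t) := (Prod.mk.inj e1).2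
        have hcc : c' = c := by rw [← hc1, l1]
        have htt : t = w.2 := by rw [← hτ v1 w1 h1, l1]
        subst hcc htt
        have h5 := caseB_grid D hF hG H hpair hC hr hnoR hu hsub hτ
        rw [hcardW]
        have h6 : r * 2 * 3 * 3 ≤ r * r * 3 * Fintype.card T :=
          Nat.mul_le_mul (Nat.mul_le_mul (Nat.mul_le_mul le_rfl hr) le_rfl) hT
        omega
      · exact absurd (cross_sub D H hC hu hne12 h3 h4 h1 h2) (hnoR a u x hu)
    · push Not at hex
      have hpos : 0 < Fintype.card (Lab r T) := Fintype.card_pos_iff.2 ⟨w⟩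
      rcases ((eraseNone C).filter (fun x => x.2.1.2 = c)).eq_empty_or_nonempty with h |
        ⟨⟨v1, w1⟩, h1⟩
      · rw [h]; simpa using hpos
      · rw [mem_filter, mem_eraseNone] at h1
        -- everything in one hole
        have hle : ((eraseNone C).filter (fun x => x.2.1.2 = c)).card ≤
            (C ∩ holeB v1 univ).card := by
          refine card_le_card_of_injOn some ?_ (Option.some_injective _).injOn
          rintro ⟨v2, w2⟩ h2
          rw [mem_coe, mem_filter, mem_eraseNone] at h2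
          rw [mem_coe, mem_inter]
          refine ⟨h2.1, ?_⟩
          rw [mem_holeB]
          refine ⟨?_, mem_univ _⟩
          by_contra hne2
          exact hex v2 v1 w2 w1 hne2 h2.1 h1.1 h2.2 h1.2
        have hne3 : C ∩ holeB v1 univ ≠ C := by
          intro h3
          have h4 : some (v, w) ∈ C ∩ holeB v1 univ := by rw [h3]; exact hv
          have h5 : some (v', w') ∈ C ∩ holeB v1 univ := by rw [h3]; exact hv'
          rw [mem_inter, mem_holeB] at h4 h5
          exact hne (h4.2.1.trans h5.2.1.symm)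
        have h6 := Clos.bound hcardk hpair hC (hC.inter (clos_hole D H v1)) inter_subset_left
          hne3
        rw [hcard, Nat.add_sub_cancel] at h6
        have hpos2 : 0 < ((eraseNone C).filter (fun x => x.2.1.2 = c)).card :=
          card_pos.2 ⟨(v1, w1), by rw [mem_filter, mem_eraseNone]; exact h1⟩
        have h7 : (C ∩ holeB v1 univ).card * 4 ≤ (C ∩ holeB v1 univ).card * (k - 1) :=
          Nat.mul_le_mul_left _ (by omega)
        omega
  have hsum := card_eq_sum_card_fiberwise (f := fun x : (Ω → F) × Lab r T => x.2.1.2)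
    (s := eraseNone C) (t := (univ : Finset (ZMod 3))) (fun _ _ => mem_univ _)
  have h8 : 3 * (eraseNone C).card < 3 * Fintype.card (Lab r T) := by
    rw [hsum, mul_sum]
    have h9 : (3 : ℕ) * Fintype.card (Lab r T) =
        ∑ _c : ZMod 3, Fintype.card (Lab r T) := by
      rw [sum_const, smul_eq_mul, card_univ, ZMod.card]
    rw [h9]
    exact sum_lt_sum_of_nonempty ⟨0, mem_univ _⟩ (fun c _ => hgrid c)
  have h10 := card_fin_part C
  omega

end CaseB

end Pool.Agent.Helper621
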