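import Pool.Agent.Helper621.Card

set_option autoImplicit false

namespace Pool.Agent.Helper621

open Classical

section levels

variable {m : ℕ}

theorem pC_inl_ne (c : ZMod (2 * m + 1)) (i : Bool) (x : ZMod (2 * m + 1)) (h : x ≠ c) :
    pC (Sum.inl c) (i, x) = (i, 2 * c - x) := by
  simp [pC, h]

theorem pC_inl_eq (c : ZMod (2 * m + 1)) (i : Bool) :
    pC (Sum.inl c) (i, c) = (!i, c) := by
  simp [pC]

theorem half_add_ne {t : ZMod (2 * m + 1)} (u : ZMod (2 * m + 1)) (h : t ≠ 2 * u) :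
    ((m : ZMod (2 * m + 1)) + 1) * t ≠ u := by
  intro e
  apply h
  have := congrArg (fun s => 2 * s) e
  simp only [two_mul_c (zmod_half m)] at this
  exact this

theorem two_inj {x y : ZMod (2 * m + 1)} (h : 2 * x = 2 * y) : x = y := by
  have := congrArg (fun s => ((m : ZMod (2 * m + 1)) + 1) * s) h
  have e : ∀ x : ZMod (2 * m + 1), ((m : ZMod (2 * m + 1)) + 1) * (2 * x) = x := by
    intro x
    linear_combination x * zmod_half m
  rwa [e, e] at this

theorem pi_snd (hm : 2 ≤ m) (π : Lev m → Lev m)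
    (h1 : ∀ c a, π (pC (Sum.inl c) a) = pC (Sum.inl c) (π a)) (i : Bool)
    (x : ZMod (2 * m + 1)) : (π (i, x)).2 = x := by
  by_contra hxy
  obtain ⟨j, y, hjy⟩ : ∃ j y, π (i, x) = (j, y) := ⟨_, _, rfl⟩
  rw [hjy] at hxy
  simp only at hxy
  have hd : y - x ≠ 0 := sub_ne_zero.2 hxy
  set d := y - x with hdd
  have hy : y = x + d := by rw [hdd]; ring
  obtain ⟨t, ht⟩ : ∃ t : ZMod (2 * m + 1), t ∉ ({0, 2 * d, d, -d} : Finset (ZMod (2 * m + 1))) := by
    by_contra hcon
    push Not at hcon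
    have h2 : (Finset.univ : Finset (ZMod (2 * m + 1))) ⊆ {0, 2 * d, d, -d} := fun t _ => hcon t
    have h3 := Finset.card_le_card h2
    have h4 : ({0, 2 * d, d, -d} : Finset (ZMod (2 * m + 1))).card ≤ 4 := Finset.card_le_four
    rw [Finset.card_univ, ZMod.card] at h3
    omega
  simp only [Finset.mem_insert, Finset.mem_singleton, not_or] at ht
  obtain ⟨t1, t2, t3, t4⟩ := ht
  set hf : ZMod (2 * m + 1) := (m : ZMod (2 * m + 1)) + 1 with hhf
  have hh : 2 * hf = 1 := zmod_half m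
  -- first: π (i, y) = (j, x)
  have e1 : π (i, y) = (j, x) := by
    have a1 : x ≠ hf * (x + y) := ne_mid hh (Ne.symm hxy)
    have a2 : y ≠ hf * (x + y) := by
      rw [add_comm x y]; exact ne_mid hh hxy
    have := h1 (hf * (x + y)) (i, x)
    rw [hjy, pC_inl_ne _ _ _ a1, pC_inl_ne _ _ _ a2, two_mul_c hh] at this
    have b1 : x + y - x = y := by ring
    have b2 : x + y - y = x := by ring
    rwa [b1, b2] at this
  -- second
  have e2 : π (i, x + t) = (j, 2 * x + t - y) := by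
    have a1 : x ≠ hf * (2 * x + t) := by
      apply Ne.symm
      apply half_add_ne
      intro e; apply t1; linear_combination e
    have a2 : y ≠ hf * (2 * x + t) := by
      apply Ne.symm
      apply half_add_ne
      intro e; apply t2; rw [hdd]; linear_combination e
    have := h1 (hf * (2 * x + t)) (i, x)
    rw [hjy, pC_inl_ne _ _ _ a1, pC_inl_ne _ _ _ a2, two_mul_c hh] at this
    have b1 : 2 * x + t - x = x + t := by ring
    rwa [b1] at this
  have e3 : π (i, x + t) = (j, y + t) := by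
    have a1 : y ≠ hf * (y + x + t) := by
      apply Ne.symm
      apply half_add_ne
      intro e; apply t3; rw [hdd]; linear_combination e
    have a2 : x ≠ hf * (y + x + t) := by
      apply Ne.symm
      apply half_add_ne
      intro e; apply t4; rw [hdd]; linear_combination e
    have := h1 (hf * (y + x + t)) (i, y)
    rw [e1, pC_inl_ne _ _ _ a1, pC_inl_ne _ _ _ a2, two_mul_c hh] at this
    have b1 : y + x + t - y = x + t := by ring
    have b2 : y + x + t - x = y + t := by ring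
    rwa [b1, b2] at this
  rw [e2] at e3
  simp only [Prod.mk.injEq, true_and] at e3
  apply hxy
  apply two_inj
  linear_combination -e3

theorem pi_id (hm : 2 ≤ m) (π : Lev m → Lev m)
    (h1 : ∀ c a, π (pC (Sum.inl c) a) = pC (Sum.inl c) (π a))
    (δ : {δ : ZMod (2 * m + 1) // δ ≠ 0})
    (h2 : ∀ a, π (pC (Sum.inr δ) a) = pC (Sum.inr δ) (π a)) (a : Lev m) : π a = a := by
  have hs : ∀ i x, (π (i, x)).2 = x := pi_snd hm π h1
  have hp : ∀ i x, π (i, x) = ((π (i, x)).1, x) := fun i x => Prod.ext rfl (hs i x)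
  have h3 : ∀ i x z, (π (i, z)).1 = (π (i, x)).1 := by
    intro i x z
    by_cases hxz : x = z
    · rw [hxz]
    · have a1 : x ≠ ((m : ZMod (2 * m + 1)) + 1) * (x + z) := ne_mid (zmod_half m) hxz
      have := h1 (((m : ZMod (2 * m + 1)) + 1) * (x + z)) (i, x)
      rw [pC_inl_ne _ _ _ a1, hp i x, pC_inl_ne _ _ _ a1, two_mul_c (zmod_half m)] at this
      have b1 : x + z - x = z := by ring
      rw [b1] at this
      rw [this]
  have h4 : ∀ i x, (π (!i, x)).1 = !(π (i, x)).1 := by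
    intro i x
    have := h1 x (i, x)
    rw [pC_inl_eq, hp i x, pC_inl_eq] at this
    rw [this]
  have h5 : (π (false, 0)).1 = false := by
    by_contra hcon
    have hcon : (π (false, 0)).1 = true := by simpa using hcon
    have h6 := h2 (false, 0)
    rw [hp false 0, hcon] at h6
    simp only [pC, if_true, Bool.false_eq_true, if_false, zero_add, zero_sub] at h6
    have h7 := hs true δ.1
    rw [h6] at h7
    simp only at h7
    apply δ.2
    apply two_inj
    linear_combination -h7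
  have h6 : ∀ i x, (π (i, x)).1 = i := by
    intro i x
    cases i
    · rw [h3 false 0 x, h5]
    · have := h4 false x
      simp only [Bool.not_false] at this
      rw [this, h3 false 0 x, h5]
      rfl
  obtain ⟨i, x⟩ := a
  rw [hp i x, h6 i x]

end levels

section cent

variable {G : Type*} [Group G] {m : ℕ} (z : G) (hz : z * z * z = 1) (ι : G → ℕ)
    (hι : Function.Injective ι)
    (ψ : {e // Pos z ι e} × Bool ↪ {δ : ZMod (2 * m + 1) // δ ≠ 0})

/-- inner label -/
noncomputable def ilab (c : ZMod (2 * m + 1)) (g : G) : (mkFrame z hz ι hι ψ).Label :=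
  Sum.inr ⟨(Sum.inl c, g), by
    intro e he
    simp [mkFrame, tyC] at he⟩

/-- free cross label -/
noncomputable def clab (δ : {δ : ZMod (2 * m + 1) // δ ≠ 0}) (hδ : tau ψ δ = none) (g : G) :
    (mkFrame z hz ι hι ψ).Label :=
  Sum.inr ⟨(Sum.inr δ, g), by
    intro e he
    simp [mkFrame, tyC, hδ] at he⟩

theorem act_ilab_one (c : ZMod (2 * m + 1)) (x : G) (a : Lev m) :
    (mkFrame z hz ι hι ψ).act (ilab z hz ι hι ψ c 1) (x, a) = (x, pC (Sum.inl c) a) := by
  simp [Frame.act, ilab, mkFrame]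

theorem act_clab_one (δ : {δ : ZMod (2 * m + 1) // δ ≠ 0}) (hδ : tau ψ δ = none) (x : G)
    (a : Lev m) :
    (mkFrame z hz ι hι ψ).act (clab z hz ι hι ψ δ hδ 1) (x, a) = (x, pC (Sum.inr δ) a) := by
  simp [Frame.act, clab, mkFrame]

theorem act_ilab (c : ZMod (2 * m + 1)) (g x : G) (a : Lev m) :
    (mkFrame z hz ι hι ψ).act (ilab z hz ι hι ψ c g)
      ((mkFrame z hz ι hι ψ).act (ilab z hz ι hι ψ c 1) (x, a)) =
      (if (mkFrame z hz ι hι ψ).src a ((mkFrame z hz ι hι ψ).p (Sum.inl c) a) = true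
        then x * g⁻¹ else x * g, a) := by
  have h : (mkFrame z hz ι hι ψ).act (ilab z hz ι hι ψ c 1) (x, a) =
    (x, (mkFrame z hz ι hι ψ).p (Sum.inl c) a) := act_ilab_one z hz ι hι ψ c x a
  rw [h]
  simp only [Frame.act, ilab, Frame.p_p, Frame.src_p]
  cases (mkFrame z hz ι hι ψ).src a ((mkFrame z hz ι hι ψ).p (Sum.inl c) a) <;> simp

theorem centralizer (hm : 2 ≤ m) (hψ : ∃ δ, tau ψ δ = none)
    (s : G × Lev m → G × Lev m)
    (hs : ∀ ℓ w, s ((mkFrame z hz ι hι ψ).act ℓ w) = (mkFrame z hz ι hι ψ).act ℓ (s w)) :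
    ∃ y, ∀ w, s w = Frame.lm y w := by
  -- step A
  have hA0 : ∀ (x k : G) (a : Lev m),
      ∃ g : G, (if (mkFrame z hz ι hι ψ).src a ((mkFrame z hz ι hι ψ).p (Sum.inl 0) a) = true then x * g⁻¹ else x * g) = x * k ∧
        (∀ y : G, ∀ b, (mkFrame z hz ι hι ψ).src b ((mkFrame z hz ι hι ψ).p (Sum.inl 0) b) = (mkFrame z hz ι hι ψ).src a ((mkFrame z hz ι hι ψ).p (Sum.inl 0) a) →
          (if (mkFrame z hz ι hι ψ).src b ((mkFrame z hz ι hι ψ).p (Sum.inl 0) b) = true then y * g⁻¹ else y * g) = y * k) := by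
    intro x k a
    by_cases h : (mkFrame z hz ι hι ψ).src a ((mkFrame z hz ι hι ψ).p (Sum.inl 0) a) = true
    · refine ⟨k⁻¹, ?_, ?_⟩
      · rw [if_pos h, inv_inv]
      · intro y b hb
        rw [hb, if_pos h, inv_inv]
    · refine ⟨k, ?_, ?_⟩
      · rw [if_neg h]
      · intro y b hb
        rw [hb, if_neg h]
  have hA : ∀ (x : G) (a : Lev m), (s (x, a)).2 = (s (1, a)).2 := by
    intro x a
    obtain ⟨g, hg, _⟩ := hA0 1 x a
    have h1 := act_ilab z hz ι hι ψ 0 g 1 a
    rw [hg, one_mul] at h1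
    rw [← h1, hs, hs]
    obtain ⟨⟨y, b⟩, hyb⟩ : ∃ w, s (1, a) = w := ⟨_, rfl⟩
    rw [hyb, act_ilab z hz ι hι ψ 0 g y b]
  -- level map
  let π : Lev m → Lev m := fun a => (s (1, a)).2
  have hB : ∀ c a, π (pC (Sum.inl c) a) = pC (Sum.inl c) (π a) := by
    intro c a
    have h1 := act_ilab_one z hz ι hι ψ c 1 a
    have h2 := hs (ilab z hz ι hι ψ c 1) (1, a)
    rw [h1] at h2
    obtain ⟨⟨y, b⟩, hyb⟩ : ∃ w, s (1, a) = w := ⟨_, rfl⟩
    rw [hyb, act_ilab_one z hz ι hι ψ c y b] at h2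
    simp only [π, h2, hyb]
  obtain ⟨δ, hδ⟩ := hψ
  have hC : ∀ a, π (pC (Sum.inr δ) a) = pC (Sum.inr δ) (π a) := by
    intro a
    have h1 := act_clab_one z hz ι hι ψ δ hδ 1 a
    have h2 := hs (clab z hz ι hι ψ δ hδ 1) (1, a)
    rw [h1] at h2
    obtain ⟨⟨y, b⟩, hyb⟩ : ∃ w, s (1, a) = w := ⟨_, rfl⟩
    rw [hyb, act_clab_one z hz ι hι ψ δ hδ y b] at h2
    simp only [π, h2, hyb]
  have hπ : ∀ a, π a = a := pi_id hm π hB δ hC
  have hlev : ∀ x a, s (x, a) = ((s (x, a)).1, a) := by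
    intro x a
    refine Prod.ext rfl ?_
    simp only
    rw [hA x a]
    exact hπ a
  -- step E
  have hE : ∀ x a, (s (x, a)).1 = (s (1, a)).1 * x := by
    intro x a
    obtain ⟨g, hg, hg'⟩ := hA0 1 x a
    have h1 := act_ilab z hz ι hι ψ 0 g 1 a
    rw [hg, one_mul] at h1
    have h2 : s (x, a) = s ((mkFrame z hz ι hι ψ).act (ilab z hz ι hι ψ 0 g) ((mkFrame z hz ι hι ψ).act (ilab z hz ι hι ψ 0 1) (1, a))) := by
      rw [h1]
    rw [hs, hs, hlev 1 a, act_ilab z hz ι hι ψ 0 g _ a] at h2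
    rw [h2]
    exact hg' _ a rfl
  have hF : ∀ c a, (s (1, pC (Sum.inl c) a)).1 = (s (1, a)).1 := by
    intro c a
    have h1 := act_ilab_one z hz ι hι ψ c 1 a
    have h2 := hs (ilab z hz ι hι ψ c 1) (1, a)
    rw [h1] at h2
    obtain ⟨⟨y, b⟩, hyb⟩ : ∃ w, s (1, a) = w := ⟨_, rfl⟩
    rw [hyb, act_ilab_one z hz ι hι ψ c y b] at h2
    rw [h2, hyb]
  refine ⟨(s (1, (false, 0))).1, ?_⟩
  have hG : ∀ a : Lev m, (s (1, a)).1 = (s (1, (false, 0))).1 := by
    have h0 : ∀ x, (s (1, (false, x))).1 = (s (1, (false, 0))).1 := by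
      intro x
      by_cases hx : x = 0
      · rw [hx]
      · have a1 : (0 : ZMod (2 * m + 1)) ≠ ((m : ZMod (2 * m + 1)) + 1) * (0 + x) :=
          ne_mid (zmod_half m) (Ne.symm hx)
        have := hF (((m : ZMod (2 * m + 1)) + 1) * (0 + x)) (false, 0)
        rw [pC_inl_ne _ _ _ a1, two_mul_c (zmod_half m)] at this
        simpa using this
    rintro ⟨i, x⟩
    cases i
    · exact h0 x
    · have := hF x (false, x)
      rw [pC_inl_eq] at this
      simp only [Bool.not_false] at this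
      rw [this, h0]
  rintro ⟨x, a⟩
  rw [hlev x a, hE x a, hG a]
  rfl

end cent

end Pool.Agent.Helper621
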