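import Pool.Agent.Helper621.Bose

set_option autoImplicit false

namespace Pool.Agent.Helper621

open Finset

/-- closed subsets of a Steiner quasigroup -/
def Squag.Closed {V : Type*} (S : Squag V) (A : Finset V) : Prop :=
  ∀ x ∈ A, ∀ y ∈ A, S.op x y ∈ A

section

variable {R : Type*} [CommRing R] [Fintype R] [DecidableEq R]

/-- a section of a subset -/
def sec (A : Finset (R × ZMod 3)) (i : ZMod 3) : Finset R := univ.filter (fun x => (x, i) ∈ A)

theorem mem_sec {A : Finset (R × ZMod 3)} {i : ZMod 3} {x : R} : x ∈ sec A i ↔ (x, i) ∈ A := by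
  simp [sec]

theorem card_sec (A : Finset (R × ZMod 3)) :
    A.card = (sec A 0).card + (sec A 1).card + (sec A 2).card := by
  have h : A.card = ∑ i : ZMod 3, (sec A i).card := by
    rw [← Finset.card_sigma]
    apply Finset.card_bij (fun p _ => (⟨p.2, p.1⟩ : Σ _ : ZMod 3, R))
    · intro p hp
      simp [mem_sec, hp]
    · rintro ⟨a, b⟩ _ ⟨c, d⟩ _ h
      simp only [Sigma.mk.injEq, heq_eq_eq] at h
      rw [h.1, h.2]
    · rintro ⟨i, x⟩ hx
      simp only [mem_sigma, mem_univ, true_and, mem_sec] at hx
      exact ⟨(x, i), hx, rfl⟩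
  rw [h]
  exact Fin.sum_univ_three _

variable {c : R} (hc : 2 * c = 1) {A : Finset (R × ZMod 3)} (hA : (bose c hc).Closed A)

include hA in
theorem sec_card_erase (i : ZMod 3) {x : R} (hx : x ∈ sec A i) :
    ((sec A i).erase x).card = ((sec A (i + 1)).erase x).card := by
  rw [mem_sec] at hx
  apply Finset.card_bij' (fun y _ => c * (x + y)) (fun z _ => 2 * z - x)
  · intro y hy
    rw [mem_erase, mem_sec] at hy
    rw [mem_erase, mem_sec]
    refine ⟨(ne_mid hc hy.1.symm).symm, ?_⟩
    have := hA _ hx _ hy.2
    rwa [show (bose c hc).op (x, i) (y, i) = _ from boseOp_same i hy.1.symm] at this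
  · intro z hz
    rw [mem_erase, mem_sec] at hz
    rw [mem_erase, mem_sec]
    refine ⟨(ne_refl hc hz.1.symm).symm, ?_⟩
    have := hA _ hx _ hz.2
    rwa [show (bose c hc).op (x, i) (z, i + 1) = _ from boseOp_up i hz.1.symm] at this
  · intro y _
    linear_combination (x + y) * hc
  · intro z _
    linear_combination z * hc

include hA in
theorem sec_card_le (i : ZMod 3) (h : (sec A i).Nonempty) :
    (sec A (i + 1)).card ≤ (sec A i).card ∧ (sec A i).card ≤ (sec A (i + 1)).card + 1 := by
  obtain ⟨x, hx⟩ := h
  have h1 := sec_card_erase hc hA i hx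
  have h2 := Finset.card_erase_add_one hx
  have h3 : (sec A (i + 1)).card - 1 ≤ ((sec A (i + 1)).erase x).card :=
    Finset.pred_card_le_card_erase
  have h4 : ((sec A (i + 1)).erase x).card ≤ (sec A (i + 1)).card := Finset.card_erase_le
  omega

include hA in
theorem sec_sub (i : ZMod 3) (h : (sec A i).card = (sec A (i + 1)).card) :
    sec A i = sec A (i + 1) := by
  apply Finset.eq_of_subset_of_card_le
  · intro x hx
    by_contra hx'
    have h1 := sec_card_erase hc hA i hx
    have h2 := Finset.card_erase_add_one hx
    rw [Finset.erase_eq_of_notMem hx'] at h1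
    omega
  · omega

include hA in
/-- a closed subset of the Bose system with more than a third of the points is everything -/
theorem bose_sub (hR3 : 3 ≤ Fintype.card R) (hodd : Odd (Fintype.card R))
    (hbig : Fintype.card R < A.card) : A = univ := by
  have h0 := sec_card_le hc hA 0
  have h1 := sec_card_le hc hA 1
  have h2 := sec_card_le hc hA 2
  rw [show (0 : ZMod 3) + 1 = 1 from rfl] at h0
  rw [show (1 : ZMod 3) + 1 = 2 from rfl] at h1
  rw [show (2 : ZMod 3) + 1 = 0 from rfl] at h2
  have hcard := card_sec A
  simp only [← Finset.card_pos] at h0 h1 h2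
  have e1 : (sec A 0).card = (sec A 1).card ∧ (sec A 1).card = (sec A 2).card := by
    omega
  have s0 : sec A 0 = sec A 1 := by
    have := sec_sub hc hA 0
    rw [show (0 : ZMod 3) + 1 = 1 from rfl] at this
    exact this e1.1
  have s1 : sec A 1 = sec A 2 := by
    have := sec_sub hc hA 1
    rw [show (1 : ZMod 3) + 1 = 2 from rfl] at this
    exact this e1.2
  set B := sec A 0 with hB
  have hBne : B.Nonempty := by
    rw [← Finset.card_pos]; omega
  obtain ⟨b, hb⟩ := hBne
  have hmid : ∀ x ∈ B, ∀ y ∈ B, c * (x + y) ∈ B := by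
    intro x hx y hy
    by_cases hxy : x = y
    · subst hxy
      have : c * (x + x) = x := by linear_combination x * hc
      rwa [this]
    · have hx' := mem_sec.1 hx
      have hy' := mem_sec.1 hy
      have := hA _ hx' _ hy'
      rw [show (bose c hc).op (x, 0) (y, 0) = _ from boseOp_same 0 hxy] at this
      rw [s0]
      exact mem_sec.2 this
  have hrefl : ∀ x ∈ B, ∀ z ∈ B, 2 * z - x ∈ B := by
    intro x hx z hz
    by_cases hxy : x = z
    · subst hxy
      have : 2 * x - x = x := by ring
      rwa [this]
    · have hx' := mem_sec.1 hx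
      rw [s0] at hz
      have hz' := mem_sec.1 hz
      have := hA _ hx' _ hz'
      rw [show (bose c hc).op (x, 0) (z, 1) = _ from boseOp_up (c := c) 0 hxy] at this
      exact mem_sec.2 this
  have hdbl : ∀ x, x + b ∈ B → 2 * x + b ∈ B := by
    intro x hx
    have := hrefl b hb _ hx
    have e : 2 * (x + b) - b = 2 * x + b := by ring
    rwa [e] at this
  have hneg : ∀ x, x + b ∈ B → -x + b ∈ B := by
    intro x hx
    have := hrefl _ hx b hb
    have e : 2 * b - (x + b) = -x + b := by ring
    rwa [e] at this
  let D : AddSubgroup R :=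
    { carrier := {x | x + b ∈ B}
      zero_mem' := by simpa using hb
      add_mem' := by
        intro x y hx hy
        change x + b ∈ B at hx
        change y + b ∈ B at hy
        change x + y + b ∈ B
        have h1 := hmid _ hx _ hy
        have e : c * (x + b + (y + b)) = c * (x + y) + b := by
          linear_combination b * hc
        rw [e] at h1
        have h2 := hdbl _ h1
        have e2 : 2 * (c * (x + y)) + b = x + y + b := by
          linear_combination (x + y) * hc
        rwa [e2] at h2
      neg_mem' := by
        intro x hx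
        exact hneg x hx }
  have hD : Nat.card D = B.card := by
    rw [← Fintype.card_coe, ← Nat.card_eq_fintype_card]
    apply Nat.card_congr
    exact
      { toFun := fun x => ⟨x.1 + b, x.2⟩
        invFun := fun y => ⟨y.1 - b, by
          change y.1 - b + b ∈ B
          rw [sub_add_cancel]; exact y.2⟩
        left_inv := fun x => by ext; simp
        right_inv := fun y => by ext; simp }
  have hdvd : Nat.card D ∣ Nat.card R := AddSubgroup.card_addSubgroup_dvd_card D
  rw [Nat.card_eq_fintype_card (α := R), hD] at hdvd
  obtain ⟨j, hj⟩ := hdvd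
  have hj1 : j = 1 := by
    have hjodd : Odd j := by
      rw [hj] at hodd
      exact (Nat.odd_mul.1 hodd).2
    have hlt : j < 3 := by
      by_contra hge
      push Not at hge
      have : B.card * 3 ≤ B.card * j := Nat.mul_le_mul_left _ hge
      omega
    obtain ⟨t, ht⟩ := hjodd
    omega
  rw [hj1, mul_one] at hj
  have hBuniv : B = univ := by
    rw [← Finset.card_eq_iff_eq_univ]
    exact hj.symm
  ext ⟨x, i⟩
  simp only [mem_univ, iff_true]
  have : ∀ i : ZMod 3, sec A i = univ := by
    intro i
    fin_cases i
    · exact hBuniv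
    · exact s0 ▸ hBuniv
    · exact s1 ▸ s0 ▸ hBuniv
  have hx : x ∈ sec A i := by rw [this i]; exact mem_univ _
  exact mem_sec.1 hx

end

end Pool.Agent.Helper621
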