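import Pool.Agent.Helper621.Total
import Pool.Agent.Helper621.Sub

set_option autoImplicit false

namespace Pool.Agent.Helper621

open Classical

namespace Frame

variable {G I Δ : Type*} [Group G] (Φ : Frame G I Δ)

theorem not_allowed_of_third {w w' w'' : G × I} (h : Φ.third w w' = Sum.inr w'')
    (hne : w.2 ≠ w'.2) :
    ¬ Φ.Allowed (Φ.col w.2 w'.2)
      (if Φ.src w.2 w'.2 = true then w.1⁻¹ * w'.1 else w'.1⁻¹ * w.1) := by
  intro hA
  unfold third at h
  rw [if_neg hne] at h
  by_cases hs : Φ.src w.2 w'.2 = true
  · rw [if_pos hs] at h hA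
    unfold trd at h
    rw [dif_pos hA] at h
    cases h
  · rw [if_neg hs] at h hA
    unfold trd at h
    rw [Φ.col_comm hne] at hA
    rw [dif_pos hA] at h
    cases h

/-- points forming an inner triple with `w` -/
def Nb (w : G × I) : Type _ := {w' : G × I // ∃ w'', Φ.third w w' = Sum.inr w''}

theorem card_Nb [Finite G] [Finite I] [Finite Δ] (w : G × I) :
    Nat.card (Φ.Nb w) ≤ Nat.card G + Nat.card {q : Δ × G // ¬ Φ.Allowed q.1 q.2} := by
  let f : Φ.Nb w → G ⊕ {q : Δ × G // ¬ Φ.Allowed q.1 q.2} := fun w' =>
    if h : w.2 = w'.1.2 then Sum.inl w'.1.1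
    else Sum.inr ⟨(Φ.col w.2 w'.1.2,
      if Φ.src w.2 w'.1.2 = true then w.1⁻¹ * w'.1.1 else w'.1.1⁻¹ * w.1),
      Φ.not_allowed_of_third w'.2.choose_spec h⟩
  have hf : Function.Injective f := by
    rintro ⟨⟨y, b⟩, h1⟩ ⟨⟨y', b'⟩, h2⟩ h
    by_cases hb : w.2 = b <;> by_cases hb' : w.2 = b'
    · simp only [f] at h
      rw [dif_pos hb, dif_pos hb'] at h
      have hbb : b = b' := by rw [← hb, ← hb']
      subst hbb
      simp only [Sum.inl.injEq] at h
      subst h
      rfl
    · simp only [f, dif_pos hb, dif_neg hb'] at h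
      cases h
    · simp only [f, dif_neg hb, dif_pos hb'] at h
      cases h
    · simp only [f, dif_neg hb, dif_neg hb'] at h
      simp only [Sum.inr.injEq, Subtype.mk.injEq, Prod.mk.injEq] at h
      obtain ⟨h3, h4⟩ := h
      have hbb : b = b' := by
        rw [← Φ.p_col w.2 b hb, ← Φ.p_col w.2 b' hb', h3]
      subst hbb
      have hyy : y = y' := by
        by_cases hs : Φ.src w.2 b = true
        · simp only [hs, if_true] at h4
          exact mul_left_cancel h4
        · simp only [hs] at h4
          exact inv_injective (mul_right_cancel h4)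
      subst hyy
      rfl
  have := Nat.card_le_card_of_injective f hf
  rwa [Nat.card_sum] at this

variable {F : Type*} (S : Squag F) (lam : Φ.Label ≃ F)

theorem total_inl_inl (u v : F) : (Φ.total S lam).op (Sum.inl u) (Sum.inl v) =
    Sum.inl (S.op u v) := rfl

theorem total_inr_inr (w w' : G × I) : (Φ.total S lam).op (Sum.inr w) (Sum.inr w') =
    (Φ.third w w').map lam id := rfl

theorem total_inl_inr (u : F) (w : G × I) : (Φ.total S lam).op (Sum.inl u) (Sum.inr w) =
    Sum.inr (Φ.act (lam.symm u) w) := rfl

/-- `F` is preserved by every automorphism -/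
theorem char_F [Finite G] [Finite I] [Finite Δ] [Fintype F]
    (hsub : ∀ A : Finset F, S.Closed A → A ≠ Finset.univ → 3 * A.card ≤ Fintype.card F)
    (hbig : 3 * (Nat.card G + Nat.card {q : Δ × G // ¬ Φ.Allowed q.1 q.2}) < Fintype.card F)
    (σ : Equiv.Perm (F ⊕ (G × I)))
    (hσ : ∀ x y, σ ((Φ.total S lam).op x y) = (Φ.total S lam).op (σ x) (σ y)) (v : F) :
    ∃ u, σ (Sum.inl v) = Sum.inl u := by
  let P : Finset F := Finset.univ.filter (fun v => ∃ u, σ (Sum.inl v) = Sum.inl u)
  have hPc : S.Closed P := by
    intro x hx y hy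
    simp only [P, Finset.mem_filter, Finset.mem_univ, true_and] at hx hy ⊢
    obtain ⟨u, hu⟩ := hx
    obtain ⟨u', hu'⟩ := hy
    refine ⟨S.op u u', ?_⟩
    have := hσ (Sum.inl x) (Sum.inl y)
    rw [hu, hu', total_inl_inl, total_inl_inl] at this
    exact this
  by_cases hP : P = Finset.univ
  · have : v ∈ P := by rw [hP]; exact Finset.mem_univ _
    simpa [P] using this
  · exfalso
    have h3 := hsub P hPc hP
    obtain ⟨v0, hv0⟩ : ∃ v0, v0 ∉ P := by
      by_contra hcon
      push Not at hcon
      exact hP (Finset.eq_univ_iff_forall.2 hcon)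
    have hQ : ∀ v, v ∉ P → ∃ w, σ (Sum.inl v) = Sum.inr w := by
      intro v hv
      rcases h : σ (Sum.inl v) with u | w
      · exfalso
        apply hv
        simp only [P, Finset.mem_filter, Finset.mem_univ, true_and]
        exact ⟨u, h⟩
      · exact ⟨w, rfl⟩
    obtain ⟨w0, hw0⟩ := hQ v0 hv0
    -- the injection
    have key : ∀ v, v ∈ P ∨ S.op v0 v ∈ P ∨
        ∃ w : Φ.Nb w0, σ (Sum.inl v) = Sum.inr w.1 := by
      intro v
      by_cases hv : v ∈ P
      · exact Or.inl hv
      · right
        obtain ⟨w, hw⟩ := hQ v hv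
        have h4 := hσ (Sum.inl v0) (Sum.inl v)
        rw [hw0, hw, total_inl_inl, total_inr_inr] at h4
        rcases h5 : Φ.third w0 w with ℓ | w''
        · left
          rw [h5] at h4
          simp only [P, Finset.mem_filter, Finset.mem_univ, true_and]
          exact ⟨lam ℓ, h4⟩
        · right
          exact ⟨⟨w, w'', h5⟩, hw⟩
    let f : F → (P ⊕ P) ⊕ Φ.Nb w0 := fun v =>
      if h : v ∈ P then Sum.inl (Sum.inl ⟨v, h⟩)
      else if h' : S.op v0 v ∈ P then Sum.inl (Sum.inr ⟨S.op v0 v, h'⟩)
      else Sum.inr (((key v).resolve_left h).resolve_left h').choose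
    have hf : Function.Injective f := by
      intro v v' h
      by_cases h1 : v ∈ P
      · simp only [f, dif_pos h1] at h
        by_cases h1' : v' ∈ P
        · simp only [dif_pos h1', Sum.inl.injEq, Subtype.mk.injEq] at h
          exact h
        · rw [dif_neg h1'] at h
          split_ifs at h
          cases h
      · by_cases h1' : v' ∈ P
        · simp only [f, dif_pos h1', dif_neg h1] at h
          split_ifs at h
          cases h
        · simp only [f, dif_neg h1', dif_neg h1] at h
          by_cases h2 : S.op v0 v ∈ P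
          · by_cases h2' : S.op v0 v' ∈ P
            · simp only [dif_pos h2, dif_pos h2', Sum.inl.injEq, Sum.inr.injEq,
                Subtype.mk.injEq] at h
              exact S.op_cancel h
            · simp only [dif_pos h2, dif_neg h2'] at h
              cases h
          · by_cases h2' : S.op v0 v' ∈ P
            · simp only [dif_neg h2, dif_pos h2'] at h
              cases h
            · simp only [dif_neg h2, dif_neg h2', Sum.inr.injEq] at h
              have e1 := (((key v).resolve_left h1).resolve_left h2).choose_spec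
              have e2 := (((key v').resolve_left h1').resolve_left h2').choose_spec
              rw [h, ← e2] at e1
              have := σ.injective e1
              simpa using this
    have : Finite (Φ.Nb w0) := Subtype.finite
    have hc := Nat.card_le_card_of_injective f hf
    rw [Nat.card_sum, Nat.card_sum, Nat.card_eq_fintype_card (α := F),
      Nat.card_eq_fintype_card (α := P), Fintype.card_coe] at hc
    have := Φ.card_Nb w0
    omega

end Frame

end Pool.Agent.Helper621
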