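import Mathlib

/-!
# Closed sets of a linear space
-/

namespace Pool.Agent.Helper621

open Finset

section Clos

variable {X : Type} [DecidableEq X]

/-- closed sets (subspaces) -/
def Clos (𝓑 : Set (Finset X)) (C : Finset X) : Prop :=
  ∀ D ∈ 𝓑, ∀ x ∈ D, ∀ y ∈ D, x ≠ y → x ∈ C → y ∈ C → D ⊆ C

theorem Clos.inter {𝓑 : Set (Finset X)} {C D : Finset X} (hC : Clos 𝓑 C) (hD : Clos 𝓑 D) :
    Clos 𝓑 (C ∩ D) := by
  intro E hE x hx y hy hxy hxC hyC
  rw [mem_inter] at hxC hyC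
  exact subset_inter (hC E hE x hx y hy hxy hxC.1 hyC.1) (hD E hE x hx y hy hxy hxC.2 hyC.2)

theorem Clos.map {𝓑 : Set (Finset X)} {C : Finset X} (hC : Clos 𝓑 C) (α : Equiv.Perm X)
    (hα : ∀ D ∈ 𝓑, D.map α.symm.toEmbedding ∈ 𝓑) : Clos 𝓑 (C.map α.toEmbedding) := by
  intro E hE x hx y hy hxy hxC hyC
  have h1 := hC _ (hα E hE) (α.symm x) (mem_map_of_mem _ hx) (α.symm y) (mem_map_of_mem _ hy)
    (fun h => hxy (α.symm.injective h)) (by
      obtain ⟨x', hx', rfl⟩ := mem_map.1 hxC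
      simpa using hx') (by
      obtain ⟨y', hy', rfl⟩ := mem_map.1 hyC
      simpa using hy')
  intro z hz
  have h2 : α.symm z ∈ C := h1 (mem_map_of_mem α.symm.toEmbedding hz)
  exact mem_map.2 ⟨α.symm z, h2, by simp⟩

/-- the bound for proper closed subsets -/
theorem Clos.bound {𝓑 : Set (Finset X)} {k : ℕ} (h1 : ∀ D ∈ 𝓑, D.card = k)
    (h2 : ∀ x y, x ≠ y → ∃! D, D ∈ 𝓑 ∧ x ∈ D ∧ y ∈ D) {C D : Finset X} (hC : Clos 𝓑 C)
    (hD : Clos 𝓑 D) (hDC : D ⊆ C) (hne : D ≠ C) : D.card * (k - 1) ≤ C.card - 1 := by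
  obtain ⟨x, hxC, hxD⟩ : ∃ x ∈ C, x ∉ D := by
    by_contra hcon
    push Not at hcon
    exact hne (Subset.antisymm hDC hcon)
  have hb : ∀ y : X, ∃ B : Finset X, y ∈ D → B ∈ 𝓑 ∧ x ∈ B ∧ y ∈ B := by
    intro y
    by_cases hy : y ∈ D
    · have hxy : x ≠ y := by
        rintro rfl
        exact hxD hy
      obtain ⟨B, hB, _⟩ := h2 x y hxy
      exact ⟨B, fun _ => hB⟩
    · exact ⟨∅, fun h => absurd h hy⟩
  choose B hB using hb
  have hsub : D.biUnion (fun y => (B y).erase x) ⊆ C.erase x := by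
    intro z hz
    obtain ⟨y, hy, hz⟩ := mem_biUnion.1 hz
    rw [mem_erase] at hz ⊢
    obtain ⟨b1, b2, b3⟩ := hB y hy
    have hxy : x ≠ y := by
      rintro rfl
      exact hxD hy
    exact ⟨hz.1, hC _ b1 x b2 y b3 hxy hxC (hDC hy) hz.2⟩
  have hdisj : (D : Set X).PairwiseDisjoint (fun y => (B y).erase x) := by
    intro y hy y' hy' hyy
    rw [Function.onFun, disjoint_left]
    intro z hz hz'
    rw [mem_erase] at hz hz'
    obtain ⟨b1, b2, b3⟩ := hB y hy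
    obtain ⟨b1', b2', b3'⟩ := hB y' hy'
    have he : B y = B y' := (h2 x z (Ne.symm hz.1)).unique ⟨b1, b2, hz.2⟩ ⟨b1', b2', hz'.2⟩
    apply hxD
    exact hD _ b1 y b3 y' (he ▸ b3') hyy hy hy' b2
  have hcard := card_le_card hsub
  rw [card_biUnion hdisj, card_erase_of_mem hxC] at hcard
  rw [sum_congr rfl (g := fun _ => k - 1) (fun y hy => by
    obtain ⟨b1, b2, _⟩ := hB y hy
    rw [card_erase_of_mem b2, h1 _ b1]), sum_const, smul_eq_mul] at hcard
  exact hcard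

end Clos

end Pool.Agent.Helper621
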