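import Pool.Agent.Helper621.Total
import Pool.Agent.Helper621.Bose

set_option autoImplicit false

namespace Pool.Agent.Helper621

open Classical

/-- colours -/
abbrev Col (m : ℕ) := ZMod (2 * m + 1) ⊕ {δ : ZMod (2 * m + 1) // δ ≠ 0}

/-- levels -/
abbrev Lev (m : ℕ) := Bool × ZMod (2 * m + 1)

section

variable {m : ℕ}

noncomputable def pC (δ : Col m) (a : Lev m) : Lev m :=
  match δ with
  | Sum.inl c => if a.2 = c then (!a.1, a.2) else (a.1, 2 * c - a.2)
  | Sum.inr δ => if a.1 = true then (false, a.2 - δ.1) else (true, a.2 + δ.1)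

noncomputable def dif (a b : Lev m) : ZMod (2 * m + 1) := if a.1 = true then a.2 - b.2 else b.2 - a.2

theorem dif_ne {a b : Lev m} (h : a.2 ≠ b.2) : dif a b ≠ 0 := by
  unfold dif
  split_ifs
  · exact sub_ne_zero.2 h
  · exact sub_ne_zero.2 h.symm

noncomputable def colC (a b : Lev m) : Col m :=
  if a.1 = b.1 then Sum.inl (((m : ZMod (2 * m + 1)) + 1) * (a.2 + b.2))
  else if h : a.2 = b.2 then Sum.inl a.2
  else Sum.inr ⟨dif a b, dif_ne h⟩

theorem pC_ne (δ : Col m) (a : Lev m) : pC δ a ≠ a := by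
  obtain ⟨i, x⟩ := a
  rcases δ with c | ⟨δ, hδ⟩
  · simp only [pC]
    split_ifs with h
    · simp
    · intro e
      simp only [Prod.mk.injEq, true_and] at e
      exact ne_refl (zmod_half m) h e.symm
  · cases i <;> simp [pC]

theorem pC_pC (δ : Col m) (a : Lev m) : pC δ (pC δ a) = a := by
  obtain ⟨i, x⟩ := a
  rcases δ with c | ⟨δ, hδ⟩
  · simp only [pC]
    by_cases h : x = c
    · simp [h]
    · have h2 : 2 * c - x ≠ c := by
        intro e; apply h; linear_combination -e
      simp [h, h2]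
  · cases i <;> simp [pC]

theorem colC_pC (δ : Col m) (a : Lev m) : colC a (pC δ a) = δ := by
  obtain ⟨i, x⟩ := a
  rcases δ with c | ⟨δ, hδ⟩
  · simp only [pC]
    by_cases h : x = c
    · simp [h, colC]
    · simp only [h, if_false, colC, if_true]
      congr 1
      linear_combination c * zmod_half m
  · have h1 : ¬ x = x - δ := by
      intro e; apply hδ; linear_combination e
    cases i <;> simp [pC, colC, dif, hδ, h1]

theorem pC_colC (a b : Lev m) (h : a ≠ b) : pC (colC a b) a = b := by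
  obtain ⟨i, x⟩ := a
  obtain ⟨j, y⟩ := b
  by_cases hij : i = j
  · subst hij
    have hxy : x ≠ y := by rintro rfl; exact h rfl
    have hx : x ≠ ((m : ZMod (2 * m + 1)) + 1) * (x + y) := ne_mid (zmod_half m) hxy
    simp only [colC, if_true, pC, hx, if_false, Prod.mk.injEq, true_and]
    linear_combination (x + y) * zmod_half m
  · by_cases hxy : x = y
    · subst hxy
      cases i <;> cases j <;> simp_all [colC, pC]
    · cases i <;> cases j <;> simp_all [colC, pC, dif]

noncomputable def srcC (dir : ZMod (2 * m + 1) → Bool) (a b : Lev m) : Bool :=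
  if a.1 = b.1 then decide (a.2.val < b.2.val)
  else if a.2 = b.2 then !a.1
  else (a.1 == dir (dif a b))

theorem srcC_anti (dir : ZMod (2 * m + 1) → Bool) (a b : Lev m) (h : a ≠ b) :
    srcC dir b a = !srcC dir a b := by
  obtain ⟨i, x⟩ := a
  obtain ⟨j, y⟩ := b
  by_cases hij : i = j
  · subst hij
    have hxy : x ≠ y := by rintro rfl; exact h rfl
    have hv : x.val ≠ y.val := fun e => hxy (ZMod.val_injective _ e)
    simp only [srcC, if_true]
    rcases lt_or_gt_of_ne hv with h1 | h1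
    · simp [h1, h1.le]
    · simp [h1, h1.le]
  · by_cases hxy : x = y
    · subst hxy
      cases i <;> cases j <;> simp_all [srcC]
    · have hyx : ¬ y = x := fun e => hxy e.symm
      cases i <;> cases j <;> simp_all [srcC, dif]

end

section

variable {G : Type*} [Group G] {m : ℕ}

/-- the positive elements -/
def Pos (z : G) (ι : G → ℕ) (d : G) : Prop := d * d ≠ 1 ∧ d ≠ z ∧ d ≠ z⁻¹ ∧ ι d < ι d⁻¹

variable {z : G} {ι : G → ℕ}

noncomputable def tau (ψ : {e // Pos z ι e} × Bool ↪ {δ : ZMod (2 * m + 1) // δ ≠ 0})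
    (δ : {δ : ZMod (2 * m + 1) // δ ≠ 0}) : Option ({e // Pos z ι e} × Bool) :=
  if h : ∃ q, ψ q = δ then some h.choose else none

theorem tau_psi (ψ : {e // Pos z ι e} × Bool ↪ {δ : ZMod (2 * m + 1) // δ ≠ 0})
    (q : {e // Pos z ι e} × Bool) : tau ψ (ψ q) = some q := by
  have h : ∃ q', ψ q' = ψ q := ⟨q, rfl⟩
  unfold tau
  rw [dif_pos h]
  congr 1
  exact ψ.injective h.choose_spec

theorem psi_of_tau (ψ : {e // Pos z ι e} × Bool ↪ {δ : ZMod (2 * m + 1) // δ ≠ 0})
    {q : {e // Pos z ι e} × Bool} {δ} (h : tau ψ δ = some q) : ψ q = δ := by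
  unfold tau at h
  split_ifs at h with h'
  · cases h
    exact h'.choose_spec

noncomputable def dirC (ψ : {e // Pos z ι e} × Bool ↪ {δ : ZMod (2 * m + 1) // δ ≠ 0})
    (δ : ZMod (2 * m + 1)) : Bool :=
  if h : δ ≠ 0 then ((tau ψ ⟨δ, h⟩).map (fun q => q.2)).getD false else false

noncomputable def tyC (ψ : {e // Pos z ι e} × Bool ↪ {δ : ZMod (2 * m + 1) // δ ≠ 0})
    (δ : Col m) : Option G :=
  match δ with
  | Sum.inl _ => none
  | Sum.inr δ => (tau ψ δ).map (fun q => q.1.1)

noncomputable def sC (ψ : {e // Pos z ι e} × Bool ↪ {δ : ZMod (2 * m + 1) // δ ≠ 0})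
    (a : Lev m) (e : G) : Col m :=
  if h : Pos z ι e then Sum.inr (ψ (⟨e, h⟩, a.1)) else Sum.inl 0

theorem dif_pC (δ : {δ : ZMod (2 * m + 1) // δ ≠ 0}) (a : Lev m) :
    dif a (pC (Sum.inr δ) a) = δ.1 := by
  obtain ⟨i, x⟩ := a
  cases i <;> simp [dif, pC]

theorem srcC_cross (dir : ZMod (2 * m + 1) → Bool) (δ : {δ : ZMod (2 * m + 1) // δ ≠ 0})
    (a : Lev m) : srcC dir a (pC (Sum.inr δ) a) = (a.1 == dir δ.1) := by
  have h1 : ¬ a.1 = (pC (Sum.inr δ) a).1 := by
    obtain ⟨i, x⟩ := a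
    cases i <;> simp [pC]
  have h2 : ¬ a.2 = (pC (Sum.inr δ) a).2 := by
    obtain ⟨i, x⟩ := a
    have h0 : ¬ x = x - δ.1 := by
      intro e; apply δ.2; linear_combination e
    cases i
    · simp [pC, δ.2]
    · simp only [pC, if_true]
      exact h0
  unfold srcC
  rw [if_neg h1, if_neg h2, dif_pC]

/-- the concrete frame -/
noncomputable def mkFrame (z : G) (hz : z * z * z = 1) (ι : G → ℕ) (hι : Function.Injective ι)
    (ψ : {e // Pos z ι e} × Bool ↪ {δ : ZMod (2 * m + 1) // δ ≠ 0}) :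
    Frame G (Lev m) (Col m) where
  col := colC
  p := pC
  p_ne := pC_ne
  p_p := pC_pC
  col_p := colC_pC
  p_col := pC_colC
  src := srcC (dirC ψ)
  src_anti := srcC_anti _
  z := z
  hz := hz
  pos := Pos z ι
  pos_or := by
    intro d h1 h2 h3
    have h4 : d ≠ d⁻¹ := fun e => h1 (by nth_rewrite 1 [e]; simp)
    have h5 : ι d ≠ ι d⁻¹ := fun e => h4 (hι e)
    rcases lt_or_gt_of_ne h5 with h | h
    · left; exact ⟨h1, h2, h3, h⟩
    · right
      refine ⟨?_, ?_, ?_, ?_⟩
      · intro e; apply h1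
        have := congrArg (fun g => g⁻¹) e
        simpa using this
      · intro e; apply h3; rw [← e, inv_inv]
      · intro e; apply h2; exact inv_injective e
      · rwa [inv_inv]
  pos_inv := by
    intro d hd hd'
    have h1 := hd.2.2.2
    have h2 := hd'.2.2.2
    rw [inv_inv] at h2
    omega
  pos_sq := fun d hd => hd.1
  pos_z := fun d hd => hd.2.1
  pos_z' := fun d hd => hd.2.2.1
  ty := tyC ψ
  ty_pos := by
    intro δ e he
    rcases δ with c | δ
    · simp [tyC] at he
    · simp only [tyC, Option.map_eq_some_iff] at he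
      obtain ⟨q, _, rfl⟩ := he
      exact q.1.2
  s := sC ψ
  ty_s := by
    intro a e he
    simp [sC, he, tyC, tau_psi]
  src_s := by
    intro a e he
    simp only [sC, he, dif_pos]
    rw [srcC_cross]
    have : (⟨(ψ (⟨e, he⟩, a.1)).1, (ψ (⟨e, he⟩, a.1)).2⟩ : {δ : ZMod (2 * m + 1) // δ ≠ 0}) =
      ψ (⟨e, he⟩, a.1) := rfl
    unfold dirC
    rw [dif_pos (ψ (⟨e, he⟩, a.1)).2, this, tau_psi]
    simp
  s_uniq := by
    intro δ e a h1 h2
    rcases δ with c | δ
    · simp [tyC] at h1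
    · simp only [tyC, Option.map_eq_some_iff] at h1
      obtain ⟨q, hq, rfl⟩ := h1
      rw [srcC_cross] at h2
      have h3 := psi_of_tau ψ hq
      have h4 : dirC ψ δ.1 = q.2 := by
        unfold dirC
        rw [dif_pos δ.2]
        have : (⟨δ.1, δ.2⟩ : {δ : ZMod (2 * m + 1) // δ ≠ 0}) = δ := rfl
        rw [this, hq]
        rfl
      rw [h4] at h2
      simp only [beq_iff_eq] at h2
      have h5 : Pos z ι q.1.1 := q.1.2
      unfold sC
      rw [dif_pos h5, h2, ← h3]

end

end Pool.Agent.Helper621
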