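import Mathlib

set_option autoImplicit false

namespace Pool.Agent.Helper621

open Finset

/-- An operation `op u x` meaningful for `u` in a set `U` of universal elements. -/
structure PreSteiner (Q : Type*) where
  U : Q → Prop
  op : Q → Q → Q
  self : ∀ u, U u → op u u = u
  inv : ∀ u x, U u → op u (op u x) = x
  back1 : ∀ u x, U u → U x → op x (op u x) = u
  back2 : ∀ u x, U u → U (op u x) → op (op u x) x = u
  total : ∀ u x, U u → (U x ∨ U (op u x))

namespace PreSteiner

variable {Q : Type*} (P : PreSteiner Q)

/-- closed finite subsets -/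
def Closed (C : Finset Q) : Prop := ∀ x ∈ C, P.U x → ∀ y ∈ C, P.op x y ∈ C

theorem double [DecidableEq Q] {C D : Finset Q} (hC : P.Closed C) (hD : P.Closed D)
    (hCD : C ⊆ D) {u : Q} (hu : P.U u) (huC : u ∉ C) (huD : u ∈ D) :
    2 * C.card + 1 ≤ D.card := by
  have h1 : Disjoint C (C.image (P.op u)) := by
    rw [Finset.disjoint_left]
    rintro y hy hy'
    obtain ⟨x, hx, rfl⟩ := Finset.mem_image.1 hy'
    rcases P.total u x hu with h | h
    · have := hC x hx h _ hy
      rw [P.back1 u x hu h] at this
      exact huC this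
    · have := hC _ hy h _ hx
      rw [P.back2 u x hu h] at this
      exact huC this
  have h2 : u ∉ C ∪ C.image (P.op u) := by
    intro h
    rcases Finset.mem_union.1 h with h | h
    · exact huC h
    · obtain ⟨x, hx, hxu⟩ := Finset.mem_image.1 h
      have := P.inv u x hu
      rw [hxu, P.self u hu] at this
      exact huC (this ▸ hx)
  have h3 : (C.image (P.op u)).card = C.card := by
    apply Finset.card_image_of_injOn
    intro x _ y _ h
    have := congrArg (P.op u) h
    rwa [P.inv u x hu, P.inv u y hu] at this
  have h4 : insert u (C ∪ C.image (P.op u)) ⊆ D := by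
    intro y hy
    rcases Finset.mem_insert.1 hy with rfl | hy
    · exact huD
    · rcases Finset.mem_union.1 hy with hy | hy
      · exact hCD hy
      · obtain ⟨x, hx, rfl⟩ := Finset.mem_image.1 hy
        exact hD u huD hu x (hCD hx)
  have h5 := Finset.card_le_card h4
  rw [Finset.card_insert_of_notMem h2, Finset.card_union_of_disjoint h1, h3] at h5
  omega

theorem closed_inter [DecidableEq Q] {C D : Finset Q} (hC : P.Closed C) (hD : P.Closed D) :
    P.Closed (C ∩ D) := by
  intro x hx hU y hy
  rw [Finset.mem_inter] at hx hy ⊢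
  exact ⟨hC x hx.1 hU y hy.1, hD x hx.2 hU y hy.2⟩

/-- generating sets of logarithmic size -/
theorem gen [Fintype Q] [Nonempty Q]
    (hex : ∀ C : Finset Q, P.Closed C → C ≠ univ → ∃ u, P.U u ∧ u ∉ C) (j : ℕ) :
    ∃ g : Fin j → Q, ∀ C : Finset Q, P.Closed C → (∀ i, g i ∈ C) →
      C = univ ∨ 2 ^ j ≤ C.card + 1 := by
  classical
  induction j with
  | zero =>
    refine ⟨Fin.elim0, fun C _ _ => Or.inr ?_⟩
    simp
  | succ j ih =>
    obtain ⟨g, hg⟩ := ih
    by_cases hall : ∀ C : Finset Q, P.Closed C → (∀ i, g i ∈ C) → C = univ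
    · obtain ⟨q⟩ := ‹Nonempty Q›
      refine ⟨Fin.snoc g q, fun C hC h => Or.inl (hall C hC ?_)⟩
      intro i
      have := h i.castSucc
      simpa using this
    · push Not at hall
      obtain ⟨C1, hC1, hg1, hne1⟩ := hall
      let C0 : Finset Q := univ.filter (fun x => ∀ C : Finset Q, P.Closed C → (∀ i, g i ∈ C) → x ∈ C)
      have hC0 : P.Closed C0 := by
        intro x hx hU y hy
        simp only [C0, mem_filter, mem_univ, true_and] at hx hy ⊢
        intro C hC hgC
        exact hC x (hx C hC hgC) hU y (hy C hC hgC)
      have hg0 : ∀ i, g i ∈ C0 := by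
        intro i
        simp only [C0, mem_filter, mem_univ, true_and]
        intro C _ hgC
        exact hgC i
      have hne0 : C0 ≠ univ := by
        intro e
        apply hne1
        rw [Finset.eq_univ_iff_forall]
        intro x
        have hx : x ∈ C0 := by rw [e]; exact mem_univ _
        simp only [C0, mem_filter, mem_univ, true_and] at hx
        exact hx C1 hC1 hg1
      obtain ⟨u, hu, huC⟩ := hex C0 hC0 hne0
      refine ⟨Fin.snoc g u, fun C hC h => ?_⟩
      right
      have hgC : ∀ i, g i ∈ C := by
        intro i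
        have := h i.castSucc
        simpa using this
      have huD : u ∈ C := by
        have := h (Fin.last j)
        simpa using this
      have hsub : C0 ⊆ C := by
        intro x hx
        simp only [C0, mem_filter, mem_univ, true_and] at hx
        exact hx C hC hgC
      have h1 := P.double hC0 hC hsub hu huC huD
      have h2 := (hg C0 hC0 hg0).resolve_left hne0
      rw [pow_succ]
      omega

/-- a generating tuple -/
theorem gen' [Fintype Q] [Nonempty Q]
    (hex : ∀ C : Finset Q, P.Closed C → C ≠ univ → ∃ u, P.U u ∧ u ∉ C) (j : ℕ)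
    (hj : Fintype.card Q + 1 < 2 ^ j) :
    ∃ g : Fin j → Q, ∀ C : Finset Q, P.Closed C → (∀ i, g i ∈ C) → C = univ := by
  obtain ⟨g, hg⟩ := P.gen hex j
  refine ⟨g, fun C hC h => ?_⟩
  rcases hg C hC h with h1 | h1
  · exact h1
  · have := Finset.card_le_univ C
    omega

end PreSteiner

end Pool.Agent.Helper621
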