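import Pool.Agent.Helper621.Total
import Pool.Agent.Helper621.Gen

set_option autoImplicit false

namespace Pool.Agent.Helper621

open Classical

/-- the universal structure of a Steiner quasigroup -/
def Squag.pre {F : Type*} (S : Squag F) : PreSteiner F where
  U _ := True
  op := S.op
  self u _ := S.idem u
  inv u x _ := S.inv u x
  back1 u x _ _ := by rw [S.comm u x, S.inv]
  back2 u x _ _ := S.inv' u x
  total _ _ _ := Or.inl trivial

theorem Squag.aut_ext {F : Type*} [Fintype F] (S : Squag F) {K : ℕ} (g : Fin K → F)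
    (hg : ∀ C : Finset F, S.pre.Closed C → (∀ i, g i ∈ C) → C = Finset.univ)
    (α β : Equiv.Perm F) (hα : ∀ x y, α (S.op x y) = S.op (α x) (α y))
    (hβ : ∀ x y, β (S.op x y) = S.op (β x) (β y)) (h : ∀ i, α (g i) = β (g i)) : α = β := by
  have := hg (Finset.univ.filter (fun x => α x = β x)) (by
    intro x hx _ y hy
    simp only [Finset.mem_filter, Finset.mem_univ, true_and] at hx hy ⊢
    change α (S.op x y) = β (S.op x y)
    rw [hα, hβ, hx, hy]) (by
    intro i
    simp [h i])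
  ext x
  have hx : x ∈ Finset.univ.filter (fun x => α x = β x) := by rw [this]; exact Finset.mem_univ _
  simpa using hx

namespace Frame

variable {G I Δ : Type*} [Group G] (Φ : Frame G I Δ)

/-- partial operation on labels and points -/
noncomputable def preOp : Φ.Label ⊕ (G × I) → Φ.Label ⊕ (G × I) → Φ.Label ⊕ (G × I)
  | Sum.inr w, Sum.inl ℓ => Sum.inr (Φ.act ℓ w)
  | Sum.inr w, Sum.inr w' => Φ.third w w'
  | Sum.inl _, x => x

theorem preOp_inv (w : G × I) (x : Φ.Label ⊕ (G × I)) :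
    Φ.preOp (Sum.inr w) (Φ.preOp (Sum.inr w) x) = x := by
  rcases x with ℓ | w'
  · simp only [preOp]
    exact Φ.third_act ℓ w
  · simp only [preOp]
    rcases h : Φ.third w w' with ℓ | w''
    · simp only [Φ.act_of_third h]
    · simp only [Φ.third_third h]

noncomputable def pre : PreSteiner (Φ.Label ⊕ (G × I)) where
  U x := ∃ w, x = Sum.inr w
  op := Φ.preOp
  self := by
    rintro _ ⟨w, rfl⟩
    exact Φ.third_self w
  inv := by
    rintro _ x ⟨w, rfl⟩
    exact Φ.preOp_inv w x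
  back1 := by
    rintro _ _ ⟨w, rfl⟩ ⟨w', rfl⟩
    have : Φ.preOp (Sum.inr w) (Sum.inr w') = Φ.preOp (Sum.inr w') (Sum.inr w) :=
      Φ.third_comm w w'
    rw [this, preOp_inv]
  back2 := by
    rintro _ x ⟨w, rfl⟩ h
    rcases x with ℓ | w'
    · simp only [preOp, Φ.act_act]
    · obtain ⟨w'', hw⟩ := h
      rw [hw]
      simp only [preOp] at hw ⊢
      rw [Φ.third_comm w'' w']
      rw [Φ.third_comm w w'] at hw
      exact Φ.third_third hw
  total := by
    rintro _ x ⟨w, rfl⟩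
    rcases x with ℓ | w'
    · right; exact ⟨_, rfl⟩
    · left; exact ⟨_, rfl⟩

theorem pre_hex [Fintype (Φ.Label ⊕ (G × I))] [Nonempty I]
    (C : Finset (Φ.Label ⊕ (G × I))) (hC : Φ.pre.Closed C) (hne : C ≠ Finset.univ) :
    ∃ u, Φ.pre.U u ∧ u ∉ C := by
  by_contra hcon
  push Not at hcon
  apply hne
  rw [Finset.eq_univ_iff_forall]
  obtain ⟨i⟩ := ‹Nonempty I›
  rintro (ℓ | w)
  · have h1 : (Sum.inr (1, i) : Φ.Label ⊕ (G × I)) ∈ C := hcon _ ⟨_, rfl⟩
    have h2 : (Sum.inr (Φ.act ℓ (1, i)) : Φ.Label ⊕ (G × I)) ∈ C := hcon _ ⟨_, rfl⟩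
    have := hC _ h1 ⟨_, rfl⟩ _ h2
    have e : Φ.pre.op (Sum.inr (1, i)) (Sum.inr (Φ.act ℓ (1, i))) = Sum.inl ℓ := Φ.third_act ℓ _
    rwa [e] at this
  · exact hcon _ ⟨w, rfl⟩

/-- pairs of permutations compatible with the frame -/
def InG (π : Equiv.Perm Φ.Label) (s : Equiv.Perm (G × I)) : Prop :=
  (∀ ℓ w, s (Φ.act ℓ w) = Φ.act (π ℓ) (s w)) ∧
    (∀ w w', Φ.third (s w) (s w') = Sum.map π s (Φ.third w w'))

theorem InG.hom {Φ : Frame G I Δ} {π : Equiv.Perm Φ.Label} {s : Equiv.Perm (G × I)}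
    (h : Φ.InG π s) (w : G × I) (y : Φ.Label ⊕ (G × I)) :
    Sum.map π s (Φ.preOp (Sum.inr w) y) = Φ.preOp (Sum.inr (s w)) (Sum.map π s y) := by
  rcases y with ℓ | w'
  · simp [preOp, h.1]
  · simp [preOp, h.2]

theorem InG.ext {Φ : Frame G I Δ} [Fintype (Φ.Label ⊕ (G × I))] {K : ℕ}
    (g : Fin K → Φ.Label ⊕ (G × I))
    (hg : ∀ C : Finset (Φ.Label ⊕ (G × I)), Φ.pre.Closed C → (∀ i, g i ∈ C) → C = Finset.univ)
    {π π' : Equiv.Perm Φ.Label} {s s' : Equiv.Perm (G × I)} (h : Φ.InG π s) (h' : Φ.InG π' s')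
    (he : ∀ i, Sum.map π s (g i) = Sum.map π' s' (g i)) : π = π' ∧ s = s' := by
  have := hg (Finset.univ.filter (fun x => Sum.map π s x = Sum.map π' s' x)) (by
    rintro x hx ⟨w, rfl⟩ y hy
    simp only [Finset.mem_filter, Finset.mem_univ, true_and] at hx hy ⊢
    change Sum.map π s (Φ.preOp (Sum.inr w) y) = Sum.map π' s' (Φ.preOp (Sum.inr w) y)
    rw [h.hom, h'.hom, hy]
    simp only [Sum.map_inr, Sum.inr.injEq] at hx
    rw [hx]) (by
    intro i
    simp [he i])
  have key : ∀ x, Sum.map π s x = Sum.map π' s' x := by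
    intro x
    have hx : x ∈ Finset.univ.filter (fun x => Sum.map π s x = Sum.map π' s' x) := by
      rw [this]; exact Finset.mem_univ _
    simpa using hx
  constructor
  · ext ℓ : 1
    have := key (Sum.inl ℓ)
    simpa using this
  · ext w : 1
    have := key (Sum.inr w)
    simpa using this

variable {F : Type*} (S : Squag F)

/-- existence of a labelling without compatible automorphisms -/
theorem exists_lam [Fintype Φ.Label] [Fintype (G × I)] [Nonempty I] [Fintype F] [Nonempty F]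
    (hLF : Fintype.card Φ.Label = Fintype.card F) (q0 K : ℕ)
    (hR : ∀ α : Equiv.Perm F, (∀ x y, α (S.op x y) = S.op (α x) (α y)) → α ≠ 1 →
      ∃ r : Fin q0 ↪ F, ∀ i j, α (r i) ≠ r j)
    (hK : Fintype.card Φ.Label + Fintype.card (G × I) + 1 < 2 ^ K)
    (hnum : (2 ^ K) ^ K * (2 ^ K) ^ K < q0.factorial) :
    ∃ lam : Φ.Label ≃ F, ∀ (π : Equiv.Perm Φ.Label) (s : Equiv.Perm (G × I))
      (α : Equiv.Perm F), (∀ x y, α (S.op x y) = S.op (α x) (α y)) → Φ.InG π s →
      (∀ ℓ, α (lam ℓ) = lam (π ℓ)) → α = 1 := by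
  by_contra hcon
  push Not at hcon
  choose π s α hα hG hcomm hne using hcon
  choose r hr using hR
  have hne1 : Nonempty (Φ.Label ⊕ (G × I)) := by
    obtain ⟨i⟩ := ‹Nonempty I›
    exact ⟨Sum.inr (1, i)⟩
  obtain ⟨g, hg⟩ := Φ.pre.gen' (Φ.pre_hex) K (by rw [Fintype.card_sum]; exact hK)
  have hFK : Fintype.card F + 1 < 2 ^ K := by omega
  obtain ⟨g', hg'⟩ := S.pre.gen' (by
    intro C _ hne
    by_contra hcon
    push Not at hcon
    apply hne
    rw [Finset.eq_univ_iff_forall]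
    intro x
    exact hcon x trivial) K hFK
  let emb : (Φ.Label ≃ F) → (Fin q0 ↪ F) := fun lam =>
    (r (α lam) (hα lam) (hne lam)).trans (α lam).toEmbedding
  let f : (Φ.Label ≃ F) × Equiv.Perm (Fin q0) →
      (Fin K → Φ.Label ⊕ (G × I)) × (Fin K → F) × (Φ.Label ≃ F) := fun p =>
    (fun i => Sum.map (π p.1) (s p.1) (g i), fun i => α p.1 (g' i),
      p.1.trans (p.2.viaEmbedding (emb p.1)))
  have hf : Function.Injective f := by
    rintro ⟨lam, ρ⟩ ⟨lam', ρ'⟩ h
    simp only [f, Prod.mk.injEq] at h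
    obtain ⟨h1, h2, h3⟩ := h
    obtain ⟨hπ, hs⟩ := InG.ext g hg (hG lam) (hG lam') (fun i => congrFun h1 i)
    have hαα : α lam = α lam' := S.aut_ext g' hg' _ _ (hα lam) (hα lam')
      (fun i => congrFun h2 i)
    have hemb : emb lam = emb lam' := by
      simp only [emb]
      congr 1
      · congr 1
      · rw [hαα]
    have hρ : ρ = ρ' := by
      ext i : 1
      set x := r (α lam) (hα lam) (hne lam) i with hx
      have hfix : ∀ σ : Equiv.Perm (Fin q0), σ.viaEmbedding (emb lam) x = x := by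
        intro σ
        apply Equiv.Perm.viaEmbedding_apply_of_notMem
        rintro ⟨j, hj⟩
        exact hr (α lam) (hα lam) (hne lam) j i hj
      obtain ⟨ℓ, hℓ⟩ := lam.surjective x
      have h4 := Equiv.congr_fun h3 ℓ
      simp only [Equiv.trans_apply] at h4
      rw [hℓ, hfix, ← hemb] at h4
      have h5 : lam' ℓ = x := by
        have := congrArg (ρ'.viaEmbedding (emb lam)).symm h4
        rw [Equiv.symm_apply_apply] at this
        rw [← this, Equiv.symm_apply_eq, hfix]
      have h6 := Equiv.congr_fun h3 (π lam ℓ)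
      simp only [Equiv.trans_apply] at h6
      rw [← hcomm lam ℓ, hπ, ← hcomm lam' ℓ, ← hαα, hℓ, h5, ← hemb] at h6
      have h7 : α lam x = emb lam i := rfl
      rw [h7, Equiv.Perm.viaEmbedding_apply, Equiv.Perm.viaEmbedding_apply] at h6
      exact (emb lam).injective h6
    subst hρ
    have : lam = lam' := by
      ext ℓ : 1
      have h4 := Equiv.congr_fun h3 ℓ
      simp only [Equiv.trans_apply, ← hemb] at h4
      exact (ρ.viaEmbedding (emb lam)).injective h4
    rw [this]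
  have hcard := Fintype.card_le_of_injective f hf
  simp only [Fintype.card_prod, Fintype.card_fun, Fintype.card_fin, Fintype.card_perm,
    Fintype.card_sum] at hcard
  have hpos : 0 < Fintype.card (Φ.Label ≃ F) := by
    have : Nonempty (Φ.Label ≃ F) := ⟨Fintype.equivOfCardEq hLF⟩
    exact Fintype.card_pos
  have h1 : (Fintype.card Φ.Label + Fintype.card (G × I)) ^ K ≤ (2 ^ K) ^ K :=
    Nat.pow_le_pow_left (by omega) K
  have h2 : (Fintype.card F) ^ K ≤ (2 ^ K) ^ K := Nat.pow_le_pow_left (by omega) K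
  have h3 : (Fintype.card Φ.Label + Fintype.card (G × I)) ^ K * (Fintype.card F) ^ K ≤
      (2 ^ K) ^ K * (2 ^ K) ^ K := Nat.mul_le_mul h1 h2
  have h4 : Fintype.card (Φ.Label ≃ F) * q0.factorial ≤
      Fintype.card (Φ.Label ≃ F) *
        ((Fintype.card Φ.Label + Fintype.card (G × I)) ^ K * (Fintype.card F) ^ K) := by
    calc _ ≤ _ := hcard
      _ = _ := by ring
  have h5 := Nat.le_of_mul_le_mul_left h4 hpos
  omega

end Frame

end Pool.Agent.Helper621
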