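import Mathlib

/-!
# Power classes in finite fields, and an elementary selection lemma

`F` is a finite field with `card F = M * m + 1`.  The class of a nonzero `x` is `x ^ m`, an
element of the set of `M`-th roots of unity.
-/

namespace Pool.Agent.Helper621

open Finset

section Classes

variable {F : Type} [Field F] [Fintype F] [DecidableEq F] {M m : ℕ}

theorem class_pow (hF : Fintype.card F = M * m + 1) {x : F} (hx : x ≠ 0) : (x ^ m) ^ M = 1 := by
  rw [← pow_mul, mul_comm m M]
  have h := FiniteField.pow_card_sub_one_eq_one x hx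
  rwa [hF, Nat.add_sub_cancel] at h

/-- The set of `n`-th roots of unity. -/
def mu (F : Type) [Field F] [Fintype F] [DecidableEq F] (n : ℕ) : Finset F :=
  univ.filter (fun x => x ^ n = 1)

theorem mem_mu {n : ℕ} {x : F} : x ∈ mu F n ↔ x ^ n = 1 := by simp [mu]

theorem card_mu_le {n : ℕ} (hn : 0 < n) : (mu F n).card ≤ n := by
  have h : mu F n ⊆ (Polynomial.nthRoots n (1 : F)).toFinset := by
    intro x hx
    rw [Multiset.mem_toFinset, Polynomial.mem_nthRoots hn]
    exact mem_mu.1 hx
  calc (mu F n).card ≤ (Polynomial.nthRoots n (1 : F)).toFinset.card := card_le_card h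
    _ ≤ Multiset.card (Polynomial.nthRoots n (1 : F)) := Multiset.toFinset_card_le _
    _ ≤ n := Polynomial.card_nthRoots n 1

/-- fibre of the class map -/
theorem card_fiber_le (hm : 0 < m) {z : F} (hz : z ≠ 0) :
    (univ.filter (fun x : F => x ^ m = z)).card ≤ m := by
  rcases (univ.filter (fun x : F => x ^ m = z)).eq_empty_or_nonempty with h | ⟨x0, hx0⟩
  · rw [h]; simp
  · have hx0' : x0 ^ m = z := by simpa using hx0
    have hx00 : x0 ≠ 0 := by
      rintro rfl
      rw [zero_pow hm.ne'] at hx0'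
      exact hz hx0'.symm
    refine le_trans ?_ (card_mu_le (F := F) hm)
    refine card_le_card_of_injOn (fun x => x / x0) ?_ ?_
    · intro x hx
      have hx' : x ^ m = z := by simpa using hx
      simp only [mem_coe]
      rw [mem_mu, div_pow, hx', hx0', div_self hz]
    · intro x _ y _ hxy
      exact (div_left_inj' hx00).1 hxy

theorem card_fiber_and_mu (hF : Fintype.card F = M * m + 1) (hM : 0 < M) (hm : 0 < m) :
    (mu F M).card = M ∧ ∀ z ∈ mu F M, (univ.filter (fun x : F => x ^ m = z)).card = m := by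
  have hmap : ∀ x ∈ (univ.erase (0 : F)), x ^ m ∈ mu F M := by
    intro x hx
    rw [mem_mu]
    exact class_pow hF (by simpa using hx)
  have hcount : (univ.erase (0 : F)).card = ∑ z ∈ mu F M, ((univ.erase (0 : F)).filter
      (fun x => x ^ m = z)).card := card_eq_sum_card_fiberwise hmap
  have hfib : ∀ z ∈ mu F M, ((univ.erase (0 : F)).filter (fun x => x ^ m = z)) =
      univ.filter (fun x : F => x ^ m = z) := by
    intro z hz
    ext x
    simp only [mem_filter, mem_erase, mem_univ, true_and, and_true, and_iff_right_iff_imp]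
    rintro h rfl
    rw [zero_pow hm.ne'] at h
    rw [mem_mu, ← h, zero_pow hM.ne'] at hz
    exact zero_ne_one hz
  rw [sum_congr rfl (fun z hz => by rw [hfib z hz])] at hcount
  have hcard : (univ.erase (0 : F)).card = M * m := by
    rw [card_erase_of_mem (mem_univ _), card_univ, hF, Nat.add_sub_cancel]
  have hz0 : ∀ z ∈ mu F M, z ≠ 0 := by
    rintro z hz rfl
    rw [mem_mu, zero_pow hM.ne'] at hz
    exact zero_ne_one hz
  have hle : ∀ z ∈ mu F M, (univ.filter (fun x : F => x ^ m = z)).card ≤ m := fun z hz =>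
    card_fiber_le hm (hz0 z hz)
  have hle1 : ∑ z ∈ mu F M, (univ.filter (fun x : F => x ^ m = z)).card ≤ (mu F M).card * m := by
    refine (sum_le_card_nsmul _ _ _ hle).trans ?_
    simp
  have h1 : (mu F M).card = M := by
    refine le_antisymm (card_mu_le hM) ?_
    have h2 : M * m ≤ (mu F M).card * m := by
      rw [← hcard, hcount]; exact hle1
    exact Nat.le_of_mul_le_mul_right h2 hm
  refine ⟨h1, ?_⟩
  have hsum : ∑ z ∈ mu F M, (univ.filter (fun x : F => x ^ m = z)).card = ∑ z ∈ mu F M, m := by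
    rw [← hcount, hcard, sum_const, h1, smul_eq_mul]
  exact (sum_eq_sum_iff_of_le hle).1 hsum

theorem card_mu (hF : Fintype.card F = M * m + 1) (hM : 0 < M) (hm : 0 < m) :
    (mu F M).card = M := (card_fiber_and_mu hF hM hm).1

theorem card_fiber (hF : Fintype.card F = M * m + 1) (hM : 0 < M) (hm : 0 < m) {z : F}
    (hz : z ∈ mu F M) : (univ.filter (fun x : F => x ^ m = z)).card = m :=
  (card_fiber_and_mu hF hM hm).2 z hz

theorem exists_class (hF : Fintype.card F = M * m + 1) (hM : 0 < M) (hm : 0 < m) {z : F}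
    (hz : z ^ M = 1) : ∃ x : F, x ≠ 0 ∧ x ^ m = z := by
  have h := card_fiber hF hM hm (mem_mu.2 hz)
  have h2 : (univ.filter (fun x : F => x ^ m = z)).Nonempty := by
    rw [← card_pos, h]; exact hm
  obtain ⟨x, hx⟩ := h2
  have hx' : x ^ m = z := by simpa using hx
  refine ⟨x, ?_, hx'⟩
  rintro rfl
  rw [zero_pow hm.ne'] at hx'
  rw [← hx', zero_pow hM.ne'] at hz
  exact zero_ne_one hz

end Classes

section Variance

variable {F : Type} [Field F] [Fintype F] [DecidableEq F] {M m : ℕ}

/-- number of `y ∈ S` with `y - x` of class `z` -/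
def nz (S : Finset F) (m : ℕ) (z x : F) : ℕ := (S.filter (fun y => (y - x) ^ m = z)).card

theorem sum_nz (hF : Fintype.card F = M * m + 1) (hM : 0 < M) (hm : 0 < m) (S : Finset F) {z : F}
    (hz : z ∈ mu F M) : ∑ x, nz S m z x = S.card * m := by
  have h : ∀ x, nz S m z x = ∑ y ∈ S, if (y - x) ^ m = z then 1 else 0 := by
    intro x; rw [nz, card_filter]
  simp_rw [h]
  rw [sum_comm]
  have h2 : ∀ y ∈ S, (∑ x : F, if (y - x) ^ m = z then 1 else 0) = m := by
    intro y _
    rw [← card_filter]
    refine Eq.trans ?_ (card_fiber hF hM hm hz)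
    refine card_bij' (fun x _ => y - x) (fun x _ => y - x) ?_ ?_ ?_ ?_
    · intro x hx; simpa using hx
    · intro x hx; simpa using hx
    · intro x _; simp
    · intro x _; simp
  rw [sum_congr rfl h2, sum_const, smul_eq_mul]

theorem card_pair_le (hM : 0 < M) (hm : 0 < m) {y y' : F} (hne : y ≠ y') :
    (univ.filter (fun x : F => (y - x) ^ m = (y' - x) ^ m ∧ ((y - x) ^ m) ^ M = 1)).card
      ≤ m - 1 := by
  have h1 : (mu F m).card - 1 ≤ m - 1 := Nat.sub_le_sub_right (card_mu_le hm) 1
  refine le_trans ?_ h1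
  have h2 : ((mu F m).erase 1).card = (mu F m).card - 1 :=
    card_erase_of_mem (mem_mu.2 (one_pow m))
  rw [← h2]
  refine card_le_card_of_injOn (fun x => (y - x) / (y' - x)) ?_ ?_
  · intro x hx
    simp only [coe_filter, mem_univ, true_and, Set.mem_ofPred_eq] at hx
    have hy'x : y' - x ≠ 0 := by
      intro h
      rw [hx.1, h, zero_pow hm.ne', zero_pow hM.ne'] at hx
      exact zero_ne_one hx.2
    simp only [mem_coe, mem_erase, mem_mu]
    constructor
    · intro h
      rw [div_eq_one_iff_eq hy'x] at h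
      exact hne (sub_left_injective h)
    · rw [div_pow, hx.1, div_self (pow_ne_zero _ hy'x)]
  · intro x hx x' hx' hxx
    simp only [coe_filter, mem_univ, true_and, Set.mem_ofPred_eq] at hx hx'
    have hy'x : y' - x ≠ 0 := by
      intro h
      rw [hx.1, h, zero_pow hm.ne', zero_pow hM.ne'] at hx
      exact zero_ne_one hx.2
    have hy'x' : y' - x' ≠ 0 := by
      intro h
      rw [hx'.1, h, zero_pow hm.ne', zero_pow hM.ne'] at hx'
      exact zero_ne_one hx'.2
    simp only at hxx
    rw [div_eq_div_iff hy'x hy'x'] at hxx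
    have h3 : (y - y') * (x - x') = 0 := by ring_nf; ring_nf at hxx; linear_combination hxx
    rcases mul_eq_zero.1 h3 with h4 | h4
    · exact absurd (sub_eq_zero.1 h4) hne
    · exact sub_eq_zero.1 h4

theorem sum_sq_nz (hM : 0 < M) (hm : 0 < m)
    (hF : Fintype.card F = M * m + 1) (S : Finset F) :
    ∑ z ∈ mu F M, ∑ x, (nz S m z x) ^ 2 ≤
      S.card * (M * m) + S.card * (S.card - 1) * (m - 1) := by
  have h : ∀ z x, (nz S m z x) ^ 2 = ∑ y ∈ S, ∑ y' ∈ S,
      if (y - x) ^ m = z ∧ (y' - x) ^ m = z then 1 else 0 := by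
    intro z x
    rw [nz, card_filter, sq, sum_mul_sum]
    refine sum_congr rfl fun y _ => sum_congr rfl fun y' _ => ?_
    by_cases h1 : (y - x) ^ m = z <;> by_cases h2 : (y' - x) ^ m = z <;> simp [h1, h2]
  have h2 : ∑ z ∈ mu F M, ∑ x, (nz S m z x) ^ 2 = ∑ y ∈ S, ∑ y' ∈ S,
      (univ.filter (fun x : F => (y - x) ^ m = (y' - x) ^ m ∧ ((y - x) ^ m) ^ M = 1)).card := by
    simp_rw [h]
    calc ∑ z ∈ mu F M, ∑ x, ∑ y ∈ S, ∑ y' ∈ S,
          (if (y - x) ^ m = z ∧ (y' - x) ^ m = z then 1 else 0)
        = ∑ x, ∑ z ∈ mu F M, ∑ y ∈ S, ∑ y' ∈ S,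
          (if (y - x) ^ m = z ∧ (y' - x) ^ m = z then 1 else 0) := sum_comm
      _ = ∑ x, ∑ y ∈ S, ∑ z ∈ mu F M, ∑ y' ∈ S,
          (if (y - x) ^ m = z ∧ (y' - x) ^ m = z then 1 else 0) :=
          sum_congr rfl fun x _ => sum_comm
      _ = ∑ x, ∑ y ∈ S, ∑ y' ∈ S, ∑ z ∈ mu F M,
          (if (y - x) ^ m = z ∧ (y' - x) ^ m = z then 1 else 0) :=
          sum_congr rfl fun x _ => sum_congr rfl fun y _ => sum_comm
      _ = ∑ x, ∑ y ∈ S, ∑ y' ∈ S,
          (if (y - x) ^ m = (y' - x) ^ m ∧ ((y - x) ^ m) ^ M = 1 then 1 else 0) := by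
          refine sum_congr rfl fun x _ => sum_congr rfl fun y _ => sum_congr rfl fun y' _ => ?_
          by_cases hc : (y - x) ^ m = (y' - x) ^ m ∧ ((y - x) ^ m) ^ M = 1
          · rw [if_pos hc, sum_eq_single ((y - x) ^ m)]
            · rw [if_pos ⟨rfl, hc.1.symm⟩]
            · intro z _ hz
              rw [if_neg]
              rintro ⟨h1, _⟩
              exact hz h1.symm
            · intro hn
              exact absurd (mem_mu.2 hc.2) hn
          · rw [if_neg hc]
            refine sum_eq_zero fun z hz => ?_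
            rw [if_neg]
            rintro ⟨h1, h3⟩
            exact hc ⟨h1.trans h3.symm, by rw [h1]; exact mem_mu.1 hz⟩
      _ = ∑ y ∈ S, ∑ x, ∑ y' ∈ S,
          (if (y - x) ^ m = (y' - x) ^ m ∧ ((y - x) ^ m) ^ M = 1 then 1 else 0) := sum_comm
      _ = ∑ y ∈ S, ∑ y' ∈ S, ∑ x,
          (if (y - x) ^ m = (y' - x) ^ m ∧ ((y - x) ^ m) ^ M = 1 then 1 else 0) :=
          sum_congr rfl fun y _ => sum_comm
      _ = _ := by
          refine sum_congr rfl fun y _ => sum_congr rfl fun y' _ => ?_
          rw [card_filter]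
  rw [h2]
  have h3 : ∀ y ∈ S, ∑ y' ∈ S,
      (univ.filter (fun x : F => (y - x) ^ m = (y' - x) ^ m ∧ ((y - x) ^ m) ^ M = 1)).card ≤
        M * m + (S.card - 1) * (m - 1) := by
    intro y hy
    rw [← add_sum_erase S _ hy]
    refine add_le_add ?_ ?_
    · have h4 : (univ.filter (fun x : F => (y - x) ^ m = (y - x) ^ m ∧ ((y - x) ^ m) ^ M = 1)) ⊆
          univ.erase y := by
        intro x hx
        simp only [mem_filter, mem_univ, true_and] at hx
        simp only [mem_erase, mem_univ, and_true]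
        rintro rfl
        rw [sub_self, zero_pow hm.ne', zero_pow hM.ne'] at hx
        exact zero_ne_one hx
      refine (card_le_card h4).trans ?_
      rw [card_erase_of_mem (mem_univ _), card_univ, hF, Nat.add_sub_cancel]
    · rw [← card_erase_of_mem hy]
      refine (sum_le_card_nsmul _ _ (m - 1) ?_).trans (by simp)
      intro y' hy'
      exact card_pair_le hM hm (ne_of_mem_erase hy').symm
  refine (sum_le_card_nsmul _ _ _ h3).trans ?_
  rw [smul_eq_mul, mul_add, mul_assoc]

/-- Few bad centres. -/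
theorem card_bad (hM : 0 < M) (hm : 0 < m)
    (hF : Fintype.card F = M * m + 1) (h4 : 4 ≤ Fintype.card F) (S : Finset F) {z : F}
    (hz : z ∈ mu F M) :
    (univ.filter (fun x : F => 2 * M * nz S m z x < S.card)).card * S.card ≤
      16 * M ^ 2 * Fintype.card F := by
  set q := Fintype.card F with hq
  set s := S.card with hs
  rcases Nat.eq_zero_or_pos s with hs0 | hs0
  · rw [hs0]; simp
  set c : ℝ := (s : ℝ) * m / q with hc
  have hqpos : (0 : ℝ) < q := by
    have : 0 < q := by omega
    exact_mod_cast this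
  have hMpos : (0 : ℝ) < M := by exact_mod_cast hM
  have hmpos : (0 : ℝ) < m := by exact_mod_cast hm
  have hspos : (0 : ℝ) < s := by exact_mod_cast hs0
  have hFr : (q : ℝ) = M * m + 1 := by rw [hF]; push_cast; ring
  have hq4 : (4 : ℝ) ≤ q := by exact_mod_cast h4
  -- variance
  have hvar : ∑ z ∈ mu F M, ∑ x, ((nz S m z x : ℝ) - c) ^ 2 ≤ s * q := by
    have e1 : ∑ z ∈ mu F M, ∑ x, ((nz S m z x : ℝ) - c) ^ 2 =
        (∑ z ∈ mu F M, ∑ x, ((nz S m z x : ℝ)) ^ 2) - 2 * c * (∑ z ∈ mu F M, ∑ x, (nz S m z x : ℝ))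
          + M * q * c ^ 2 := by
      have : ∀ z ∈ mu F M, ∑ x, ((nz S m z x : ℝ) - c) ^ 2 =
          (∑ x, ((nz S m z x : ℝ)) ^ 2) - 2 * c * (∑ x, (nz S m z x : ℝ)) + q * c ^ 2 := by
        intro z _
        rw [mul_sum, ← sum_sub_distrib]
        have : (q : ℝ) * c ^ 2 = ∑ x : F, c ^ 2 := by simp [hq]
        rw [this, ← sum_add_distrib]
        exact sum_congr rfl fun x _ => by ring
      rw [sum_congr rfl this, sum_add_distrib, sum_sub_distrib, ← mul_sum, sum_const,
        card_mu hF hM hm, nsmul_eq_mul]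
      ring
    have e2 : ∑ z ∈ mu F M, ∑ x, (nz S m z x : ℝ) = M * (s * m) := by
      have : ∀ z ∈ mu F M, ∑ x, (nz S m z x : ℝ) = s * m := by
        intro z hz
        have := sum_nz hF hM hm S hz
        exact_mod_cast this
      rw [sum_congr rfl this, sum_const, card_mu hF hM hm, nsmul_eq_mul]
    have e3 : ∑ z ∈ mu F M, ∑ x, ((nz S m z x : ℝ)) ^ 2 ≤
        s * (M * m) + s * (s - 1) * (m - 1) := by
      have := sum_sq_nz hM hm hF S
      have h5 : ((s * (M * m) + s * (s - 1) * (m - 1) : ℕ) : ℝ) =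
        s * (M * m) + s * (s - 1) * (m - 1) := by
        rw [Nat.cast_add, Nat.cast_mul, Nat.cast_mul, Nat.cast_mul, Nat.cast_mul,
          Nat.cast_sub hs0, Nat.cast_sub hm]
        simp
      rw [← h5]
      exact_mod_cast this
    rw [e1, e2]
    have hMm : (M : ℝ) * m = q - 1 := by rw [hFr]; ring
    have e4 : (s : ℝ) * (M * m) + s * (s - 1) * (m - 1) - 2 * c * (M * (s * m)) + M * q * c ^ 2
        = s * (q - m) * (1 - s / q) := by
      have h6 : 2 * c * (M * (s * m)) - M * q * c ^ 2 = s ^ 2 * m * (M * m) / q := by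
        rw [hc]; field_simp; ring
      have h7 : (s : ℝ) * (M * m) + s * (s - 1) * (m - 1) - 2 * c * (M * (s * m)) + M * q * c ^ 2
        = (s : ℝ) * (M * m) + s * (s - 1) * (m - 1) - s ^ 2 * m * (M * m) / q := by
        rw [← h6]; ring
      rw [h7, hMm]
      field_simp
      ring
    have e5 : (s : ℝ) * (q - m) * (1 - s / q) ≤ s * q := by
      have h8 : (0 : ℝ) ≤ s / q := div_nonneg hspos.le hqpos.le
      have h9 : (s : ℝ) / q ≤ 1 := by
        rw [div_le_one hqpos]
        exact_mod_cast card_le_univ S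
      have h10 : (0 : ℝ) ≤ q - m := by
        rw [hFr]
        have : (1 : ℝ) ≤ M := by exact_mod_cast hM
        nlinarith
      have h11 : (s : ℝ) * (q - m) * (1 - s / q) ≤ s * (q - m) * 1 := by
        apply mul_le_mul_of_nonneg_left
        · linarith
        · exact mul_nonneg hspos.le h10
      refine h11.trans ?_
      rw [mul_one]
      apply mul_le_mul_of_nonneg_left
      · linarith
      · exact hspos.le
    linarith
  have hvar1 : ∑ x, ((nz S m z x : ℝ) - c) ^ 2 ≤ s * q := by
    refine le_trans ?_ hvar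
    exact single_le_sum (f := fun z => ∑ x, ((nz S m z x : ℝ) - c) ^ 2)
      (fun z _ => sum_nonneg fun x _ => sq_nonneg _) hz
  set bad := univ.filter (fun x : F => 2 * M * nz S m z x < s) with hbad
  have hb : (bad.card : ℝ) * ((s : ℝ) / (4 * M)) ^ 2 ≤ s * q := by
    refine le_trans ?_ hvar1
    calc (bad.card : ℝ) * ((s : ℝ) / (4 * M)) ^ 2 = ∑ x ∈ bad, ((s : ℝ) / (4 * M)) ^ 2 := by
          simp
      _ ≤ ∑ x ∈ bad, ((nz S m z x : ℝ) - c) ^ 2 := by
          refine sum_le_sum fun x hx => ?_
          have hx' : 2 * M * nz S m z x < s := by simpa [hbad] using hx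
          have hx2 : (2 : ℝ) * M * nz S m z x < s := by exact_mod_cast hx'
          have h12 : (nz S m z x : ℝ) < s / (2 * M) := by
            rw [lt_div_iff₀ (by positivity)]; linarith
          have h13 : (s : ℝ) / (M) * (3 / 4) ≤ c := by
            rw [hc]
            have h14 : (3 : ℝ) / 4 * q ≤ M * m := by
              rw [hFr] at hq4 ⊢; linarith
            rw [div_mul_eq_mul_div, div_le_div_iff₀ hMpos hqpos]
            calc (s : ℝ) * (3 / 4) * q = s * (3 / 4 * q) := by ring
              _ ≤ s * (M * m) := mul_le_mul_of_nonneg_left h14 hspos.le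
              _ = s * m * M := by ring
          have h15 : (s : ℝ) / (4 * M) ≤ c - nz S m z x := by
            have h16 : (s : ℝ) / (4 * M) = s / M * (3 / 4) - s / (2 * M) := by
              field_simp; ring
            rw [h16]; linarith
          have h17 : (0 : ℝ) ≤ s / (4 * M) := by positivity
          nlinarith
      _ ≤ ∑ x, ((nz S m z x : ℝ) - c) ^ 2 :=
          sum_le_sum_of_subset_of_nonneg (subset_univ _) fun x _ _ => sq_nonneg _
  have hfin : (bad.card : ℝ) * s ≤ 16 * M ^ 2 * q := by
    have h18 : (bad.card : ℝ) * ((s : ℝ) / (4 * M)) ^ 2 =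
        ((bad.card : ℝ) * s) * s / (16 * M ^ 2) := by field_simp; ring
    rw [h18, div_le_iff₀ (by positivity)] at hb
    have h19 : ((bad.card : ℝ) * s) * s ≤ (16 * M ^ 2 * q) * s := by linarith
    exact le_of_mul_le_mul_right h19 hspos
  exact_mod_cast hfin

end Variance

/-- Elementary selection lemma: prescribed classes of differences. -/
theorem exists_sel (M K : ℕ) (hM : 0 < M) : ∀ D : ℕ, ∃ N : ℕ, ∀ (F : Type) [Field F] [Fintype F]
    [DecidableEq F] (m : ℕ), 0 < m → Fintype.card F = M * m + 1 → N < Fintype.card F →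
    ∀ S : ℕ → Finset F, (∀ i < K, Fintype.card F ≤ D * (S i).card) →
    ∀ z : ℕ → ℕ → F, (∀ i j, i < j → j < K → (z i j) ^ M = 1) →
    ∃ b : ℕ → F, (∀ i < K, b i ∈ S i) ∧ ∀ i j, i < j → j < K → (b j - b i) ^ m = z i j := by
  induction K with
  | zero =>
    intro D
    refine ⟨0, fun F _ _ _ m hm hF hN S hS z hz => ⟨fun _ => 0, fun i hi => ?_, fun i j _ hj => ?_⟩⟩
    · omega
    · omega
  | succ K ih =>
    intro D
    obtain ⟨N0, hN0⟩ := ih (2 * M * D)
    refine ⟨N0 + 16 * M ^ 2 * D ^ 2 * K + 4, fun F _ _ _ m hm hF hN S hS z hz => ?_⟩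
    set q := Fintype.card F with hq
    have hqpos : 0 < q := by omega
    -- bad sets
    set bad : ℕ → Finset F := fun j =>
      univ.filter (fun x : F => 2 * M * nz (S (j + 1)) m (z 0 (j + 1)) x < (S (j + 1)).card)
      with hbad
    have hbadc : ∀ j ∈ range K, (bad j).card ≤ 16 * M ^ 2 * D := by
      intro j hj
      rw [mem_range] at hj
      have h1 := card_bad hM hm hF (by omega) (S (j + 1)) (z := z 0 (j + 1))
        (mem_mu.2 (hz 0 (j + 1) (by omega) (by omega)))
      have h2 := hS (j + 1) (by omega)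
      have h3 : (bad j).card * (S (j + 1)).card ≤ 16 * M ^ 2 * D * (S (j + 1)).card := by
        calc (bad j).card * (S (j + 1)).card ≤ 16 * M ^ 2 * q := h1
          _ ≤ 16 * M ^ 2 * (D * (S (j + 1)).card) := Nat.mul_le_mul_left _ h2
          _ = _ := by ring
      have h4 : 0 < (S (j + 1)).card := by
        rcases Nat.eq_zero_or_pos (S (j + 1)).card with h | h
        · rw [h] at h2; omega
        · exact h
      exact Nat.le_of_mul_le_mul_right h3 h4
    have hun : ((range K).biUnion bad).card ≤ K * (16 * M ^ 2 * D) := by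
      refine card_biUnion_le.trans ?_
      refine (sum_le_card_nsmul _ _ _ hbadc).trans ?_
      simp
    have hex : ∃ x ∈ S 0, x ∉ (range K).biUnion bad := by
      by_contra hcon
      push Not at hcon
      have h5 : S 0 ⊆ (range K).biUnion bad := hcon
      have h6 := (card_le_card h5).trans hun
      have h7 := hS 0 (by omega)
      have h8 : q ≤ D * (K * (16 * M ^ 2 * D)) := h7.trans (Nat.mul_le_mul_left _ h6)
      have h9 : D * (K * (16 * M ^ 2 * D)) = 16 * M ^ 2 * D ^ 2 * K := by ring
      omega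
    obtain ⟨x0, hx0, hx0b⟩ := hex
    set S' : ℕ → Finset F := fun j => (S (j + 1)).filter (fun y => (y - x0) ^ m = z 0 (j + 1))
      with hS'
    have hS'c : ∀ j < K, q ≤ 2 * M * D * (S' j).card := by
      intro j hj
      have h1 : x0 ∉ bad j := by
        intro h
        exact hx0b (mem_biUnion.2 ⟨j, mem_range.2 hj, h⟩)
      have h2 : (S (j + 1)).card ≤ 2 * M * nz (S (j + 1)) m (z 0 (j + 1)) x0 := by
        by_contra h
        exact h1 (by simp only [hbad, mem_filter, mem_univ, true_and]; omega)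
      have h3 := hS (j + 1) (by omega)
      calc q ≤ D * (S (j + 1)).card := h3
        _ ≤ D * (2 * M * nz (S (j + 1)) m (z 0 (j + 1)) x0) := Nat.mul_le_mul_left _ h2
        _ = 2 * M * D * (S' j).card := by rw [nz]; ring
    obtain ⟨b', hb'1, hb'2⟩ := hN0 F m hm hF (by omega) S' hS'c (fun i j => z (i + 1) (j + 1))
      (fun i j hij hj => hz (i + 1) (j + 1) (by omega) (by omega))
    refine ⟨fun n => Nat.casesOn n x0 b', ?_, ?_⟩
    · intro i hi
      cases i with
      | zero => exact hx0
      | succ i =>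
        have := hb'1 i (by omega)
        rw [hS', mem_filter] at this
        exact this.1
    · intro i j hij hj
      cases j with
      | zero => omega
      | succ j =>
        cases i with
        | zero =>
          have := hb'1 j (by omega)
          rw [hS', mem_filter] at this
          exact this.2
        | succ i => exact hb'2 i j (by omega) (by omega)

end Pool.Agent.Helper621
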