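import Pool.Agent.Helper621.Count
import Pool.Agent.Helper621.Char
import Pool.Agent.Helper621.Cent

set_option autoImplicit false

namespace Pool.Agent.Helper621

open Classical

/-- a permutation moving at least two thirds of the points has a large displaced set -/
theorem exists_displaced {F : Type*} [Fintype F] (α : Equiv.Perm F) (q0 : ℕ)
    (h1 : 3 * (Finset.univ.filter (fun x => α x = x)).card ≤ Fintype.card F)
    (h2 : 9 * q0 ≤ 2 * Fintype.card F) : ∃ r : Fin q0 ↪ F, ∀ i j, α (r i) ≠ r j := by
  have key : ∀ j ≤ q0, ∃ R : Finset F, R.card = j ∧ ∀ x ∈ R, ∀ y ∈ R, α x ≠ y := by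
    intro j
    induction j with
    | zero => intro _; exact ⟨∅, by simp⟩
    | succ j ih =>
      intro hj
      obtain ⟨R, hRc, hR⟩ := ih (by omega)
      obtain ⟨y, hy⟩ : ∃ y, y ∉ (R ∪ R.image α) ∪ (R.image α.symm ∪
          Finset.univ.filter (fun x => α x = x)) := by
        by_contra hcon
        push Not at hcon
        have h3 : (Finset.univ : Finset F) ⊆ (R ∪ R.image α) ∪ (R.image α.symm ∪
          Finset.univ.filter (fun x => α x = x)) := fun y _ => hcon y
        have h4 := Finset.card_le_card h3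
        have h5 := Finset.card_union_le (R ∪ R.image α) (R.image α.symm ∪
          Finset.univ.filter (fun x => α x = x))
        have h6 := Finset.card_union_le R (R.image α)
        have h7 := Finset.card_union_le (R.image α.symm) (Finset.univ.filter (fun x => α x = x))
        have h8 : (R.image α).card ≤ R.card := Finset.card_image_le
        have h9 : (R.image α.symm).card ≤ R.card := Finset.card_image_le
        rw [Finset.card_univ] at h4
        omega
      simp only [Finset.mem_union, Finset.mem_image, Finset.mem_filter, Finset.mem_univ, true_and,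
        not_or, not_exists, not_and] at hy
      obtain ⟨⟨hy1, hy2⟩, hy3, hy4⟩ := hy
      refine ⟨insert y R, ?_, ?_⟩
      · rw [Finset.card_insert_of_notMem hy1, hRc]
      · intro x hx x' hx'
        rcases Finset.mem_insert.1 hx with hx1 | hx1
        · rcases Finset.mem_insert.1 hx' with hx2 | hx2
          · rw [hx1, hx2]; exact hy4
          · intro e
            rw [hx1] at e
            exact hy3 x' hx2 (by rw [← e, Equiv.symm_apply_apply])
        · rcases Finset.mem_insert.1 hx' with hx2 | hx2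
          · rw [hx2]; exact hy2 x hx1
          · exact hR x hx1 x' hx2
  obtain ⟨R, hRc, hR⟩ := key q0 le_rfl
  let e := (Finset.equivFinOfCardEq hRc).symm
  refine ⟨⟨fun i => (e i).1, fun i j h => e.injective (Subtype.ext h)⟩, ?_⟩
  intro i j
  exact hR _ (e i).2 _ (e j).2

theorem two_pow_le_fact (n : ℕ) : 2 ^ n ≤ (n + 1).factorial := by
  induction n with
  | zero => simp
  | succ n ih =>
    rw [Nat.factorial_succ, pow_succ]
    calc 2 ^ n * 2 ≤ (n + 1).factorial * 2 := Nat.mul_le_mul_right _ ih
      _ = 2 * (n + 1).factorial := by ring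
      _ ≤ (n + 1 + 1) * (n + 1).factorial := Nat.mul_le_mul_right _ (by omega)

theorem pow_aux (b : ℕ) : 2 * (b + 14) ^ 2 + 1 < 2 ^ (b + 9) := by
  induction b with
  | zero => norm_num
  | succ b ih =>
    have : 2 ^ (b + 1 + 9) = 2 * 2 ^ (b + 9) := by ring
    have h2 : 2 * (2 * (b + 14) ^ 2 + 1) =
      (2 * (b + 1 + 14) ^ 2 + 1) + (2 * b ^ 2 + 52 * b + 335) := by ring
    omega

theorem num_ineq (a : ℕ) (ha : 12 ≤ a) :
    (2 ^ (a + 2)) ^ (a + 2) * (2 ^ (a + 2)) ^ (a + 2) < (2 ^ (a - 3)).factorial := by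
  obtain ⟨b, rfl⟩ : ∃ b, a = b + 12 := ⟨a - 12, by omega⟩
  have h1 : b + 12 - 3 = b + 9 := by omega
  rw [h1, ← pow_mul, ← pow_add]
  have h2 := pow_aux b
  obtain ⟨q, hq⟩ : ∃ q, 2 ^ (b + 9) = q + 1 := ⟨2 ^ (b + 9) - 1, by
    have : 0 < 2 ^ (b + 9) := by positivity
    omega⟩
  rw [hq] at h2 ⊢
  calc 2 ^ ((b + 12 + 2) * (b + 12 + 2) + (b + 12 + 2) * (b + 12 + 2)) < 2 ^ q := by
        apply Nat.pow_lt_pow_right (by norm_num)
        nlinarith
    _ ≤ (q + 1).factorial := two_pow_le_fact q

section main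

variable {G : Type*} [Group G] [Fintype G] {m : ℕ} (z : G) (hz : z * z * z = 1) (ι : G → ℕ)
    (hι : Function.Injective ι)
    (ψ : {e // Pos z ι e} × Bool ↪ {δ : ZMod (2 * m + 1) // δ ≠ 0})

theorem exists_tau_none (h : Nat.card G < 2 * m) : ∃ δ, tau ψ δ = none := by
  by_contra hcon
  push Not at hcon
  have hsurj : Function.Surjective ψ := by
    intro δ
    obtain ⟨q, hq⟩ := Option.ne_none_iff_exists'.1 (hcon δ)
    exact ⟨q, psi_of_tau ψ hq⟩
  have h1 := Nat.card_le_card_of_surjective ψ hsurj
  rw [card_nonzero, Nat.card_prod] at h1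
  have h2 : Nat.card Bool = 2 := by simp
  rw [h2] at h1
  by_cases hn : ∃ e, Pos z ι e
  · -- the positive elements are at most half of the group
    have : 2 * Nat.card {e // Pos z ι e} ≤ Nat.card G := by
      let f : {e // Pos z ι e} × Bool → G := fun q => if q.2 = true then q.1.1 else q.1.1⁻¹
      have hf : Function.Injective f := by
        rintro ⟨⟨e, he⟩, b⟩ ⟨⟨e', he'⟩, b'⟩ h
        simp only [f] at h
        cases b <;> cases b' <;> simp at h
        · simp [h]
        · exfalso
          have h5 := he.2.2.2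
          have h6 := he'.2.2.2
          rw [← h, inv_inv] at h6
          omega
        · exfalso
          have h5 := he.2.2.2
          have h6 := he'.2.2.2
          rw [h, inv_inv] at h5
          omega
        · simp [h]
      have := Nat.card_le_card_of_injective f hf
      rw [Nat.card_prod, h2] at this
      omega
    omega
  · have : IsEmpty {e // Pos z ι e} := ⟨fun e => hn ⟨e.1, e.2⟩⟩
    simp at h1
    omega

theorem main_aut (k : ℕ) (hk : Nat.card (mkFrame z hz ι hι ψ).Label = 3 * (2 * k + 1))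
    (hm : Nat.card G + 1024 ≤ m) (hG : 2 ≤ Nat.card G) :
    ∃ T : Squag ((ZMod (2 * k + 1) × ZMod 3) ⊕ (G × Lev m)),
      ∀ σ : Equiv.Perm ((ZMod (2 * k + 1) × ZMod 3) ⊕ (G × Lev m)),
        (∀ x y, σ (T.op x y) = T.op (σ x) (σ y)) ↔
          σ ∈ (Frame.gact (ZMod (2 * k + 1) × ZMod 3) (Lev m) : G →* _).range := by
  have fcol : Finite (Col m) := inferInstance
  have flab : Fintype (mkFrame z hz ι hι ψ).Label := Fintype.ofFinite _
  have hlab := card_label z hz ι hι ψ
  have hdec := card_decomp z hz ι hι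
  have hna := card_notAllowed z hz ι hι ψ
  set S := bose _ (zmod_half k) with hS
  set n := Nat.card G with hn
  set h := Nat.card {e // Pos z ι e} with hh
  set κ := Nat.card {d : G // d = 1 ∨ d = z ∨ d = z⁻¹} with hκ
  set W := 2 * (2 * m + 1) * n with hW
  have hκpos : 1 ≤ κ := by
    have : Nonempty {d : G // d = 1 ∨ d = z ∨ d = z⁻¹} := ⟨⟨1, Or.inl rfl⟩⟩
    exact Nat.card_pos
  have hκ3 : κ ≤ 3 := by
    rw [hκ, Nat.card_eq_fintype_card, Fintype.card_subtype]
    have : (Finset.univ.filter (fun d => d = 1 ∨ d = z ∨ d = z⁻¹)) = {1, z, z⁻¹} := by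
      ext d; simp
    rw [this]
    exact Finset.card_le_three
  have hWbig : 2 * (2 * 1024 + 1) * n ≤ W := by
    rw [hW]
    apply Nat.mul_le_mul_right
    omega
  have hF : Fintype.card (ZMod (2 * k + 1) × ZMod 3) = 3 * (2 * k + 1) := by
    rw [Fintype.card_prod, ZMod.card, ZMod.card, mul_comm]
  have hsub : ∀ A : Finset (ZMod (2 * k + 1) × ZMod 3), S.Closed A → A ≠ Finset.univ →
      3 * A.card ≤ Fintype.card (ZMod (2 * k + 1) × ZMod 3) := by
    intro A hA hne
    rw [hF]
    by_contra hcon
    push Not at hcon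
    apply hne
    apply bose_sub (zmod_half k) hA
    · rw [ZMod.card]; omega
    · rw [ZMod.card]; exact ⟨k, rfl⟩
    · rw [ZMod.card]; omega
  have hWcard : Fintype.card (G × Lev m) = W := by
    rw [Fintype.card_prod, Fintype.card_prod, ZMod.card, Fintype.card_bool,
      ← Nat.card_eq_fintype_card]
    ring
  have hLcard : Fintype.card (mkFrame z hz ι hι ψ).Label = 3 * (2 * k + 1) := by
    rw [← Nat.card_eq_fintype_card, hk]
  set a := Nat.log 2 W with ha
  have ha1 : 2 ^ a ≤ W := Nat.pow_log_le_self 2 (by omega)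
  have ha2 : W < 2 ^ (a + 1) := Nat.lt_pow_succ_log_self (by norm_num) W
  have ha12 : 12 ≤ a := by
    by_contra hcon
    have : 2 ^ (a + 1) ≤ 2 ^ 12 := Nat.pow_le_pow_right (by norm_num) (by omega)
    omega
  have ha3 : 2 ^ (a + 2) = 2 * 2 ^ (a + 1) := by rw [← pow_succ']
  have ha4 : 2 ^ a = 8 * 2 ^ (a - 3) := by
    have : (8 : ℕ) = 2 ^ 3 := by norm_num
    rw [this, ← pow_add]; congr 1; omega
  obtain ⟨lam, hlam⟩ := (mkFrame z hz ι hι ψ).exists_lam S (by rw [hLcard, hF]) (2 ^ (a - 3))
    (a + 2) (by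
      intro α hα hne
      apply exists_displaced
      · apply hsub
        · intro x hx y hy
          simp only [Finset.mem_filter, Finset.mem_univ, true_and] at hx hy ⊢
          rw [hα, hx, hy]
        · intro e
          apply hne
          ext x : 1
          have hx := Finset.mem_univ x
          rw [← e] at hx
          simpa using hx
      · rw [hF, ← hk]
        omega) (by
      rw [hLcard, hWcard, ← hk, ha3]
      omega) (num_ineq a ha12)
  refine ⟨(mkFrame z hz ι hι ψ).total S lam, fun σ => ⟨fun hσ => ?_, ?_⟩⟩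
  · have hchar := (mkFrame z hz ι hι ψ).char_F S lam hsub (by
      rw [hF, ← hk, hna]
      omega) σ hσ
    obtain ⟨⟨α, s⟩, hαs⟩ := Equiv.Perm.mem_sumCongrHom_range_of_perm_mapsTo_inl (σ := σ) (by
      rintro _ ⟨v, rfl⟩
      obtain ⟨u, hu⟩ := hchar v
      exact ⟨u, hu.symm⟩)
    rw [Equiv.Perm.sumCongrHom_apply] at hαs
    have hl : ∀ u, σ (Sum.inl u) = Sum.inl (α u) := by intro u; rw [← hαs]; rfl
    have hr : ∀ w, σ (Sum.inr w) = Sum.inr (s w) := by intro w; rw [← hαs]; rfl
    have hα : ∀ x y, α (S.op x y) = S.op (α x) (α y) := by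
      intro x y
      have := hσ (Sum.inl x) (Sum.inl y)
      rw [hl, hl, Frame.total_inl_inl, Frame.total_inl_inl, hl] at this
      exact Sum.inl_injective this
    let π : Equiv.Perm (mkFrame z hz ι hι ψ).Label := lam.trans (α.trans lam.symm)
    have hπ : ∀ ℓ, π ℓ = lam.symm (α (lam ℓ)) := fun ℓ => rfl
    have hact : ∀ ℓ w, s ((mkFrame z hz ι hι ψ).act ℓ w) =
        (mkFrame z hz ι hι ψ).act (π ℓ) (s w) := by
      intro ℓ w
      have := hσ (Sum.inl (lam ℓ)) (Sum.inr w)
      rw [hl, hr, Frame.total_inl_inr, Frame.total_inl_inr, hr, Equiv.symm_apply_apply,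
        ← hπ] at this
      exact Sum.inr_injective this
    have hthird : ∀ w w', (mkFrame z hz ι hι ψ).third (s w) (s w') =
        Sum.map π s ((mkFrame z hz ι hι ψ).third w w') := by
      intro w w'
      have := hσ (Sum.inr w) (Sum.inr w')
      rw [hr, hr, Frame.total_inr_inr, Frame.total_inr_inr] at this
      rcases h1 : (mkFrame z hz ι hι ψ).third w w' with ℓ | w'' <;>
        rcases h2 : (mkFrame z hz ι hι ψ).third (s w) (s w') with ℓ' | w'''
      · rw [h1, h2] at this
        simp only [Sum.map_inl, hl, Sum.inl.injEq] at this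
        simp only [Sum.map_inl, hπ, this, Equiv.symm_apply_apply]
      · rw [h1, h2] at this
        simp [hl] at this
      · rw [h1, h2] at this
        simp [hr] at this
      · rw [h1, h2] at this
        simp only [Sum.map_inr, hr, Sum.inr.injEq, id] at this
        simp only [Sum.map_inr, this]
    have hα1 : α = 1 := hlam π s α hα ⟨hact, hthird⟩ (by
      intro ℓ
      rw [hπ, Equiv.apply_symm_apply])
    have hπ1 : ∀ ℓ, π ℓ = ℓ := by
      intro ℓ
      rw [hπ, hα1]
      simp
    obtain ⟨y, hy⟩ := centralizer z hz ι hι ψ (by omega) (exists_tau_none z ι ψ (by omega)) s (by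
      intro ℓ w
      rw [hact, hπ1])
    refine ⟨y, ?_⟩
    ext (u | w) : 1
    · rw [Frame.gact_inl, hl, hα1]
      rfl
    · rw [Frame.gact_inr, hr, hy]
  · rintro ⟨g, rfl⟩
    exact fun x y => Frame.gact_op _ S lam g x y

end main

end Pool.Agent.Helper621
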