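import Pool.Agent.Helper621.Squag

set_option autoImplicit false

namespace Pool.Agent.Helper621

open Classical

/-- Data for a partial triple system on `G × I` invariant under left multiplication by `G`. -/
structure Frame (G I Δ : Type*) [Group G] where
  col : I → I → Δ
  p : Δ → I → I
  p_ne : ∀ δ a, p δ a ≠ a
  p_p : ∀ δ a, p δ (p δ a) = a
  col_p : ∀ δ a, col a (p δ a) = δ
  p_col : ∀ a b, a ≠ b → p (col a b) a = b
  src : I → I → Bool
  src_anti : ∀ a b, a ≠ b → src b a = !src a b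
  z : G
  hz : z * z * z = 1
  pos : G → Prop
  pos_or : ∀ d, d * d ≠ 1 → d ≠ z → d ≠ z⁻¹ → (pos d ∨ pos d⁻¹)
  pos_inv : ∀ d, pos d → ¬ pos d⁻¹
  pos_sq : ∀ d, pos d → d * d ≠ 1
  pos_z : ∀ d, pos d → d ≠ z
  pos_z' : ∀ d, pos d → d ≠ z⁻¹
  ty : Δ → Option G
  ty_pos : ∀ δ e, ty δ = some e → pos e
  s : I → G → Δ
  ty_s : ∀ a e, pos e → ty (s a e) = some e
  src_s : ∀ a e, pos e → src a (p (s a e) a) = true
  s_uniq : ∀ δ e a, ty δ = some e → src a (p δ a) = true → δ = s a e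

namespace Frame

variable {G I Δ : Type*} [Group G] (Φ : Frame G I Δ)

theorem col_comm {a b : I} (h : a ≠ b) : Φ.col a b = Φ.col b a := by
  have h1 := Φ.p_col a b h
  have h2 : Φ.p (Φ.col a b) b = a := by
    have := Φ.p_p (Φ.col a b) a
    rwa [h1] at this
  have h3 := Φ.col_p (Φ.col a b) b
  rw [h2] at h3
  exact h3.symm

theorem src_p (δ : Δ) (a : I) : Φ.src (Φ.p δ a) a = !Φ.src a (Φ.p δ a) :=
  Φ.src_anti _ _ (Φ.p_ne δ a).symm

/-- which labels are used for one-factors -/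
def Allowed (δ : Δ) (g : G) : Prop := ∀ e, Φ.ty δ = some e → g ≠ 1 ∧ g ≠ e

/-- labels of one-factors -/
abbrev Label : Type _ := {t : G // t ≠ 1 ∧ t * t = 1} ⊕ {q : Δ × G // Φ.Allowed q.1 q.2}

/-- the one-factors -/
def act : Φ.Label → G × I → G × I
  | Sum.inl t, w => (w.1 * t.1, w.2)
  | Sum.inr q, w => (if Φ.src w.2 (Φ.p q.1.1 w.2) = true then w.1 * q.1.2 else w.1 * q.1.2⁻¹,
      Φ.p q.1.1 w.2)

/-- third point for a pair on levels `a ≠ b`, `a` the source -/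
noncomputable def trd (x : G) (a : I) (y : G) (b : I) : Φ.Label ⊕ (G × I) :=
  if h : Φ.Allowed (Φ.col a b) (x⁻¹ * y) then Sum.inl (Sum.inr ⟨(Φ.col a b, x⁻¹ * y), h⟩)
  else if x⁻¹ * y = 1 then Sum.inr (x * ((Φ.ty (Φ.col a b)).getD 1)⁻¹, a)
  else Sum.inr (y, a)

/-- third point for a pair on the same level -/
noncomputable def srd (x : G) (a : I) (y : G) : Φ.Label ⊕ (G × I) :=
  if x⁻¹ * y = 1 ∨ x⁻¹ * y = Φ.z ∨ x⁻¹ * y = Φ.z⁻¹ then Sum.inr (x * (x⁻¹ * y)⁻¹, a)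
  else if h : x⁻¹ * y ≠ 1 ∧ (x⁻¹ * y) * (x⁻¹ * y) = 1 then Sum.inl (Sum.inl ⟨x⁻¹ * y, h⟩)
  else if Φ.pos (x⁻¹ * y) then Sum.inr (y, Φ.p (Φ.s a (x⁻¹ * y)) a)
  else Sum.inr (x, Φ.p (Φ.s a (x⁻¹ * y)⁻¹) a)

/-- the third point -/
noncomputable def third (w w' : G × I) : Φ.Label ⊕ (G × I) :=
  if w.2 = w'.2 then Φ.srd w.1 w.2 w'.1
  else if Φ.src w.2 w'.2 = true then Φ.trd w.1 w.2 w'.1 w'.2
  else Φ.trd w'.1 w'.2 w.1 w.2

theorem sq_ne_z {t : G} (h1 : t ≠ 1) (h2 : t * t = 1) : t ≠ Φ.z ∧ t ≠ Φ.z⁻¹ := by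
  have key : ∀ u : G, u * u * u = 1 → t ≠ u := by
    intro u hu e
    apply h1
    rw [← e, h2, one_mul] at hu
    exact hu
  refine ⟨key _ Φ.hz, key _ ?_⟩
  have := congrArg (fun g => g⁻¹) Φ.hz
  simpa [mul_assoc] using this

theorem z_inv : Φ.z⁻¹ = Φ.z * Φ.z := by
  rw [inv_eq_iff_mul_eq_one]
  have := Φ.hz
  rwa [mul_assoc] at this

theorem third_z (x : G) (a : I) (d : G) (hd : d = 1 ∨ d = Φ.z ∨ d = Φ.z⁻¹) :
    Φ.third (x, a) (x * d, a) = Sum.inr (x * d⁻¹, a) := by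
  simp [third, srd, hd]

theorem third_sq (x : G) (a : I) (d : G) (h1 : d ≠ 1) (h2 : d * d = 1) :
    Φ.third (x, a) (x * d, a) = Sum.inl (Sum.inl ⟨d, h1, h2⟩) := by
  obtain ⟨h3, h4⟩ := Φ.sq_ne_z h1 h2
  simp [third, srd, h1, h2, h3, h4]

theorem pos_ne_one {e : G} (he : Φ.pos e) : e ≠ 1 := by
  intro h
  apply Φ.pos_sq e he
  rw [h, one_mul]

theorem third_pos (x : G) (a : I) (e : G) (he : Φ.pos e) :
    Φ.third (x, a) (x * e, a) = Sum.inr (x * e, Φ.p (Φ.s a e) a) := by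
  simp [third, srd, he, Φ.pos_ne_one he, Φ.pos_sq e he, Φ.pos_z e he, Φ.pos_z' e he]

theorem third_neg (x : G) (a : I) (e : G) (he : Φ.pos e) :
    Φ.third (x, a) (x * e⁻¹, a) = Sum.inr (x, Φ.p (Φ.s a e) a) := by
  have h1 : e⁻¹ ≠ Φ.z := by
    intro h; apply Φ.pos_z' e he; rw [← h, inv_inv]
  have h3 : e ≠ Φ.z := Φ.pos_z e he
  have h2 : ¬ (e⁻¹ * e⁻¹ = 1) := by
    intro h
    apply Φ.pos_sq e he
    have := congrArg (fun g => g⁻¹) h
    simpa using this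
  have h4 : ¬ Φ.pos e⁻¹ := Φ.pos_inv e he
  simp [third, srd, h4, Φ.pos_ne_one he, h1, h2, h3]

theorem third_allowed (x : G) (a : I) (δ : Δ) (g : G) (h : Φ.Allowed δ g)
    (hs : Φ.src a (Φ.p δ a) = true) :
    Φ.third (x, a) (x * g, Φ.p δ a) = Sum.inl (Sum.inr ⟨(δ, g), h⟩) := by
  have hne : a ≠ Φ.p δ a := (Φ.p_ne δ a).symm
  simp only [third, hne, if_false, hs, if_true, trd, Φ.col_p, inv_mul_cancel_left]
  rw [dif_pos h]

theorem third_one (x : G) (a : I) (δ : Δ) (e : G) (he : Φ.ty δ = some e)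
    (hs : Φ.src a (Φ.p δ a) = true) :
    Φ.third (x, a) (x, Φ.p δ a) = Sum.inr (x * e⁻¹, a) := by
  have hne : a ≠ Φ.p δ a := (Φ.p_ne δ a).symm
  have hna : ¬ Φ.Allowed δ 1 := by
    intro h
    exact (h e he).1 rfl
  simp [third, hne, hs, trd, Φ.col_p, hna, he]

theorem third_e (x : G) (a : I) (δ : Δ) (e : G) (he : Φ.ty δ = some e)
    (hs : Φ.src a (Φ.p δ a) = true) :
    Φ.third (x, a) (x * e, Φ.p δ a) = Sum.inr (x * e, a) := by
  have hne : a ≠ Φ.p δ a := (Φ.p_ne δ a).symm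
  have hna : ¬ Φ.Allowed δ e := by
    intro h
    exact (h e he).2 rfl
  have h1 := Φ.pos_ne_one (Φ.ty_pos δ e he)
  simp [third, hne, hs, trd, Φ.col_p, hna, h1]

theorem third_swap (w w' : G × I) (h : w.2 ≠ w'.2) : Φ.third w w' = Φ.third w' w := by
  unfold third
  have h' := h.symm
  rw [if_neg h, if_neg h']
  have := Φ.src_anti _ _ h
  cases hs : Φ.src w.2 w'.2 <;> simp [hs] at this <;> simp [this]

/-- case analysis: the possible pairs -/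
theorem pair_cases (w w' : G × I) :
    (∃ x a d, (d = 1 ∨ d = Φ.z ∨ d = Φ.z⁻¹) ∧ w = (x, a) ∧ w' = (x * d, a)) ∨
    (∃ x a d, d ≠ 1 ∧ d * d = 1 ∧ w = (x, a) ∧ w' = (x * d, a)) ∨
    (∃ x a e, Φ.pos e ∧ w = (x, a) ∧ w' = (x * e, a)) ∨
    (∃ x a e, Φ.pos e ∧ w = (x, a) ∧ w' = (x * e⁻¹, a)) ∨
    (∃ x a δ g, Φ.Allowed δ g ∧ Φ.src a (Φ.p δ a) = true ∧ w = (x, a) ∧ w' = (x * g, Φ.p δ a)) ∨
    (∃ x a δ g, Φ.Allowed δ g ∧ Φ.src a (Φ.p δ a) = true ∧ w' = (x, a) ∧ w = (x * g, Φ.p δ a)) ∨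
    (∃ x a e, Φ.pos e ∧ w = (x, a) ∧ w' = (x, Φ.p (Φ.s a e) a)) ∨
    (∃ x a e, Φ.pos e ∧ w' = (x, a) ∧ w = (x, Φ.p (Φ.s a e) a)) ∨
    (∃ x a e, Φ.pos e ∧ w = (x, a) ∧ w' = (x * e, Φ.p (Φ.s a e) a)) ∨
    (∃ x a e, Φ.pos e ∧ w' = (x, a) ∧ w = (x * e, Φ.p (Φ.s a e) a)) := by
  obtain ⟨x, a⟩ := w
  obtain ⟨y, b⟩ := w'
  by_cases hab : a = b
  · subst hab
    have hy : y = x * (x⁻¹ * y) := by simp
    by_cases h1 : x⁻¹ * y = 1 ∨ x⁻¹ * y = Φ.z ∨ x⁻¹ * y = Φ.z⁻¹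
    · left
      exact ⟨x, a, x⁻¹ * y, h1, rfl, by simp⟩
    · push Not at h1
      right
      by_cases h2 : (x⁻¹ * y) * (x⁻¹ * y) = 1
      · left
        exact ⟨x, a, x⁻¹ * y, h1.1, h2, rfl, by simp⟩
      · right
        rcases Φ.pos_or _ h2 h1.2.1 h1.2.2 with h | h
        · left
          exact ⟨x, a, x⁻¹ * y, h, rfl, by simp⟩
        · right; left
          exact ⟨x, a, _, h, rfl, by simp⟩
  · right; right; right; right
    have key : ∀ (x : G) (a : I) (y : G) (b : I), a ≠ b → Φ.src a b = true →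
        (∃ x' a' δ g, Φ.Allowed δ g ∧ Φ.src a' (Φ.p δ a') = true ∧ (x, a) = (x', a') ∧
          (y, b) = (x' * g, Φ.p δ a')) ∨
        (∃ x' a' e, Φ.pos e ∧ (x, a) = (x', a') ∧ (y, b) = (x', Φ.p (Φ.s a' e) a')) ∨
        (∃ x' a' e, Φ.pos e ∧ (x, a) = (x', a') ∧ (y, b) = (x' * e, Φ.p (Φ.s a' e) a')) := by
      intro x a y b hab hs
      have hb := Φ.p_col a b hab
      by_cases hA : Φ.Allowed (Φ.col a b) (x⁻¹ * y)
      · left
        refine ⟨x, a, Φ.col a b, x⁻¹ * y, hA, ?_, rfl, ?_⟩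
        · rw [hb, hs]
        · rw [hb]; simp
      · right
        unfold Allowed at hA
        push Not at hA
        obtain ⟨e, he, hh⟩ := hA
        have hse : Φ.col a b = Φ.s a e := Φ.s_uniq _ _ _ he (by rw [hb, hs])
        by_cases h1 : x⁻¹ * y = 1
        · left
          refine ⟨x, a, e, Φ.ty_pos _ _ he, rfl, ?_⟩
          rw [← hse, hb, (inv_mul_eq_one.1 h1)]
        · right
          have h2 := hh h1
          refine ⟨x, a, e, Φ.ty_pos _ _ he, rfl, ?_⟩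
          rw [← hse, hb, ← h2]; simp
    cases hs : Φ.src a b
    · have hs' : Φ.src b a = true := by
        rw [Φ.src_anti a b hab, hs]; rfl
      rcases key y b x a (Ne.symm hab) hs' with ⟨x', a', δ, g, h1, h2, h3, h4⟩ | ⟨x', a', e, h1, h2, h3⟩ |
        ⟨x', a', e, h1, h2, h3⟩
      · right; left; exact ⟨x', a', δ, g, h1, h2, h3, h4⟩
      · right; right; right; left; exact ⟨x', a', e, h1, h2, h3⟩
      · right; right; right; right; right; exact ⟨x', a', e, h1, h2, h3⟩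
    · rcases key x a y b hab hs with ⟨x', a', δ, g, h1, h2, h3, h4⟩ | ⟨x', a', e, h1, h2, h3⟩ |
        ⟨x', a', e, h1, h2, h3⟩
      · left; exact ⟨x', a', δ, g, h1, h2, h3, h4⟩
      · right; right; left; exact ⟨x', a', e, h1, h2, h3⟩
      · right; right; right; right; left; exact ⟨x', a', e, h1, h2, h3⟩

theorem third_s_one (x : G) (a : I) (e : G) (he : Φ.pos e) :
    Φ.third (x, a) (x, Φ.p (Φ.s a e) a) = Sum.inr (x * e⁻¹, a) :=
  Φ.third_one x a _ e (Φ.ty_s a e he) (Φ.src_s a e he)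

theorem third_s_e (x : G) (a : I) (e : G) (he : Φ.pos e) :
    Φ.third (x, a) (x * e, Φ.p (Φ.s a e) a) = Sum.inr (x * e, a) :=
  Φ.third_e x a _ e (Φ.ty_s a e he) (Φ.src_s a e he)

theorem third_s_one' (x : G) (a : I) (e : G) (he : Φ.pos e) :
    Φ.third (x, Φ.p (Φ.s a e) a) (x, a) = Sum.inr (x * e⁻¹, a) := by
  rw [third_swap _ _ _ (Φ.p_ne _ _), third_s_one _ _ _ _ he]

theorem third_s_e' (x : G) (a : I) (e : G) (he : Φ.pos e) :
    Φ.third (x * e, Φ.p (Φ.s a e) a) (x, a) = Sum.inr (x * e, a) := by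
  rw [third_swap _ _ _ (Φ.p_ne _ _), third_s_e _ _ _ _ he]

theorem third_allowed' (x : G) (a : I) (δ : Δ) (g : G) (h : Φ.Allowed δ g)
    (hs : Φ.src a (Φ.p δ a) = true) :
    Φ.third (x * g, Φ.p δ a) (x, a) = Sum.inl (Sum.inr ⟨(δ, g), h⟩) := by
  rw [third_swap _ _ _ (Φ.p_ne _ _), third_allowed _ _ _ _ _ h hs]

theorem third_comm (w w' : G × I) : Φ.third w w' = Φ.third w' w := by
  by_cases h : w.2 = w'.2
  · rcases Φ.pair_cases w w' with ⟨x, a, d, hd, rfl, rfl⟩ | ⟨x, a, d, h1, h2, rfl, rfl⟩ |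
      ⟨x, a, e, he, rfl, rfl⟩ | ⟨x, a, e, he, rfl, rfl⟩ | ⟨x, a, δ, g, h1, h2, rfl, rfl⟩ |
      ⟨x, a, δ, g, h1, h2, rfl, rfl⟩ | ⟨x, a, e, he, rfl, rfl⟩ | ⟨x, a, e, he, rfl, rfl⟩ |
      ⟨x, a, e, he, rfl, rfl⟩ | ⟨x, a, e, he, rfl, rfl⟩
    · rw [third_z _ _ _ _ hd]
      have : Φ.third (x * d, a) (x * d * d⁻¹, a) = _ := third_z Φ (x * d) a d⁻¹ (by
        rcases hd with rfl | rfl | rfl <;> simp)
      simp only [mul_inv_cancel_right, inv_inv] at this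
      rw [this]
      congr 2
      rcases hd with rfl | rfl | rfl
      · simp
      · rw [z_inv, mul_assoc]
      · rw [inv_inv, mul_assoc, ← mul_inv_rev, ← z_inv, inv_inv]
    · rw [third_sq _ _ _ _ h1 h2]
      have : Φ.third (x * d, a) (x * d * d, a) = _ := third_sq Φ (x * d) a d h1 h2
      have e : x * d * d = x := by rw [mul_assoc, h2, mul_one]
      rw [e] at this
      rw [this]
    · rw [third_pos _ _ _ _ he]
      have := third_neg Φ (x * e) a e he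
      rw [mul_inv_cancel_right] at this
      rw [this]
    · rw [third_neg _ _ _ _ he]
      have := third_pos Φ (x * e⁻¹) a e he
      rw [inv_mul_cancel_right] at this
      rw [this]
    all_goals exact absurd h (by simp [Φ.p_ne, (Φ.p_ne _ _).symm])
  · exact third_swap _ _ _ h

theorem third_self (w : G × I) : Φ.third w w = Sum.inr w := by
  obtain ⟨x, a⟩ := w
  have := Φ.third_z x a 1 (Or.inl rfl)
  simpa using this

theorem act_act (u : Φ.Label) (w : G × I) : Φ.act u (Φ.act u w) = w := by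
  obtain ⟨x, a⟩ := w
  rcases u with ⟨t, h1, h2⟩ | ⟨⟨δ, g⟩, h⟩
  · simp [act, mul_assoc, h2]
  · simp only [act, Φ.p_p, Φ.src_p]
    cases Φ.src a (Φ.p δ a) <;> simp

theorem act_ne (u : Φ.Label) (w : G × I) : Φ.act u w ≠ w := by
  obtain ⟨x, a⟩ := w
  rcases u with ⟨t, h1, h2⟩ | ⟨⟨δ, g⟩, h⟩
  · simp [act, h1]
  · simp [act, Φ.p_ne]

theorem third_act (u : Φ.Label) (w : G × I) : Φ.third w (Φ.act u w) = Sum.inl u := by
  obtain ⟨x, a⟩ := w
  rcases u with ⟨t, h1, h2⟩ | ⟨⟨δ, g⟩, h⟩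
  · exact third_sq _ _ _ _ h1 h2
  · simp only [act]
    cases hs : Φ.src a (Φ.p δ a)
    · have hs' : Φ.src (Φ.p δ a) (Φ.p δ (Φ.p δ a)) = true := by
        rw [Φ.p_p, Φ.src_p, hs]; rfl
      have := third_allowed' Φ (x * g⁻¹) (Φ.p δ a) δ g h hs'
      rw [Φ.p_p, inv_mul_cancel_right] at this
      simpa using this
    · simpa using third_allowed Φ x a δ g h hs

theorem act_of_third {w w' : G × I} {u : Φ.Label} (h : Φ.third w w' = Sum.inl u) :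
    Φ.act u w = w' := by
  rcases Φ.pair_cases w w' with ⟨x, a, d, hd, rfl, rfl⟩ | ⟨x, a, d, h1, h2, rfl, rfl⟩ |
      ⟨x, a, e, he, rfl, rfl⟩ | ⟨x, a, e, he, rfl, rfl⟩ | ⟨x, a, δ, g, h1, h2, rfl, rfl⟩ |
      ⟨x, a, δ, g, h1, h2, rfl, rfl⟩ | ⟨x, a, e, he, rfl, rfl⟩ | ⟨x, a, e, he, rfl, rfl⟩ |
      ⟨x, a, e, he, rfl, rfl⟩ | ⟨x, a, e, he, rfl, rfl⟩
  · rw [third_z _ _ _ _ hd] at h; cases h
  · rw [third_sq _ _ _ _ h1 h2] at h
    cases h; rfl
  · rw [third_pos _ _ _ _ he] at h; cases h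
  · rw [third_neg _ _ _ _ he] at h; cases h
  · rw [third_allowed _ _ _ _ _ h1 h2] at h
    cases h
    simp [act, h2]
  · rw [third_allowed' _ _ _ _ _ h1 h2] at h
    cases h
    simp [act, h2, Φ.p_p, Φ.src_p]
  · rw [third_s_one _ _ _ _ he] at h; cases h
  · rw [third_s_one' _ _ _ _ he] at h; cases h
  · rw [third_s_e _ _ _ _ he] at h; cases h
  · rw [third_s_e' _ _ _ _ he] at h; cases h

theorem third_third {w w' w'' : G × I} (h : Φ.third w w' = Sum.inr w'') :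
    Φ.third w w'' = Sum.inr w' := by
  rcases Φ.pair_cases w w' with ⟨x, a, d, hd, rfl, rfl⟩ | ⟨x, a, d, h1, h2, rfl, rfl⟩ |
      ⟨x, a, e, he, rfl, rfl⟩ | ⟨x, a, e, he, rfl, rfl⟩ | ⟨x, a, δ, g, h1, h2, rfl, rfl⟩ |
      ⟨x, a, δ, g, h1, h2, rfl, rfl⟩ | ⟨x, a, e, he, rfl, rfl⟩ | ⟨x, a, e, he, rfl, rfl⟩ |
      ⟨x, a, e, he, rfl, rfl⟩ | ⟨x, a, e, he, rfl, rfl⟩
  · rw [third_z _ _ _ _ hd] at h; cases h
    rw [third_z _ _ _ d⁻¹ (by rcases hd with rfl | rfl | rfl <;> simp), inv_inv]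
  · rw [third_sq _ _ _ _ h1 h2] at h; cases h
  · rw [third_pos _ _ _ _ he] at h; cases h
    exact third_s_e _ _ _ _ he
  · rw [third_neg _ _ _ _ he] at h; cases h
    exact third_s_one _ _ _ _ he
  · rw [third_allowed _ _ _ _ _ h1 h2] at h; cases h
  · rw [third_allowed' _ _ _ _ _ h1 h2] at h; cases h
  · rw [third_s_one _ _ _ _ he] at h; cases h
    exact third_neg _ _ _ _ he
  · rw [third_s_one' _ _ _ _ he] at h; cases h
    have := third_s_e' Φ (x * e⁻¹) a e he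
    rw [inv_mul_cancel_right] at this
    exact this
  · rw [third_s_e _ _ _ _ he] at h; cases h
    exact third_pos _ _ _ _ he
  · rw [third_s_e' _ _ _ _ he] at h; cases h
    have := third_s_one' Φ (x * e) a e he
    rw [mul_inv_cancel_right] at this
    exact this

end Frame

end Pool.Agent.Helper621
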