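import Pool.Agent.Helper621.Sel2

/-!
# Selection with prescribed classes preserving injectivity of finitely many affine systems
-/

namespace Pool.Agent.Helper621

set_option linter.unusedSectionVars false

open Finset

theorem getD_append_sing {F : Type} (l : List F) (y : F) (i : ℕ) (d : F) :
    (l ++ [y]).getD i d = if i = l.length then y else l.getD i d := by
  by_cases h : i = l.length
  · subst h
    simp [List.getD_eq_getElem?_getD]
  · rw [if_neg h]
    rcases lt_or_gt_of_ne h with h1 | h1
    · simp [List.getD_eq_getElem?_getD, List.getElem?_append_left h1]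
    · rw [List.getD_eq_default _ _ (by simp; omega), List.getD_eq_default _ _ (by omega)]

/-- Selection with prescribed classes and generic position for finitely many systems. -/
theorem exists_sel_generic (M K p cT : ℕ) (hM : 0 < M) : ∃ N : ℕ, ∀ (F : Type) [Field F]
    [Fintype F] [DecidableEq F] (m : ℕ), 0 < m → Fintype.card F = M * m + 1 →
    N < Fintype.card F →
    ∀ z : ℕ → ℕ → F, (∀ i j, i < j → j < K → (z i j) ^ M = 1) →
    ∀ (Ty I : Type) [Fintype Ty] [Fintype I], Fintype.card Ty ≤ cT →
    ∀ (Φ0 : Ty → (Fin p → F) →ₗ[F] (I → F)) (Φ1 : Ty → ℕ → (Fin p → F) →ₗ[F] (I → F))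
      (vs : ℕ → F),
    ∃ b : ℕ → F, (∀ i j, i < j → j < K → (b j - b i) ^ m = z i j) ∧
      ∀ τ, Function.Injective (Φ0 τ + ∑ i ∈ range K, vs i • Φ1 τ i) →
        Function.Injective (Φ0 τ + ∑ i ∈ range K, b i • Φ1 τ i) := by
  obtain ⟨N, hN⟩ := exists_sel_avoid M K (cT * p) hM 1
  refine ⟨N, fun F _ _ _ m hm hF hNF z hz Ty I _ _ hcT Φ0 Φ1 vs => ?_⟩
  classical
  let sys : List F → Ty → (Fin p → F) →ₗ[F] (I → F) := fun l τ =>
    Φ0 τ + ∑ i ∈ range K, (l.getD i (vs i)) • Φ1 τ i
  obtain ⟨b, _, hb1, hb2⟩ := hN F m hm hF hNF (fun _ => univ)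
    (fun i _ => by rw [one_mul, card_univ]) z hz
    (fun l => ∀ τ, Function.Injective (sys [] τ) → Function.Injective (sys l τ))
    (fun τ h => h) (by
      intro l hl hgood
      have hstep : ∀ τ : Ty, ∃ bad : Finset F, bad.card ≤ p ∧ ∀ y, y ∉ bad →
          Function.Injective (sys [] τ) → Function.Injective (sys (l ++ [y]) τ) := by
        intro τ
        by_cases hinj : Function.Injective (sys [] τ)
        · have h1 := hgood τ hinj
          have hdec : ∀ y, sys (l ++ [y]) τ =
              (sys l τ - vs l.length • Φ1 τ l.length) + y • Φ1 τ l.length := by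
            intro y
            have hmem : l.length ∈ range K := mem_range.2 hl
            have e1 : ∑ i ∈ range K, ((l ++ [y]).getD i (vs i)) • Φ1 τ i =
                y • Φ1 τ l.length + ∑ i ∈ (range K).erase l.length,
                  (l.getD i (vs i)) • Φ1 τ i := by
              rw [← add_sum_erase _ _ hmem, getD_append_sing, if_pos rfl]
              congr 1
              refine sum_congr rfl fun i hi => ?_
              rw [getD_append_sing, if_neg (ne_of_mem_erase hi)]
            have e2 : ∑ i ∈ range K, (l.getD i (vs i)) • Φ1 τ i =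
                vs l.length • Φ1 τ l.length + ∑ i ∈ (range K).erase l.length,
                  (l.getD i (vs i)) • Φ1 τ i := by
              rw [← add_sum_erase _ _ hmem, List.getD_eq_default _ _ le_rfl]
            simp only [sys]
            rw [e1, e2]
            abel
          obtain ⟨bad, hbad1, hbad2⟩ := pencil_injective
            (sys l τ - vs l.length • Φ1 τ l.length) (Φ1 τ l.length) (vs l.length) (by
              rw [sub_add_cancel]; exact h1)
          refine ⟨bad, hbad1, fun y hy _ => ?_⟩
          rw [hdec]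
          exact hbad2 y hy
        · exact ⟨∅, by simp, fun y _ h => absurd h hinj⟩
      choose bad hbad1 hbad2 using hstep
      refine ⟨univ.biUnion bad, ?_, ?_⟩
      · refine card_biUnion_le.trans ?_
        refine (sum_le_card_nsmul _ _ p fun τ _ => hbad1 τ).trans ?_
        rw [smul_eq_mul, card_univ]
        exact Nat.mul_le_mul_right _ hcT
      · intro y hy τ h
        exact hbad2 τ y (fun h' => hy (mem_biUnion.2 ⟨τ, mem_univ _, h'⟩)) h)
  refine ⟨b, hb1, fun τ h => ?_⟩
  have h0 : sys [] τ = Φ0 τ + ∑ i ∈ range K, vs i • Φ1 τ i := by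
    simp [sys]
  have h2 := hb2 τ (by rw [h0]; exact h)
  have h3 : sys ((List.range K).map b) τ = Φ0 τ + ∑ i ∈ range K, b i • Φ1 τ i := by
    simp only [sys]
    congr 1
    refine sum_congr rfl fun i hi => ?_
    congr 1
    have hi' : i < K := mem_range.1 hi
    rw [List.getD_eq_getElem _ _ (by simpa using hi')]
    simp
  rw [h3] at h2
  exact h2

end Pool.Agent.Helper621
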