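import Pool.Agent.Helper621.Cyc

/-!
# From a base family over `F × W` to a design with a group action
-/

namespace Pool.Agent.Helper621

set_option linter.unusedSectionVars false

open Finset

/-- A base family of blocks in `F × W` for the class map `x ↦ x ^ m`, `card F = M * m + 1`. -/
structure BaseFam (F W I : Type) [Field F] (k M m : ℕ) where
  B : I → Finset (F × W)
  card_eq : ∀ i, (B i).card = k
  inj : ∀ i β w w', (β, w) ∈ B i → (β, w') ∈ B i → w = w'
  ex : ∀ w w' z, z ^ M = 1 → ∃ i β β', (β, w) ∈ B i ∧ (β', w') ∈ B i ∧ (β' - β) ^ m = z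
  uq : ∀ i j w w' β β' γ γ', (β, w) ∈ B i → (β', w') ∈ B i → (γ, w) ∈ B j → (γ', w') ∈ B j →
    β ≠ β' → (β' - β) ^ m = (γ' - γ) ^ m →
    i = j ∧ ((γ = β ∧ γ' = β') ∨ (γ = -β ∧ γ' = -β' ∧ ∀ δ u, (δ, u) ∈ B i → (-δ, u) ∈ B i))

section Act

variable {G F : Type} [Group G] [Field F]

/-- Translation action of `G` on functions. -/
def act (g : G) (v : G → F) : G → F := fun x => v (g⁻¹ * x)

theorem act_one (v : G → F) : act 1 v = v := by funext x; simp [act]

theorem act_mul (g h : G) (v : G → F) : act (g * h) v = act g (act h v) := by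
  funext x; simp [act, mul_assoc]

theorem act_smul (g : G) (c : F) (v : G → F) : act g (c • v) = c • act g v := by
  funext x; simp [act]

theorem act_add (g : G) (v w : G → F) : act g (v + w) = act g v + act g w := by
  funext x; simp [act]

theorem act_zero (g : G) : act g (0 : G → F) = 0 := by funext x; simp [act]

theorem act_eq_zero {g : G} {v : G → F} (h : act g v = 0) : v = 0 := by
  have : act g⁻¹ (act g v) = v := by rw [← act_mul, inv_mul_cancel, act_one]
  rw [← this, h, act_zero]

/-- Projective equivalence up to the group. -/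
def projSetoid (G F : Type) [Group G] [Field F] : Setoid (G → F) where
  r v v' := ∃ (g : G) (c : F), c ≠ 0 ∧ v' = c • act g v
  iseqv := by
    refine ⟨fun v => ⟨1, 1, one_ne_zero, by rw [act_one, one_smul]⟩, ?_, ?_⟩
    · rintro v v' ⟨g, c, hc, rfl⟩
      refine ⟨g⁻¹, c⁻¹, inv_ne_zero hc, ?_⟩
      rw [act_smul, ← act_mul, inv_mul_cancel, act_one, smul_smul, inv_mul_cancel₀ hc, one_smul]
    · rintro v v' v'' ⟨g, c, hc, rfl⟩ ⟨g', c', hc', rfl⟩
      refine ⟨g' * g, c' * c, mul_ne_zero hc' hc, ?_⟩
      rw [act_smul, ← act_mul, smul_smul]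

/-- chosen representative -/
noncomputable def rep (v : G → F) : G → F := (Quotient.mk (projSetoid G F) v).out

theorem rep_spec (v : G → F) : ∃ (g : G) (c : F), c ≠ 0 ∧ rep v = c • act g v := by
  have h : (projSetoid G F).r (rep v) v := Quotient.mk_out (s := projSetoid G F) v
  exact (projSetoid G F).symm' h

theorem rep_eq {v v' : G → F} {g : G} {c : F} (hc : c ≠ 0) (h : v' = c • act g v) :
    rep v' = rep v := by
  unfold rep
  congr 1
  exact (Quotient.sound (s := projSetoid G F) ⟨g, c, hc, h⟩ :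
    (Quotient.mk (projSetoid G F) v) = Quotient.mk (projSetoid G F) v').symm

/-- The invariant set of directions. -/
def dirSet (G F : Type) [Group G] [Field F] (m : ℕ) : Set (G → F) :=
  {u | u ≠ 0 ∧ ∃ (g : G) (h : F), h ^ m = 1 ∧ u = h • act g (rep u)}

theorem dirSet_ne {m : ℕ} {u : G → F} (hu : u ∈ dirSet G F m) : u ≠ 0 := hu.1

theorem dirSet_ex {m : ℕ} {v : G → F} (hv : v ≠ 0) : ∃ c : F, c ≠ 0 ∧ c • v ∈ dirSet G F m := by
  obtain ⟨g, c, hc, hr⟩ := rep_spec v
  refine ⟨c, hc, smul_ne_zero hc hv, g⁻¹, 1, one_pow m, ?_⟩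
  have h1 : rep (c • v) = rep v := rep_eq (g := 1) hc (by rw [act_one])
  rw [h1, hr, act_smul, ← act_mul, inv_mul_cancel, act_one, one_smul]

theorem dirSet_act {m : ℕ} {u : G → F} (g : G) (hu : u ∈ dirSet G F m) :
    act g u ∈ dirSet G F m := by
  obtain ⟨hu0, g', h, hh, hu'⟩ := hu
  refine ⟨fun h0 => hu0 (act_eq_zero h0), g * g', h, hh, ?_⟩
  have h1 : rep (act g u) = rep u := rep_eq (g := g) (c := 1) one_ne_zero (by rw [one_smul])
  rw [h1, act_mul, ← act_smul, ← hu']

theorem eigen_pow {g : G} {c : F} {v : G → F} (h : act g v = c • v) (n : ℕ) :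
    act (g ^ n) v = c ^ n • v := by
  induction n with
  | zero => rw [pow_zero, pow_zero, act_one, one_smul]
  | succ n ih => rw [pow_succ, act_mul, h, act_smul, ih, smul_smul, pow_succ, mul_comm]

theorem eigen_root [Finite G] {g : G} {c : F} {v : G → F} (hv : v ≠ 0)
    (h : act g v = c • v) : c ^ Nat.card G = 1 := by
  have h1 := eigen_pow h (Nat.card G)
  rw [pow_card_eq_one', act_one] at h1
  have h2 : (c ^ Nat.card G - 1) • v = 0 := by rw [sub_smul, one_smul, ← h1, sub_self]
  rcases smul_eq_zero.1 h2 with h3 | h3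
  · exact sub_eq_zero.1 h3
  · exact absurd h3 hv

theorem dirSet_smul [Finite G] {m : ℕ} (hm : 0 < m) (hG : Nat.card G ∣ m) {u : G → F}
    (hu : u ∈ dirSet G F m) {c : F} (hc : c ≠ 0) : c • u ∈ dirSet G F m ↔ c ^ m = 1 := by
  obtain ⟨hu0, g, h, hh, hu'⟩ := hu
  have h1 : rep (c • u) = rep u := rep_eq (g := 1) hc (by rw [act_one])
  have hh0 : h ≠ 0 := by
    rintro rfl
    rw [zero_pow hm.ne'] at hh
    exact zero_ne_one hh
  constructor
  · rintro ⟨_, g', h', hh', hc'⟩
    rw [h1] at hc'
    have hv0 : rep u ≠ 0 := by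
      intro h0
      rw [h0, act_zero, smul_zero] at hu'
      exact hu0 hu'
    have h2 : act (g'⁻¹ * g) (rep u) = ((c * h)⁻¹ * h') • rep u := by
      have h3 : (c * h) • act g (rep u) = h' • act g' (rep u) := by
        rw [mul_smul, ← hu', hc']
      have h4 : act g (rep u) = ((c * h)⁻¹ * h') • act g' (rep u) := by
        rw [mul_smul, ← h3, smul_smul, inv_mul_cancel₀ (mul_ne_zero hc hh0), one_smul]
      rw [act_mul, h4, act_smul, ← act_mul, inv_mul_cancel, act_one]
    have h5 := eigen_root hv0 h2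
    have h6 : ((c * h)⁻¹ * h') ^ m = 1 := by
      obtain ⟨d, hd⟩ := hG
      rw [hd, pow_mul, h5, one_pow]
    rw [mul_pow, inv_pow, mul_pow, hh, hh', mul_one, mul_one, inv_eq_one] at h6
    exact h6
  · intro hcm
    refine ⟨smul_ne_zero hc hu0, g, c * h, by rw [mul_pow, hcm, hh, one_mul], ?_⟩
    rw [h1, mul_smul, ← hu']

end Act

section Geo

variable {G F W I : Type} [Group G] [Finite G] [Field F] [Fintype F] [DecidableEq F]

/-- the permutation of functions -/
def actPerm (g : G) : Equiv.Perm (G → F) where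
  toFun := act g
  invFun := act g⁻¹
  left_inv v := by rw [← act_mul, inv_mul_cancel, act_one]
  right_inv v := by rw [← act_mul, mul_inv_cancel, act_one]

/-- the action on the point set -/
def pointHom (G F W : Type) [Group G] [Field F] :
    G →* Equiv.Perm (Option ((G → F) × W)) where
  toFun g := Equiv.optionCongr ((actPerm g).prodCongr (Equiv.refl W))
  map_one' := by
    ext x
    rcases x with _ | ⟨v, w⟩
    · rfl
    · simp [actPerm, act_one]
  map_mul' g h := by
    ext x
    rcases x with _ | ⟨v, w⟩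
    · rfl
    · simp [actPerm, act_mul]

theorem pointHom_none (g : G) : pointHom G F W g none = none := rfl

theorem pointHom_some (g : G) (v : G → F) (w : W) :
    pointHom G F W g (some (v, w)) = some (act g v, w) := rfl

theorem pointHom_injective [Nonempty W] : Function.Injective (pointHom G F W) := by
  classical
  intro g h hgh
  obtain ⟨w⟩ := (inferInstance : Nonempty W)
  have h1 := congrArg (fun σ : Equiv.Perm (Option ((G → F) × W)) =>
    σ (some (Pi.single 1 (1 : F), w))) hgh
  simp only [pointHom_some, Option.some.injEq, Prod.mk.injEq, and_true] at h1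
  have h2 := congrFun h1 g
  simp only [act, inv_mul_cancel, Pi.single_eq_same] at h2
  by_contra hne
  rw [Pi.single_eq_of_ne] at h2
  · exact one_ne_zero h2
  · intro h3
    exact hne (inv_mul_eq_one.1 h3).symm

theorem exists_design_of_baseFam [DecidableEq W] [Nonempty W] [Fintype G] [DecidableEq G]
    {k M m : ℕ} (hm : 0 < m)
    (hF : Fintype.card F = M * m + 1) (hG : Nat.card G ∣ m) (BF : BaseFam F W I k M m)
    (H : Set (Finset (Option W))) (hH1 : ∀ B ∈ H, B.card = k)
    (hH2 : ∀ x y : Option W, x ≠ y → ∃! B, B ∈ H ∧ x ∈ B ∧ y ∈ B) :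
    ∃ 𝓑 : Set (Finset (Option ((G → F) × W))), (∀ B ∈ 𝓑, B.card = k) ∧
      (∀ x y, x ≠ y → ∃! B, B ∈ 𝓑 ∧ x ∈ B ∧ y ∈ B) ∧
      ∀ g : G, ∀ B ∈ 𝓑, B.map (pointHom G F W g).toEmbedding ∈ 𝓑 := by
  let cross : (G → F) → (G → F) → I → Finset (Option ((G → F) × W)) := fun a u i =>
    (BF.B i).image (fun x => some (a + x.1 • u, x.2))
  let hole : (G → F) → Finset (Option W) → Finset (Option ((G → F) × W)) := fun v B =>
    B.image (Option.map (fun w => (v, w)))
  have hcross0 : ∀ a u i, none ∉ cross a u i := by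
    intro a u i h
    simp [cross] at h
  have hcross : ∀ a u i v w, some (v, w) ∈ cross a u i ↔
      ∃ β, (β, w) ∈ BF.B i ∧ a + β • u = v := by
    intro a u i v w
    simp [cross]
  have hhole0 : ∀ v B, none ∈ hole v B ↔ none ∈ B := by
    intro v B
    simp only [hole, mem_image]
    constructor
    · rintro ⟨x, hx, hx2⟩
      rcases x with _ | w
      · exact hx
      · simp at hx2
    · intro h
      exact ⟨none, h, rfl⟩
  have hhole : ∀ v B v' w, some (v', w) ∈ hole v B ↔ v' = v ∧ some w ∈ B := by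
    intro v B v' w
    simp only [hole, mem_image]
    constructor
    · rintro ⟨x, hx, hx2⟩
      rcases x with _ | w'
      · simp at hx2
      · simp only [Option.map_some, Option.some.injEq, Prod.mk.injEq] at hx2
        obtain ⟨rfl, rfl⟩ := hx2
        exact ⟨rfl, hx⟩
    · rintro ⟨rfl, h⟩
      exact ⟨some w, h, rfl⟩
  set U := dirSet G F m with hU
  refine ⟨{B | ∃ a u i, u ∈ U ∧ B = cross a u i} ∪ {B | ∃ v H0, H0 ∈ H ∧ B = hole v H0},
    ?_, ?_, ?_⟩
  · rintro B (⟨a, u, i, hu, rfl⟩ | ⟨v, H0, hH0, rfl⟩)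
    · simp only [cross]
      rw [card_image_of_injOn, BF.card_eq]
      rintro ⟨β, w⟩ h1 ⟨β', w'⟩ h2 h3
      simp only [Option.some.injEq, Prod.mk.injEq, add_right_inj] at h3
      obtain ⟨h4, rfl⟩ := h3
      have h5 : (β - β') • u = 0 := by rw [sub_smul, h4, sub_self]
      rcases smul_eq_zero.1 h5 with h6 | h6
      · rw [sub_eq_zero.1 h6]
      · exact absurd h6 (dirSet_ne hu)
    · simp only [hole]
      rw [card_image_of_injective, hH1 _ hH0]
      apply Option.map_injective
      intro w w' h
      simpa using h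
  · -- pairs
    -- the hole case
    have key1 : ∀ (v : G → F) (x y : Option W), x ≠ y →
        (∀ a u i, u ∈ U → ¬ ((Option.map (fun w => (v, w)) x) ∈ cross a u i ∧
          (Option.map (fun w => (v, w)) y) ∈ cross a u i)) →
        ((∀ v' H0, (Option.map (fun w => (v, w)) x) ∈ hole v' H0 →
          (Option.map (fun w => (v, w)) y) ∈ hole v' H0 → v' = v)) →
        ∃! B, B ∈ ({B | ∃ a u i, u ∈ U ∧ B = cross a u i} ∪
          {B | ∃ v H0, H0 ∈ H ∧ B = hole v H0} : Set (Finset (Option ((G → F) × W)))) ∧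
          (Option.map (fun w => (v, w)) x) ∈ B ∧ (Option.map (fun w => (v, w)) y) ∈ B := by
      intro v x y hxy hnc hv'
      obtain ⟨B, ⟨hB, hx, hy⟩, huniq⟩ := hH2 x y hxy
      refine ⟨hole v B, ⟨Or.inr ⟨v, B, hB, rfl⟩, mem_image_of_mem _ hx, mem_image_of_mem _ hy⟩, ?_⟩
      have hmem : ∀ (z : Option W) H0, (Option.map (fun w => (v, w)) z) ∈ hole v H0 ↔ z ∈ H0 := by
        intro z H0
        rcases z with _ | w
        · exact hhole0 v H0
        · rw [Option.map_some, hhole]; simp
      rintro C ⟨(⟨a, u, i, hu, rfl⟩ | ⟨v', H0, hH0, rfl⟩), hx', hy'⟩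
      · exact absurd ⟨hx', hy'⟩ (hnc a u i hu)
      · obtain rfl := hv' v' H0 hx' hy'
        rw [huniq H0 ⟨hH0, (hmem _ _).1 hx', (hmem _ _).1 hy'⟩]
    have key2 : ∀ (v v' : G → F) (w w' : W), v ≠ v' →
        ∃! B, B ∈ ({B | ∃ a u i, u ∈ U ∧ B = cross a u i} ∪
          {B | ∃ v H0, H0 ∈ H ∧ B = hole v H0} : Set (Finset (Option ((G → F) × W)))) ∧
          some (v, w) ∈ B ∧ some (v', w') ∈ B := by
      intro v v' w w' hne
      have hd : v' - v ≠ 0 := sub_ne_zero.2 hne.symm
      obtain ⟨c, hc, hcU⟩ := dirSet_ex (m := m) hd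
      have hcm : (c⁻¹ ^ m) ^ M = 1 := class_pow hF (inv_ne_zero hc)
      obtain ⟨i, β, β', hβ, hβ', hcl⟩ := BF.ex w w' (c⁻¹ ^ m) hcm
      have hbb : β' - β ≠ 0 := by
        intro h0
        rw [h0, zero_pow hm.ne'] at hcl
        exact pow_ne_zero m (inv_ne_zero hc) hcl.symm
      have hu : (β' - β)⁻¹ • (v' - v) ∈ U := by
        have h1 : (β' - β)⁻¹ • (v' - v) = ((β' - β)⁻¹ * c⁻¹) • (c • (v' - v)) := by
          rw [smul_smul, mul_assoc, inv_mul_cancel₀ hc, mul_one]
        rw [h1]
        rw [dirSet_smul hm hG hcU (mul_ne_zero (inv_ne_zero hbb) (inv_ne_zero hc))]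
        rw [mul_pow, ← hcl, inv_pow, inv_mul_cancel₀ (pow_ne_zero _ hbb)]
      set u := (β' - β)⁻¹ • (v' - v) with hudef
      have hmul : (β' - β) • u = v' - v := by
        rw [hudef, smul_smul, mul_inv_cancel₀ hbb, one_smul]
      refine ⟨cross (v - β • u) u i, ⟨Or.inl ⟨_, u, i, hu, rfl⟩, ?_, ?_⟩, ?_⟩
      · rw [hcross]
        exact ⟨β, hβ, sub_add_cancel _ _⟩
      · rw [hcross]
        refine ⟨β', hβ', ?_⟩
        have : v - β • u + β' • u = v + (β' - β) • u := by rw [sub_smul]; abel
        rw [this, hmul]; abel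
      · rintro C ⟨(⟨a, u', j, hu', rfl⟩ | ⟨v'', H0, hH0, rfl⟩), hx', hy'⟩
        · rw [hcross] at hx' hy'
          obtain ⟨γ, hγ, hγe⟩ := hx'
          obtain ⟨γ', hγ', hγe'⟩ := hy'
          have hdiff : (γ' - γ) • u' = v' - v := by rw [← hγe, ← hγe', sub_smul]; abel
          have hgg : γ' - γ ≠ 0 := by
            intro h0
            rw [h0, zero_smul] at hdiff
            exact hd hdiff.symm
          have hu'eq : u' = ((γ' - γ)⁻¹ * (β' - β)) • u := by
            rw [mul_smul, hmul, ← hdiff, smul_smul, inv_mul_cancel₀ hgg, one_smul]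
          have hcl2 : (β' - β) ^ m = (γ' - γ) ^ m := by
            rw [hu'eq] at hu'
            have h2 := (dirSet_smul hm hG hu (mul_ne_zero (inv_ne_zero hgg) hbb)).1 hu'
            rw [mul_pow, inv_pow] at h2
            have h3 := mul_inv_cancel_left₀ (pow_ne_zero m hgg) ((β' - β) ^ m)
            rw [h2, mul_one] at h3
            exact h3.symm
          have hbne : β ≠ β' := fun h => hbb (by rw [h, sub_self])
          obtain ⟨rfl, hcase⟩ := BF.uq i j w w' β β' γ γ' hβ hβ' hγ hγ' hbne hcl2
          rcases hcase with ⟨rfl, rfl⟩ | ⟨rfl, rfl, hneg⟩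
          · have h4 : u' = u := by
              rw [hu'eq, inv_mul_cancel₀ hbb, one_smul]
            have h5 : a = v - γ • u := by rw [← hγe, h4]; abel
            rw [h4, h5]
          · have h4 : u' = -u := by
              rw [hu'eq]
              have : (-β' - -β)⁻¹ * (β' - β) = -1 := by
                have : -β' - -β = -(β' - β) := by ring
                rw [this, inv_neg, neg_mul, inv_mul_cancel₀ hbb]
              rw [this, neg_smul, one_smul]
            have h5 : a = v - β • u := by rw [← hγe, h4, neg_smul, smul_neg, neg_neg]; abel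
            rw [h4, h5]
            -- symmetric block
            ext x
            rcases x with _ | ⟨y, t⟩
            · simp only [hcross0]
            · rw [hcross, hcross]
              constructor
              · rintro ⟨δ, hδ, rfl⟩
                exact ⟨-δ, hneg δ t hδ, by rw [neg_smul, smul_neg]⟩
              · rintro ⟨δ, hδ, rfl⟩
                exact ⟨-δ, hneg δ t hδ, by rw [neg_smul, smul_neg, neg_neg]⟩
        · rw [hhole] at hx' hy'
          exact absurd (hx'.1.trans hy'.1.symm) hne
    intro x y hxy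
    rcases x with _ | ⟨v, w⟩ <;> rcases y with _ | ⟨v', w'⟩
    · exact absurd rfl hxy
    · refine key1 v' none (some w') (by simp) ?_ ?_
      · rintro a u i _ ⟨h, _⟩
        exact hcross0 a u i h
      · intro v'' H0 _ h
        exact ((hhole _ _ _ _).1 h).1.symm
    · refine key1 v (some w) none (by simp) ?_ ?_
      · rintro a u i _ ⟨_, h⟩
        exact hcross0 a u i h
      · intro v'' H0 h _
        exact ((hhole _ _ _ _).1 h).1.symm
    · by_cases hv : v = v'
      · subst hv
        have hw : w ≠ w' := by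
          rintro rfl
          exact hxy rfl
        refine key1 v (some w) (some w') (by simpa using hw) ?_ ?_
        · rintro a u i hu ⟨h1, h2⟩
          obtain ⟨β, hβ, he⟩ := (hcross _ _ _ _ _).1 h1
          obtain ⟨β', hβ', he'⟩ := (hcross _ _ _ _ _).1 h2
          have h5 : (β - β') • u = 0 := by
            rw [sub_smul, sub_eq_zero]
            exact add_left_cancel (he.trans he'.symm)
          rcases smul_eq_zero.1 h5 with h6 | h6
          · rw [sub_eq_zero.1 h6] at hβ
            exact hw (BF.inj i β' w w' hβ hβ')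
          · exact dirSet_ne hu h6
        · intro v'' H0 h _
          exact ((hhole _ _ _ _).1 h).1.symm
      · exact key2 v v' w w' hv
  · rintro g B (⟨a, u, i, hu, rfl⟩ | ⟨v, H0, hH0, rfl⟩)
    · left
      refine ⟨act g a, act g u, i, dirSet_act g hu, ?_⟩
      ext x
      simp only [mem_map, Equiv.coe_toEmbedding]
      rcases x with _ | ⟨y, t⟩
      · simp only [hcross0, iff_false]
        rintro ⟨x, hx, hx2⟩
        rcases x with _ | ⟨y, t⟩
        · exact hcross0 _ _ _ hx
        · rw [pointHom_some] at hx2; simp at hx2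
      · rw [hcross]
        constructor
        · rintro ⟨x, hx, hx2⟩
          rcases x with _ | ⟨y', t'⟩
          · rw [pointHom_none] at hx2; simp at hx2
          · rw [pointHom_some] at hx2
            simp only [Option.some.injEq, Prod.mk.injEq] at hx2
            obtain ⟨rfl, rfl⟩ := hx2
            obtain ⟨β, hβ, rfl⟩ := (hcross _ _ _ _ _).1 hx
            exact ⟨β, hβ, by rw [act_add, act_smul]⟩
        · rintro ⟨β, hβ, rfl⟩
          refine ⟨some (a + β • u, t), (hcross _ _ _ _ _).2 ⟨β, hβ, rfl⟩, ?_⟩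
          rw [pointHom_some, act_add, act_smul]
    · right
      refine ⟨act g v, H0, hH0, ?_⟩
      ext x
      simp only [mem_map, Equiv.coe_toEmbedding]
      rcases x with _ | ⟨y, t⟩
      · rw [hhole0]
        constructor
        · rintro ⟨x, hx, hx2⟩
          rcases x with _ | ⟨y, t⟩
          · exact (hhole0 _ _).1 hx
          · rw [pointHom_some] at hx2; simp at hx2
        · intro h
          exact ⟨none, (hhole0 _ _).2 h, pointHom_none g⟩
      · rw [hhole]
        constructor
        · rintro ⟨x, hx, hx2⟩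
          rcases x with _ | ⟨y', t'⟩
          · rw [pointHom_none] at hx2; simp at hx2
          · rw [pointHom_some] at hx2
            simp only [Option.some.injEq, Prod.mk.injEq] at hx2
            obtain ⟨rfl, rfl⟩ := hx2
            obtain ⟨rfl, h⟩ := (hhole _ _ _ _).1 hx
            exact ⟨rfl, h⟩
        · rintro ⟨rfl, h⟩
          exact ⟨some (v, t), (hhole _ _ _ _).2 ⟨rfl, h⟩, pointHom_some g v t⟩

end Geo

end Pool.Agent.Helper621
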