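import Pool.Agent.Helper621.Geo

/-!
# From a base family over `F × W` to a design, general version with varying hole designs
-/

namespace Pool.Agent.Helper621

set_option linter.unusedSectionVars false

open Finset

section Act2

variable {G Ω F : Type} [Group G] [MulAction G Ω] [Field F]

/-- Action of `G` on functions on a `G`-set. -/
def act2 (g : G) (v : Ω → F) : Ω → F := fun x => v (g⁻¹ • x)

theorem act2_one (v : Ω → F) : act2 (1 : G) v = v := by funext x; simp [act2]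

theorem act2_mul (g h : G) (v : Ω → F) : act2 (g * h) v = act2 g (act2 h v) := by
  funext x; simp [act2, mul_smul]

theorem act2_smul (g : G) (c : F) (v : Ω → F) : act2 g (c • v) = c • act2 g v := by
  funext x; simp [act2]

theorem act2_add (g : G) (v w : Ω → F) : act2 g (v + w) = act2 g v + act2 g w := by
  funext x; simp [act2]

theorem act2_zero (g : G) : act2 g (0 : Ω → F) = 0 := by funext x; simp [act2]

theorem act2_eq_zero {g : G} {v : Ω → F} (h : act2 g v = 0) : v = 0 := by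
  have : act2 g⁻¹ (act2 g v) = v := by rw [← act2_mul, inv_mul_cancel, act2_one]
  rw [← this, h, act2_zero]

/-- Projective equivalence up to the group. -/
def projSetoid2 (G Ω F : Type) [Group G] [MulAction G Ω] [Field F] :
    Setoid (Ω → F) where
  r v v' := ∃ (g : G) (c : F), c ≠ 0 ∧ v' = c • act2 g v
  iseqv := by
    refine ⟨fun v => ⟨1, 1, one_ne_zero, by rw [act2_one, one_smul]⟩, ?_, ?_⟩
    · rintro v v' ⟨g, c, hc, rfl⟩
      refine ⟨g⁻¹, c⁻¹, inv_ne_zero hc, ?_⟩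
      rw [act2_smul, ← act2_mul, inv_mul_cancel, act2_one, smul_smul, inv_mul_cancel₀ hc, one_smul]
    · rintro v v' v'' ⟨g, c, hc, rfl⟩ ⟨g', c', hc', rfl⟩
      refine ⟨g' * g, c' * c, mul_ne_zero hc' hc, ?_⟩
      rw [act2_smul, ← act2_mul, smul_smul]

/-- chosen representative -/
noncomputable def rep2 (G : Type) [Group G] [MulAction G Ω] (v : Ω → F) : Ω → F :=
  (Quotient.mk (projSetoid2 G Ω F) v).out

theorem rep2_spec (v : Ω → F) : ∃ (g : G) (c : F), c ≠ 0 ∧ rep2 G v = c • act2 g v := by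
  have h : (projSetoid2 G Ω F).r (rep2 G v) v := Quotient.mk_out (s := projSetoid2 G Ω F) v
  exact (projSetoid2 G Ω F).symm' h

theorem rep2_eq {v v' : Ω → F} {g : G} {c : F} (hc : c ≠ 0) (h : v' = c • act2 g v) :
    rep2 G v' = rep2 G v := by
  unfold rep2
  congr 1
  exact (Quotient.sound (s := projSetoid2 G Ω F) ⟨g, c, hc, h⟩ :
    (Quotient.mk (projSetoid2 G Ω F) v) = Quotient.mk (projSetoid2 G Ω F) v').symm

/-- The invariant set of directions. -/
def dirSet2 (G Ω F : Type) [Group G] [MulAction G Ω] [Field F] (m : ℕ) : Set (Ω → F) :=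
  {u | u ≠ 0 ∧ ∃ (g : G) (h : F), h ^ m = 1 ∧ u = h • act2 g (rep2 G u)}

theorem dirSet2_ne {m : ℕ} {u : Ω → F} (hu : u ∈ dirSet2 G Ω F m) : u ≠ 0 := hu.1

theorem dirSet2_ex {m : ℕ} {v : Ω → F} (hv : v ≠ 0) : ∃ c : F, c ≠ 0 ∧ c • v ∈ dirSet2 G Ω F m := by
  obtain ⟨g, c, hc, hr⟩ := rep2_spec (G := G) v
  refine ⟨c, hc, smul_ne_zero hc hv, g⁻¹, 1, one_pow m, ?_⟩
  have h1 : rep2 G (c • v) = rep2 G v := rep2_eq (g := 1) hc (by rw [act2_one])
  rw [h1, hr, act2_smul, ← act2_mul, inv_mul_cancel, act2_one, one_smul]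

theorem dirSet2_act {m : ℕ} {u : Ω → F} (g : G) (hu : u ∈ dirSet2 G Ω F m) :
    act2 g u ∈ dirSet2 G Ω F m := by
  obtain ⟨hu0, g', h, hh, hu'⟩ := hu
  refine ⟨fun h0 => hu0 (act2_eq_zero h0), g * g', h, hh, ?_⟩
  have h1 : rep2 G (act2 g u) = rep2 G u := rep2_eq (g := g) (c := 1) one_ne_zero (by rw [one_smul])
  rw [h1, act2_mul, ← act2_smul, ← hu']

theorem eigen2_pow {g : G} {c : F} {v : Ω → F} (h : act2 g v = c • v) (n : ℕ) :
    act2 (g ^ n) v = c ^ n • v := by
  induction n with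
  | zero => rw [pow_zero, pow_zero, act2_one, one_smul]
  | succ n ih => rw [pow_succ, act2_mul, h, act2_smul, ih, smul_smul, pow_succ, mul_comm]

theorem eigen2_root [Finite G] {g : G} {c : F} {v : Ω → F} (hv : v ≠ 0)
    (h : act2 g v = c • v) : c ^ Nat.card G = 1 := by
  have h1 := eigen2_pow h (Nat.card G)
  rw [pow_card_eq_one', act2_one] at h1
  have h2 : (c ^ Nat.card G - 1) • v = 0 := by rw [sub_smul, one_smul, ← h1, sub_self]
  rcases smul_eq_zero.1 h2 with h3 | h3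
  · exact sub_eq_zero.1 h3
  · exact absurd h3 hv

theorem dirSet2_smul [Finite G] {m : ℕ} (hm : 0 < m) (hG : Nat.card G ∣ m) {u : Ω → F}
    (hu : u ∈ dirSet2 G Ω F m) {c : F} (hc : c ≠ 0) : c • u ∈ dirSet2 G Ω F m ↔ c ^ m = 1 := by
  obtain ⟨hu0, g, h, hh, hu'⟩ := hu
  have h1 : rep2 G (c • u) = rep2 G u := rep2_eq (g := 1) hc (by rw [act2_one])
  have hh0 : h ≠ 0 := by
    rintro rfl
    rw [zero_pow hm.ne'] at hh
    exact zero_ne_one hh
  constructor
  · rintro ⟨_, g', h', hh', hc'⟩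
    rw [h1] at hc'
    have hv0 : rep2 G u ≠ 0 := by
      intro h0
      rw [h0, act2_zero, smul_zero] at hu'
      exact hu0 hu'
    have h2 : act2 (g'⁻¹ * g) (rep2 G u) = ((c * h)⁻¹ * h') • rep2 G u := by
      have h3 : (c * h) • act2 g (rep2 G u) = h' • act2 g' (rep2 G u) := by
        rw [mul_smul, ← hu', hc']
      have h4 : act2 g (rep2 G u) = ((c * h)⁻¹ * h') • act2 g' (rep2 G u) := by
        rw [mul_smul, ← h3, smul_smul, inv_mul_cancel₀ (mul_ne_zero hc hh0), one_smul]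
      rw [act2_mul, h4, act2_smul, ← act2_mul, inv_mul_cancel, act2_one]
    have h5 := eigen2_root hv0 h2
    have h6 : ((c * h)⁻¹ * h') ^ m = 1 := by
      obtain ⟨d, hd⟩ := hG
      rw [hd, pow_mul, h5, one_pow]
    rw [mul_pow, inv_pow, mul_pow, hh, hh', mul_one, mul_one, inv_eq_one] at h6
    exact h6
  · intro hcm
    refine ⟨smul_ne_zero hc hu0, g, c * h, by rw [mul_pow, hcm, hh, one_mul], ?_⟩
    rw [h1, mul_smul, ← hu']

end Act2

section Geo2

variable {G Ω F W I : Type} [Group G] [Finite G] [MulAction G Ω] [Fintype Ω] [DecidableEq Ω]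
  [Field F] [Fintype F] [DecidableEq F] [DecidableEq W]

/-- the permutation of functions -/
def actPerm2 (g : G) : Equiv.Perm (Ω → F) where
  toFun := act2 g
  invFun := act2 g⁻¹
  left_inv v := by rw [← act2_mul, inv_mul_cancel, act2_one]
  right_inv v := by rw [← act2_mul, mul_inv_cancel, act2_one]

/-- the action on the point set -/
def pointHom2 (G Ω F W : Type) [Group G] [MulAction G Ω] [Field F] :
    G →* Equiv.Perm (Option ((Ω → F) × W)) where
  toFun g := Equiv.optionCongr ((actPerm2 g).prodCongr (Equiv.refl W))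
  map_one' := by
    ext x
    rcases x with _ | ⟨v, w⟩
    · rfl
    · simp [actPerm2, act2_one]
  map_mul' g h := by
    ext x
    rcases x with _ | ⟨v, w⟩
    · rfl
    · simp [actPerm2, act2_mul]

theorem pointHom2_none (g : G) : pointHom2 G Ω F W g none = none := rfl

theorem pointHom2_some (g : G) (v : Ω → F) (w : W) :
    pointHom2 G Ω F W g (some (v, w)) = some (act2 g v, w) := rfl

theorem pointHom2_injective [Nonempty W] [FaithfulSMul G Ω] :
    Function.Injective (pointHom2 G Ω F W) := by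
  intro g h hgh
  obtain ⟨w⟩ := (inferInstance : Nonempty W)
  have h0 : g⁻¹ = h⁻¹ := by
    apply eq_of_smul_eq_smul (α := Ω)
    intro x
    by_contra hne
    have h1 := congrArg (fun σ : Equiv.Perm (Option ((Ω → F) × W)) =>
      σ (some (Pi.single (g⁻¹ • x) (1 : F), w))) hgh
    simp only [pointHom2_some, Option.some.injEq, Prod.mk.injEq, and_true] at h1
    have h2 := congrFun h1 x
    simp only [act2, Pi.single_eq_same] at h2
    rw [Pi.single_eq_of_ne] at h2
    · exact one_ne_zero h2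
    · exact fun h3 => hne h3.symm
  exact inv_injective h0

/-- cross block -/
def crossB (B : I → Finset (F × W)) (a u : Ω → F) (i : I) : Finset (Option ((Ω → F) × W)) :=
  (B i).image (fun x => some (a + x.1 • u, x.2))

/-- hole block -/
def holeB (v : Ω → F) (H0 : Finset (Option W)) : Finset (Option ((Ω → F) × W)) :=
  H0.image (Option.map (fun w => (v, w)))

/-- all blocks -/
def blocks2 (U : Set (Ω → F)) (B : I → Finset (F × W)) (H : (Ω → F) → Set (Finset (Option W))) :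
    Set (Finset (Option ((Ω → F) × W))) :=
  {C | ∃ a u i, u ∈ U ∧ C = crossB B a u i} ∪ {C | ∃ v H0, H0 ∈ H v ∧ C = holeB v H0}

theorem none_notMem_crossB (B : I → Finset (F × W)) (a u : Ω → F) (i : I) :
    none ∉ crossB B a u i := by
  intro h
  simp [crossB] at h

theorem mem_crossB (B : I → Finset (F × W)) (a u : Ω → F) (i : I) (v : Ω → F) (w : W) :
    some (v, w) ∈ crossB B a u i ↔ ∃ β, (β, w) ∈ B i ∧ a + β • u = v := by
  simp [crossB]

theorem none_mem_holeB (v : Ω → F) (H0 : Finset (Option W)) : none ∈ holeB v H0 ↔ none ∈ H0 := by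
  simp only [holeB, mem_image]
  constructor
  · rintro ⟨x, hx, hx2⟩
    rcases x with _ | w
    · exact hx
    · simp at hx2
  · intro h
    exact ⟨none, h, rfl⟩

theorem mem_holeB (v : Ω → F) (H0 : Finset (Option W)) (v' : Ω → F) (w : W) :
    some (v', w) ∈ holeB v H0 ↔ v' = v ∧ some w ∈ H0 := by
  simp only [holeB, mem_image]
  constructor
  · rintro ⟨x, hx, hx2⟩
    rcases x with _ | w'
    · simp at hx2
    · simp only [Option.map_some, Option.some.injEq, Prod.mk.injEq] at hx2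
      obtain ⟨rfl, rfl⟩ := hx2
      exact ⟨rfl, hx⟩
  · rintro ⟨rfl, h⟩
    exact ⟨some w, h, rfl⟩

theorem mem_holeB_map (v : Ω → F) (z : Option W) (H0 : Finset (Option W)) :
    (Option.map (fun w => (v, w)) z) ∈ holeB v H0 ↔ z ∈ H0 := by
  rcases z with _ | w
  · exact none_mem_holeB v H0
  · rw [Option.map_some, mem_holeB]; simp

theorem crossB_neg (B : I → Finset (F × W)) (a u : Ω → F) (i : I)
    (hneg : ∀ δ u, (δ, u) ∈ B i → (-δ, u) ∈ B i) : crossB B a (-u) i = crossB B a u i := by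
  ext x
  rcases x with _ | ⟨y, t⟩
  · simp only [none_notMem_crossB]
  · rw [mem_crossB, mem_crossB]
    constructor
    · rintro ⟨δ, hδ, rfl⟩
      exact ⟨-δ, hneg δ t hδ, by rw [neg_smul, smul_neg]⟩
    · rintro ⟨δ, hδ, rfl⟩
      exact ⟨-δ, hneg δ t hδ, by rw [neg_smul, smul_neg, neg_neg]⟩

variable {k M m : ℕ}

theorem card_crossB (BF : BaseFam F W I k M m) {a u : Ω → F} (hu : u ≠ 0) (i : I) :
    (crossB BF.B a u i).card = k := by
  unfold crossB
  rw [card_image_of_injOn, BF.card_eq]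
  rintro ⟨β, w⟩ h1 ⟨β', w'⟩ h2 h3
  simp only [Option.some.injEq, Prod.mk.injEq, add_right_inj] at h3
  obtain ⟨h4, rfl⟩ := h3
  have h5 : (β - β') • u = 0 := by rw [sub_smul, h4, sub_self]
  rcases smul_eq_zero.1 h5 with h6 | h6
  · rw [sub_eq_zero.1 h6]
  · exact absurd h6 hu

theorem crossB_same (BF : BaseFam F W I k M m) {a u : Ω → F} (hu : u ≠ 0) {i : I} {v : Ω → F}
    {w w' : W} (h1 : some (v, w) ∈ crossB BF.B a u i) (h2 : some (v, w') ∈ crossB BF.B a u i) :
    w = w' := by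
  obtain ⟨β, hβ, he⟩ := (mem_crossB _ _ _ _ _ _).1 h1
  obtain ⟨β', hβ', he'⟩ := (mem_crossB _ _ _ _ _ _).1 h2
  have h5 : (β - β') • u = 0 := by
    rw [sub_smul, sub_eq_zero]
    exact add_left_cancel (he.trans he'.symm)
  rcases smul_eq_zero.1 h5 with h6 | h6
  · rw [sub_eq_zero.1 h6] at hβ
    exact BF.inj i β' w w' hβ hβ'
  · exact absurd h6 hu

theorem cross_exists (hm : 0 < m)
    (hF : Fintype.card F = M * m + 1) (hG : Nat.card G ∣ m) (BF : BaseFam F W I k M m)
    {v v' : Ω → F} (w w' : W) (hne : v ≠ v') :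
    ∃ a u i, u ∈ dirSet2 G Ω F m ∧ some (v, w) ∈ crossB BF.B a u i ∧
      some (v', w') ∈ crossB BF.B a u i ∧
      ∀ a' u' i', u' ∈ dirSet2 G Ω F m → some (v, w) ∈ crossB BF.B a' u' i' →
        some (v', w') ∈ crossB BF.B a' u' i' → crossB BF.B a' u' i' = crossB BF.B a u i ∧
          i' = i := by
  have hd : v' - v ≠ 0 := sub_ne_zero.2 hne.symm
  obtain ⟨c, hc, hcU⟩ := dirSet2_ex (G := G) (m := m) hd
  have hcm : (c⁻¹ ^ m) ^ M = 1 := class_pow hF (inv_ne_zero hc)
  obtain ⟨i, β, β', hβ, hβ', hcl⟩ := BF.ex w w' (c⁻¹ ^ m) hcm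
  have hbb : β' - β ≠ 0 := by
    intro h0
    rw [h0, zero_pow hm.ne'] at hcl
    exact pow_ne_zero m (inv_ne_zero hc) hcl.symm
  have hu : (β' - β)⁻¹ • (v' - v) ∈ dirSet2 G Ω F m := by
    have h1 : (β' - β)⁻¹ • (v' - v) = ((β' - β)⁻¹ * c⁻¹) • (c • (v' - v)) := by
      rw [smul_smul, mul_assoc, inv_mul_cancel₀ hc, mul_one]
    rw [h1]
    rw [dirSet2_smul hm hG hcU (mul_ne_zero (inv_ne_zero hbb) (inv_ne_zero hc))]
    rw [mul_pow, ← hcl, inv_pow, inv_mul_cancel₀ (pow_ne_zero _ hbb)]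
  set u := (β' - β)⁻¹ • (v' - v) with hudef
  have hmul : (β' - β) • u = v' - v := by
    rw [hudef, smul_smul, mul_inv_cancel₀ hbb, one_smul]
  refine ⟨v - β • u, u, i, hu, ?_, ?_, ?_⟩
  · rw [mem_crossB]
    exact ⟨β, hβ, sub_add_cancel _ _⟩
  · rw [mem_crossB]
    refine ⟨β', hβ', ?_⟩
    have : v - β • u + β' • u = v + (β' - β) • u := by rw [sub_smul]; abel
    rw [this, hmul]; abel
  · intro a u' j hu' hx' hy'
    rw [mem_crossB] at hx' hy'
    obtain ⟨γ, hγ, hγe⟩ := hx'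
    obtain ⟨γ', hγ', hγe'⟩ := hy'
    have hdiff : (γ' - γ) • u' = v' - v := by rw [← hγe, ← hγe', sub_smul]; abel
    have hgg : γ' - γ ≠ 0 := by
      intro h0
      rw [h0, zero_smul] at hdiff
      exact hd hdiff.symm
    have hu'eq : u' = ((γ' - γ)⁻¹ * (β' - β)) • u := by
      rw [mul_smul, hmul, ← hdiff, smul_smul, inv_mul_cancel₀ hgg, one_smul]
    have hcl2 : (β' - β) ^ m = (γ' - γ) ^ m := by
      rw [hu'eq] at hu'
      have h2 := (dirSet2_smul hm hG hu (mul_ne_zero (inv_ne_zero hgg) hbb)).1 hu'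
      rw [mul_pow, inv_pow] at h2
      have h3 := mul_inv_cancel_left₀ (pow_ne_zero m hgg) ((β' - β) ^ m)
      rw [h2, mul_one] at h3
      exact h3.symm
    have hbne : β ≠ β' := fun h => hbb (by rw [h, sub_self])
    obtain ⟨rfl, hcase⟩ := BF.uq i j w w' β β' γ γ' hβ hβ' hγ hγ' hbne hcl2
    refine ⟨?_, rfl⟩
    rcases hcase with ⟨rfl, rfl⟩ | ⟨rfl, rfl, hneg⟩
    · have h4 : u' = u := by
        rw [hu'eq, inv_mul_cancel₀ hbb, one_smul]
      have h5 : a = v - γ • u := by rw [← hγe, h4]; abel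
      rw [h4, h5]
    · have h4 : u' = -u := by
        rw [hu'eq]
        have : (-β' - -β)⁻¹ * (β' - β) = -1 := by
          have : -β' - -β = -(β' - β) := by ring
          rw [this, inv_neg, neg_mul, inv_mul_cancel₀ hbb]
        rw [this, neg_smul, one_smul]
      have h5 : a = v - β • u := by rw [← hγe, h4, neg_smul, smul_neg, neg_neg]; abel
      rw [h4, h5]
      exact crossB_neg _ _ _ _ hneg

theorem design2_card (BF : BaseFam F W I k M m)
    (H : (Ω → F) → Set (Finset (Option W))) (hH1 : ∀ v, ∀ B ∈ H v, B.card = k)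
    (C : Finset (Option ((Ω → F) × W))) (hC : C ∈ blocks2 (dirSet2 G Ω F m) BF.B H) :
    C.card = k := by
  rcases hC with ⟨a, u, i, hu, rfl⟩ | ⟨v, H0, hH0, rfl⟩
  · exact card_crossB BF (dirSet2_ne hu) i
  · unfold holeB
    rw [card_image_of_injective, hH1 _ _ hH0]
    apply Option.map_injective
    intro w w' h
    simpa using h

theorem design2_pairs (hm : 0 < m)
    (hF : Fintype.card F = M * m + 1) (hG : Nat.card G ∣ m) (BF : BaseFam F W I k M m)
    (H : (Ω → F) → Set (Finset (Option W)))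
    (hH2 : ∀ v, ∀ x y : Option W, x ≠ y → ∃! B, B ∈ H v ∧ x ∈ B ∧ y ∈ B)
    (x y : Option ((Ω → F) × W)) (hxy : x ≠ y) :
    ∃! C, C ∈ blocks2 (dirSet2 G Ω F m) BF.B H ∧ x ∈ C ∧ y ∈ C := by
  -- the hole case
  have key1 : ∀ (v : Ω → F) (x y : Option W), x ≠ y →
      (∀ a u i, u ∈ dirSet2 G Ω F m → ¬ ((Option.map (fun w => (v, w)) x) ∈ crossB BF.B a u i ∧
        (Option.map (fun w => (v, w)) y) ∈ crossB BF.B a u i)) →
      ((∀ v' H0, (Option.map (fun w => (v, w)) x) ∈ holeB v' H0 →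
        (Option.map (fun w => (v, w)) y) ∈ holeB v' H0 → v' = v)) →
      ∃! C, C ∈ blocks2 (dirSet2 G Ω F m) BF.B H ∧
        (Option.map (fun w => (v, w)) x) ∈ C ∧ (Option.map (fun w => (v, w)) y) ∈ C := by
    intro v x y hxy hnc hv'
    obtain ⟨B, ⟨hB, hx, hy⟩, huniq⟩ := hH2 v x y hxy
    refine ⟨holeB v B, ⟨Or.inr ⟨v, B, hB, rfl⟩, mem_image_of_mem _ hx,
      mem_image_of_mem _ hy⟩, ?_⟩
    rintro C ⟨(⟨a, u, i, hu, rfl⟩ | ⟨v', H0, hH0, rfl⟩), hx', hy'⟩
    · exact absurd ⟨hx', hy'⟩ (hnc a u i hu)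
    · obtain rfl := hv' v' H0 hx' hy'
      rw [huniq H0 ⟨hH0, (mem_holeB_map _ _ _).1 hx', (mem_holeB_map _ _ _).1 hy'⟩]
  rcases x with _ | ⟨v, w⟩ <;> rcases y with _ | ⟨v', w'⟩
  · exact absurd rfl hxy
  · refine key1 v' none (some w') (by simp) ?_ ?_
    · rintro a u i _ ⟨h, _⟩
      exact none_notMem_crossB _ a u i h
    · intro v'' H0 _ h
      exact ((mem_holeB _ _ _ _).1 h).1.symm
  · refine key1 v (some w) none (by simp) ?_ ?_
    · rintro a u i _ ⟨_, h⟩
      exact none_notMem_crossB _ a u i h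
    · intro v'' H0 h _
      exact ((mem_holeB _ _ _ _).1 h).1.symm
  · by_cases hv : v = v'
    · subst hv
      have hw : w ≠ w' := by
        rintro rfl
        exact hxy rfl
      refine key1 v (some w) (some w') (by simpa using hw) ?_ ?_
      · rintro a u i hu ⟨h1, h2⟩
        exact hw (crossB_same BF (dirSet2_ne hu) h1 h2)
      · intro v'' H0 h _
        exact ((mem_holeB _ _ _ _).1 h).1.symm
    · obtain ⟨a, u, i, hu, hx, hy, huniq⟩ := cross_exists hm hF hG BF w w' hv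
      refine ⟨crossB BF.B a u i, ⟨Or.inl ⟨a, u, i, hu, rfl⟩, hx, hy⟩, ?_⟩
      rintro C ⟨(⟨a', u', i', hu', rfl⟩ | ⟨v'', H0, hH0, rfl⟩), hx', hy'⟩
      · exact (huniq a' u' i' hu' hx' hy').1
      · rw [mem_holeB] at hx' hy'
        exact absurd (hx'.1.trans hy'.1.symm) hv

theorem map_crossB (B : I → Finset (F × W)) (g : G) (a u : Ω → F) (i : I) :
    (crossB B a u i).map (pointHom2 G Ω F W g).toEmbedding =
      crossB B (act2 g a) (act2 g u) i := by
  ext x
  simp only [mem_map, Equiv.coe_toEmbedding]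
  rcases x with _ | ⟨y, t⟩
  · simp only [none_notMem_crossB, iff_false]
    rintro ⟨x, hx, hx2⟩
    rcases x with _ | ⟨y, t⟩
    · exact none_notMem_crossB _ _ _ _ hx
    · rw [pointHom2_some] at hx2; simp at hx2
  · rw [mem_crossB]
    constructor
    · rintro ⟨x, hx, hx2⟩
      rcases x with _ | ⟨y', t'⟩
      · rw [pointHom2_none] at hx2; simp at hx2
      · rw [pointHom2_some] at hx2
        simp only [Option.some.injEq, Prod.mk.injEq] at hx2
        obtain ⟨rfl, rfl⟩ := hx2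
        obtain ⟨β, hβ, rfl⟩ := (mem_crossB _ _ _ _ _ _).1 hx
        exact ⟨β, hβ, by rw [act2_add, act2_smul]⟩
    · rintro ⟨β, hβ, rfl⟩
      refine ⟨some (a + β • u, t), (mem_crossB _ _ _ _ _ _).2 ⟨β, hβ, rfl⟩, ?_⟩
      rw [pointHom2_some, act2_add, act2_smul]

theorem map_holeB (g : G) (v : Ω → F) (H0 : Finset (Option W)) :
    (holeB v H0).map (pointHom2 G Ω F W g).toEmbedding = holeB (act2 g v) H0 := by
  ext x
  simp only [mem_map, Equiv.coe_toEmbedding]
  rcases x with _ | ⟨y, t⟩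
  · rw [none_mem_holeB]
    constructor
    · rintro ⟨x, hx, hx2⟩
      rcases x with _ | ⟨y, t⟩
      · exact (none_mem_holeB _ _).1 hx
      · rw [pointHom2_some] at hx2; simp at hx2
    · intro h
      exact ⟨none, (none_mem_holeB _ _).2 h, pointHom2_none g⟩
  · rw [mem_holeB]
    constructor
    · rintro ⟨x, hx, hx2⟩
      rcases x with _ | ⟨y', t'⟩
      · rw [pointHom2_none] at hx2; simp at hx2
      · rw [pointHom2_some] at hx2
        simp only [Option.some.injEq, Prod.mk.injEq] at hx2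
        obtain ⟨rfl, rfl⟩ := hx2
        obtain ⟨rfl, h⟩ := (mem_holeB _ _ _ _).1 hx
        exact ⟨rfl, h⟩
    · rintro ⟨rfl, h⟩
      exact ⟨some (v, t), (mem_holeB _ _ _ _).2 ⟨rfl, h⟩, pointHom2_some g v t⟩

theorem design2_inv (B : I → Finset (F × W)) (H : (Ω → F) → Set (Finset (Option W)))
    (hHG : ∀ (g : G) v, H (act2 g v) = H v) (g : G)
    (C : Finset (Option ((Ω → F) × W))) (hC : C ∈ blocks2 (dirSet2 G Ω F m) B H) :
    C.map (pointHom2 G Ω F W g).toEmbedding ∈ blocks2 (dirSet2 G Ω F m) B H := by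
  rcases hC with ⟨a, u, i, hu, rfl⟩ | ⟨v, H0, hH0, rfl⟩
  · rw [map_crossB]
    exact Or.inl ⟨_, _, i, dirSet2_act g hu, rfl⟩
  · rw [map_holeB]
    exact Or.inr ⟨_, H0, by rw [hHG]; exact hH0, rfl⟩

end Geo2

end Pool.Agent.Helper621
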