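import Pool.Agent.Helper621.GenSel

/-!
# The linear systems attached to configurations
-/

namespace Pool.Agent.Helper621

set_option linter.unusedSectionVars false

open Finset

/-- configuration types -/
abbrev Typ (p k r : ℕ) (R : Type) : Type :=
  Fin p × ((Fin p × Fin p → Bool) × ((R × (Fin k → Fin p) → Bool) ×
    ((Fin r × Bool → Fin p) → Bool)))

/-- constraint indices -/
abbrev CIdx (p k r : ℕ) (R : Type) : Type :=
  Unit ⊕ ((Fin p × Fin p) ⊕ (((R × (Fin k → Fin p)) × (Fin k × (Fin k × Fin k))) ⊕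
    (((Fin r × Bool → Fin p) × (Fin r × Fin r)) × Bool)))

section Sys

variable {F : Type} [Field F] {p k r : ℕ} {R : Type}

/-- the predicate defining the kernel -/
def Ker (τ : Typ p k r R) (c : Fin r → F) (s : R × Fin k → F) (h : Fin p → F) : Prop :=
  h τ.1 = 0 ∧ (∀ i j, τ.2.1 (i, j) = true → h i - h j = 0) ∧
  (∀ x σ, τ.2.2.1 (x, σ) = true → ∀ κ l μ, (s (x, κ) - s (x, l)) * (h (σ μ) - h (σ l)) -
    (s (x, μ) - s (x, l)) * (h (σ κ) - h (σ l)) = 0) ∧
  (∀ σ, τ.2.2.2 σ = true → ∀ y y',
    c y' * (h (σ (y, true)) - h (σ (y, false))) -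
      c y * (h (σ (y', true)) - h (σ (y', false))) = 0 ∧
    (h (σ (y, true)) + h (σ (y, false))) - (h (σ (y', true)) + h (σ (y', false))) = 0)

/-- the part independent of the shape variables -/
def sys0 (τ : Typ p k r R) (c : Fin r → F) : (Fin p → F) →ₗ[F] (CIdx p k r R → F) where
  toFun h idx := match idx with
    | Sum.inl _ => h τ.1
    | Sum.inr (Sum.inl ij) => if τ.2.1 ij = true then h ij.1 - h ij.2 else 0
    | Sum.inr (Sum.inr (Sum.inl _)) => 0
    | Sum.inr (Sum.inr (Sum.inr a)) => if τ.2.2.2 a.1.1 = true then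
        (if a.2 = true then c a.1.2.2 * (h (a.1.1 (a.1.2.1, true)) - h (a.1.1 (a.1.2.1, false))) -
          c a.1.2.1 * (h (a.1.1 (a.1.2.2, true)) - h (a.1.1 (a.1.2.2, false)))
        else (h (a.1.1 (a.1.2.1, true)) + h (a.1.1 (a.1.2.1, false))) -
          (h (a.1.1 (a.1.2.2, true)) + h (a.1.1 (a.1.2.2, false)))) else 0
  map_add' h h' := by
    funext idx
    rcases idx with _ | ij | _ | a
    · rfl
    · simp only [Pi.add_apply]
      split_ifs <;> ring
    · simp
    · simp only [Pi.add_apply]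
      split_ifs <;> ring
  map_smul' d h := by
    funext idx
    rcases idx with _ | ij | _ | a
    · rfl
    · simp only [Pi.smul_apply, smul_eq_mul, RingHom.id_apply]
      split_ifs <;> ring
    · simp
    · simp only [Pi.smul_apply, smul_eq_mul, RingHom.id_apply]
      split_ifs <;> ring

/-- the part depending on the shape variables, for fixed values -/
def sysR (τ : Typ p k r R) (s : R × Fin k → F) : (Fin p → F) →ₗ[F] (CIdx p k r R → F) where
  toFun h idx := match idx with
    | Sum.inl _ => 0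
    | Sum.inr (Sum.inl _) => 0
    | Sum.inr (Sum.inr (Sum.inl a)) => if τ.2.2.1 a.1 = true then
        (s (a.1.1, a.2.1) - s (a.1.1, a.2.2.1)) * (h (a.1.2 a.2.2.2) - h (a.1.2 a.2.2.1)) -
        (s (a.1.1, a.2.2.2) - s (a.1.1, a.2.2.1)) * (h (a.1.2 a.2.1) - h (a.1.2 a.2.2.1)) else 0
    | Sum.inr (Sum.inr (Sum.inr _)) => 0
  map_add' h h' := by
    funext idx
    rcases idx with _ | ij | a | a
    · simp
    · simp
    · simp only [Pi.add_apply]
      split_ifs <;> ring
    · simp
  map_smul' d h := by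
    funext idx
    rcases idx with _ | ij | a | a
    · simp
    · simp
    · simp only [Pi.smul_apply, smul_eq_mul, RingHom.id_apply]
      split_ifs <;> ring
    · simp

/-- the same, linear in the shape variables -/
def sysRL (τ : Typ p k r R) :
    (R × Fin k → F) →ₗ[F] ((Fin p → F) →ₗ[F] (CIdx p k r R → F)) where
  toFun s := sysR τ s
  map_add' s s' := by
    apply LinearMap.ext
    intro h
    funext idx
    rcases idx with _ | ij | a | a
    · simp [sysR]
    · simp [sysR]
    · simp only [sysR, LinearMap.coe_mk, AddHom.coe_mk, LinearMap.add_apply, Pi.add_apply]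
      split_ifs <;> ring
    · simp [sysR]
  map_smul' d s := by
    apply LinearMap.ext
    intro h
    funext idx
    rcases idx with _ | ij | a | a
    · simp [sysR]
    · simp [sysR]
    · simp only [sysR, LinearMap.coe_mk, AddHom.coe_mk, LinearMap.smul_apply, Pi.smul_apply,
        smul_eq_mul, RingHom.id_apply]
      split_ifs <;> ring
    · simp [sysR]

theorem ker_iff (τ : Typ p k r R) (c : Fin r → F) (s : R × Fin k → F) (h : Fin p → F) :
    (sys0 τ c + sysRL τ s) h = 0 ↔ Ker τ c s h := by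
  constructor
  · intro h0
    have h1 := fun idx => congrFun h0 idx
    refine ⟨?_, ?_, ?_, ?_⟩
    · have := h1 (Sum.inl ())
      simpa [sys0, sysRL, sysR] using this
    · intro i j hij
      have := h1 (Sum.inr (Sum.inl (i, j)))
      simpa [sys0, sysRL, sysR, hij] using this
    · intro x σ hx κ l μ
      have := h1 (Sum.inr (Sum.inr (Sum.inl ((x, σ), (κ, (l, μ))))))
      simpa [sys0, sysRL, sysR, hx] using this
    · intro σ hσ y y'
      constructor
      · have := h1 (Sum.inr (Sum.inr (Sum.inr ((σ, (y, y')), true))))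
        simpa [sys0, sysRL, sysR, hσ] using this
      · have := h1 (Sum.inr (Sum.inr (Sum.inr ((σ, (y, y')), false))))
        simpa [sys0, sysRL, sysR, hσ] using this
  · rintro ⟨h1, h2, h3, h4⟩
    funext idx
    rcases idx with _ | ⟨i, j⟩ | ⟨⟨x, σ⟩, κ, l, μ⟩ | ⟨⟨σ, y, y'⟩, s'⟩
    · simpa [sys0, sysRL, sysR] using h1
    · simp only [sys0, sysRL, sysR, LinearMap.coe_mk, AddHom.coe_mk, LinearMap.add_apply,
        Pi.add_apply, add_zero, Pi.zero_apply]
      split_ifs with hc
      · exact h2 i j hc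
      · rfl
    · simp only [sys0, sysRL, sysR, LinearMap.coe_mk, AddHom.coe_mk, LinearMap.add_apply,
        Pi.add_apply, zero_add, Pi.zero_apply]
      split_ifs with hc
      · exact h3 x σ hc κ l μ
      · rfl
    · simp only [sys0, sysRL, sysR, LinearMap.coe_mk, AddHom.coe_mk, LinearMap.add_apply,
        Pi.add_apply, add_zero, Pi.zero_apply]
      split_ifs with hc hs
      · exact (h4 σ hc y y').1
      · exact (h4 σ hc y y').2
      · rfl

theorem inj_iff_ker (τ : Typ p k r R) (c : Fin r → F) (s : R × Fin k → F) :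
    Function.Injective (sys0 τ c + sysRL τ s) ↔ ∀ h, Ker τ c s h → h = 0 := by
  rw [injective_iff_map_eq_zero]
  exact forall_congr' fun h => by rw [ker_iff]

end Sys

/-- Selection of shapes for finitely many blocks, with prescribed classes and generic. -/
theorem exists_shapes (M k p r cR : ℕ) (hM : 0 < M) : ∃ N : ℕ, ∀ (F R : Type) [Field F]
    [Fintype F] [DecidableEq F] [Fintype R] (m : ℕ), 0 < m →
    Fintype.card F = M * m + 1 → N < Fintype.card F → Fintype.card R = cR →
    ∀ Z : R → Fin k → Fin k → F, (∀ x i j, i < j → (Z x i j) ^ M = 1) →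
    ∀ (c : Fin r → F) (vs : R → Fin k → F),
    ∃ b : R → Fin k → F, (∀ x i j, i < j → (b x j - b x i) ^ m = Z x i j) ∧
      ∀ τ : Typ p k r R, (∀ h, Ker τ c (fun a => vs a.1 a.2) h → h = 0) →
        ∀ h, Ker τ c (fun a => b a.1 a.2) h → h = 0 := by
  classical
  obtain ⟨N, hN⟩ := exists_sel_generic M (cR * k) p (Fintype.card (Typ p k r (Fin cR))) hM
  refine ⟨N, fun F R _ _ _ _ m hm hF hNF hcR Z hZ c vs => ?_⟩
  have hcard : Fintype.card (R × Fin k) = Fintype.card (Fin (cR * k)) := by
    rw [Fintype.card_prod, Fintype.card_fin, Fintype.card_fin, hcR]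
  -- an enumeration which is monotone on each block
  let eR : R ≃ Fin cR := Fintype.equivFinOfCardEq hcR
  let e : R × Fin k ≃ Fin (cR * k) := (eR.prodCongr (Equiv.refl _)).trans finProdFinEquiv
  have hmono : ∀ x i j, i < j → (e (x, i) : ℕ) < (e (x, j) : ℕ) := by
    intro x i j hij
    simp only [e, Equiv.trans_apply, Equiv.prodCongr_apply, Prod.map_apply, Equiv.refl_apply,
      finProdFinEquiv_apply_val]
    have : (i : ℕ) < (j : ℕ) := hij
    omega
  let z : ℕ → ℕ → F := fun i j => if h : i < cR * k ∧ j < cR * k then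
    (if (e.symm ⟨i, h.1⟩).1 = (e.symm ⟨j, h.2⟩).1 ∧ (e.symm ⟨i, h.1⟩).2 < (e.symm ⟨j, h.2⟩).2
      then Z (e.symm ⟨i, h.1⟩).1 (e.symm ⟨i, h.1⟩).2 (e.symm ⟨j, h.2⟩).2 else 1) else 1
  obtain ⟨b, hb1, hb2⟩ := hN F m hm hF hNF z (by
      intro i j _ _
      simp only [z]
      split_ifs with h1 h2
      · exact hZ _ _ _ h2.2
      · exact one_pow _
      · exact one_pow _) (Typ p k r R) (CIdx p k r R) (by
        apply le_of_eq
        refine Fintype.card_congr ?_
        exact (Equiv.refl _).prodCongr ((Equiv.refl _).prodCongr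
          ((Equiv.arrowCongr (eR.prodCongr (Equiv.refl _)) (Equiv.refl _)).prodCongr
            (Equiv.refl _))))
      (fun τ => sys0 τ c)
      (fun τ i => if h : i < cR * k then
        sysRL τ (fun j => if e.symm ⟨i, h⟩ = j then (1 : F) else 0) else 0)
      (fun i => if h : i < cR * k then vs (e.symm ⟨i, h⟩).1 (e.symm ⟨i, h⟩).2 else 0)
  have hsum : ∀ (τ : Typ p k r R) (s : R × Fin k → F) (s' : ℕ → F),
      (∀ a, s' (e a) = s a) →
      ∑ i ∈ range (cR * k), s' i • (if h : i < cR * k then
        sysRL τ (fun j => if e.symm ⟨i, h⟩ = j then (1 : F) else 0) else 0) = sysRL τ s := by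
    intro τ s s' hs
    rw [LinearMap.pi_apply_eq_sum_univ (sysRL τ) s, ← e.symm.sum_comp, Finset.sum_range]
    refine sum_congr rfl fun i _ => ?_
    rw [dif_pos i.2]
    have h1 : s (e.symm i) = s' i := by rw [← hs, Equiv.apply_symm_apply]
    rw [h1]
  refine ⟨fun x i => b (e (x, i)), ?_, ?_⟩
  · intro x i j hij
    rw [hb1 _ _ (hmono x i j hij) (e (x, j)).2]
    simp only [z]
    rw [dif_pos ⟨(e (x, i)).2, (e (x, j)).2⟩]
    simp only [Fin.eta, Equiv.symm_apply_apply, true_and]
    rw [if_pos hij]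
  · intro τ hτ
    rw [← inj_iff_ker] at hτ ⊢
    have h1 := hb2 τ
    rw [hsum τ (fun a => vs a.1 a.2) _ (by
      intro a
      rw [dif_pos (e a).2]
      simp only [Fin.eta, Equiv.symm_apply_apply]), hsum τ (fun a => b (e a)) b (fun a => rfl)]
      at h1
    exact h1 hτ

end Pool.Agent.Helper621
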