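import Pool.Agent.Helper621.CaseB
import Pool.Agent.Helper621.Sys

/-!
# Closed sets of the size of a hole are holes
-/

namespace Pool.Agent.Helper621

set_option linter.unusedSectionVars false

open Finset

theorem zmod2_cases2 (x : ZMod 2) : x = 0 ∨ x = 1 := by
  revert x; decide

theorem exists_enum {X : Type} (s : Finset X) (hs : s.Nonempty) {p : ℕ} (hp : s.card ≤ p) :
    ∃ e : Fin p → X, (∀ i, e i ∈ s) ∧ ∀ x ∈ s, ∃ i, e i = x := by
  obtain ⟨d, hd⟩ := hs
  refine ⟨fun i => s.toList.getD i d, ?_, ?_⟩
  · intro i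
    simp only
    by_cases h : (i : ℕ) < s.toList.length
    · rw [List.getD_eq_getElem _ _ h, ← mem_toList]
      exact List.getElem_mem h
    · rw [List.getD_eq_default _ _ (by omega)]
      exact hd
  · intro x hx
    rw [← mem_toList, List.mem_iff_getElem] at hx
    obtain ⟨n, hn, hx⟩ := hx
    refine ⟨⟨n, by rw [length_toList] at hn; omega⟩, ?_⟩
    simp only
    rw [List.getD_eq_getElem _ _ hn, hx]

section Holes

variable {G Ω F T R : Type} [Group G] [Finite G] [MulAction G Ω] [Fintype Ω] [DecidableEq Ω]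
  [Field F] [Fintype F] [DecidableEq F] [DecidableEq T] [Fintype T] {r M m k : ℕ}

/-- special shape values -/
def vsp (ε : T → ZMod 2) (P : R → Fin k → Lab r T) (a : R × Fin k) : F :=
  if colW ε (P a.1 a.2) = 0 then 0 else 1

theorem card_holeB {V W : Type} [DecidableEq V] [DecidableEq W] [Fintype W] (v : V) :
    ((univ : Finset (Option W)).image (Option.map (fun w => (v, w)))).card =
      Fintype.card W + 1 := by
  rw [card_image_of_injective, card_univ, Fintype.card_option]
  apply Option.map_injective
  intro w w' h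
  simpa using h

theorem closed_is_hole (D : RData F T R r M m k) (hF : Fintype.card F = M * m + 1)
    (hG : Nat.card G ∣ m) (H : (Ω → F) → Set (Finset (Option (Lab r T))))
    (hcardk : ∀ E ∈ blocks2 (dirSet2 G Ω F m) D.BF.B H, E.card = k)
    (hpair : ∀ x y : Option ((Ω → F) × Lab r T), x ≠ y →
      ∃! E, E ∈ blocks2 (dirSet2 G Ω F m) D.BF.B H ∧ x ∈ E ∧ y ∈ E)
    {p : ℕ} (hp : p = Fintype.card (Lab r T) + 1)
    (hr : 2 ≤ r) (hk : 5 ≤ k) (hT : 3 ≤ Fintype.card T) (ε : T → ZMod 2)
    (hpat : ∀ x e, ∃ i j, colW ε (D.P x i) = e ∧ colW ε (D.P x j) = e ∧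
      (D.P x i).2 ≠ (D.P x j).2)
    (hgen : ∀ τ : Typ p k r R, (∀ h : Fin p → F, Ker τ D.S.c (vsp ε D.P) h → h = 0) →
      ∀ h, Ker τ D.S.c (fun a => D.b a.1 a.2) h → h = 0)
    {C : Finset (Option ((Ω → F) × Lab r T))}
    (hC : Clos (blocks2 (dirSet2 G Ω F m) D.BF.B H) C)
    (hcard : C.card = Fintype.card (Lab r T) + 1) : ∃ v, C = holeB v univ := by
  classical
  have hcardW : Fintype.card (Lab r T) = r * r * 3 * Fintype.card T := by
    simp [ZMod.card]
  have hWpos : 0 < Fintype.card (Lab r T) := by
    rw [hcardW]; positivity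
  have hne : (eraseNone C).Nonempty := by
    rw [← card_pos]
    have := card_fin_part C
    omega
  by_contra hcon
  push Not at hcon
  -- two different holes
  obtain ⟨v, v', w, w', hvv, hv, hv'⟩ : ∃ v v' w w', v ≠ v' ∧ some (v, w) ∈ C ∧
      some (v', w') ∈ C := by
    by_contra hall
    push Not at hall
    obtain ⟨⟨v, w⟩, hx⟩ := hne
    rw [mem_eraseNone] at hx
    have hsub : C ⊆ holeB v univ := by
      intro y hy
      rcases y with _ | ⟨v', w'⟩
      · rw [none_mem_holeB]; exact mem_univ _
      · rw [mem_holeB]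
        refine ⟨?_, mem_univ _⟩
        by_contra hne'
        exact hall v' v w' w hne' hy hx
    apply hcon v
    apply eq_of_subset_of_card_le hsub
    rw [hcard]
    unfold holeB
    rw [card_holeB]
  by_cases hR : ∃ (a u : Ω → F) (x : R), u ∈ dirSet2 G Ω F m ∧
      crossB D.BF.B a u (Sum.inr x) ⊆ C
  · obtain ⟨a0, u0, x0, hu0, h0⟩ := hR
    obtain ⟨e, he1, he2⟩ := exists_enum (eraseNone C) hne (p := p) (by
      rw [hp, ← hcard, card_eraseNone_eq_card_erase]
      exact card_le_card (erase_subset _ _))
    have he1' : ∀ i, some (e i) ∈ C := fun i => mem_eraseNone.1 (he1 i)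
    have he2' : ∀ P, some P ∈ C → ∃ i, e i = P := fun P hP => he2 P (mem_eraseNone.2 hP)
    let i0 : Fin p := ⟨0, by omega⟩
    let τ : Typ p k r R := (i0, (fun ij => decide ((e ij.1).1 = (e ij.2).1)),
      (fun xσ => decide (∃ a u, u ∈ dirSet2 G Ω F m ∧
        crossB D.BF.B a u (Sum.inr xσ.1) ⊆ C ∧ ∀ κ, e (xσ.2 κ) = rpt D a u xσ.1 κ)),
      (fun σ => decide (∃ a u c t j z, u ∈ dirSet2 G Ω F m ∧
        crossB D.BF.B a u (Sum.inl ((c, t), (j, z))) ⊆ C ∧
          ∀ y s, e (σ (y, s)) = spt D a u c t j z y s)))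
    have hspecial : ∀ h, Ker τ D.S.c (vsp ε D.P) h → h = 0 := by
      rintro h ⟨k1, k2, k3, k4⟩
      let g : (Ω → F) × Lab r T → F := fun P => if hP : ∃ i, e i = P then h hP.choose else 0
      have hg : ∀ i, g (e i) = h i := by
        intro i
        have hex : ∃ i', e i' = e i := ⟨i, rfl⟩
        simp only [g]
        rw [dif_pos hex]
        have := k2 hex.choose i (decide_eq_true (by rw [hex.choose_spec]))
        exact sub_eq_zero.1 this
      have hconst : ∀ P Q : (Ω → F) × Lab r T, some P ∈ C → some Q ∈ C → g P = g Q := by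
        intro P Q hP hQ
        refine caseA D hF hG H hC hcard hr ε hpat h0 g ?_ ?_ ?_ hP hQ
        · intro v w w' h1 h2
          obtain ⟨i, hi⟩ := he2' _ h1
          obtain ⟨j, hj⟩ := he2' _ h2
          rw [← hi, ← hj, hg, hg]
          exact sub_eq_zero.1 (k2 i j (decide_eq_true (by rw [hi, hj])))
        · intro a u x hu hsub i j hij
          have hσ : ∀ κ, ∃ n, e n = rpt D a u x κ := fun κ => he2' _ (hsub (rpt_mem D a u x κ))
          choose σ hσ using hσ
          have hocc := k3 x σ (decide_eq_true ⟨a, u, hu, hsub, hσ⟩)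
          obtain ⟨μ, _, hμ, _, _⟩ := hpat x (colW ε (D.P x i) + 1)
          have h5 := hocc i j μ
          have e1 : (vsp ε D.P (x, i) : F) - vsp ε D.P (x, j) = 0 := by
            simp only [vsp, hij]
            exact sub_self _
          have e2 : (vsp ε D.P (x, μ) : F) - vsp ε D.P (x, j) ≠ 0 := by
            simp only [vsp, hμ, ← hij]
            rcases zmod2_cases2 (colW ε (D.P x i)) with h6 | h6
            · rw [h6, if_neg (by decide), if_pos rfl, sub_zero]
              exact one_ne_zero
            · rw [h6, if_pos (by decide), if_neg (by decide), zero_sub]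
              exact neg_ne_zero.2 one_ne_zero
          rw [e1, zero_mul, zero_sub, neg_eq_zero] at h5
          have h6 := (mul_eq_zero.1 h5).resolve_left e2
          rw [← hσ, ← hσ, hg, hg]
          exact sub_eq_zero.1 h6
        · intro a u c t j z hu hsub y y'
          have hσ : ∀ q : Fin r × Bool, ∃ n, e n = spt D a u c t j z q.1 q.2 :=
            fun q => he2' _ (hsub (spt_mem D a u c t j z q.1 q.2))
          choose σ hσ using hσ
          have hocc := k4 σ (decide_eq_true ⟨a, u, c, t, j, z, hu, hsub, fun y s => hσ (y, s)⟩)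
          have h5 := (hocc y y').2
          have h6 : ∀ y s, g (spt D a u c t j z y s) = h (σ (y, s)) := by
            intro y s
            rw [← hg, hσ]
          rw [h6, h6, h6, h6]
          exact sub_eq_zero.1 h5
      funext i
      have h1 := hconst (e i) (e i0) (he1' i) (he1' i0)
      rw [hg, hg] at h1
      rw [h1]
      exact k1
    have hker := hgen τ hspecial
    -- the coordinate functionals
    have hcoord : ∀ ω : Ω, (fun i => (e i).1 ω - (e i0).1 ω) = (0 : Fin p → F) := by
      intro ω
      apply hker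
      refine ⟨sub_self _, ?_, ?_, ?_⟩
      · intro i j hij
        have := of_decide_eq_true hij
        simp only [this]
        ring
      · intro x σ hx κ l μ
        obtain ⟨a, u, _, _, hσ⟩ := of_decide_eq_true hx
        simp only at hσ ⊢
        rw [hσ, hσ, hσ]
        simp only [rpt, Pi.add_apply, Pi.smul_apply, smul_eq_mul]
        ring
      · intro σ hσ0 y y'
        obtain ⟨a, u, c, t, j, z, _, _, hσ⟩ := of_decide_eq_true hσ0
        simp only at hσ ⊢
        rw [hσ, hσ, hσ, hσ]
        simp only [spt, Pi.add_apply, Pi.smul_apply, smul_eq_mul, if_true, Bool.false_eq_true,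
          if_false]
        constructor <;> ring
    obtain ⟨i, hi⟩ := he2' _ hv
    obtain ⟨j, hj⟩ := he2' _ hv'
    apply hvv
    funext ω
    have h1 := congrFun (hcoord ω) i
    have h2 := congrFun (hcoord ω) j
    simp only [Pi.zero_apply] at h1 h2
    rw [hi] at h1
    rw [hj] at h2
    have h3 := sub_eq_zero.1 h1
    have h4 := sub_eq_zero.1 h2
    exact h3.trans h4.symm
  · exact caseB D hF hG H hcardk hpair hC hcard hr hk hT
      (fun a u x hu hsub => hR ⟨a, u, x, hu, hsub⟩) hvv hv hv'

end Holes

end Pool.Agent.Helper621
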