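import Mathlib

/-!
# Label patterns: two families of injective patterns `Fin k → D × T`
-/

namespace Pool.Agent.Helper621

set_option linter.unusedSectionVars false

open Finset

theorem card_filter_prod {A B : Type} [Fintype A] [Fintype B] (p : A → Prop) (q : B → Prop)
    [DecidablePred p] [DecidablePred q] :
    (univ.filter (fun x : A × B => p x.1 ∧ q x.2)).card =
      (univ.filter p).card * (univ.filter q).card := by
  rw [← card_product]
  congr 1
  ext x
  simp

theorem card_filter_pi {k : ℕ} {D : Type} [Fintype D] [DecidableEq D] (S : Finset (Fin k))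
    (v : Fin k → D) :
    (univ.filter (fun g : Fin k → D => ∀ l ∈ S, g l = v l)).card =
      Fintype.card D ^ (k - S.card) := by
  have h : (univ.filter (fun g : Fin k → D => ∀ l ∈ S, g l = v l)) =
      Fintype.piFinset (fun l => if l ∈ S then {v l} else univ) := by
    ext g
    simp only [mem_filter, mem_univ, true_and, Fintype.mem_piFinset]
    refine forall_congr' fun l => ?_
    by_cases hl : l ∈ S <;> simp [hl]
  rw [h, Fintype.card_piFinset]
  have h2 : ∀ l, (if l ∈ S then ({v l} : Finset D) else univ).card =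
      if l ∈ S then 1 else Fintype.card D := by
    intro l
    by_cases hl : l ∈ S <;> simp [hl, card_univ]
  simp_rw [h2]
  rw [prod_ite, prod_const_one, one_mul, prod_const]
  congr 1
  have h3 : (univ.filter (fun x : Fin k => x ∉ S)) = Sᶜ := by ext; simp
  rw [h3, card_compl, Fintype.card_fin]

section Perm

variable {T : Type} [Fintype T] [DecidableEq T]

theorem exists_perm_two {a b c d : T} (hab : a ≠ b) (hcd : c ≠ d) :
    ∃ ρ : Equiv.Perm T, ρ a = c ∧ ρ b = d := by
  refine ⟨Equiv.swap (Equiv.swap a c b) d * Equiv.swap a c, ?_, ?_⟩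
  · rw [Equiv.Perm.mul_apply, Equiv.swap_apply_left]
    apply Equiv.swap_apply_of_ne_of_ne _ hcd
    intro h
    have h2 : Equiv.swap a c a = Equiv.swap a c b := by rw [Equiv.swap_apply_left]; exact h
    exact hab ((Equiv.swap a c).injective h2)
  · rw [Equiv.Perm.mul_apply, Equiv.swap_apply_left]

theorem card_perm_two_const {x y : T} {a b c d : T} (hab : a ≠ b) (hcd : c ≠ d) :
    (univ.filter (fun σ : Equiv.Perm T => σ x = a ∧ σ y = b)).card =
      (univ.filter (fun σ : Equiv.Perm T => σ x = c ∧ σ y = d)).card := by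
  obtain ⟨ρ, hρ1, hρ2⟩ := exists_perm_two hab hcd
  refine card_bij' (fun σ _ => ρ * σ) (fun σ _ => ρ⁻¹ * σ) ?_ ?_ ?_ ?_
  · intro σ hσ
    simp only [mem_filter, mem_univ, true_and] at hσ ⊢
    rw [Equiv.Perm.mul_apply, Equiv.Perm.mul_apply, hσ.1, hσ.2]
    exact ⟨hρ1, hρ2⟩
  · intro σ hσ
    simp only [mem_filter, mem_univ, true_and] at hσ ⊢
    rw [Equiv.Perm.mul_apply, Equiv.Perm.mul_apply, hσ.1, hσ.2, Equiv.Perm.inv_eq_iff_eq,
      Equiv.Perm.inv_eq_iff_eq]
    exact ⟨hρ1.symm, hρ2.symm⟩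
  · intro σ _; simp
  · intro σ _; simp

theorem card_perm_two (hT : 2 ≤ Fintype.card T) {x y : T} (hxy : x ≠ y) {a b : T} (hab : a ≠ b) :
    (univ.filter (fun σ : Equiv.Perm T => σ x = a ∧ σ y = b)).card =
      (Fintype.card T - 2).factorial := by
  have hmaps : ∀ σ ∈ (univ : Finset (Equiv.Perm T)), (σ x, σ y) ∈ (univ : Finset T).offDiag := by
    intro σ _
    simp only [mem_offDiag, mem_univ, true_and]
    exact fun h => hxy (σ.injective h)
  have hcount := card_eq_sum_card_fiberwise hmaps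
  rw [card_univ, Fintype.card_perm] at hcount
  have hconst : ∀ c ∈ (univ : Finset T).offDiag,
      (univ.filter (fun σ : Equiv.Perm T => (σ x, σ y) = c)).card =
      (univ.filter (fun σ : Equiv.Perm T => σ x = a ∧ σ y = b)).card := by
    rintro ⟨c, d⟩ hcd
    simp only [mem_offDiag, mem_univ, true_and] at hcd
    rw [card_perm_two_const hab hcd]
    congr 1
    ext σ
    simp
  rw [sum_congr rfl hconst, sum_const, smul_eq_mul, offDiag_card, card_univ] at hcount
  obtain ⟨n, hn⟩ : ∃ n, Fintype.card T = n + 2 := ⟨Fintype.card T - 2, by omega⟩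
  rw [hn] at hcount ⊢
  have h1 : (n + 2).factorial = (n + 2) * (n + 1) * n.factorial := by
    rw [Nat.factorial_succ, Nat.factorial_succ]; ring
  have h2 : (n + 2) * (n + 2) - (n + 2) = (n + 2) * (n + 1) := by
    have : (n + 2) * (n + 2) = (n + 2) * (n + 1) + (n + 2) := by ring
    omega
  rw [h1, h2] at hcount
  rw [Nat.add_sub_cancel]
  exact (Nat.eq_of_mul_eq_mul_left (by positivity) hcount).symm

theorem card_perm_one (hT : 2 ≤ Fintype.card T) (x a : T) :
    (univ.filter (fun σ : Equiv.Perm T => σ x = a)).card =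
      (Fintype.card T - 1) * (Fintype.card T - 2).factorial := by
  obtain ⟨y, hy⟩ : ∃ y, y ≠ x := by
    by_contra h
    push Not at h
    have : Fintype.card T ≤ 1 := Fintype.card_le_one_iff.2 (fun u v => by rw [h u, h v])
    omega
  have hmaps : ∀ σ ∈ (univ.filter (fun σ : Equiv.Perm T => σ x = a)), σ y ∈ univ.erase a := by
    intro σ hσ
    simp only [mem_filter, mem_univ, true_and] at hσ
    simp only [mem_erase, mem_univ, and_true]
    intro h
    exact hy (σ.injective (h.trans hσ.symm))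
  rw [card_eq_sum_card_fiberwise hmaps]
  have hconst : ∀ b ∈ univ.erase a, ((univ.filter (fun σ : Equiv.Perm T => σ x = a)).filter
      (fun σ => σ y = b)).card = (Fintype.card T - 2).factorial := by
    intro b hb
    simp only [mem_erase, mem_univ, and_true] at hb
    rw [filter_filter]
    exact card_perm_two hT hy.symm (Ne.symm hb)
  rw [sum_congr rfl hconst, sum_const, smul_eq_mul, card_erase_of_mem (mem_univ _), card_univ]

end Perm

section Families

variable {D T : Type} [Fintype D] [DecidableEq D] [Fintype T] [DecidableEq T]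

/-- index type of the patterns -/
abbrev PatIdx (D T : Type) (k A F0 : ℕ) (φ : D → D → ℕ) : Type :=
  (Fin A × (Equiv.Perm T × (Fin k → D))) ⊕
    (Fin F0 × ((Σ ab : D × D, Fin (φ ab.1 ab.2)) × (Equiv.Perm T × (Fin k → D))))

/-- the label part in the second family -/
def labB {k : ℕ} (i0 i1 : Fin k) (a b : D) (g : Fin k → D) (i : Fin k) : D :=
  if i = i0 then a else if i = i1 then b else g i

/-- the `T`-part in the second family -/
def iotaB {k : ℕ} (i0 i1 : Fin k) (κ : Fin k → T) (i : Fin k) : T :=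
  if i = i0 then κ i1 else κ i

/-- the patterns -/
def pat {k A F0 : ℕ} {φ : D → D → ℕ} (i0 i1 : Fin k) (κ : Fin k → T) :
    PatIdx D T k A F0 φ → Fin k → D × T
  | Sum.inl ⟨_, σ, g⟩, i => (g i, σ (κ i))
  | Sum.inr ⟨_, ab, σ, g⟩, i => (labB i0 i1 ab.1.1 ab.1.2 g i, σ (iotaB i0 i1 κ i))

theorem iotaB_eq {k : ℕ} {i0 i1 : Fin k} {κ : Fin k → T} (hκ : Function.Injective κ)
    {i j : Fin k} (hij : i ≠ j) (h : iotaB i0 i1 κ i = iotaB i0 i1 κ j) :
    (i = i0 ∧ j = i1) ∨ (i = i1 ∧ j = i0) := by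
  unfold iotaB at h
  by_cases hi : i = i0
  · by_cases hj : j = i0
    · exact absurd (hi.trans hj.symm) hij
    · rw [if_pos hi, if_neg hj] at h
      exact Or.inl ⟨hi, (hκ h).symm⟩
  · by_cases hj : j = i0
    · rw [if_neg hi, if_pos hj] at h
      exact Or.inr ⟨hκ h, hj⟩
    · rw [if_neg hi, if_neg hj] at h
      exact absurd (hκ h) hij

theorem pat_injective {k A F0 : ℕ} {φ : D → D → ℕ} (hφ0 : ∀ a, φ a a = 0) {i0 i1 : Fin k}
    (h01 : i0 ≠ i1) {κ : Fin k → T} (hκ : Function.Injective κ) (r : PatIdx D T k A F0 φ) :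
    Function.Injective (pat i0 i1 κ r) := by
  intro i j hij
  rcases r with ⟨x, σ, g⟩ | ⟨x, ⟨⟨a, b⟩, n⟩, σ, g⟩
  · simp only [pat, Prod.mk.injEq] at hij
    exact hκ (σ.injective hij.2)
  · simp only [pat, Prod.mk.injEq] at hij
    by_contra hne
    have hab : a ≠ b := by
      rintro rfl
      have := n.2
      simp only [hφ0] at this
      omega
    rcases iotaB_eq hκ hne (σ.injective hij.2) with ⟨rfl, rfl⟩ | ⟨rfl, rfl⟩
    · have h1 := hij.1
      simp only [labB, if_true, if_neg h01.symm] at h1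
      exact hab h1
    · have h1 := hij.1
      simp only [labB, if_true, if_neg h01.symm] at h1
      exact hab h1.symm

/-- number of weighted pairs satisfying a predicate -/
theorem card_sigma_filter {φ : D → D → ℕ} (p : D × D → Prop) [DecidablePred p] :
    (univ.filter (fun x : (Σ ab : D × D, Fin (φ ab.1 ab.2)) => p x.1)).card =
      ∑ a, ∑ b, if p (a, b) then φ a b else 0 := by
  rw [card_filter, Fintype.sum_sigma, Fintype.sum_prod_type]
  refine sum_congr rfl fun a _ => sum_congr rfl fun b _ => ?_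
  by_cases h : p (a, b) <;> simp [h]

theorem card_g_two {k : ℕ} {i j : Fin k} (hij : i ≠ j) (a b : D) :
    (univ.filter (fun g : Fin k → D => g i = a ∧ g j = b)).card = Fintype.card D ^ (k - 2) := by
  have h := card_filter_pi ({i, j} : Finset (Fin k)) (fun l => if l = i then a else b)
  rw [card_pair hij] at h
  rw [← h]
  congr 1
  ext g
  simp only [mem_filter, mem_univ, true_and, mem_insert, mem_singleton, forall_eq_or_imp,
    forall_eq, if_true, if_neg hij.symm]

theorem card_g_one {k : ℕ} (i : Fin k) (a : D) :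
    (univ.filter (fun g : Fin k → D => g i = a)).card = Fintype.card D ^ (k - 1) := by
  have h := card_filter_pi ({i} : Finset (Fin k)) (fun _ => a)
  rw [card_singleton] at h
  rw [← h]
  congr 1
  ext g
  simp

/-- Count of label data in the second family, generic slots. -/
theorem card_lab {k : ℕ} (hk : 3 ≤ k) {φ : D → D → ℕ} (hsymm : ∀ a b, φ a b = φ b a) {s1 : ℕ}
    (hs1 : ∀ a, ∑ b, φ a b = s1) {i0 i1 : Fin k} (h01 : i0 ≠ i1) {i j : Fin k} (hij : i ≠ j)
    (h1 : ¬ (i = i0 ∧ j = i1)) (h2 : ¬ (i = i1 ∧ j = i0)) (a b : D) :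
    (univ.filter (fun x : (Σ ab : D × D, Fin (φ ab.1 ab.2)) × (Fin k → D) =>
      labB i0 i1 x.1.1.1 x.1.1.2 x.2 i = a ∧ labB i0 i1 x.1.1.1 x.1.1.2 x.2 j = b)).card =
      s1 * Fintype.card D ^ (k - 1) := by
  have hs1' : ∀ b, ∑ a, φ a b = s1 := by
    intro b; rw [← hs1 b]; exact sum_congr rfl fun a _ => hsymm a b
  have hfst : ∀ c, (univ.filter (fun x : (Σ ab : D × D, Fin (φ ab.1 ab.2)) =>
      x.1.1 = c)).card = s1 := by
    intro c
    rw [card_sigma_filter (fun ab => ab.1 = c)]
    simp only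
    rw [sum_eq_single c]
    · simp [hs1]
    · intro b _ hb
      simp [hb]
    · simp
  have hsnd : ∀ c, (univ.filter (fun x : (Σ ab : D × D, Fin (φ ab.1 ab.2)) =>
      x.1.2 = c)).card = s1 := by
    intro c
    rw [card_sigma_filter (fun ab => ab.2 = c)]
    simp only
    rw [sum_comm, sum_eq_single c]
    · simp [hs1']
    · intro b _ hb
      simp [hb]
    · simp
  by_cases hi0 : i = i0
  · have hj0 : j ≠ i0 := fun h => hij (hi0.trans h.symm)
    have hj1 : j ≠ i1 := fun h => h1 ⟨hi0, h⟩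
    have := card_filter_prod (fun x : (Σ ab : D × D, Fin (φ ab.1 ab.2)) => x.1.1 = a)
      (fun g : Fin k → D => g j = b)
    rw [hfst, card_g_one] at this
    rw [← this]
    congr 1
    ext x
    simp [labB, hi0, hj0, hj1]
  by_cases hi1 : i = i1
  · have hj1 : j ≠ i1 := fun h => hij (hi1.trans h.symm)
    have hj0 : j ≠ i0 := fun h => h2 ⟨hi1, h⟩
    have := card_filter_prod (fun x : (Σ ab : D × D, Fin (φ ab.1 ab.2)) => x.1.2 = a)
      (fun g : Fin k → D => g j = b)
    rw [hsnd, card_g_one] at this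
    rw [← this]
    congr 1
    ext x
    simp [labB, hi1, hj0, hj1, h01.symm]
  by_cases hj0 : j = i0
  · have := card_filter_prod (fun x : (Σ ab : D × D, Fin (φ ab.1 ab.2)) => x.1.1 = b)
      (fun g : Fin k → D => g i = a)
    rw [hfst, card_g_one] at this
    rw [← this]
    congr 1
    ext x
    simp [labB, hi0, hi1, hj0, and_comm]
  by_cases hj1 : j = i1
  · have := card_filter_prod (fun x : (Σ ab : D × D, Fin (φ ab.1 ab.2)) => x.1.2 = b)
      (fun g : Fin k → D => g i = a)
    rw [hsnd, card_g_one] at this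
    rw [← this]
    congr 1
    ext x
    simp [labB, hi0, hi1, hj1, h01.symm, and_comm]
  have := card_filter_prod (fun _ : (Σ ab : D × D, Fin (φ ab.1 ab.2)) => True)
      (fun g : Fin k → D => g i = a ∧ g j = b)
  rw [card_g_two hij, card_sigma_filter (fun _ => True)] at this
  simp only [if_true, hs1, sum_const, card_univ, smul_eq_mul] at this
  have h3 : Fintype.card D * s1 * Fintype.card D ^ (k - 2) =
      s1 * Fintype.card D ^ (k - 1) := by
    have : k - 1 = (k - 2) + 1 := by omega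
    rw [this, pow_succ]; ring
  rw [← h3, ← this]
  congr 1
  ext x
  simp [labB, hi0, hi1, hj0, hj1]

theorem card_filter_sum {A B : Type} [Fintype A] [Fintype B] (p : A ⊕ B → Prop)
    [DecidablePred p] : (univ.filter p).card =
      (univ.filter (fun a => p (Sum.inl a))).card + (univ.filter (fun b => p (Sum.inr b))).card := by
  rw [card_filter, card_filter, card_filter, Fintype.sum_sum_type]

theorem card_filter_mid {X P Q : Type} [Fintype X] [Fintype P] [Fintype Q] (p : X × Q → Prop)
    (q : P → Prop) [DecidablePred p] [DecidablePred q] :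
    (univ.filter (fun x : X × (P × Q) => p (x.1, x.2.2) ∧ q x.2.1)).card =
      (univ.filter p).card * (univ.filter q).card := by
  rw [← card_filter_prod]
  refine card_bij' (fun x _ => ((x.1, x.2.2), x.2.1)) (fun x _ => (x.1.1, (x.2, x.1.2)))
    ?_ ?_ ?_ ?_
  · intro x hx; simpa using hx
  · intro x hx; simpa using hx
  · intro x _; rfl
  · intro x _; rfl

theorem sum_special {k : ℕ} {i0 i1 : Fin k} (h01 : i0 ≠ i1) (c : Fin k × Fin k → ℕ) (x x' y : ℕ)
    (h0 : ∀ i, c (i, i) = 0) (hx : c (i0, i1) = x) (hx' : c (i1, i0) = x')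
    (hy : ∀ i j, i ≠ j → ¬ (i = i0 ∧ j = i1) → ¬ (i = i1 ∧ j = i0) → c (i, j) = y) :
    ∑ ij, c ij = x + x' + (k * (k - 1) - 2) * y := by
  have h1 : ∑ ij, c ij = ∑ ij ∈ (univ : Finset (Fin k)).offDiag, c ij := by
    symm
    apply sum_subset (subset_univ _)
    rintro ⟨i, j⟩ _ hn
    simp only [mem_offDiag, mem_univ, true_and, not_not] at hn
    subst hn
    exact h0 i
  rw [h1]
  have m1 : (i0, i1) ∈ (univ : Finset (Fin k)).offDiag := by simp [h01]
  have m2 : (i1, i0) ∈ (univ : Finset (Fin k)).offDiag.erase (i0, i1) := by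
    simp [h01, h01.symm]
  rw [← add_sum_erase _ _ m1, ← add_sum_erase _ _ m2, hx, hx']
  have h2 : ∀ ij ∈ (((univ : Finset (Fin k)).offDiag.erase (i0, i1)).erase (i1, i0)),
      c ij = y := by
    rintro ⟨i, j⟩ hij
    simp only [mem_erase, mem_offDiag, mem_univ, true_and, ne_eq, Prod.mk.injEq] at hij
    exact hy i j hij.2.2 hij.2.1 hij.1
  rw [sum_congr rfl h2, sum_const, smul_eq_mul, card_erase_of_mem m2, card_erase_of_mem m1,
    offDiag_card, card_univ, Fintype.card_fin, Nat.mul_sub_one, Nat.sub_sub]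
  simp only [Nat.reduceAdd]
  ring

/-- the number of slots at an ordered pair of labels -/
theorem card_slots {k A F0 : ℕ} (hk : 3 ≤ k) {φ : D → D → ℕ} (hsymm : ∀ a b, φ a b = φ b a)
    {s1 : ℕ}
    (hs1 : ∀ a, ∑ b, φ a b = s1) {i0 i1 : Fin k} (h01 : i0 ≠ i1) {κ : Fin k → T}
    (hκ : Function.Injective κ) (hT : 2 ≤ Fintype.card T) (w w' : D × T) (hw : w ≠ w') :
    (univ.filter (fun x : PatIdx D T k A F0 φ × (Fin k × Fin k) =>
      pat i0 i1 κ x.1 x.2.1 = w ∧ pat i0 i1 κ x.1 x.2.2 = w')).card =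
    if w.2 = w'.2 then 2 * (F0 * (φ w.1 w'.1 * (Fintype.card D ^ k *
        ((Fintype.card T - 1) * (Fintype.card T - 2).factorial))))
      else k * (k - 1) * (A * ((Fintype.card T - 2).factorial * Fintype.card D ^ (k - 2))) +
        (k * (k - 1) - 2) *
        (F0 * ((s1 * Fintype.card D ^ (k - 1)) * (Fintype.card T - 2).factorial)) := by
  obtain ⟨a, τ⟩ := w
  obtain ⟨b, τ'⟩ := w'
  set N2 := (Fintype.card T - 2).factorial with hN2
  set δ := Fintype.card D with hδ
  -- first family
  have hα : ∀ i j : Fin k, i ≠ j → (univ.filter (fun x : Fin A × (Equiv.Perm T × (Fin k → D)) =>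
      (pat i0 i1 κ (Sum.inl x : PatIdx D T k A F0 φ) i = (a, τ) ∧
        pat i0 i1 κ (Sum.inl x : PatIdx D T k A F0 φ) j = (b, τ')))).card =
      if τ = τ' then 0 else A * (N2 * δ ^ (k - 2)) := by
    intro i j hij
    have hne : κ i ≠ κ j := fun h => hij (hκ h)
    by_cases hτ : τ = τ'
    · rw [if_pos hτ, card_eq_zero, filter_eq_empty_iff]
      rintro ⟨x, σ, g⟩ _ ⟨h1, h2⟩
      simp only [pat, Prod.mk.injEq] at h1 h2
      exact hne (σ.injective (h1.2.trans (hτ.trans h2.2.symm)))
    · rw [if_neg hτ]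
      have e1 := card_filter_prod (fun σ : Equiv.Perm T => σ (κ i) = τ ∧ σ (κ j) = τ')
        (fun g : Fin k → D => g i = a ∧ g j = b)
      rw [card_perm_two hT hne hτ, card_g_two hij] at e1
      have e2 := card_filter_prod (fun _ : Fin A => True)
        (fun x : Equiv.Perm T × (Fin k → D) => (x.1 (κ i) = τ ∧ x.1 (κ j) = τ') ∧
          (x.2 i = a ∧ x.2 j = b))
      rw [e1] at e2
      simp only [filter_true, card_univ, Fintype.card_fin] at e2
      rw [← e2]
      congr 1
      ext ⟨x, σ, g⟩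
      simp only [pat, mem_filter, mem_univ, true_and, Prod.mk.injEq]
      tauto
  -- second family
  have hβ : ∀ i j : Fin k, (univ.filter (fun x : Fin F0 ×
      ((Σ ab : D × D, Fin (φ ab.1 ab.2)) × (Equiv.Perm T × (Fin k → D))) =>
      (pat i0 i1 κ (Sum.inr x : PatIdx D T k A F0 φ) i = (a, τ) ∧
        pat i0 i1 κ (Sum.inr x : PatIdx D T k A F0 φ) j = (b, τ')))).card =
      F0 * ((univ.filter (fun x : (Σ ab : D × D, Fin (φ ab.1 ab.2)) × (Fin k → D) =>
        labB i0 i1 x.1.1.1 x.1.1.2 x.2 i = a ∧ labB i0 i1 x.1.1.1 x.1.1.2 x.2 j = b)).card *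
        (univ.filter (fun σ : Equiv.Perm T => σ (iotaB i0 i1 κ i) = τ ∧
          σ (iotaB i0 i1 κ j) = τ')).card) := by
    intro i j
    have e1 := card_filter_mid (fun x : (Σ ab : D × D, Fin (φ ab.1 ab.2)) × (Fin k → D) =>
        labB i0 i1 x.1.1.1 x.1.1.2 x.2 i = a ∧ labB i0 i1 x.1.1.1 x.1.1.2 x.2 j = b)
      (fun σ : Equiv.Perm T => σ (iotaB i0 i1 κ i) = τ ∧ σ (iotaB i0 i1 κ j) = τ')
    have e2 := card_filter_prod (fun _ : Fin F0 => True)
        (fun x : (Σ ab : D × D, Fin (φ ab.1 ab.2)) × (Equiv.Perm T × (Fin k → D)) =>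
          (labB i0 i1 x.1.1.1 x.1.1.2 x.2.2 i = a ∧ labB i0 i1 x.1.1.1 x.1.1.2 x.2.2 j = b) ∧
          (x.2.1 (iotaB i0 i1 κ i) = τ ∧ x.2.1 (iotaB i0 i1 κ j) = τ'))
    simp only at e1
    rw [e1] at e2
    simp only [filter_true, card_univ, Fintype.card_fin] at e2
    rw [← e2]
    congr 1
    ext ⟨x, ab, σ, g⟩
    simp only [pat, mem_filter, mem_univ, true_and, Prod.mk.injEq]
    tauto
  have hι01 : iotaB i0 i1 κ i0 = κ i1 := by simp [iotaB]
  have hι11 : iotaB i0 i1 κ i1 = κ i1 := by simp [iotaB]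
  -- rearrange
  have hsum : (univ.filter (fun x : PatIdx D T k A F0 φ × (Fin k × Fin k) =>
      pat i0 i1 κ x.1 x.2.1 = (a, τ) ∧ pat i0 i1 κ x.1 x.2.2 = (b, τ'))).card =
      ∑ ij : Fin k × Fin k, (univ.filter (fun r : PatIdx D T k A F0 φ =>
        pat i0 i1 κ r ij.1 = (a, τ) ∧ pat i0 i1 κ r ij.2 = (b, τ'))).card := by
    rw [card_filter, Fintype.sum_prod_type_right]
    refine sum_congr rfl fun ij _ => ?_
    rw [card_filter]
  rw [hsum]
  have hspecial : ∀ c d : D, (univ.filter (fun x : (Σ ab : D × D, Fin (φ ab.1 ab.2)) ×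
      (Fin k → D) => x.1.1.1 = c ∧ x.1.1.2 = d)).card = φ c d * δ ^ k := by
    intro c d
    have e3 := card_filter_prod (fun x : (Σ ab : D × D, Fin (φ ab.1 ab.2)) =>
      x.1.1 = c ∧ x.1.2 = d) (fun _ : Fin k → D => True)
    rw [card_sigma_filter (fun ab => ab.1 = c ∧ ab.2 = d)] at e3
    simp only [filter_true, card_univ, Fintype.card_fun, Fintype.card_fin] at e3
    rw [sum_eq_single c, sum_eq_single d] at e3
    · simp only [and_self, if_true] at e3
      rw [← e3]
      congr 1
      ext x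
      simp
    · intro b' _ hb'
      simp [hb']
    · simp
    · intro a' _ ha'
      simp [ha']
    · simp
  by_cases hτ : τ = τ'
  · subst hτ
    have hab : a ≠ b := by
      rintro rfl
      exact hw rfl
    rw [if_pos rfl]
    have hx1 : F0 * (φ a b * (δ ^ k * ((Fintype.card T - 1) * N2))) =
        (univ.filter (fun r : PatIdx D T k A F0 φ =>
        pat i0 i1 κ r i0 = (a, τ) ∧ pat i0 i1 κ r i1 = (b, τ))).card := by
      rw [card_filter_sum, hα i0 i1 h01, hβ i0 i1, if_pos rfl, zero_add, hι01, hι11]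
      have e4 : (univ.filter (fun σ : Equiv.Perm T => σ (κ i1) = τ ∧ σ (κ i1) = τ)).card =
          (Fintype.card T - 1) * N2 := by
        rw [← card_perm_one hT (κ i1) τ]
        congr 1
        ext σ
        simp
      rw [e4]
      have e5 : (univ.filter (fun x : (Σ ab : D × D, Fin (φ ab.1 ab.2)) × (Fin k → D) =>
        labB i0 i1 x.1.1.1 x.1.1.2 x.2 i0 = a ∧ labB i0 i1 x.1.1.1 x.1.1.2 x.2 i1 = b)).card =
        φ a b * δ ^ k := by
        rw [← hspecial a b]
        congr 1
        ext x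
        simp [labB, h01.symm]
      rw [e5, mul_assoc]
    have hx2 : F0 * (φ a b * (δ ^ k * ((Fintype.card T - 1) * N2))) =
        (univ.filter (fun r : PatIdx D T k A F0 φ =>
        pat i0 i1 κ r i1 = (a, τ) ∧ pat i0 i1 κ r i0 = (b, τ))).card := by
      rw [card_filter_sum, hα i1 i0 h01.symm, hβ i1 i0, if_pos rfl, zero_add, hι01, hι11]
      have e4 : (univ.filter (fun σ : Equiv.Perm T => σ (κ i1) = τ ∧ σ (κ i1) = τ)).card =
          (Fintype.card T - 1) * N2 := by
        rw [← card_perm_one hT (κ i1) τ]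
        congr 1
        ext σ
        simp
      rw [e4]
      have e5 : (univ.filter (fun x : (Σ ab : D × D, Fin (φ ab.1 ab.2)) × (Fin k → D) =>
        labB i0 i1 x.1.1.1 x.1.1.2 x.2 i1 = a ∧ labB i0 i1 x.1.1.1 x.1.1.2 x.2 i0 = b)).card =
        φ a b * δ ^ k := by
        rw [hsymm a b, ← hspecial b a]
        congr 1
        ext x
        simp [labB, h01.symm, and_comm]
      rw [e5, mul_assoc]
    rw [sum_special h01 _ _ _ 0 ?_ hx1.symm hx2.symm ?_]
    · ring
    · intro i
      rw [card_eq_zero, filter_eq_empty_iff]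
      rintro r _ ⟨h1, h2⟩
      exact hw (h1.symm.trans h2)
    · intro i j hij h1 h2
      rw [card_filter_sum, hα i j hij, hβ i j, if_pos rfl, zero_add]
      have e4 : (univ.filter (fun σ : Equiv.Perm T => σ (iotaB i0 i1 κ i) = τ ∧
          σ (iotaB i0 i1 κ j) = τ)).card = 0 := by
        rw [card_eq_zero, filter_eq_empty_iff]
        rintro σ _ ⟨h3, h4⟩
        rcases iotaB_eq hκ hij (σ.injective (h3.trans h4.symm)) with h5 | h5
        · exact h1 h5
        · exact h2 h5
      rw [e4, mul_zero, mul_zero]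
  · rw [if_neg hτ]
    have hcommon : ∀ i j : Fin k, i ≠ j → iotaB i0 i1 κ i = iotaB i0 i1 κ j →
        (univ.filter (fun r : PatIdx D T k A F0 φ =>
        pat i0 i1 κ r i = (a, τ) ∧ pat i0 i1 κ r j = (b, τ'))).card =
        A * (N2 * δ ^ (k - 2)) := by
      intro i j hij hι
      rw [card_filter_sum, hα i j hij, hβ i j, if_neg hτ]
      have e4 : (univ.filter (fun σ : Equiv.Perm T => σ (iotaB i0 i1 κ i) = τ ∧
          σ (iotaB i0 i1 κ j) = τ')).card = 0 := by
        rw [card_eq_zero, filter_eq_empty_iff]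
        rintro σ _ ⟨h3, h4⟩
        rw [hι] at h3
        exact hτ (h3.symm.trans h4)
      rw [e4, mul_zero, mul_zero, add_zero]
    rw [sum_special h01 _ (A * (N2 * δ ^ (k - 2))) (A * (N2 * δ ^ (k - 2)))
      (A * (N2 * δ ^ (k - 2)) + F0 * ((s1 * δ ^ (k - 1)) * N2)) ?_
      (hcommon i0 i1 h01 (by rw [hι01, hι11])) (hcommon i1 i0 h01.symm (by rw [hι01, hι11])) ?_]
    · have hkk : k * (k - 1) = 2 + (k * (k - 1) - 2) := by
        have : 3 * 2 ≤ k * (k - 1) := Nat.mul_le_mul hk (by omega)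
        omega
      set y := k * (k - 1) - 2 with hy
      rw [hkk]
      ring
    · intro i
      rw [card_eq_zero, filter_eq_empty_iff]
      rintro r _ ⟨h1, h2⟩
      exact hw (h1.symm.trans h2)
    · intro i j hij h1 h2
      rw [card_filter_sum, hα i j hij, hβ i j, if_neg hτ]
      have hι : iotaB i0 i1 κ i ≠ iotaB i0 i1 κ j := by
        intro h
        rcases iotaB_eq hκ hij h with h5 | h5
        · exact h1 h5
        · exact h2 h5
      rw [card_perm_two hT hι hτ, card_lab hk hsymm hs1 h01 hij h1 h2]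

end Families

end Pool.Agent.Helper621
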