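import Pool.Agent.Helper621.SExist
import Pool.Agent.Helper621.Assign
import Pool.Agent.Helper621.Pattern
import Pool.Agent.Helper621.Geo

/-!
# The base family
-/

namespace Pool.Agent.Helper621

set_option linter.unusedSectionVars false

open Finset

section Mk

variable {F : Type} [Field F] [Fintype F] [DecidableEq F] {T : Type} [DecidableEq T]
  {r M m k : ℕ}

theorem exists_baseFam (S : SData F r M m) (o : Prop) [Decidable o]
    (hk : 2 * r + (if o then 1 else 0) = k) {R : Type} (P : R → Fin k → Lab r T)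
    (hP : ∀ x, Function.Injective (P x)) (Λ : Lab r T → Lab r T → Finset F)
    (hΛ : ∀ w w' z, z ∈ Λ w w' ↔ z ^ M = 1 ∧ ¬ SCov S o w w' z) (b : R → Fin k → F)
    (h1 : ∀ x i j, i ≠ j → (b x j - b x i) ^ m ∈ Λ (P x i) (P x j))
    (h2 : ∀ x x' i j i' j', i ≠ j → i' ≠ j' → P x i = P x' i' → P x j = P x' j' →
        (b x j - b x i) ^ m = (b x' j' - b x' i') ^ m → x = x' ∧ i = i' ∧ j = j')
    (h3 : ∀ w w', ∀ z ∈ Λ w w', ∃ x i j, i ≠ j ∧ P x i = w ∧ P x j = w' ∧
        (b x j - b x i) ^ m = z) :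
    Nonempty (BaseFam F (Lab r T) (((ZMod 3 × T) × (Fin r × {z : F // z ^ M = 1})) ⊕ R) k M m) := by
  have hm := S.hm
  have hbne : ∀ x i j, b x i = b x j → i = j := by
    intro x i j h
    by_contra hne
    have h4 := ((hΛ _ _ _).1 (h1 x i j hne)).1
    rw [h, sub_self, zero_pow hm.ne', zero_pow S.hM.ne'] at h4
    exact zero_ne_one h4
  let B : (((ZMod 3 × T) × (Fin r × {z : F // z ^ M = 1})) ⊕ R) → Finset (F × Lab r T) :=
    fun i => match i with
    | Sum.inl ⟨⟨c, t⟩, ⟨j, z⟩⟩ => sblk S o c t j z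
    | Sum.inr x => (univ : Finset (Fin k)).image (fun i => (b x i, P x i))
  have hBl : ∀ c t j z β w, (β, w) ∈ B (Sum.inl ((c, t), (j, z))) ↔ SMem S o c t j z β w :=
    fun c t j z β w => mem_sblk S o c t j z β w
  have hBr : ∀ x β w, (β, w) ∈ B (Sum.inr x) ↔ ∃ i, b x i = β ∧ P x i = w := by
    intro x β w
    simp [B]
  have hclash : ∀ x w w' γ γ', (γ, w) ∈ B (Sum.inr x) → (γ', w') ∈ B (Sum.inr x) → γ ≠ γ' →
      ¬ SCov S o w w' ((γ' - γ) ^ m) := by
    intro x w w' γ γ' hγ hγ' hne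
    obtain ⟨i, rfl, rfl⟩ := (hBr _ _ _).1 hγ
    obtain ⟨j, rfl, rfl⟩ := (hBr _ _ _).1 hγ'
    have hij : i ≠ j := by
      rintro rfl
      exact hne rfl
    exact ((hΛ _ _ _).1 (h1 x i j hij)).2
  refine ⟨⟨B, ?_, ?_, ?_, ?_⟩⟩
  · rintro (⟨⟨c, t⟩, ⟨j, z⟩⟩ | x)
    · exact (card_sblk S o c t j z.2).trans hk
    · simp only [B]
      rw [card_image_of_injective, card_univ, Fintype.card_fin]
      intro i j h
      simp only [Prod.mk.injEq] at h
      exact hP x h.2
  · rintro (⟨⟨c, t⟩, ⟨j, z⟩⟩ | x) β w w' hw hw'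
    · rw [hBl] at hw hw'
      exact smem_inj S o z.2 hw hw'
    · obtain ⟨i, hi, rfl⟩ := (hBr _ _ _).1 hw
      obtain ⟨j, hj, rfl⟩ := (hBr _ _ _).1 hw'
      rw [hbne x i j (hi.trans hj.symm)]
  · intro w w' z hz
    by_cases hc : SCov S o w w' z
    · obtain ⟨c, t, j, z', hz', β, β', hβ, hβ', hcl⟩ := scov_ex S o hz hc
      exact ⟨Sum.inl ((c, t), (j, ⟨z', hz'⟩)), β, β', (hBl _ _ _ _ _ _).2 hβ,
        (hBl _ _ _ _ _ _).2 hβ', hcl⟩
    · obtain ⟨x, i, j, _, hi, hj, hcl⟩ := h3 w w' z ((hΛ _ _ _).2 ⟨hz, hc⟩)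
      exact ⟨Sum.inr x, b x i, b x j, (hBr _ _ _).2 ⟨i, rfl, hi⟩, (hBr _ _ _).2 ⟨j, rfl, hj⟩,
        hcl⟩
  · intro i j w w' β β' γ γ' hβ hβ' hγ hγ' hne hcl
    have hγne : γ ≠ γ' := by
      intro h
      rw [h, sub_self, zero_pow hm.ne'] at hcl
      exact hne (sub_eq_zero.1 (pow_eq_zero_iff hm.ne' |>.1 hcl)).symm
    rcases i with ⟨⟨c, t⟩, ⟨l, z⟩⟩ | x
    · rcases j with ⟨⟨c', t'⟩, ⟨l', z'⟩⟩ | x'
      · rw [hBl] at hβ hβ' hγ hγ'
        obtain ⟨rfl, rfl, rfl, h5, h6⟩ := smem_uniq S o z.2 z'.2 hβ hβ' hγ hγ' hne hcl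
        have h7 : z = z' := Subtype.ext h5
        subst h7
        refine ⟨rfl, ?_⟩
        rcases h6 with h6 | h6
        · exact Or.inl h6
        · refine Or.inr ⟨h6.1, h6.2, ?_⟩
          intro δ u hδ
          rw [hBl] at hδ ⊢
          exact smem_neg S o hδ
      · exfalso
        rw [hBl] at hβ hβ'
        have h5 := smem_cov S o z.2 hβ hβ' hne
        rw [hcl] at h5
        exact hclash x' w w' γ γ' hγ hγ' hγne h5
    · rcases j with ⟨⟨c', t'⟩, ⟨l', z'⟩⟩ | x'
      · exfalso
        rw [hBl] at hγ hγ'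
        have h5 := smem_cov S o z'.2 hγ hγ' hγne
        rw [← hcl] at h5
        exact hclash x w w' β β' hβ hβ' hne h5
      · obtain ⟨i1, hi1, hi1'⟩ := (hBr _ _ _).1 hβ
        obtain ⟨i2, hi2, hi2'⟩ := (hBr _ _ _).1 hβ'
        obtain ⟨j1, hj1, hj1'⟩ := (hBr _ _ _).1 hγ
        obtain ⟨j2, hj2, hj2'⟩ := (hBr _ _ _).1 hγ'
        have n1 : i1 ≠ i2 := by
          rintro rfl
          exact hne (hi1.symm.trans hi2)
        have n2 : j1 ≠ j2 := by
          rintro rfl
          exact hγne (hj1.symm.trans hj2)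
        rw [← hi1, ← hi2, ← hj1, ← hj2] at hcl
        obtain ⟨rfl, rfl, rfl⟩ := h2 x x' i1 i2 j1 j2 n1 n2 (hi1'.trans hj1'.symm)
          (hi2'.trans hj2'.symm) hcl
        exact ⟨rfl, Or.inl ⟨hj1.symm.trans hi1, hj2.symm.trans hi2⟩⟩

end Mk

/-! ### weights -/

section Phi

variable {r k : ℕ}

/-- the weight function on pairs of labels with the same `T`-coordinate -/
def phi (r k : ℕ) (a b : (Fin r × Fin r) × ZMod 3) : ℕ :=
  if a.2 = b.2 then (if a.1.1 = b.1.1 ∨ a.1.2 = b.1.2 then 0 else r * r) else r * r - k % 2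

theorem phi_symm (a b : (Fin r × Fin r) × ZMod 3) : phi r k a b = phi r k b a := by
  unfold phi
  simp only [eq_comm]

theorem phi_self (a : (Fin r × Fin r) × ZMod 3) : phi r k a a = 0 := by simp [phi]

theorem phi_le (a b : (Fin r × Fin r) × ZMod 3) : phi r k a b ≤ r * r := by
  unfold phi
  split_ifs <;> omega

theorem phi_sum (a a' : (Fin r × Fin r) × ZMod 3) : ∑ b, phi r k a b = ∑ b, phi r k a' b := by
  let e : ((Fin r × Fin r) × ZMod 3) ≃ ((Fin r × Fin r) × ZMod 3) :=
    ((Equiv.swap a.1.1 a'.1.1).prodCongr (Equiv.swap a.1.2 a'.1.2)).prodCongr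
      (Equiv.addRight (a'.2 - a.2))
  rw [← e.sum_comp (fun b => phi r k a' b)]
  refine sum_congr rfl fun b _ => ?_
  have h1 : (a'.2 = (e b).2) ↔ (a.2 = b.2) := by
    simp only [e, Equiv.prodCongr_apply, Prod.map_snd, Equiv.coe_addRight]
    constructor
    · intro h; linear_combination h
    · intro h; linear_combination h
  have h2 : (a'.1.1 = (e b).1.1) ↔ (a.1.1 = b.1.1) := by
    simp only [e, Equiv.prodCongr_apply, Prod.map_fst]
    constructor
    · intro h
      have := congrArg (Equiv.swap a.1.1 a'.1.1) h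
      rwa [Equiv.swap_apply_right, Equiv.swap_apply_self] at this
    · intro h
      rw [← h, Equiv.swap_apply_left]
  have h3 : (a'.1.2 = (e b).1.2) ↔ (a.1.2 = b.1.2) := by
    simp only [e, Equiv.prodCongr_apply, Prod.map_fst, Prod.map_snd]
    constructor
    · intro h
      have := congrArg (Equiv.swap a.1.2 a'.1.2) h
      rwa [Equiv.swap_apply_right, Equiv.swap_apply_self] at this
    · intro h
      rw [← h, Equiv.swap_apply_left]
  simp only [phi, h1, h2, h3]

end Phi

theorem zmod3_cases (c c' : ZMod 3) (h : c ≠ c') : c' = c + 1 ∨ c = c' + 1 := by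
  revert c c'; decide

section Lambda

variable {F : Type} [Field F] [Fintype F] [DecidableEq F] {T : Type} [DecidableEq T]
  {r M m k : ℕ}

/-- classes left for the generic blocks -/
noncomputable def lam (S : SData F r M m) (o : Prop) (w w' : Lab r T) : Finset F :=
  @Finset.filter F (fun z => ¬ SCov S o w w' z) (Classical.decPred _) (mu F M)

theorem mem_lam (S : SData F r M m) (o : Prop) (w w' : Lab r T) (z : F) :
    z ∈ lam S o w w' ↔ z ^ M = 1 ∧ ¬ SCov S o w w' z := by
  classical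
  unfold lam
  simp only [mem_filter, mem_mu]

theorem scov_symm (S : SData F r M m) (o : Prop) (w w' : Lab r T) (z : F)
    (h : SCov S o w w' z) : SCov S o w' w z := by
  obtain ⟨h1, h2⟩ := h
  refine ⟨h1.symm, ?_⟩
  rcases h2 with ⟨h3, h4⟩ | h3 | h3
  · exact Or.inl ⟨h3.symm, h4.imp Eq.symm Eq.symm⟩
  · exact Or.inr (Or.inr h3)
  · exact Or.inr (Or.inl h3)

theorem lam_symm (S : SData F r M m) (o : Prop) (w w' : Lab r T) :
    lam S o w w' = lam S o w' w := by
  ext z
  rw [mem_lam, mem_lam]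
  exact and_congr_right fun _ => not_congr ⟨scov_symm S o w w' z, scov_symm S o w' w z⟩

theorem lam_self (S : SData F r M m) (o : Prop) (w : Lab r T) : lam S o w w = ∅ := by
  ext z
  rw [mem_lam]
  simp only [notMem_empty, iff_false, not_and, not_not]
  intro _
  exact ⟨rfl, Or.inl ⟨rfl, Or.inl rfl⟩⟩

theorem card_lam (S : SData F r M m) {M0 : ℕ} (hM0 : r * r * M0 = M) (hmu : (mu F M).card = M)
    (hψ : ∀ yy, ((mu F M).filter (fun z => S.ψ z = yy)).card = M0) (w w' : Lab r T) :
    (lam S (k % 2 = 1) w w').card = if w.2 = w'.2 then M0 * phi r k w.1 w'.1 else M := by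
  classical
  have hall : (∀ z, ¬ SCov S (k % 2 = 1) w w' z) → (lam S (k % 2 = 1) w w').card = M := by
    intro h
    refine Eq.trans ?_ hmu
    congr 1
    ext z
    rw [mem_lam, mem_mu]
    exact ⟨fun h2 => h2.1, fun h2 => ⟨h2, h z⟩⟩
  have hnone : (∀ z, SCov S (k % 2 = 1) w w' z) → (lam S (k % 2 = 1) w w').card = 0 := by
    intro h
    rw [card_eq_zero]
    ext z
    rw [mem_lam]
    simp [h z]
  have hpart : ∀ yy, (∀ z, SCov S (k % 2 = 1) w w' z ↔ S.ψ z = yy) →
      (lam S (k % 2 = 1) w w').card = M0 * (r * r - 1) := by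
    intro yy h
    have h1 : lam S (k % 2 = 1) w w' = mu F M \ (mu F M).filter (fun z => S.ψ z = yy) := by
      ext z
      rw [mem_lam, mem_sdiff, mem_filter, mem_mu, h z]
      tauto
    rw [h1, card_sdiff_of_subset (filter_subset _ _), hψ, hmu, ← hM0, Nat.mul_sub_one]
    ring_nf
  obtain ⟨⟨yy, c⟩, t⟩ := w
  obtain ⟨⟨yy', c'⟩, t'⟩ := w'
  by_cases ht : t = t'
  · subst ht
    rw [if_pos rfl]
    by_cases hc : c = c'
    · subst hc
      by_cases hr : yy.1 = yy'.1 ∨ yy.2 = yy'.2
      · rw [hnone (fun z => ⟨rfl, Or.inl ⟨rfl, hr⟩⟩)]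
        simp [phi, hr]
      · rw [hall]
        · simp only [phi, if_true, if_neg hr]
          rw [← hM0]; ring
        · rintro z ⟨_, h | h | h⟩
          · exact hr h.2
          · exact zmod3_a c h.2.1
          · exact zmod3_a c h.2.1
    · have hphi : phi r k (yy, c) (yy', c') = r * r - k % 2 := by simp [phi, hc]
      simp only [hphi]
      by_cases ho : k % 2 = 1
      · have hk2 : r * r - k % 2 = r * r - 1 := by rw [ho]
        rw [hk2]
        rcases zmod3_cases c c' hc with h | h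
        · have h' : ∀ z, SCov S (k % 2 = 1) ((yy, c), t) ((yy', c'), t) z ↔ S.ψ z = yy' := by
            intro z
            constructor
            · rintro ⟨_, h2 | h2 | h2⟩
              · exact absurd h2.1 hc
              · exact h2.2.2
              · exfalso
                have h3 := h2.2.1
                simp only at h3
                rw [h] at h3
                exact zmod3_b c h3
            · intro h2
              exact ⟨rfl, Or.inr (Or.inl ⟨ho, h, h2⟩)⟩
          exact hpart yy' h'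
        · have h' : ∀ z, SCov S (k % 2 = 1) ((yy, c), t) ((yy', c'), t) z ↔ S.ψ z = yy := by
            intro z
            constructor
            · rintro ⟨_, h2 | h2 | h2⟩
              · exact absurd h2.1 hc
              · exfalso
                have h3 := h2.2.1
                simp only at h3
                rw [h] at h3
                exact zmod3_b c' h3
              · exact h2.2.2
            · intro h2
              exact ⟨rfl, Or.inr (Or.inr ⟨ho, h, h2⟩)⟩
          exact hpart yy h'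
      · rw [hall]
        · have : k % 2 = 0 := by omega
          rw [this, Nat.sub_zero, ← hM0]; ring
        · rintro z ⟨_, h | h | h⟩
          · exact hc h.1
          · exact ho h.1
          · exact ho h.1
  · rw [if_neg ht, hall]
    rintro z ⟨h, _⟩
    exact ht h

end Lambda

end Pool.Agent.Helper621
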