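import Pool.Agent.Helper621.MkBase
import Pool.Agent.Helper621.CaseA

/-!
# Constructing the data
-/

namespace Pool.Agent.Helper621

set_option linter.unusedSectionVars false

open Finset

section Mk

variable {F : Type} [Field F] [Fintype F] [DecidableEq F] {T : Type} [DecidableEq T]
  {r M m k : ℕ}

theorem exists_rdata (S : SData F r M m) (o : Prop) [Decidable o]
    (hk : 2 * r + (if o then 1 else 0) = k) {R : Type} (P : R → Fin k → Lab r T)
    (hP : ∀ x, Function.Injective (P x)) (Λ : Lab r T → Lab r T → Finset F)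
    (hΛ : ∀ w w' z, z ∈ Λ w w' ↔ z ^ M = 1 ∧ ¬ SCov S o w w' z) (b : R → Fin k → F)
    (h1 : ∀ x i j, i ≠ j → (b x j - b x i) ^ m ∈ Λ (P x i) (P x j))
    (h2 : ∀ x x' i j i' j', i ≠ j → i' ≠ j' → P x i = P x' i' → P x j = P x' j' →
        (b x j - b x i) ^ m = (b x' j' - b x' i') ^ m → x = x' ∧ i = i' ∧ j = j')
    (h3 : ∀ w w', ∀ z ∈ Λ w w', ∃ x i j, i ≠ j ∧ P x i = w ∧ P x j = w' ∧
        (b x j - b x i) ^ m = z) :
    ∃ D : RData F T R r M m k, D.S = S ∧ D.P = P ∧ D.b = b ∧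
      ∀ x, Function.Injective (b x) := by
  have hm := S.hm
  have hbne : ∀ x i j, b x i = b x j → i = j := by
    intro x i j h
    by_contra hne
    have h4 := ((hΛ _ _ _).1 (h1 x i j hne)).1
    rw [h, sub_self, zero_pow hm.ne', zero_pow S.hM.ne'] at h4
    exact zero_ne_one h4
  let B : (((ZMod 3 × T) × (Fin r × {z : F // z ^ M = 1})) ⊕ R) → Finset (F × Lab r T) :=
    fun i => match i with
    | Sum.inl ⟨⟨c, t⟩, ⟨j, z⟩⟩ => sblk S o c t j z
    | Sum.inr x => (univ : Finset (Fin k)).image (fun i => (b x i, P x i))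
  have hBl : ∀ c t j z β w, (β, w) ∈ B (Sum.inl ((c, t), (j, z))) ↔ SMem S o c t j z β w :=
    fun c t j z β w => mem_sblk S o c t j z β w
  have hBr : ∀ x β w, (β, w) ∈ B (Sum.inr x) ↔ ∃ i, b x i = β ∧ P x i = w := by
    intro x β w
    simp [B]
  have hclash : ∀ x w w' γ γ', (γ, w) ∈ B (Sum.inr x) → (γ', w') ∈ B (Sum.inr x) → γ ≠ γ' →
      ¬ SCov S o w w' ((γ' - γ) ^ m) := by
    intro x w w' γ γ' hγ hγ' hne
    obtain ⟨i, rfl, rfl⟩ := (hBr _ _ _).1 hγ
    obtain ⟨j, rfl, rfl⟩ := (hBr _ _ _).1 hγ'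
    have hij : i ≠ j := by
      rintro rfl
      exact hne rfl
    exact ((hΛ _ _ _).1 (h1 x i j hij)).2
  have c1 : ∀ i, (B i).card = k := by
    rintro (⟨⟨c, t⟩, ⟨j, z⟩⟩ | x)
    · exact (card_sblk S o c t j z.2).trans hk
    · simp only [B]
      rw [card_image_of_injective, card_univ, Fintype.card_fin]
      intro i j h
      simp only [Prod.mk.injEq] at h
      exact hP x h.2
  have c2 : ∀ i β w w', (β, w) ∈ B i → (β, w') ∈ B i → w = w' := by
    rintro (⟨⟨c, t⟩, ⟨j, z⟩⟩ | x) β w w' hw hw'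
    · rw [hBl] at hw hw'
      exact smem_inj S o z.2 hw hw'
    · obtain ⟨i, hi, rfl⟩ := (hBr _ _ _).1 hw
      obtain ⟨j, hj, rfl⟩ := (hBr _ _ _).1 hw'
      rw [hbne x i j (hi.trans hj.symm)]
  have c3 : ∀ w w' z, z ^ M = 1 →
      ∃ i β β', (β, w) ∈ B i ∧ (β', w') ∈ B i ∧ (β' - β) ^ m = z := by
    intro w w' z hz
    by_cases hc : SCov S o w w' z
    · obtain ⟨c, t, j, z', hz', β, β', hβ, hβ', hcl⟩ := scov_ex S o hz hc
      exact ⟨Sum.inl ((c, t), (j, ⟨z', hz'⟩)), β, β', (hBl _ _ _ _ _ _).2 hβ,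
        (hBl _ _ _ _ _ _).2 hβ', hcl⟩
    · obtain ⟨x, i, j, _, hi, hj, hcl⟩ := h3 w w' z ((hΛ _ _ _).2 ⟨hz, hc⟩)
      exact ⟨Sum.inr x, b x i, b x j, (hBr _ _ _).2 ⟨i, rfl, hi⟩, (hBr _ _ _).2 ⟨j, rfl, hj⟩,
        hcl⟩
  have c4 : ∀ i j w w' β β' γ γ', (β, w) ∈ B i → (β', w') ∈ B i → (γ, w) ∈ B j →
      (γ', w') ∈ B j → β ≠ β' → (β' - β) ^ m = (γ' - γ) ^ m →
      i = j ∧ ((γ = β ∧ γ' = β') ∨
        (γ = -β ∧ γ' = -β' ∧ ∀ δ u, (δ, u) ∈ B i → (-δ, u) ∈ B i)) := by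
    intro i j w w' β β' γ γ' hβ hβ' hγ hγ' hne hcl
    have hγne : γ ≠ γ' := by
      intro h
      rw [h, sub_self, zero_pow hm.ne'] at hcl
      exact hne (sub_eq_zero.1 (pow_eq_zero_iff hm.ne' |>.1 hcl)).symm
    rcases i with ⟨⟨c, t⟩, ⟨l, z⟩⟩ | x
    · rcases j with ⟨⟨c', t'⟩, ⟨l', z'⟩⟩ | x'
      · rw [hBl] at hβ hβ' hγ hγ'
        obtain ⟨rfl, rfl, rfl, h5, h6⟩ := smem_uniq S o z.2 z'.2 hβ hβ' hγ hγ' hne hcl
        have h7 : z = z' := Subtype.ext h5
        subst h7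
        refine ⟨rfl, ?_⟩
        rcases h6 with h6 | h6
        · exact Or.inl h6
        · refine Or.inr ⟨h6.1, h6.2, ?_⟩
          intro δ u hδ
          rw [hBl] at hδ ⊢
          exact smem_neg S o hδ
      · exfalso
        rw [hBl] at hβ hβ'
        have h5 := smem_cov S o z.2 hβ hβ' hne
        rw [hcl] at h5
        exact hclash x' w w' γ γ' hγ hγ' hγne h5
    · rcases j with ⟨⟨c', t'⟩, ⟨l', z'⟩⟩ | x'
      · exfalso
        rw [hBl] at hγ hγ'
        have h5 := smem_cov S o z'.2 hγ hγ' hγne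
        rw [← hcl] at h5
        exact hclash x w w' β β' hβ hβ' hne h5
      · obtain ⟨i1, hi1, hi1'⟩ := (hBr _ _ _).1 hβ
        obtain ⟨i2, hi2, hi2'⟩ := (hBr _ _ _).1 hβ'
        obtain ⟨j1, hj1, hj1'⟩ := (hBr _ _ _).1 hγ
        obtain ⟨j2, hj2, hj2'⟩ := (hBr _ _ _).1 hγ'
        have n1 : i1 ≠ i2 := by
          rintro rfl
          exact hne (hi1.symm.trans hi2)
        have n2 : j1 ≠ j2 := by
          rintro rfl
          exact hγne (hj1.symm.trans hj2)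
        rw [← hi1, ← hi2, ← hj1, ← hj2] at hcl
        obtain ⟨rfl, rfl, rfl⟩ := h2 x x' i1 i2 j1 j2 n1 n2 (hi1'.trans hj1'.symm)
          (hi2'.trans hj2'.symm) hcl
        exact ⟨rfl, Or.inl ⟨hj1.symm.trans hi1, hj2.symm.trans hi2⟩⟩
  exact ⟨⟨S, o, P, b, ⟨B, c1, c2, c3, c4⟩, hBl, hBr,
    fun x i j hij => ((hΛ _ _ _).1 (h1 x i j hij)).2⟩, rfl, rfl, rfl, hbne⟩

end Mk

/-! ### the doubled label set -/

section Dbl

variable {r t k : ℕ}

/-- the label set of the patterns -/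
abbrev D0 (r : ℕ) : Type := ((Fin r × Fin r) × ZMod 3) × Bool

/-- doubled weights -/
def phi2 (r k : ℕ) (a b : D0 r) : ℕ := if a.2 = b.2 then phi r k a.1 b.1 else r * r

theorem phi2_symm (a b : D0 r) : phi2 r k a b = phi2 r k b a := by
  unfold phi2
  rw [phi_symm a.1 b.1]
  simp only [eq_comm]

theorem phi2_self (a : D0 r) : phi2 r k a a = 0 := by
  unfold phi2
  rw [if_pos rfl, phi_self]

theorem phi2_le (a b : D0 r) : phi2 r k a b ≤ r * r := by
  unfold phi2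
  split_ifs
  · exact phi_le _ _
  · exact le_rfl

theorem phi2_sum_eq (a : D0 r) : ∑ b, phi2 r k a b = ∑ b, phi r k a.1 b +
    Fintype.card ((Fin r × Fin r) × ZMod 3) * (r * r) := by
  rw [Fintype.sum_prod_type]
  have h1 : ∀ b : (Fin r × Fin r) × ZMod 3, ∑ e : Bool, phi2 r k a (b, e) =
      phi r k a.1 b + r * r := by
    intro b
    rw [Fintype.sum_bool]
    unfold phi2
    rcases a with ⟨a, _ | _⟩
    · simp [add_comm]
    · simp
  rw [sum_congr rfl (fun b _ => h1 b), sum_add_distrib, sum_const, smul_eq_mul, card_univ]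

theorem phi2_sum (a a' : D0 r) : ∑ b, phi2 r k a b = ∑ b, phi2 r k a' b := by
  rw [phi2_sum_eq, phi2_sum_eq, phi_sum a.1 a'.1]

/-- colour on the pattern labels -/
def colD (d : D0 r) : ZMod 2 := (if d.2 = true then 1 else 0) + if d.1.1.1 = d.1.1.2 then 1 else 0

/-- flip -/
def flipD (d : D0 r) : D0 r := (d.1, !d.2)

theorem colD_flip (d : D0 r) : colD (flipD d) = colD d + 1 := by
  unfold colD flipD
  rcases d with ⟨d, _ | _⟩
  · simp only [Bool.not_false, if_true, Bool.false_eq_true, if_false]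
    ring
  · simp only [Bool.not_true, if_true, Bool.false_eq_true, if_false]
    split_ifs <;> decide

theorem flipD_flip (d : D0 r) : flipD (flipD d) = d := by
  unfold flipD
  simp

/-- relabel -/
def relab (x : D0 r × Fin t) : Lab r (Bool × Fin t) := (x.1.1, (x.1.2, x.2))

theorem relab_eq (x : D0 r × Fin t) (w : Lab r (Bool × Fin t)) :
    relab x = w ↔ x = ((w.1, w.2.1), w.2.2) := by
  unfold relab
  constructor
  · rintro rfl; rfl
  · rintro rfl; rfl

theorem relab_inj : Function.Injective (relab (r := r) (t := t)) := by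
  intro x y h
  rw [relab_eq] at h
  rw [h]; rfl

/-- colour offset of a fibre -/
def epsT (τ : Bool × Fin t) : ZMod 2 := if τ.1 = true then 1 else 0

theorem colW_relab (x : D0 r × Fin t) : colW epsT (relab x) = colD x.1 := rfl

end Dbl

end Pool.Agent.Helper621
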