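import Pool.Agent.Helper621.Pattern

/-!
# Label patterns with pairwise uniform label data
-/

namespace Pool.Agent.Helper621

set_option linter.unusedSectionVars false

open Finset

section Families

variable {D T Γ : Type} [Fintype D] [DecidableEq D] [Fintype T] [DecidableEq T] [Fintype Γ]

/-- index type of the patterns -/
abbrev PatIdx2 (D T Γ : Type) (A F0 : ℕ) (φ : D → D → ℕ) : Type :=
  (Fin A × (Equiv.Perm T × Γ)) ⊕
    (Fin F0 × ((Σ ab : D × D, Fin (φ ab.1 ab.2)) × (Equiv.Perm T × Γ)))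

/-- the patterns -/
def pat2 {k A F0 : ℕ} {φ : D → D → ℕ} (lab : Γ → Fin k → D) (i0 i1 : Fin k) (κ : Fin k → T) :
    PatIdx2 D T Γ A F0 φ → Fin k → D × T
  | Sum.inl ⟨_, σ, g⟩, i => (lab g i, σ (κ i))
  | Sum.inr ⟨_, ab, σ, g⟩, i => (labB i0 i1 ab.1.1 ab.1.2 (lab g) i, σ (iotaB i0 i1 κ i))

theorem pat2_injective {k A F0 : ℕ} {φ : D → D → ℕ} (lab : Γ → Fin k → D)
    (hφ0 : ∀ a, φ a a = 0) {i0 i1 : Fin k}
    (h01 : i0 ≠ i1) {κ : Fin k → T} (hκ : Function.Injective κ) (r : PatIdx2 D T Γ A F0 φ) :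
    Function.Injective (pat2 lab i0 i1 κ r) := by
  intro i j hij
  rcases r with ⟨x, σ, g⟩ | ⟨x, ⟨⟨a, b⟩, n⟩, σ, g⟩
  · simp only [pat2, Prod.mk.injEq] at hij
    exact hκ (σ.injective hij.2)
  · simp only [pat2, Prod.mk.injEq] at hij
    by_contra hne
    have hab : a ≠ b := by
      rintro rfl
      have := n.2
      simp only [hφ0] at this
      omega
    rcases iotaB_eq hκ hne (σ.injective hij.2) with ⟨rfl, rfl⟩ | ⟨rfl, rfl⟩
    · have h1 := hij.1
      simp only [labB, if_true, if_neg h01.symm] at h1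
      exact hab h1
    · have h1 := hij.1
      simp only [labB, if_true, if_neg h01.symm] at h1
      exact hab h1.symm

/-- one-point marginals from two-point marginals -/
theorem card_lab_one {k : ℕ} (hk : 3 ≤ k) (lab : Γ → Fin k → D) {n2 : ℕ}
    (h2 : ∀ i j : Fin k, i ≠ j → ∀ a b : D,
      (univ.filter (fun g : Γ => lab g i = a ∧ lab g j = b)).card = n2)
    (i : Fin k) (a : D) :
    (univ.filter (fun g : Γ => lab g i = a)).card = Fintype.card D * n2 := by
  obtain ⟨j, hj⟩ : ∃ j : Fin k, j ≠ i := by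
    by_cases h : i = ⟨0, by omega⟩
    · exact ⟨⟨1, by omega⟩, by rw [h]; simp [Fin.ext_iff]⟩
    · exact ⟨⟨0, by omega⟩, fun h' => h h'.symm⟩
  have h := card_eq_sum_card_fiberwise
    (f := fun g : Γ => lab g j) (s := univ.filter (fun g : Γ => lab g i = a))
    (t := (univ : Finset D)) (fun _ _ => mem_univ _)
  rw [h]
  have h3 : ∀ b ∈ (univ : Finset D), ((univ.filter (fun g : Γ => lab g i = a)).filter
      (fun g => lab g j = b)).card = n2 := by
    intro b _
    rw [filter_filter]
    exact h2 i j hj.symm a b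
  rw [sum_congr rfl h3, sum_const, smul_eq_mul, card_univ]

theorem card_lab_zero {k : ℕ} (hk : 3 ≤ k) (lab : Γ → Fin k → D) {n2 : ℕ}
    (h2 : ∀ i j : Fin k, i ≠ j → ∀ a b : D,
      (univ.filter (fun g : Γ => lab g i = a ∧ lab g j = b)).card = n2) :
    Fintype.card Γ = Fintype.card D * (Fintype.card D * n2) := by
  have h := card_eq_sum_card_fiberwise
    (f := fun g : Γ => lab g ⟨0, by omega⟩) (s := (univ : Finset Γ))
    (t := (univ : Finset D)) (fun _ _ => mem_univ _)
  rw [← card_univ, h]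
  rw [sum_congr rfl (fun a _ => card_lab_one hk lab h2 ⟨0, by omega⟩ a), sum_const, smul_eq_mul,
    card_univ]

/-- Count of label data in the second family, generic slots. -/
theorem card_lab2 {k : ℕ} (hk : 3 ≤ k) (lab : Γ → Fin k → D) {n2 : ℕ}
    (h2 : ∀ i j : Fin k, i ≠ j → ∀ a b : D,
      (univ.filter (fun g : Γ => lab g i = a ∧ lab g j = b)).card = n2)
    {φ : D → D → ℕ} (hsymm : ∀ a b, φ a b = φ b a) {s1 : ℕ}
    (hs1 : ∀ a, ∑ b, φ a b = s1) {i0 i1 : Fin k} (h01 : i0 ≠ i1) {i j : Fin k} (hij : i ≠ j)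
    (hn1 : ¬ (i = i0 ∧ j = i1)) (hn2 : ¬ (i = i1 ∧ j = i0)) (a b : D) :
    (univ.filter (fun x : (Σ ab : D × D, Fin (φ ab.1 ab.2)) × Γ =>
      labB i0 i1 x.1.1.1 x.1.1.2 (lab x.2) i = a ∧
        labB i0 i1 x.1.1.1 x.1.1.2 (lab x.2) j = b)).card =
      s1 * (Fintype.card D * n2) := by
  have hs1' : ∀ b, ∑ a, φ a b = s1 := by
    intro b; rw [← hs1 b]; exact sum_congr rfl fun a _ => hsymm a b
  have hfst : ∀ c, (univ.filter (fun x : (Σ ab : D × D, Fin (φ ab.1 ab.2)) =>
      x.1.1 = c)).card = s1 := by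
    intro c
    rw [card_sigma_filter (fun ab => ab.1 = c)]
    simp only
    rw [sum_eq_single c]
    · simp [hs1]
    · intro b _ hb
      simp [hb]
    · simp
  have hsnd : ∀ c, (univ.filter (fun x : (Σ ab : D × D, Fin (φ ab.1 ab.2)) =>
      x.1.2 = c)).card = s1 := by
    intro c
    rw [card_sigma_filter (fun ab => ab.2 = c)]
    simp only
    rw [sum_comm, sum_eq_single c]
    · simp [hs1']
    · intro b _ hb
      simp [hb]
    · simp
  have hone := card_lab_one hk lab h2
  by_cases hi0 : i = i0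
  · have hj0 : j ≠ i0 := fun h => hij (hi0.trans h.symm)
    have hj1 : j ≠ i1 := fun h => hn1 ⟨hi0, h⟩
    have := card_filter_prod (fun x : (Σ ab : D × D, Fin (φ ab.1 ab.2)) => x.1.1 = a)
      (fun g : Γ => lab g j = b)
    rw [hfst, hone] at this
    rw [← this]
    congr 1
    ext x
    simp [labB, hi0, hj0, hj1]
  by_cases hi1 : i = i1
  · have hj1 : j ≠ i1 := fun h => hij (hi1.trans h.symm)
    have hj0 : j ≠ i0 := fun h => hn2 ⟨hi1, h⟩
    have := card_filter_prod (fun x : (Σ ab : D × D, Fin (φ ab.1 ab.2)) => x.1.2 = a)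
      (fun g : Γ => lab g j = b)
    rw [hsnd, hone] at this
    rw [← this]
    congr 1
    ext x
    simp [labB, hi1, hj0, hj1, h01.symm]
  by_cases hj0 : j = i0
  · have := card_filter_prod (fun x : (Σ ab : D × D, Fin (φ ab.1 ab.2)) => x.1.1 = b)
      (fun g : Γ => lab g i = a)
    rw [hfst, hone] at this
    rw [← this]
    congr 1
    ext x
    simp [labB, hi0, hi1, hj0, and_comm]
  by_cases hj1 : j = i1
  · have := card_filter_prod (fun x : (Σ ab : D × D, Fin (φ ab.1 ab.2)) => x.1.2 = b)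
      (fun g : Γ => lab g i = a)
    rw [hsnd, hone] at this
    rw [← this]
    congr 1
    ext x
    simp [labB, hi0, hi1, hj1, h01.symm, and_comm]
  have := card_filter_prod (fun _ : (Σ ab : D × D, Fin (φ ab.1 ab.2)) => True)
      (fun g : Γ => lab g i = a ∧ lab g j = b)
  rw [h2 i j hij, card_sigma_filter (fun _ => True)] at this
  simp only [if_true, hs1, sum_const, card_univ, smul_eq_mul] at this
  have h3 : Fintype.card D * s1 * n2 = s1 * (Fintype.card D * n2) := by ring
  rw [← h3, ← this]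
  congr 1
  ext x
  simp [labB, hi0, hi1, hj0, hj1]

/-- the number of slots at an ordered pair of labels -/
theorem card_slots2 {k A F0 : ℕ} (hk : 3 ≤ k) (lab : Γ → Fin k → D) {n2 : ℕ}
    (h2 : ∀ i j : Fin k, i ≠ j → ∀ a b : D,
      (univ.filter (fun g : Γ => lab g i = a ∧ lab g j = b)).card = n2)
    {φ : D → D → ℕ} (hsymm : ∀ a b, φ a b = φ b a)
    {s1 : ℕ} (hs1 : ∀ a, ∑ b, φ a b = s1) {i0 i1 : Fin k} (h01 : i0 ≠ i1) {κ : Fin k → T}
    (hκ : Function.Injective κ) (hT : 2 ≤ Fintype.card T) (w w' : D × T) (hw : w ≠ w') :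
    (univ.filter (fun x : PatIdx2 D T Γ A F0 φ × (Fin k × Fin k) =>
      pat2 lab i0 i1 κ x.1 x.2.1 = w ∧ pat2 lab i0 i1 κ x.1 x.2.2 = w')).card =
    if w.2 = w'.2 then 2 * (F0 * (φ w.1 w'.1 * ((Fintype.card D * (Fintype.card D * n2)) *
        ((Fintype.card T - 1) * (Fintype.card T - 2).factorial))))
      else k * (k - 1) * (A * ((Fintype.card T - 2).factorial * n2)) +
        (k * (k - 1) - 2) *
        (F0 * ((s1 * (Fintype.card D * n2)) * (Fintype.card T - 2).factorial)) := by
  obtain ⟨a, τ⟩ := w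
  obtain ⟨b, τ'⟩ := w'
  have hzero := card_lab_zero hk lab h2
  set N2 := (Fintype.card T - 2).factorial with hN2
  set δ := Fintype.card D with hδ
  -- first family
  have hα : ∀ i j : Fin k, i ≠ j → (univ.filter (fun x : Fin A × (Equiv.Perm T × Γ) =>
      (pat2 lab i0 i1 κ (Sum.inl x : PatIdx2 D T Γ A F0 φ) i = (a, τ) ∧
        pat2 lab i0 i1 κ (Sum.inl x : PatIdx2 D T Γ A F0 φ) j = (b, τ')))).card =
      if τ = τ' then 0 else A * (N2 * n2) := by
    intro i j hij
    have hne : κ i ≠ κ j := fun h => hij (hκ h)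
    by_cases hτ : τ = τ'
    · rw [if_pos hτ, card_eq_zero, filter_eq_empty_iff]
      rintro ⟨x, σ, g⟩ _ ⟨h1, h2⟩
      simp only [pat2, Prod.mk.injEq] at h1 h2
      exact hne (σ.injective (h1.2.trans (hτ.trans h2.2.symm)))
    · rw [if_neg hτ]
      have e1 := card_filter_prod (fun σ : Equiv.Perm T => σ (κ i) = τ ∧ σ (κ j) = τ')
        (fun g : Γ => lab g i = a ∧ lab g j = b)
      rw [card_perm_two hT hne hτ, h2 i j hij] at e1
      have e2 := card_filter_prod (fun _ : Fin A => True)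
        (fun x : Equiv.Perm T × Γ => (x.1 (κ i) = τ ∧ x.1 (κ j) = τ') ∧
          (lab x.2 i = a ∧ lab x.2 j = b))
      rw [e1] at e2
      simp only [filter_true, card_univ, Fintype.card_fin] at e2
      rw [← e2]
      congr 1
      ext ⟨x, σ, g⟩
      simp only [pat2, mem_filter, mem_univ, true_and, Prod.mk.injEq]
      tauto
  -- second family
  have hβ : ∀ i j : Fin k, (univ.filter (fun x : Fin F0 ×
      ((Σ ab : D × D, Fin (φ ab.1 ab.2)) × (Equiv.Perm T × Γ)) =>
      (pat2 lab i0 i1 κ (Sum.inr x : PatIdx2 D T Γ A F0 φ) i = (a, τ) ∧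
        pat2 lab i0 i1 κ (Sum.inr x : PatIdx2 D T Γ A F0 φ) j = (b, τ')))).card =
      F0 * ((univ.filter (fun x : (Σ ab : D × D, Fin (φ ab.1 ab.2)) × Γ =>
        labB i0 i1 x.1.1.1 x.1.1.2 (lab x.2) i = a ∧
          labB i0 i1 x.1.1.1 x.1.1.2 (lab x.2) j = b)).card *
        (univ.filter (fun σ : Equiv.Perm T => σ (iotaB i0 i1 κ i) = τ ∧
          σ (iotaB i0 i1 κ j) = τ')).card) := by
    intro i j
    have e1 := card_filter_mid (fun x : (Σ ab : D × D, Fin (φ ab.1 ab.2)) × Γ =>
        labB i0 i1 x.1.1.1 x.1.1.2 (lab x.2) i = a ∧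
          labB i0 i1 x.1.1.1 x.1.1.2 (lab x.2) j = b)
      (fun σ : Equiv.Perm T => σ (iotaB i0 i1 κ i) = τ ∧ σ (iotaB i0 i1 κ j) = τ')
    have e2 := card_filter_prod (fun _ : Fin F0 => True)
        (fun x : (Σ ab : D × D, Fin (φ ab.1 ab.2)) × (Equiv.Perm T × Γ) =>
          (labB i0 i1 x.1.1.1 x.1.1.2 (lab x.2.2) i = a ∧
            labB i0 i1 x.1.1.1 x.1.1.2 (lab x.2.2) j = b) ∧
          (x.2.1 (iotaB i0 i1 κ i) = τ ∧ x.2.1 (iotaB i0 i1 κ j) = τ'))
    simp only at e1
    rw [e1] at e2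
    simp only [filter_true, card_univ, Fintype.card_fin] at e2
    rw [← e2]
    congr 1
    ext ⟨x, ab, σ, g⟩
    simp only [pat2, mem_filter, mem_univ, true_and, Prod.mk.injEq]
    tauto
  have hι01 : iotaB i0 i1 κ i0 = κ i1 := by simp [iotaB]
  have hι11 : iotaB i0 i1 κ i1 = κ i1 := by simp [iotaB]
  -- rearrange
  have hsum : (univ.filter (fun x : PatIdx2 D T Γ A F0 φ × (Fin k × Fin k) =>
      pat2 lab i0 i1 κ x.1 x.2.1 = (a, τ) ∧ pat2 lab i0 i1 κ x.1 x.2.2 = (b, τ'))).card =
      ∑ ij : Fin k × Fin k, (univ.filter (fun r : PatIdx2 D T Γ A F0 φ =>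
        pat2 lab i0 i1 κ r ij.1 = (a, τ) ∧ pat2 lab i0 i1 κ r ij.2 = (b, τ'))).card := by
    rw [card_filter, Fintype.sum_prod_type_right]
    refine sum_congr rfl fun ij _ => ?_
    rw [card_filter]
  rw [hsum]
  have hspecial : ∀ c d : D, (univ.filter (fun x : (Σ ab : D × D, Fin (φ ab.1 ab.2)) ×
      Γ => x.1.1.1 = c ∧ x.1.1.2 = d)).card = φ c d * (δ * (δ * n2)) := by
    intro c d
    have e3 := card_filter_prod (fun x : (Σ ab : D × D, Fin (φ ab.1 ab.2)) =>
      x.1.1 = c ∧ x.1.2 = d) (fun _ : Γ => True)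
    rw [card_sigma_filter (fun ab => ab.1 = c ∧ ab.2 = d)] at e3
    simp only [filter_true, card_univ, hzero] at e3
    rw [sum_eq_single c, sum_eq_single d] at e3
    · simp only [and_self, if_true] at e3
      rw [← e3]
      congr 1
      ext x
      simp
    · intro b' _ hb'
      simp [hb']
    · simp
    · intro a' _ ha'
      simp [ha']
    · simp
  by_cases hτ : τ = τ'
  · subst hτ
    have hab : a ≠ b := by
      rintro rfl
      exact hw rfl
    rw [if_pos rfl]
    have hx1 : F0 * (φ a b * ((δ * (δ * n2)) * ((Fintype.card T - 1) * N2))) =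
        (univ.filter (fun r : PatIdx2 D T Γ A F0 φ =>
        pat2 lab i0 i1 κ r i0 = (a, τ) ∧ pat2 lab i0 i1 κ r i1 = (b, τ))).card := by
      rw [card_filter_sum, hα i0 i1 h01, hβ i0 i1, if_pos rfl, zero_add, hι01, hι11]
      have e4 : (univ.filter (fun σ : Equiv.Perm T => σ (κ i1) = τ ∧ σ (κ i1) = τ)).card =
          (Fintype.card T - 1) * N2 := by
        rw [← card_perm_one hT (κ i1) τ]
        congr 1
        ext σ
        simp
      rw [e4]
      have e5 : (univ.filter (fun x : (Σ ab : D × D, Fin (φ ab.1 ab.2)) × Γ =>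
        labB i0 i1 x.1.1.1 x.1.1.2 (lab x.2) i0 = a ∧
          labB i0 i1 x.1.1.1 x.1.1.2 (lab x.2) i1 = b)).card =
        φ a b * (δ * (δ * n2)) := by
        rw [← hspecial a b]
        congr 1
        ext x
        simp [labB, h01.symm]
      rw [e5, mul_assoc (φ a b)]
    have hx2 : F0 * (φ a b * ((δ * (δ * n2)) * ((Fintype.card T - 1) * N2))) =
        (univ.filter (fun r : PatIdx2 D T Γ A F0 φ =>
        pat2 lab i0 i1 κ r i1 = (a, τ) ∧ pat2 lab i0 i1 κ r i0 = (b, τ))).card := by
      rw [card_filter_sum, hα i1 i0 h01.symm, hβ i1 i0, if_pos rfl, zero_add, hι01, hι11]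
      have e4 : (univ.filter (fun σ : Equiv.Perm T => σ (κ i1) = τ ∧ σ (κ i1) = τ)).card =
          (Fintype.card T - 1) * N2 := by
        rw [← card_perm_one hT (κ i1) τ]
        congr 1
        ext σ
        simp
      rw [e4]
      have e5 : (univ.filter (fun x : (Σ ab : D × D, Fin (φ ab.1 ab.2)) × Γ =>
        labB i0 i1 x.1.1.1 x.1.1.2 (lab x.2) i1 = a ∧
          labB i0 i1 x.1.1.1 x.1.1.2 (lab x.2) i0 = b)).card =
        φ a b * (δ * (δ * n2)) := by
        rw [hsymm a b, ← hspecial b a]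
        congr 1
        ext x
        simp [labB, h01.symm, and_comm]
      rw [e5, mul_assoc (φ a b)]
    rw [sum_special h01 _ _ _ 0 ?_ hx1.symm hx2.symm ?_]
    · ring
    · intro i
      rw [card_eq_zero, filter_eq_empty_iff]
      rintro r _ ⟨h1, h2⟩
      exact hw (h1.symm.trans h2)
    · intro i j hij h1 h2
      rw [card_filter_sum, hα i j hij, hβ i j, if_pos rfl, zero_add]
      have e4 : (univ.filter (fun σ : Equiv.Perm T => σ (iotaB i0 i1 κ i) = τ ∧
          σ (iotaB i0 i1 κ j) = τ)).card = 0 := by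
        rw [card_eq_zero, filter_eq_empty_iff]
        rintro σ _ ⟨h3, h4⟩
        rcases iotaB_eq hκ hij (σ.injective (h3.trans h4.symm)) with h5 | h5
        · exact h1 h5
        · exact h2 h5
      rw [e4, mul_zero, mul_zero]
  · rw [if_neg hτ]
    have hcommon : ∀ i j : Fin k, i ≠ j → iotaB i0 i1 κ i = iotaB i0 i1 κ j →
        (univ.filter (fun r : PatIdx2 D T Γ A F0 φ =>
        pat2 lab i0 i1 κ r i = (a, τ) ∧ pat2 lab i0 i1 κ r j = (b, τ'))).card =
        A * (N2 * n2) := by
      intro i j hij hι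
      rw [card_filter_sum, hα i j hij, hβ i j, if_neg hτ]
      have e4 : (univ.filter (fun σ : Equiv.Perm T => σ (iotaB i0 i1 κ i) = τ ∧
          σ (iotaB i0 i1 κ j) = τ')).card = 0 := by
        rw [card_eq_zero, filter_eq_empty_iff]
        rintro σ _ ⟨h3, h4⟩
        rw [hι] at h3
        exact hτ (h3.symm.trans h4)
      rw [e4, mul_zero, mul_zero, add_zero]
    rw [sum_special h01 _ (A * (N2 * n2)) (A * (N2 * n2))
      (A * (N2 * n2) + F0 * ((s1 * (δ * n2)) * N2)) ?_
      (hcommon i0 i1 h01 (by rw [hι01, hι11])) (hcommon i1 i0 h01.symm (by rw [hι01, hι11])) ?_]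
    · have hkk : k * (k - 1) = 2 + (k * (k - 1) - 2) := by
        have : 3 * 2 ≤ k * (k - 1) := Nat.mul_le_mul hk (by omega)
        omega
      set y := k * (k - 1) - 2 with hy
      rw [hkk]
      ring
    · intro i
      rw [card_eq_zero, filter_eq_empty_iff]
      rintro r _ ⟨h1, h2⟩
      exact hw (h1.symm.trans h2)
    · intro i j hij h1 h2'
      rw [card_filter_sum, hα i j hij, hβ i j, if_neg hτ]
      have hι : iotaB i0 i1 κ i ≠ iotaB i0 i1 κ j := by
        intro h
        rcases iotaB_eq hκ hij h with h5 | h5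
        · exact h1 h5
        · exact h2' h5
      rw [card_perm_two hT hι hτ, card_lab2 hk lab h2 hsymm hs1 h01 hij h1 h2']

end Families

/-! ### parity-restricted label data -/

section Parity

variable {D : Type} [Fintype D] [DecidableEq D] {k : ℕ}

/-- parity of the colours over a set of positions -/
def parOn (col : D → ZMod 2) (Q : Finset (Fin k)) (g : Fin k → D) : ZMod 2 :=
  ∑ l ∈ Q, col (g l)

theorem parOn_update (col : D → ZMod 2) (inv : D → D) (hinv : ∀ d, col (inv d) = col d + 1)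
    (Q : Finset (Fin k)) (g : Fin k → D) (a : Fin k) :
    parOn col Q (Function.update g a (inv (g a))) =
      if a ∈ Q then parOn col Q g + 1 else parOn col Q g := by
  unfold parOn
  by_cases ha : a ∈ Q
  · rw [if_pos ha, ← add_sum_erase Q _ ha, ← add_sum_erase Q (fun l => col (g l)) ha]
    rw [Function.update_self, hinv]
    have : ∑ x ∈ Q.erase a, col (Function.update g a (inv (g a)) x) =
        ∑ x ∈ Q.erase a, col (g x) := by
      refine sum_congr rfl fun x hx => ?_
      rw [Function.update_of_ne (ne_of_mem_erase hx)]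
    rw [this]
    ring
  · rw [if_neg ha]
    refine sum_congr rfl fun x hx => ?_
    rw [Function.update_of_ne]
    rintro rfl
    exact ha hx

/-- The label data with odd parity on two position sets. -/
abbrev ParData (D : Type) (col : D → ZMod 2) (QA QB : Finset (Fin k)) : Type :=
  {g : Fin k → D // parOn col QA g = 1 ∧ parOn col QB g = 1}

theorem zmod2_cases (x : ZMod 2) : x = 0 ∨ x = 1 := by
  revert x; decide

theorem card_par_flip (col : D → ZMod 2) (inv : D → D) (hinv : ∀ d, col (inv d) = col d + 1)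
    (hinv2 : ∀ d, inv (inv d) = d) (QA QB : Finset (Fin k)) {a : Fin k} (ha : a ∈ QA)
    (ha' : a ∉ QB) {i j : Fin k} (hai : a ≠ i) (haj : a ≠ j) (d d' : D) (x y : ZMod 2) :
    (univ.filter (fun g : Fin k → D => (g i = d ∧ g j = d') ∧ parOn col QA g = x ∧
      parOn col QB g = y)).card =
    (univ.filter (fun g : Fin k → D => (g i = d ∧ g j = d') ∧ parOn col QA g = x + 1 ∧
      parOn col QB g = y)).card := by
  have h11 : (1 : ZMod 2) + 1 = 0 := by decide
  have key : ∀ (x : ZMod 2) (g : Fin k → D), ((g i = d ∧ g j = d') ∧ parOn col QA g = x ∧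
      parOn col QB g = y) → ((Function.update g a (inv (g a)) i = d ∧
      Function.update g a (inv (g a)) j = d') ∧
      parOn col QA (Function.update g a (inv (g a))) = x + 1 ∧
      parOn col QB (Function.update g a (inv (g a))) = y) := by
    rintro x g ⟨⟨h1, h2⟩, h3, h4⟩
    rw [parOn_update col inv hinv, parOn_update col inv hinv, if_pos ha, if_neg ha',
      Function.update_of_ne hai.symm, Function.update_of_ne haj.symm, h3, h4]
    exact ⟨⟨h1, h2⟩, rfl, rfl⟩
  have hupd : ∀ g : Fin k → D, Function.update (Function.update g a (inv (g a))) a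
      (inv (Function.update g a (inv (g a)) a)) = g := by
    intro g
    rw [Function.update_self, hinv2, Function.update_idem, Function.update_eq_self]
  refine card_bij' (fun g _ => Function.update g a (inv (g a)))
    (fun g _ => Function.update g a (inv (g a))) ?_ ?_ ?_ ?_
  · intro g hg
    rw [mem_filter] at hg ⊢
    exact ⟨mem_univ _, key x g hg.2⟩
  · intro g hg
    rw [mem_filter] at hg ⊢
    have h5 := key (x + 1) g hg.2
    rw [add_assoc, h11, add_zero] at h5
    exact ⟨mem_univ _, h5⟩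
  · intro g _
    exact hupd g
  · intro g _
    exact hupd g

theorem card_parData (col : D → ZMod 2) (inv : D → D) (hinv : ∀ d, col (inv d) = col d + 1)
    (hinv2 : ∀ d, inv (inv d) = d) (QA QB : Finset (Fin k)) (hdis : Disjoint QA QB)
    (hA : 3 ≤ QA.card) (hB : 3 ≤ QB.card) {i j : Fin k} (hij : i ≠ j) (d d' : D) :
    4 * (univ.filter (fun g : ParData D col QA QB => g.1 i = d ∧ g.1 j = d')).card =
      Fintype.card D ^ (k - 2) := by
  have hex : ∀ Q : Finset (Fin k), 3 ≤ Q.card → ∃ a ∈ Q, a ≠ i ∧ a ≠ j := by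
    intro Q hQ
    by_contra hcon
    push Not at hcon
    have hsub : Q ⊆ {i, j} := by
      intro a ha
      rw [mem_insert, mem_singleton]
      by_cases h : a = i
      · exact Or.inl h
      · exact Or.inr (hcon a ha h)
    have := (card_le_card hsub).trans card_le_two
    omega
  obtain ⟨a, ha, hai, haj⟩ := hex QA hA
  obtain ⟨b, hb, hbi, hbj⟩ := hex QB hB
  have ha' : a ∉ QB := fun h => (disjoint_left.1 hdis ha h)
  have hb' : b ∉ QA := fun h => (disjoint_left.1 hdis h hb)
  set Nxy : ZMod 2 → ZMod 2 → ℕ := fun x y =>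
    (univ.filter (fun g : Fin k → D => (g i = d ∧ g j = d') ∧ parOn col QA g = x ∧
      parOn col QB g = y)).card with hN
  have hflipA : ∀ x y, Nxy x y = Nxy (x + 1) y := fun x y =>
    card_par_flip col inv hinv hinv2 QA QB ha ha' hai haj d d' x y
  have hflipB : ∀ x y, Nxy x y = Nxy x (y + 1) := by
    intro x y
    have h := card_par_flip col inv hinv hinv2 QB QA hb hb' hbi hbj d d' y x
    simp only [hN]
    have e1 : ∀ x y, (univ.filter (fun g : Fin k → D => (g i = d ∧ g j = d') ∧
        parOn col QA g = x ∧ parOn col QB g = y)) =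
        (univ.filter (fun g : Fin k → D => (g i = d ∧ g j = d') ∧
        parOn col QB g = y ∧ parOn col QA g = x)) := by
      intro x y
      ext g
      simp only [mem_filter, mem_univ, true_and]
      tauto
    rw [e1, e1]
    exact h
  have h11 : Nxy 0 0 = Nxy 1 1 := by
    rw [hflipA 0 0, hflipB (0 + 1) 0]; simp
  have h01 : Nxy 0 1 = Nxy 1 1 := by rw [hflipA 0 1]; simp
  have h10 : Nxy 1 0 = Nxy 1 1 := by rw [hflipB 1 0]; simp
  have htot : (univ.filter (fun g : Fin k → D => g i = d ∧ g j = d')).card =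
      Nxy 0 0 + Nxy 0 1 + Nxy 1 0 + Nxy 1 1 := by
    have h := card_eq_sum_card_fiberwise
      (f := fun g : Fin k → D => (parOn col QA g, parOn col QB g))
      (s := univ.filter (fun g : Fin k → D => g i = d ∧ g j = d'))
      (t := (univ : Finset (ZMod 2 × ZMod 2))) (fun _ _ => mem_univ _)
    rw [h, Fintype.sum_prod_type]
    have e2 : ∀ x y, ((univ.filter (fun g : Fin k → D => g i = d ∧ g j = d')).filter
        (fun g => (parOn col QA g, parOn col QB g) = (x, y))).card = Nxy x y := by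
      intro x y
      rw [filter_filter]
      simp only [hN, Prod.mk.injEq]
    simp_rw [e2]
    have e3 : ∀ f : ZMod 2 → ℕ, ∑ x, f x = f 0 + f 1 := fun f => Fin.sum_univ_two f
    rw [e3, e3, e3]
    ring
  have hcardN : (univ.filter (fun g : ParData D col QA QB => g.1 i = d ∧ g.1 j = d')).card =
      Nxy 1 1 := by
    simp only [hN]
    refine card_bij (fun g _ => g.1) ?_ ?_ ?_
    · rintro ⟨g, hg⟩ h
      rw [mem_filter] at h ⊢
      exact ⟨mem_univ _, h.2, hg⟩
    · rintro ⟨g, hg⟩ _ ⟨g', hg'⟩ _ h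
      exact Subtype.ext h
    · intro g hg
      rw [mem_filter] at hg
      exact ⟨⟨g, hg.2.2⟩, by rw [mem_filter]; exact ⟨mem_univ _, hg.2.1⟩, rfl⟩
  rw [hcardN, ← card_g_two hij d d', htot, h11, h01, h10]
  ring

end Parity

end Pool.Agent.Helper621
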