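import Pool.Agent.Helper621.MkR
import Pool.Agent.Helper621.Pat2

/-!
# Colours of the patterns
-/

namespace Pool.Agent.Helper621

set_option linter.unusedSectionVars false

open Finset

section PatCol

variable {r t k : ℕ}

/-- four consecutive positions -/
def posEmb (k s : ℕ) (h : s + 4 ≤ k) : Fin 4 ↪ Fin k where
  toFun i := ⟨i.val + s, by omega⟩
  inj' := by
    intro i j hij
    simp only [Fin.mk.injEq] at hij
    exact Fin.ext (by omega)

/-- four consecutive positions as a set -/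
def posSet (k s : ℕ) (h : s + 4 ≤ k) : Finset (Fin k) := univ.map (posEmb k s h)

theorem card_posSet (s : ℕ) (h : s + 4 ≤ k) : (posSet k s h).card = 4 := by
  unfold posSet
  rw [card_map, card_univ, Fintype.card_fin]

theorem mem_posSet {s : ℕ} {h : s + 4 ≤ k} {l : Fin k} (hl : l ∈ posSet k s h) :
    s ≤ l.val ∧ l.val < s + 4 := by
  unfold posSet at hl
  obtain ⟨i, _, rfl⟩ := mem_map.1 hl
  change s ≤ i.val + s ∧ i.val + s < s + 4
  omega

theorem zmod2_aux (x e : ZMod 2) (h : x ≠ e) : x = e + 1 := by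
  revert x e; decide

theorem par_both {D : Type} (col : D → ZMod 2) {Q : Finset (Fin k)} (hQ : Q.card = 4)
    (g : Fin k → D) (hg : parOn col Q g = 1) (e : ZMod 2) : ∃ l ∈ Q, col (g l) = e := by
  by_contra hcon
  push Not at hcon
  have h1 : ∀ l ∈ Q, col (g l) = e + 1 := by
    intro l hl
    exact zmod2_aux _ _ (hcon l hl)
  unfold parOn at hg
  rw [sum_congr rfl h1, sum_const, hQ] at hg
  clear h1 hcon
  revert e
  decide

theorem pat_colors (hk : 10 ≤ k) {A F0 : ℕ} {φ : D0 r → D0 r → ℕ} {κ : Fin k → Fin t}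
    (hκ : Function.Injective κ)
    (x : PatIdx2 (D0 r) (Fin t)
      (ParData (D0 r) colD (posSet k 2 (by omega)) (posSet k 6 (by omega))) A F0 φ)
    (e : ZMod 2) :
    ∃ i j, colD (pat2 (fun g => g.1) (⟨0, by omega⟩ : Fin k) ⟨1, by omega⟩ κ x i).1 = e ∧
      colD (pat2 (fun g => g.1) (⟨0, by omega⟩ : Fin k) ⟨1, by omega⟩ κ x j).1 = e ∧
      (pat2 (fun g => g.1) (⟨0, by omega⟩ : Fin k) ⟨1, by omega⟩ κ x i).2 ≠
        (pat2 (fun g => g.1) (⟨0, by omega⟩ : Fin k) ⟨1, by omega⟩ κ x j).2 := by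
  have key : ∀ g : ParData (D0 r) colD (posSet k 2 (by omega)) (posSet k 6 (by omega)),
      ∃ i j : Fin k, i ≠ j ∧ 2 ≤ i.val ∧ 2 ≤ j.val ∧ colD (g.1 i) = e ∧ colD (g.1 j) = e := by
    intro g
    obtain ⟨i, hi, hi2⟩ := par_both colD (card_posSet 2 _) g.1 g.2.1 e
    obtain ⟨j, hj, hj2⟩ := par_both colD (card_posSet 6 _) g.1 g.2.2 e
    have h1 := mem_posSet hi
    have h2 := mem_posSet hj
    refine ⟨i, j, ?_, h1.1, by omega, hi2, hj2⟩
    rintro rfl
    omega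
  rcases x with ⟨x, σ, g⟩ | ⟨x, ab, σ, g⟩
  · obtain ⟨i, j, hij, _, _, hi, hj⟩ := key g
    refine ⟨i, j, hi, hj, ?_⟩
    simp only [pat2]
    exact fun h => hij (hκ (σ.injective h))
  · obtain ⟨i, j, hij, hi2, hj2, hi, hj⟩ := key g
    have hne : ∀ l : Fin k, 2 ≤ l.val → l ≠ ⟨0, by omega⟩ ∧ l ≠ ⟨1, by omega⟩ := by
      intro l hl
      constructor
      · rintro rfl
        simp at hl
      · rintro rfl
        simp at hl
    obtain ⟨n1, n2⟩ := hne i hi2
    obtain ⟨n3, n4⟩ := hne j hj2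
    refine ⟨i, j, ?_, ?_, ?_⟩
    · simp only [pat2, labB, if_neg n1, if_neg n2]
      exact hi
    · simp only [pat2, labB, if_neg n3, if_neg n4]
      exact hj
    · simp only [pat2, iotaB, if_neg n1, if_neg n3]
      exact fun h => hij (hκ (σ.injective h))

theorem arith_choice2 {K s1 δ rr N2 n2 t : ℕ} (hK : 2 ≤ K) (hs1 : s1 ≤ δ * rr)
    (ht : K ≤ 2 * (t - 1)) :
    K * ((2 * rr * δ ^ 2 * (t - 1) - (K - 2) * s1 * δ) * (N2 * n2)) +
      (K - 2) * (K * ((s1 * (δ * n2)) * N2)) =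
      rr * (2 * (K * ((δ * (δ * n2)) * ((t - 1) * N2)))) := by
  have hle : (K - 2) * s1 * δ ≤ 2 * rr * δ ^ 2 * (t - 1) := by
    calc (K - 2) * s1 * δ ≤ K * (δ * rr) * δ := by
          apply Nat.mul_le_mul_right
          exact Nat.mul_le_mul (by omega) hs1
      _ = rr * δ ^ 2 * K := by ring
      _ ≤ rr * δ ^ 2 * (2 * (t - 1)) := Nat.mul_le_mul_left _ ht
      _ = 2 * rr * δ ^ 2 * (t - 1) := by ring
  obtain ⟨A, hA⟩ : ∃ A, 2 * rr * δ ^ 2 * (t - 1) = (K - 2) * s1 * δ + A :=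
    ⟨_, (Nat.add_sub_cancel' hle).symm⟩
  rw [hA, Nat.add_sub_cancel_left]
  have e3 : rr * (2 * (K * ((δ * (δ * n2)) * ((t - 1) * N2)))) =
      K * (2 * rr * δ ^ 2 * (t - 1)) * (n2 * N2) := by ring
  rw [e3, hA]
  ring

end PatCol

end Pool.Agent.Helper621
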