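import Pool.Agent.Helper621.SBlk

/-!
# Existence of the symmetric data, and the symmetric blocks as finsets
-/

namespace Pool.Agent.Helper621

set_option linter.unusedSectionVars false

open Finset

theorem exists_sdata (r : ℕ) (hr : 0 < r) (M : ℕ) (hM : 0 < M) (hMe : Even M) : ∃ N : ℕ,
    ∀ (F : Type) [Field F] [Fintype F] [DecidableEq F] (m : ℕ), 0 < m → Even m →
    Fintype.card F = M * m + 1 → N < Fintype.card F → (2 : F) ≠ 0 → ∀ M0, r * r * M0 = M →
    ∃ S : SData F r M m, ∀ yy, ((mu F M).filter (fun z => S.ψ z = yy)).card = M0 := by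
  obtain ⟨N, hN⟩ := exists_sel (2 * M) r (by omega) (4 * M)
  refine ⟨N, fun F _ _ _ m hm hme hF hNF h2 M0 hM0 => ?_⟩
  classical
  obtain ⟨m', hm'⟩ := hme
  have hm'pos : 0 < m' := by omega
  have hF2 : Fintype.card F = 2 * M * m' + 1 := by rw [hF, hm']; ring
  have hF3 : Fintype.card F = m' * (2 * M) + 1 := by rw [hF2]; ring
  have hF4 : Fintype.card F = (M * m') * 2 + 1 := by rw [hF2]; ring
  -- a class of nonsquares
  obtain ⟨z0, hz0, hz0'⟩ : ∃ z0 : F, z0 ^ (2 * M) = 1 ∧ z0 ^ M = -1 := by
    have h1 := card_mu hF2 (by omega) hm'pos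
    have h3 : (mu F M).card ≤ M := card_mu_le hM
    have h4 : ∃ z ∈ mu F (2 * M), z ∉ mu F M := by
      by_contra hcon
      push Not at hcon
      have := card_le_card (show mu F (2 * M) ⊆ mu F M from hcon)
      omega
    obtain ⟨z, hz, hzn⟩ := h4
    rw [mem_mu] at hz hzn
    refine ⟨z, hz, ?_⟩
    have h5 : (z ^ M - 1) * (z ^ M + 1) = 0 := by
      have : z ^ M * z ^ M = 1 := by rw [← pow_add, ← two_mul, hz]
      linear_combination this
    rcases mul_eq_zero.1 h5 with h6 | h6
    · exact absurd (by linear_combination h6) hzn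
    · linear_combination h6
  have hcardS : (mu F m').card = m' := card_mu hF3 hm'pos (by omega)
  obtain ⟨b, hb1, hb2⟩ := hN F m' hm'pos hF2 hNF (fun _ => mu F m')
    (fun i _ => by
      rw [hcardS, hF2]
      have : 1 ≤ M * m' := Nat.mul_pos hM hm'pos
      have h7 : 4 * M * m' = 2 * M * m' + 2 * (M * m') := by ring
      omega) (fun _ _ => z0) (fun _ _ _ _ => hz0)
  -- square roots
  have hsq : ∀ y : Fin r, ∃ c : F, c ^ 2 = b y := by
    intro y
    have h8 : (b y) ^ (M * m') = 1 := by
      have := mem_mu.1 (hb1 y y.2)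
      rw [mul_comm, pow_mul, this, one_pow]
    obtain ⟨c, _, hc⟩ := exists_class hF4 (Nat.mul_pos hM hm'pos) (by norm_num) h8
    exact ⟨c, hc⟩
  choose c hc using hsq
  have hcls : ∀ x : F, x ≠ 0 → (x ^ m) ^ M = 1 := fun x hx => class_pow hF hx
  have hρ : ∀ z : F, ∃ x : F, z ^ M = 1 → x ^ m = z := by
    intro z
    by_cases hz : z ^ M = 1
    · obtain ⟨x, _, hx⟩ := exists_class hF hM hm hz
      exact ⟨x, fun _ => hx⟩
    · exact ⟨0, fun h => absurd h hz⟩
  choose ρ hρ using hρ
  -- the equidistributed function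
  have hcardM : Fintype.card {z // z ∈ mu F M} =
      Fintype.card ((Fin r × Fin r) × Fin M0) := by
    rw [Fintype.card_coe, card_mu hF hM hm]
    simp [← hM0]
  have e := Fintype.equivOfCardEq hcardM
  let ψ : F → Fin r × Fin r := fun z =>
    if h : z ∈ mu F M then (e ⟨z, h⟩).1 else (⟨0, hr⟩, ⟨0, hr⟩)
  have hMhalf : m * (M / 2) = m' * M := by
    obtain ⟨a, ha⟩ := hMe
    have h9 : M / 2 = a := by omega
    rw [h9, hm', ha]; ring
  have hcc : ∀ y y' : Fin r, y ≠ y' →
      (((c y' - c y) * (c y' + c y)) ^ m) ^ (M / 2) = -1 := by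
    have aux : ∀ y y' : Fin r, y < y' →
        (((c y' - c y) * (c y' + c y)) ^ m) ^ (M / 2) = -1 := by
      intro y y' h
      rw [← pow_mul, hMhalf, pow_mul]
      have h10 : (c y' - c y) * (c y' + c y) = b y' - b y := by
        rw [← hc y, ← hc y']; ring
      rw [h10, hb2 y y' h y'.2, hz0']
    intro y y' hne
    rcases lt_or_gt_of_ne hne with h | h
    · exact aux y y' h
    · rw [← aux y' y h]
      have h11 : (c y' - c y) * (c y' + c y) = -((c y - c y') * (c y + c y')) := by ring
      rw [h11, (show Even m from ⟨m', hm'⟩).neg_pow]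
  refine ⟨⟨ρ, c, ψ, h2, hm, hM, ⟨m', hm'⟩, hMe, hcls, hρ, ?_, hcc⟩, ?_⟩
  · intro y
    rw [hm', ← two_mul, pow_mul, hc, mem_mu.1 (hb1 y y.2)]
  · intro yy
    simp only
    have h12 : (univ.filter (fun x : (Fin r × Fin r) × Fin M0 => x.1 = yy)).card = M0 := by
      have h13 : (univ.filter (fun x : (Fin r × Fin r) × Fin M0 => x.1 = yy)) =
          ({yy} : Finset (Fin r × Fin r)) ×ˢ (univ : Finset (Fin M0)) := by
        ext x
        rw [mem_filter, mem_product, mem_singleton]
        simp only [mem_univ, true_and, and_true]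
      rw [h13, card_product]; simp
    refine Eq.trans ?_ h12
    refine card_bij (fun z hz => e ⟨z, (mem_filter.1 hz).1⟩) ?_ ?_ ?_
    · intro z hz
      have hz1 := (mem_filter.1 hz).1
      have hz2 := (mem_filter.1 hz).2
      simp only [ψ, dif_pos hz1] at hz2
      simpa using hz2
    · intro z hz z' hz' h
      have := e.injective h
      simpa using this
    · intro x hx
      obtain ⟨⟨z, hz⟩, hze⟩ := e.surjective x
      refine ⟨z, ?_, hze⟩
      rw [mem_filter]
      refine ⟨hz, ?_⟩
      simp only [ψ, dif_pos hz, hze]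
      simpa using hx

section Blk

variable {F : Type} [Field F] [Fintype F] [DecidableEq F] {T : Type} [DecidableEq T]
  {r M m : ℕ}

/-- symmetric block as a finset -/
def sblk (S : SData F r M m) (o : Prop) [Decidable o] (c : ZMod 3) (t : T) (j : Fin r) (z : F) :
    Finset (F × Lab r T) :=
  (univ : Finset (Fin r × Bool)).image (fun x =>
    (if x.2 = true then S.ρ z * S.c x.1 else -(S.ρ z * S.c x.1), ((slab M z j x.1, c), t))) ∪
  (if o then {(0, ((S.ψ z, c + 1), t))} else ∅)

theorem mem_sblk (S : SData F r M m) (o : Prop) [Decidable o] (c : ZMod 3) (t : T) (j : Fin r)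
    (z : F) (β : F) (w : Lab r T) : (β, w) ∈ sblk S o c t j z ↔ SMem S o c t j z β w := by
  unfold sblk SMem
  rw [mem_union, mem_image]
  refine or_congr ?_ ?_
  · constructor
    · rintro ⟨⟨y, s⟩, _, h⟩
      simp only [Prod.mk.injEq] at h
      refine ⟨y, h.2.symm, ?_⟩
      cases s
      · right; simpa using h.1.symm
      · left; simpa using h.1.symm
    · rintro ⟨y, rfl, h⟩
      rcases h with rfl | rfl
      · exact ⟨(y, true), mem_univ _, by simp⟩
      · exact ⟨(y, false), mem_univ _, by simp⟩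
  · by_cases ho : o
    · rw [if_pos ho, mem_singleton]
      simp [ho]
    · rw [if_neg ho]
      simp [ho]

theorem card_sblk (S : SData F r M m) (o : Prop) [Decidable o] (c : ZMod 3) (t : T) (j : Fin r)
    {z : F} (hz : z ^ M = 1) :
    (sblk S o c t j z).card = 2 * r + (if o then 1 else 0) := by
  unfold sblk
  have hρ := S.ρ_ne hz
  rw [card_union_of_disjoint, card_image_of_injective]
  · congr 1
    · simp [card_univ, mul_comm]
    · by_cases ho : o <;> simp [ho]
  · rintro ⟨y, s⟩ ⟨y', s'⟩ h
    simp only [Prod.mk.injEq, and_true] at h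
    obtain ⟨_, rfl⟩ := slab_inj h.2
    have hne : S.ρ z * S.c y ≠ 0 := mul_ne_zero hρ (S.c_ne y)
    have h2 := S.two_ne
    cases s <;> cases s'
    · rfl
    · exfalso
      simp only [Bool.false_eq_true, if_false, if_true] at h
      have h3 : 2 * (S.ρ z * S.c y) = 0 := by linear_combination -h.1
      exact (mul_ne_zero h2 hne) h3
    · exfalso
      simp only [Bool.false_eq_true, if_false, if_true] at h
      have h3 : 2 * (S.ρ z * S.c y) = 0 := by linear_combination h.1
      exact (mul_ne_zero h2 hne) h3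
    · rfl
  · rw [disjoint_left]
    rintro ⟨β, w⟩ h1 h2
    by_cases ho : o
    · rw [if_pos ho, mem_singleton] at h2
      simp only [Prod.mk.injEq] at h2
      rw [mem_image] at h1
      obtain ⟨⟨y, s⟩, _, h3⟩ := h1
      simp only [Prod.mk.injEq] at h3
      have hne : S.ρ z * S.c y ≠ 0 := mul_ne_zero hρ (S.c_ne y)
      rw [h2.1] at h3
      cases s
      · simp only [Bool.false_eq_true, if_false] at h3
        exact hne (neg_eq_zero.1 h3.1)
      · simp only [if_true] at h3
        exact hne h3.1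
    · rw [if_neg ho] at h2
      simp at h2

end Blk

end Pool.Agent.Helper621
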