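import Pool.Agent.Helper621.Geo2
import Pool.Agent.Helper621.SExist
import Pool.Agent.Helper621.Clos

/-!
# The data of the construction, and the two kinds of cross blocks
-/

namespace Pool.Agent.Helper621

set_option linter.unusedSectionVars false

open Finset

/-- the data of the construction over a field -/
structure RData (F T R : Type) [Field F] [DecidableEq F] (r M m k : ℕ) where
  S : SData F r M m
  o : Prop
  P : R → Fin k → Lab r T
  b : R → Fin k → F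
  BF : BaseFam F (Lab r T) (((ZMod 3 × T) × (Fin r × {z : F // z ^ M = 1})) ⊕ R) k M m
  hBl : ∀ c t j z β w, (β, w) ∈ BF.B (Sum.inl ((c, t), (j, z))) ↔ SMem S o c t j z β w
  hBr : ∀ x β w, (β, w) ∈ BF.B (Sum.inr x) ↔ ∃ i, b x i = β ∧ P x i = w
  hcl : ∀ x i j, i ≠ j → ¬ SCov S o (P x i) (P x j) ((b x j - b x i) ^ m)

section RDat

variable {G Ω F T R : Type} [Group G] [Finite G] [MulAction G Ω] [Fintype Ω] [DecidableEq Ω]
  [Field F] [Fintype F] [DecidableEq F] [DecidableEq T] [Fintype T] {r M m k : ℕ}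

/-- points of a symmetric block -/
def spt (D : RData F T R r M m k) (a u : Ω → F) (c : ZMod 3) (t : T) (j : Fin r)
    (z : {z : F // z ^ M = 1}) (y : Fin r) (s : Bool) : (Ω → F) × Lab r T :=
  (a + (if s = true then D.S.ρ z * D.S.c y else -(D.S.ρ z * D.S.c y)) • u,
    ((slab M (z : F) j y, c), t))

/-- points of a generic block -/
def rpt (D : RData F T R r M m k) (a u : Ω → F) (x : R) (i : Fin k) : (Ω → F) × Lab r T :=
  (a + D.b x i • u, D.P x i)

variable (D : RData F T R r M m k)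

theorem spt_mem (a u : Ω → F) (c : ZMod 3) (t : T) (j : Fin r)
    (z : {z : F // z ^ M = 1}) (y : Fin r) (s : Bool) :
    some (spt D a u c t j z y s) ∈ crossB D.BF.B a u (Sum.inl ((c, t), (j, z))) := by
  unfold spt
  rw [mem_crossB]
  refine ⟨_, (D.hBl _ _ _ _ _ _).2 (Or.inl ⟨y, rfl, ?_⟩), rfl⟩
  split_ifs
  · exact Or.inl rfl
  · exact Or.inr rfl

theorem spt_fst_ne {a u : Ω → F} (hu : u ≠ 0) (c : ZMod 3) (t : T) (j : Fin r)
    (z : {z : F // z ^ M = 1}) (y : Fin r) :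
    (spt D a u c t j z y true).1 ≠ (spt D a u c t j z y false).1 := by
  intro h
  simp only [spt, if_true, Bool.false_eq_true, if_false] at h
  have h1 := add_left_cancel h
  have h2 : (2 * (D.S.ρ z * D.S.c y)) • u = 0 := by
    have : (2 * (D.S.ρ z * D.S.c y)) • u = (D.S.ρ z * D.S.c y) • u - (-(D.S.ρ z * D.S.c y)) • u := by
      module
    rw [this, h1, sub_self]
  rcases smul_eq_zero.1 h2 with h3 | h3
  · exact mul_ne_zero D.S.two_ne (mul_ne_zero (D.S.ρ_ne z.2) (D.S.c_ne y)) h3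
  · exact hu h3

theorem mem_S {a u : Ω → F} {c : ZMod 3} {t : T} {j : Fin r}
    {z : {z : F // z ^ M = 1}} {v : Ω → F} {w : Lab r T}
    (h : some (v, w) ∈ crossB D.BF.B a u (Sum.inl ((c, t), (j, z)))) :
    (∃ y s, (v, w) = spt D a u c t j z y s) ∨ (D.o ∧ v = a ∧ w = ((D.S.ψ z, c + 1), t)) := by
  rw [mem_crossB] at h
  obtain ⟨β, hβ, rfl⟩ := h
  rcases (D.hBl _ _ _ _ _ _).1 hβ with ⟨y, rfl, h1⟩ | ⟨ho, rfl, rfl⟩
  · left
    rcases h1 with rfl | rfl
    · exact ⟨y, true, by simp [spt]⟩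
    · exact ⟨y, false, by simp [spt]⟩
  · right
    exact ⟨ho, by simp, rfl⟩

theorem rpt_mem (a u : Ω → F) (x : R) (i : Fin k) :
    some (rpt D a u x i) ∈ crossB D.BF.B a u (Sum.inr x) := by
  unfold rpt
  rw [mem_crossB]
  exact ⟨_, (D.hBr _ _ _).2 ⟨i, rfl, rfl⟩, rfl⟩

theorem mem_R {a u : Ω → F} {x : R} {v : Ω → F} {w : Lab r T}
    (h : some (v, w) ∈ crossB D.BF.B a u (Sum.inr x)) : ∃ i, (v, w) = rpt D a u x i := by
  rw [mem_crossB] at h
  obtain ⟨β, hβ, rfl⟩ := h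
  obtain ⟨i, rfl, rfl⟩ := (D.hBr _ _ _).1 hβ
  exact ⟨i, rfl⟩

/-- label data of two ordinary points -/
theorem mem_S_fst {a u : Ω → F} {c : ZMod 3} {t : T} {j : Fin r}
    {z : {z : F // z ^ M = 1}} {v v' : Ω → F} {w w' : Lab r T} (hne : v ≠ v')
    (h : some (v, w) ∈ crossB D.BF.B a u (Sum.inl ((c, t), (j, z))))
    (h' : some (v', w') ∈ crossB D.BF.B a u (Sum.inl ((c, t), (j, z))))
    (hc : w.1.2 = w'.1.2) :
    (∃ y s, (v, w) = spt D a u c t j z y s) ∧ (∃ y s, (v', w') = spt D a u c t j z y s) := by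
  rcases mem_S D h with ⟨y, s, h1⟩ | ⟨_, h1, h2⟩ <;> rcases mem_S D h' with ⟨y', s', h1'⟩ | ⟨_, h1', h2'⟩
  · exact ⟨⟨y, s, h1⟩, ⟨y', s', h1'⟩⟩
  · exfalso
    simp only [spt, Prod.mk.injEq] at h1
    rw [h1.2, h2'] at hc
    exact zmod3_a c hc
  · exfalso
    simp only [spt, Prod.mk.injEq] at h1'
    rw [h1'.2, h2] at hc
    exact zmod3_a c hc.symm
  · exact absurd (h1.trans h1'.symm) hne

theorem mem_S_snd {a u : Ω → F} {c : ZMod 3} {t : T} {j : Fin r}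
    {z : {z : F // z ^ M = 1}} {v : Ω → F} {w : Lab r T}
    (h : some (v, w) ∈ crossB D.BF.B a u (Sum.inl ((c, t), (j, z)))) : w.2 = t := by
  rcases mem_S D h with ⟨y, s, h1⟩ | ⟨_, h1, h2⟩
  · simp only [spt, Prod.mk.injEq] at h1
    rw [h1.2]
  · rw [h2]

theorem cross_cases (hF : Fintype.card F = M * m + 1) (hG : Nat.card G ∣ m)
    {v v' : Ω → F} (hne : v ≠ v') (w w' : Lab r T) :
    (∃ a u c t j z, u ∈ dirSet2 G Ω F m ∧
      some (v, w) ∈ crossB D.BF.B a u (Sum.inl ((c, t), (j, z))) ∧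
      some (v', w') ∈ crossB D.BF.B a u (Sum.inl ((c, t), (j, z))) ∧
      ∃ ζ, SCov D.S D.o w w' ζ) ∨
    (∃ a u x, u ∈ dirSet2 G Ω F m ∧ some (v, w) ∈ crossB D.BF.B a u (Sum.inr x) ∧
      some (v', w') ∈ crossB D.BF.B a u (Sum.inr x) ∧ ∃ ζ, ¬ SCov D.S D.o w w' ζ) := by
  obtain ⟨a, u, i, hu, h1, h2, _⟩ := cross_exists (G := G) D.S.hm hF hG D.BF w w' hne
  rcases i with ⟨⟨c, t⟩, ⟨j, z⟩⟩ | x
  · left
    refine ⟨a, u, c, t, j, z, hu, h1, h2, ?_⟩
    rw [mem_crossB] at h1 h2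
    obtain ⟨β, hβ, he⟩ := h1
    obtain ⟨β', hβ', he'⟩ := h2
    refine ⟨(β' - β) ^ m, smem_cov D.S D.o z.2 ((D.hBl _ _ _ _ _ _).1 hβ)
      ((D.hBl _ _ _ _ _ _).1 hβ') ?_⟩
    rintro rfl
    exact hne (he.symm.trans he')
  · right
    refine ⟨a, u, x, hu, h1, h2, ?_⟩
    obtain ⟨i, hi⟩ := mem_R D h1
    obtain ⟨j, hj⟩ := mem_R D h2
    simp only [rpt, Prod.mk.injEq] at hi hj
    refine ⟨(D.b x j - D.b x i) ^ m, ?_⟩
    rw [hi.2, hj.2]
    apply D.hcl
    rintro rfl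
    exact hne (hi.1.trans hj.1.symm)

/-- the same line in a grid -/
def Lined (w w' : Lab r T) : Prop :=
  w.2 = w'.2 ∧ w.1.2 = w'.1.2 ∧ (w.1.1.1 = w'.1.1.1 ∨ w.1.1.2 = w'.1.1.2)

theorem Lined.scov {w w' : Lab r T} (h : Lined w w') (ζ : F) : SCov D.S D.o w w' ζ :=
  ⟨h.1, Or.inl h.2⟩

theorem lined_of_scov {w w' : Lab r T} {ζ : F} (h : SCov D.S D.o w w' ζ)
    (hc : w.1.2 = w'.1.2) : Lined w w' := by
  refine ⟨h.1, ?_⟩
  rcases h.2 with h2 | h2 | h2
  · exact h2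
  · exfalso
    have := h2.2.1
    rw [hc] at this
    exact zmod3_a _ this
  · exfalso
    have := h2.2.1
    rw [hc] at this
    exact zmod3_a _ this

variable (H : (Ω → F) → Set (Finset (Option (Lab r T))))

theorem crossB_mem {a u : Ω → F} (i) (hu : u ∈ dirSet2 G Ω F m) :
    crossB D.BF.B a u i ∈ blocks2 (dirSet2 G Ω F m) D.BF.B H :=
  Or.inl ⟨a, u, i, hu, rfl⟩

/-- a closed set contains the cross block through two of its points -/
theorem cross_sub {C : Finset (Option ((Ω → F) × Lab r T))}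
    (hC : Clos (blocks2 (dirSet2 G Ω F m) D.BF.B H) C) {a u : Ω → F} {i}
    (hu : u ∈ dirSet2 G Ω F m) {v v' : Ω → F} {w w' : Lab r T} (hne : v ≠ v')
    (h : some (v, w) ∈ crossB D.BF.B a u i) (h' : some (v', w') ∈ crossB D.BF.B a u i)
    (hv : some (v, w) ∈ C) (hv' : some (v', w') ∈ C) : crossB D.BF.B a u i ⊆ C := by
  refine hC _ (crossB_mem D H i hu) _ h _ h' ?_ hv hv'
  intro he
  simp only [Option.some.injEq, Prod.mk.injEq] at he
  exact hne he.1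

end RDat

end Pool.Agent.Helper621
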