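import Pool.Agent.Helper621.Cyc

/-!
# Symmetric base blocks

Labels are `(((y₁, y₂), c), t)` with `y₁ y₂ : Fin r`, `c : ZMod 3`, `t : T`.
-/

namespace Pool.Agent.Helper621

set_option linter.unusedSectionVars false

open Finset

/-- label type -/
abbrev Lab (r : ℕ) (T : Type) : Type := ((Fin r × Fin r) × ZMod 3) × T

/-- Data for the symmetric blocks. -/
structure SData (F : Type) [Field F] (r M m : ℕ) where
  ρ : F → F
  c : Fin r → F
  ψ : F → Fin r × Fin r
  two_ne : (2 : F) ≠ 0
  hm : 0 < m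
  hM : 0 < M
  hme : Even m
  hMe : Even M
  hcl : ∀ x : F, x ≠ 0 → (x ^ m) ^ M = 1
  hρ : ∀ z, z ^ M = 1 → ρ z ^ m = z
  hc : ∀ y, c y ^ m = 1
  hcc : ∀ y y', y ≠ y' → (((c y' - c y) * (c y' + c y)) ^ m) ^ (M / 2) = -1

theorem zmod3_a (c : ZMod 3) : c ≠ c + 1 := by
  revert c; decide

theorem zmod3_b (c : ZMod 3) : c ≠ c + 1 + 1 := by
  revert c; decide

section S

variable {F : Type} [Field F] [Fintype F] [DecidableEq F] {T : Type} [DecidableEq T]
  {r M m : ℕ}

/-- label of a point of a symmetric block -/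
def slab (M : ℕ) (z : F) (j y : Fin r) : Fin r × Fin r :=
  if z ^ (M / 2) = 1 then (y, j) else (j, y)

theorem slab_surj (M : ℕ) (z : F) (yy : Fin r × Fin r) : ∃ j y, slab M z j y = yy := by
  by_cases h : z ^ (M / 2) = 1
  · exact ⟨yy.2, yy.1, by simp [slab, h]⟩
  · exact ⟨yy.1, yy.2, by simp [slab, h]⟩

theorem slab_inj {z : F} {j y j' y' : Fin r} (h : slab M z j y = slab M z j' y') :
    j = j' ∧ y = y' := by
  unfold slab at h
  split_ifs at h with h1
  · simp only [Prod.mk.injEq] at h; exact ⟨h.2, h.1⟩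
  · simp only [Prod.mk.injEq] at h; exact h

theorem slab_share (z : F) (j y y' : Fin r) :
    (slab M z j y).1 = (slab M z j y').1 ∨ (slab M z j y).2 = (slab M z j y').2 := by
  unfold slab
  split_ifs with h1
  · exact Or.inr rfl
  · exact Or.inl rfl

/-- membership in a symmetric block -/
def SMem (S : SData F r M m) (o : Prop) (c : ZMod 3) (t : T) (j : Fin r) (z : F)
    (β : F) (w : Lab r T) : Prop :=
  (∃ y, w = ((slab M z j y, c), t) ∧ (β = S.ρ z * S.c y ∨ β = -(S.ρ z * S.c y))) ∨
    (o ∧ β = 0 ∧ w = ((S.ψ z, c + 1), t))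

/-- the class `z` of the pair `w w'` is covered by symmetric blocks -/
def SCov (S : SData F r M m) (o : Prop) (w w' : Lab r T) (z : F) : Prop :=
  w.2 = w'.2 ∧ ((w.1.2 = w'.1.2 ∧ (w.1.1.1 = w'.1.1.1 ∨ w.1.1.2 = w'.1.1.2)) ∨
    (o ∧ w'.1.2 = w.1.2 + 1 ∧ S.ψ z = w'.1.1) ∨ (o ∧ w.1.2 = w'.1.2 + 1 ∧ S.ψ z = w.1.1))

variable (S : SData F r M m) (o : Prop)

include S

theorem SData.ρ_ne {z : F} (hz : z ^ M = 1) : S.ρ z ≠ 0 := by
  intro h
  have := S.hρ z hz
  rw [h, zero_pow S.hm.ne'] at this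
  rw [← this, zero_pow S.hM.ne'] at hz
  exact zero_ne_one hz

theorem SData.c_ne (y : Fin r) : S.c y ≠ 0 := by
  intro h
  have := S.hc y
  rw [h, zero_pow S.hm.ne'] at this
  exact zero_ne_one this

theorem SData.pos_half : 0 < M / 2 := by
  obtain ⟨a, ha⟩ := S.hMe
  have := S.hM
  omega

theorem SData.two_half : M / 2 + M / 2 = M := by
  obtain ⟨a, ha⟩ := S.hMe
  omega

theorem SData.neg_one_ne_one : (-1 : F) ≠ 1 := by
  intro h
  apply S.two_ne
  linear_combination -h

theorem SData.cc_ne {y y' : Fin r} (h : y ≠ y') :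
    S.c y' - S.c y ≠ 0 ∧ S.c y' + S.c y ≠ 0 := by
  have h1 := S.hcc y y' h
  constructor
  · intro h2
    rw [h2, zero_mul, zero_pow S.hm.ne', zero_pow S.pos_half.ne'] at h1
    exact one_ne_zero (by linear_combination h1)
  · intro h2
    rw [h2, mul_zero, zero_pow S.hm.ne', zero_pow S.pos_half.ne'] at h1
    exact one_ne_zero (by linear_combination h1)

theorem SData.half_cases {z : F} (hz : z ^ M = 1) : z ^ (M / 2) = 1 ∨ z ^ (M / 2) = -1 := by
  have h : (z ^ (M / 2) - 1) * (z ^ (M / 2) + 1) = 0 := by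
    have : z ^ (M / 2) * z ^ (M / 2) = 1 := by rw [← pow_add, S.two_half, hz]
    linear_combination this
  rcases mul_eq_zero.1 h with h | h
  · left; linear_combination h
  · right; linear_combination h

theorem smem_neg {c : ZMod 3} {t : T} {j : Fin r} {z β : F} {w : Lab r T}
    (h : SMem S o c t j z β w) : SMem S o c t j z (-β) w := by
  rcases h with ⟨y, hw, hβ⟩ | ⟨ho, hβ, hw⟩
  · left
    refine ⟨y, hw, ?_⟩
    rcases hβ with rfl | rfl
    · right; rfl
    · left; rw [neg_neg]
  · right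
    exact ⟨ho, by rw [hβ, neg_zero], hw⟩

theorem smem_inj {c : ZMod 3} {t : T} {j : Fin r} {z β : F} {w w' : Lab r T} (hz : z ^ M = 1)
    (h : SMem S o c t j z β w) (h' : SMem S o c t j z β w') : w = w' := by
  have hρ := S.ρ_ne hz
  rcases h with ⟨y, hw, hβ⟩ | ⟨ho, hβ, hw⟩
  · rcases h' with ⟨y', hw', hβ'⟩ | ⟨ho', hβ', hw'⟩
    · have hyy : y = y' := by
        by_contra hne
        have hcc := S.cc_ne hne
        rcases hβ with h1 | h1 <;> rcases hβ' with h2 | h2
        · apply hcc.1
          have : S.ρ z * (S.c y' - S.c y) = 0 := by linear_combination h1 - h2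
          exact (mul_eq_zero.1 this).resolve_left hρ
        · apply hcc.2
          have : S.ρ z * (S.c y' + S.c y) = 0 := by linear_combination h2 - h1
          exact (mul_eq_zero.1 this).resolve_left hρ
        · apply hcc.2
          have : S.ρ z * (S.c y' + S.c y) = 0 := by linear_combination h1 - h2
          exact (mul_eq_zero.1 this).resolve_left hρ
        · apply hcc.1
          have : S.ρ z * (S.c y' - S.c y) = 0 := by linear_combination h2 - h1
          exact (mul_eq_zero.1 this).resolve_left hρ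
      rw [hw, hw', hyy]
    · exfalso
      have h3 : S.ρ z * S.c y = 0 := by
        rcases hβ with h1 | h1
        · rw [← h1, hβ']
        · rw [← neg_eq_zero, ← h1, hβ']
      exact mul_ne_zero hρ (S.c_ne y) h3
  · rcases h' with ⟨y', hw', hβ'⟩ | ⟨ho', hβ', hw'⟩
    · exfalso
      have h3 : S.ρ z * S.c y' = 0 := by
        rcases hβ' with h1 | h1
        · rw [← h1, hβ]
        · rw [← neg_eq_zero, ← h1, hβ]
      exact mul_ne_zero hρ (S.c_ne y') h3
    · rw [hw, hw']

/-- class of the difference to the apex -/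
theorem cls_apex {z β : F} {y : Fin r} (hz : z ^ M = 1)
    (hβ : β = S.ρ z * S.c y ∨ β = -(S.ρ z * S.c y)) : β ^ m = z := by
  rcases hβ with rfl | rfl
  · rw [mul_pow, S.hρ z hz, S.hc, mul_one]
  · rw [S.hme.neg_pow, mul_pow, S.hρ z hz, S.hc, mul_one]

theorem smem_cov {c : ZMod 3} {t : T} {j : Fin r} {z β β' : F} {w w' : Lab r T}
    (hz : z ^ M = 1) (h : SMem S o c t j z β w) (h' : SMem S o c t j z β' w') (hne : β ≠ β') :
    SCov S o w w' ((β' - β) ^ m) := by
  rcases h with ⟨y, rfl, hβ⟩ | ⟨ho, hβ, rfl⟩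
  · rcases h' with ⟨y', rfl, hβ'⟩ | ⟨ho', hβ', rfl⟩
    · exact ⟨rfl, Or.inl ⟨rfl, slab_share z j y y'⟩⟩
    · refine ⟨rfl, Or.inr (Or.inl ⟨ho', rfl, ?_⟩)⟩
      rw [hβ', zero_sub, S.hme.neg_pow, cls_apex S hz hβ]
  · rcases h' with ⟨y', rfl, hβ'⟩ | ⟨ho', hβ', rfl⟩
    · refine ⟨rfl, Or.inr (Or.inr ⟨ho, rfl, ?_⟩)⟩
      rw [hβ, sub_zero, cls_apex S hz hβ']
    · exact absurd (hβ.trans hβ'.symm) hne

/-- classes of pairs in a symmetric block -/
theorem cls_pair {z β β' : F} {y y' : Fin r} (hz : z ^ M = 1)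
    (hβ : β = S.ρ z * S.c y ∨ β = -(S.ρ z * S.c y))
    (hβ' : β' = S.ρ z * S.c y' ∨ β' = -(S.ρ z * S.c y')) :
    (((β = S.ρ z * S.c y ∧ β' = S.ρ z * S.c y') ∨ (β = -(S.ρ z * S.c y) ∧
        β' = -(S.ρ z * S.c y'))) ∧ (β' - β) ^ m = z * (S.c y' - S.c y) ^ m) ∨
    (((β = S.ρ z * S.c y ∧ β' = -(S.ρ z * S.c y')) ∨ (β = -(S.ρ z * S.c y) ∧
        β' = S.ρ z * S.c y')) ∧ (β' - β) ^ m = z * (S.c y' + S.c y) ^ m) := by
  have e1 : (S.ρ z * (S.c y' - S.c y)) ^ m = z * (S.c y' - S.c y) ^ m := by
    rw [mul_pow, S.hρ z hz]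
  have e2 : (S.ρ z * (S.c y' + S.c y)) ^ m = z * (S.c y' + S.c y) ^ m := by
    rw [mul_pow, S.hρ z hz]
  rcases hβ with h1 | h1 <;> rcases hβ' with h2 | h2
  · left
    refine ⟨Or.inl ⟨h1, h2⟩, ?_⟩
    rw [← e1]; congr 1; rw [h1, h2]; ring
  · right
    refine ⟨Or.inl ⟨h1, h2⟩, ?_⟩
    rw [← e2, ← S.hme.neg_pow]; congr 1; rw [h1, h2]; ring
  · right
    refine ⟨Or.inr ⟨h1, h2⟩, ?_⟩
    rw [← e2]; congr 1; rw [h1, h2]; ring
  · left
    refine ⟨Or.inr ⟨h1, h2⟩, ?_⟩
    rw [← e1, ← S.hme.neg_pow]; congr 1; rw [h1, h2]; ring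

/-- parity clash -/
theorem parity_clash {z z' : F} {y y' : Fin r} (hy : y ≠ y')
    (hp : z ^ (M / 2) = z' ^ (M / 2)) (hz : z ^ M = 1)
    (h : z * (S.c y' - S.c y) ^ m = z' * (S.c y' + S.c y) ^ m) : False := by
  have h1 := S.hcc y y' hy
  rw [mul_pow, mul_pow] at h1
  have h2 := congrArg (fun x => x ^ (M / 2)) h
  simp only [mul_pow] at h2
  rw [← hp] at h2
  have hz0 : z ^ (M / 2) ≠ 0 := by
    intro h0
    have : z ^ M = 0 := by rw [← S.two_half, pow_add, h0, zero_mul]
    rw [this] at hz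
    exact zero_ne_one hz
  have h3 := mul_left_cancel₀ hz0 h2
  set A := ((S.c y' - S.c y) ^ m) ^ (M / 2) with hA
  set B := ((S.c y' + S.c y) ^ m) ^ (M / 2) with hB
  rw [h3] at h1
  have h4 : B * B = 1 := by
    rw [hB, ← pow_add, S.two_half, S.hcl _ (S.cc_ne hy).2]
  rw [h4] at h1
  exact S.neg_one_ne_one h1.symm

/-- uniqueness among symmetric blocks -/
theorem smem_uniq {c c' : ZMod 3} {t t' : T} {j j' : Fin r} {z z' β β' γ γ' : F}
    {w w' : Lab r T} (hz : z ^ M = 1) (hz' : z' ^ M = 1)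
    (h1 : SMem S o c t j z β w) (h2 : SMem S o c t j z β' w')
    (h3 : SMem S o c' t' j' z' γ w) (h4 : SMem S o c' t' j' z' γ' w')
    (hne : β ≠ β') (hcl : (β' - β) ^ m = (γ' - γ) ^ m) :
    c = c' ∧ t = t' ∧ j = j' ∧ z = z' ∧ ((γ = β ∧ γ' = β') ∨ (γ = -β ∧ γ' = -β')) := by
  have hγ : γ ≠ γ' := by
    intro h
    rw [h, sub_self, zero_pow S.hm.ne'] at hcl
    exact hne (sub_eq_zero.1 (pow_eq_zero_iff S.hm.ne' |>.1 hcl)).symm
  -- sign lemma
  have hsign : ∀ {y : Fin r} {b b' : F}, (b = S.ρ z * S.c y ∨ b = -(S.ρ z * S.c y)) →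
      (b' = S.ρ z * S.c y ∨ b' = -(S.ρ z * S.c y)) → b' = b ∨ b' = -b := by
    rintro y b b' (rfl | rfl) (rfl | rfl)
    · exact Or.inl rfl
    · exact Or.inr rfl
    · right; rw [neg_neg]
    · exact Or.inl rfl
  rcases h1 with ⟨y, hw, hβ⟩ | ⟨ho, hβ, hw⟩
  · rcases h2 with ⟨y', hw', hβ'⟩ | ⟨ho', hβ', hw'⟩
    · -- both ordinary
      rcases h3 with ⟨x, hv, hγ1⟩ | ⟨ho3, hγ1, hv⟩
      · rcases h4 with ⟨x', hv', hγ2⟩ | ⟨ho4, hγ2, hv'⟩
        · rw [hw] at hv
          rw [hw'] at hv'
          simp only [Prod.mk.injEq] at hv hv'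
          obtain ⟨⟨hs, rfl⟩, rfl⟩ := hv
          obtain ⟨⟨hs', _⟩, _⟩ := hv'
          by_cases hyy : y = y'
          · subst hyy
            have hxx : x = x' := (slab_inj (hs.symm.trans hs')).2
            subst hxx
            have e1 : β' = -β := by
              rcases hβ with h | h <;> rcases hβ' with h' | h'
              · exact absurd (h.trans h'.symm) hne
              · rw [h, h']
              · rw [h, h', neg_neg]
              · exact absurd (h.trans h'.symm) hne
            have e2 : γ' = -γ := by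
              rcases hγ1 with h | h <;> rcases hγ2 with h' | h'
              · exact absurd (h.trans h'.symm) hγ
              · rw [h, h']
              · rw [h, h', neg_neg]
              · exact absurd (h.trans h'.symm) hγ
            have e3 : (β' - β) ^ m = 2 ^ m * z := by
              rw [e1]
              have : -β - β = -(2 * β) := by ring
              rw [this, S.hme.neg_pow, mul_pow, cls_apex S hz hβ]
            have e4 : (γ' - γ) ^ m = 2 ^ m * z' := by
              rw [e2]
              have : -γ - γ = -(2 * γ) := by ring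
              rw [this, S.hme.neg_pow, mul_pow, cls_apex S hz' hγ1]
            rw [e3, e4] at hcl
            have hzz : z = z' := mul_left_cancel₀ (pow_ne_zero m S.two_ne) hcl
            subst hzz
            obtain ⟨rfl, rfl⟩ := slab_inj hs
            refine ⟨rfl, rfl, rfl, rfl, ?_⟩
            rcases hsign hβ hγ1 with h | h
            · left; exact ⟨h, by rw [e1, e2, h]⟩
            · right; exact ⟨h, by rw [e1, e2, h]⟩
          · -- parity must agree
            have hp : z ^ (M / 2) = z' ^ (M / 2) := by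
              rcases S.half_cases hz with hz1 | hz1 <;> rcases S.half_cases hz' with hz2 | hz2
              · rw [hz1, hz2]
              · exfalso
                have hz2' : ¬ (z' ^ (M / 2) = 1) := by
                  rw [hz2]; exact S.neg_one_ne_one
                simp only [slab, if_pos hz1, if_neg hz2', Prod.mk.injEq] at hs hs'
                exact hyy (hs.1.trans hs'.1.symm)
              · exfalso
                have hz1' : ¬ (z ^ (M / 2) = 1) := by
                  rw [hz1]; exact S.neg_one_ne_one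
                simp only [slab, if_pos hz2, if_neg hz1', Prod.mk.injEq] at hs hs'
                exact hyy (hs.2.trans hs'.2.symm)
              · rw [hz1, hz2]
            have hslab : ∀ a b : Fin r, slab M z a b = slab M z' a b := by
              intro a b
              simp only [slab, hp]
            rw [hslab] at hs hs'
            obtain ⟨rfl, rfl⟩ := slab_inj hs
            obtain ⟨_, rfl⟩ := slab_inj hs'
            rcases cls_pair S hz hβ hβ' with ⟨c1, d1⟩ | ⟨c1, d1⟩ <;>
              rcases cls_pair S hz' hγ1 hγ2 with ⟨c2, d2⟩ | ⟨c2, d2⟩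
            · have hzz : z = z' := by
                rw [d1, d2] at hcl
                exact mul_right_cancel₀ (pow_ne_zero m (S.cc_ne hyy).1) hcl
              subst hzz
              refine ⟨rfl, rfl, rfl, rfl, ?_⟩
              rcases c1 with ⟨p1, p2⟩ | ⟨p1, p2⟩ <;> rcases c2 with ⟨q1, q2⟩ | ⟨q1, q2⟩
              · left; exact ⟨by rw [p1, q1], by rw [p2, q2]⟩
              · right; exact ⟨by rw [p1, q1], by rw [p2, q2]⟩
              · right; exact ⟨by rw [p1, q1, neg_neg], by rw [p2, q2, neg_neg]⟩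
              · left; exact ⟨by rw [p1, q1], by rw [p2, q2]⟩
            · exfalso
              rw [d1, d2] at hcl
              exact parity_clash S hyy hp hz hcl
            · exfalso
              rw [d1, d2] at hcl
              exact parity_clash S hyy hp.symm hz' hcl.symm
            · have hzz : z = z' := by
                rw [d1, d2] at hcl
                exact mul_right_cancel₀ (pow_ne_zero m (S.cc_ne hyy).2) hcl
              subst hzz
              refine ⟨rfl, rfl, rfl, rfl, ?_⟩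
              rcases c1 with ⟨p1, p2⟩ | ⟨p1, p2⟩ <;> rcases c2 with ⟨q1, q2⟩ | ⟨q1, q2⟩
              · left; exact ⟨by rw [p1, q1], by rw [p2, q2]⟩
              · right; exact ⟨by rw [p1, q1], by rw [p2, q2, neg_neg]⟩
              · right; exact ⟨by rw [p1, q1, neg_neg], by rw [p2, q2]⟩
              · left; exact ⟨by rw [p1, q1], by rw [p2, q2]⟩
        · exfalso
          rw [hw] at hv
          rw [hw'] at hv'
          simp only [Prod.mk.injEq] at hv hv'
          have := hv.1.2.symm.trans hv'.1.2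
          exact zmod3_a c' this
      · rcases h4 with ⟨x', hv', hγ2⟩ | ⟨ho4, hγ2, hv'⟩
        · exfalso
          rw [hw] at hv
          rw [hw'] at hv'
          simp only [Prod.mk.injEq] at hv hv'
          have := hv'.1.2.symm.trans hv.1.2
          exact zmod3_a c' this
        · exact absurd (hγ1.trans hγ2.symm) hγ
    · -- second is the apex
      have hβ2 : (β' - β) ^ m = z := by
        rw [hβ', zero_sub, S.hme.neg_pow, cls_apex S hz hβ]
      rcases h3 with ⟨x, hv, hγ1⟩ | ⟨ho3, hγ1, hv⟩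
      · rcases h4 with ⟨x', hv', hγ2⟩ | ⟨ho4, hγ2, hv'⟩
        · exfalso
          rw [hw] at hv
          rw [hw'] at hv'
          simp only [Prod.mk.injEq] at hv hv'
          have := hv.1.2.trans hv'.1.2.symm
          exact zmod3_a c this
        · rw [hw] at hv
          simp only [Prod.mk.injEq] at hv
          obtain ⟨⟨hs, rfl⟩, rfl⟩ := hv
          have hγ3 : (γ' - γ) ^ m = z' := by
            rw [hγ2, zero_sub, S.hme.neg_pow, cls_apex S hz' hγ1]
          have hzz : z = z' := by rw [← hβ2, hcl, hγ3]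
          subst hzz
          obtain ⟨rfl, rfl⟩ := slab_inj hs
          refine ⟨rfl, rfl, rfl, rfl, ?_⟩
          rcases hsign hβ hγ1 with h | h
          · left; exact ⟨h, by rw [hβ', hγ2]⟩
          · right; exact ⟨h, by rw [hβ', hγ2, neg_zero]⟩
      · rcases h4 with ⟨x', hv', hγ2⟩ | ⟨ho4, hγ2, hv'⟩
        · exfalso
          rw [hw] at hv
          rw [hw'] at hv'
          simp only [Prod.mk.injEq] at hv hv'
          have h5 : c' = c' + 1 + 1 := by
            rw [← hv.1.2]; exact hv'.1.2.symm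
          exact zmod3_b c' h5
        · exact absurd (hγ1.trans hγ2.symm) hγ
  · rcases h2 with ⟨y', hw', hβ'⟩ | ⟨ho', hβ', hw'⟩
    · -- first is the apex
      have hβ2 : (β' - β) ^ m = z := by
        rw [hβ, sub_zero, cls_apex S hz hβ']
      rcases h3 with ⟨x, hv, hγ1⟩ | ⟨ho3, hγ1, hv⟩
      · rcases h4 with ⟨x', hv', hγ2⟩ | ⟨ho4, hγ2, hv'⟩
        · exfalso
          rw [hw] at hv
          rw [hw'] at hv'
          simp only [Prod.mk.injEq] at hv hv'
          have := hv'.1.2.trans hv.1.2.symm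
          exact zmod3_a c this
        · exfalso
          rw [hw] at hv
          rw [hw'] at hv'
          simp only [Prod.mk.injEq] at hv hv'
          have h5 : c = c + 1 + 1 := by
            rw [hv.1.2]; exact hv'.1.2
          exact zmod3_b c h5
      · rcases h4 with ⟨x', hv', hγ2⟩ | ⟨ho4, hγ2, hv'⟩
        · rw [hw'] at hv'
          simp only [Prod.mk.injEq] at hv'
          obtain ⟨⟨hs, rfl⟩, rfl⟩ := hv'
          have hγ3 : (γ' - γ) ^ m = z' := by
            rw [hγ1, sub_zero, cls_apex S hz' hγ2]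
          have hzz : z = z' := by rw [← hβ2, hcl, hγ3]
          subst hzz
          obtain ⟨rfl, rfl⟩ := slab_inj hs
          refine ⟨rfl, rfl, rfl, rfl, ?_⟩
          rcases hsign hβ' hγ2 with h | h
          · left; exact ⟨by rw [hβ, hγ1], h⟩
          · right; exact ⟨by rw [hβ, hγ1, neg_zero], h⟩
        · exact absurd (hγ1.trans hγ2.symm) hγ
    · exact absurd (hβ.trans hβ'.symm) hne

/-- existence -/
theorem scov_ex {w w' : Lab r T} {z : F} (hz : z ^ M = 1) (h : SCov S o w w' z) :
    ∃ c t j z', z' ^ M = 1 ∧ ∃ β β', SMem S o c t j z' β w ∧ SMem S o c t j z' β' w' ∧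
      (β' - β) ^ m = z := by
  obtain ⟨⟨yy, c⟩, t⟩ := w
  obtain ⟨⟨yy', c'⟩, t'⟩ := w'
  obtain ⟨rfl, h⟩ := h
  have hz0 : z ≠ 0 := by
    rintro rfl
    rw [zero_pow S.hM.ne'] at hz
    exact zero_ne_one hz
  rcases h with ⟨hc, h⟩ | ⟨ho, hc, hψ⟩ | ⟨ho, hc, hψ⟩
  · simp only at hc h
    subst hc
    by_cases hyy : yy = yy'
    · subst hyy
      set z' := z / 2 ^ m with hz'
      have hz'M : z' ^ M = 1 := by
        rw [hz', div_pow, hz, S.hcl 2 S.two_ne, div_one]
      obtain ⟨j, y, hjy⟩ := slab_surj M z' yy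
      refine ⟨c, t, j, z', hz'M, -(S.ρ z' * S.c y), S.ρ z' * S.c y, ?_, ?_, ?_⟩
      · exact Or.inl ⟨y, by rw [hjy], Or.inr rfl⟩
      · exact Or.inl ⟨y, by rw [hjy], Or.inl rfl⟩
      · have : S.ρ z' * S.c y - -(S.ρ z' * S.c y) = 2 * (S.ρ z' * S.c y) := by ring
        rw [this, mul_pow, mul_pow, S.hρ z' hz'M, S.hc, mul_one, hz',
          mul_div_cancel₀ _ (pow_ne_zero m S.two_ne)]
    · -- the general pair
      -- `e` selects the wanted half class
      have key : ∀ (y y' : Fin r), y ≠ y' → ∀ e : F, (e = 1 ∨ e = -1) →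
          ∃ z', z' ^ M = 1 ∧ z' ^ (M / 2) = e ∧
            ∃ β β', (β = S.ρ z' * S.c y ∨ β = -(S.ρ z' * S.c y)) ∧
              (β' = S.ρ z' * S.c y' ∨ β' = -(S.ρ z' * S.c y')) ∧ (β' - β) ^ m = z := by
        intro y y' hne e he
        obtain ⟨n1, n2⟩ := S.cc_ne hne
        have hAB := S.hcc y y' hne
        set A := (S.c y' - S.c y) ^ m with hA
        set B := (S.c y' + S.c y) ^ m with hB
        have hA0 : A ≠ 0 := pow_ne_zero m n1
        have hB0 : B ≠ 0 := pow_ne_zero m n2
        have hAM : A ^ M = 1 := S.hcl _ n1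
        have hBM : B ^ M = 1 := S.hcl _ n2
        have hAB' : A ^ (M / 2) * B ^ (M / 2) = -1 := by
          rw [← hAB, mul_pow, mul_pow]
        have hzA : (z / A) ^ M = 1 := by rw [div_pow, hz, hAM, div_one]
        have hzB : (z / B) ^ M = 1 := by rw [div_pow, hz, hBM, div_one]
        have hprod : (z / A) ^ (M / 2) * (z / B) ^ (M / 2) = -1 := by
          have h1 : (z / A) ^ (M / 2) * (z / B) ^ (M / 2) =
              (z ^ (M / 2) * z ^ (M / 2)) / (A ^ (M / 2) * B ^ (M / 2)) := by
            rw [div_pow, div_pow, div_mul_div_comm]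
          rw [h1, hAB', ← pow_add, S.two_half, hz]
          norm_num
        by_cases hcase : (z / A) ^ (M / 2) = e
        · refine ⟨z / A, hzA, hcase, S.ρ (z / A) * S.c y, S.ρ (z / A) * S.c y', Or.inl rfl,
            Or.inl rfl, ?_⟩
          rw [← mul_sub, mul_pow, S.hρ _ hzA, ← hA, div_mul_cancel₀ _ hA0]
        · have hcase2 : (z / B) ^ (M / 2) = e := by
            rcases S.half_cases hzA with h1 | h1 <;> rcases S.half_cases hzB with h2 | h2
            · exfalso
              rw [h1, h2, one_mul] at hprod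
              exact S.neg_one_ne_one hprod.symm
            · rw [h2]
              rcases he with rfl | rfl
              · exact absurd h1 hcase
              · rfl
            · rw [h2]
              rcases he with rfl | rfl
              · rfl
              · exact absurd h1 hcase
            · exfalso
              rw [h1, h2, neg_one_mul, neg_neg] at hprod
              exact S.neg_one_ne_one hprod.symm
          refine ⟨z / B, hzB, hcase2, -(S.ρ (z / B) * S.c y), S.ρ (z / B) * S.c y', Or.inr rfl,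
            Or.inl rfl, ?_⟩
          rw [sub_neg_eq_add, ← mul_add, mul_pow, S.hρ _ hzB, ← hB, div_mul_cancel₀ _ hB0]
      obtain ⟨y1, y2⟩ := yy
      obtain ⟨y1', y2'⟩ := yy'
      simp only at h
      rcases h with h | h
      · -- same first coordinate: columns, odd classes
        subst h
        have hne : y2 ≠ y2' := by
          rintro rfl
          exact hyy rfl
        obtain ⟨z', hz'M, he, β, β', hβ, hβ', hcl⟩ := key y2 y2' hne (-1) (Or.inr rfl)
        have hne1 : ¬ (z' ^ (M / 2) = 1) := by rw [he]; exact S.neg_one_ne_one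
        refine ⟨c, t, y1, z', hz'M, β, β', Or.inl ⟨y2, ?_, hβ⟩, Or.inl ⟨y2', ?_, hβ'⟩, hcl⟩
        · simp [slab, hne1]
        · simp [slab, hne1]
      · subst h
        have hne : y1 ≠ y1' := by
          rintro rfl
          exact hyy rfl
        obtain ⟨z', hz'M, he, β, β', hβ, hβ', hcl⟩ := key y1 y1' hne 1 (Or.inl rfl)
        refine ⟨c, t, y2, z', hz'M, β, β', Or.inl ⟨y1, ?_, hβ⟩, Or.inl ⟨y1', ?_, hβ'⟩, hcl⟩
        · simp [slab, he]
        · simp [slab, he]
  · simp only at hc hψ
    subst hc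
    obtain ⟨j, y, hjy⟩ := slab_surj M z yy
    refine ⟨c, t, j, z, hz, S.ρ z * S.c y, 0, Or.inl ⟨y, by rw [hjy], Or.inl rfl⟩,
      Or.inr ⟨ho, rfl, by rw [hψ]⟩, ?_⟩
    rw [zero_sub, S.hme.neg_pow, cls_apex S hz (Or.inl rfl)]
  · simp only at hc hψ
    subst hc
    obtain ⟨j, y, hjy⟩ := slab_surj M z yy'
    refine ⟨c', t, j, z, hz, 0, S.ρ z * S.c y, Or.inr ⟨ho, rfl, by rw [hψ]⟩,
      Or.inl ⟨y, by rw [hjy], Or.inl rfl⟩, ?_⟩
    rw [sub_zero, cls_apex S hz (Or.inl rfl)]

end S

end Pool.Agent.Helper621
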