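import Pool.Agent.Helper621.Cyc

/-!
# Selection with avoidance, and linear pencils
-/

namespace Pool.Agent.Helper621

set_option linter.unusedSectionVars false

open Finset

/-- Selection of points with prescribed classes of differences, subject to a stepwise
avoidance condition. -/
theorem exists_sel_avoid (M K E : ℕ) (hM : 0 < M) : ∀ D : ℕ, ∃ N : ℕ, ∀ (F : Type) [Field F]
    [Fintype F] [DecidableEq F] (m : ℕ), 0 < m → Fintype.card F = M * m + 1 →
    N < Fintype.card F →
    ∀ S : ℕ → Finset F, (∀ i < K, Fintype.card F ≤ D * (S i).card) →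
    ∀ z : ℕ → ℕ → F, (∀ i j, i < j → j < K → (z i j) ^ M = 1) →
    ∀ Good : List F → Prop, Good [] →
    (∀ l : List F, l.length < K → Good l →
      ∃ bad : Finset F, bad.card ≤ E ∧ ∀ y, y ∉ bad → Good (l ++ [y])) →
    ∃ b : ℕ → F, (∀ i < K, b i ∈ S i) ∧ (∀ i j, i < j → j < K → (b j - b i) ^ m = z i j) ∧
      Good ((List.range K).map b) := by
  induction K with
  | zero =>
    intro D
    refine ⟨0, fun F _ _ _ m hm hF hN S hS z hz Good h0 hstep => ⟨fun _ => 0, fun i hi => ?_,
      fun i j _ hj => ?_, ?_⟩⟩
    · omega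
    · omega
    · simpa using h0
  | succ K ih =>
    intro D
    obtain ⟨N0, hN0⟩ := ih (2 * M * D)
    refine ⟨N0 + (16 * M ^ 2 * D ^ 2 * K + D * E) + 4,
      fun F _ _ _ m hm hF hN S hS z hz Good h0 hstep => ?_⟩
    set q := Fintype.card F with hq
    have hqpos : 0 < q := by omega
    obtain ⟨bad0, hbad0, hgood0⟩ := hstep [] (by simp) h0
    -- bad sets
    set bad : ℕ → Finset F := fun j =>
      univ.filter (fun x : F => 2 * M * nz (S (j + 1)) m (z 0 (j + 1)) x < (S (j + 1)).card)
      with hbad
    have hbadc : ∀ j ∈ range K, (bad j).card ≤ 16 * M ^ 2 * D := by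
      intro j hj
      rw [mem_range] at hj
      have h1 := card_bad hM hm hF (by omega) (S (j + 1)) (z := z 0 (j + 1))
        (mem_mu.2 (hz 0 (j + 1) (by omega) (by omega)))
      have h2 := hS (j + 1) (by omega)
      have h3 : (bad j).card * (S (j + 1)).card ≤ 16 * M ^ 2 * D * (S (j + 1)).card := by
        calc (bad j).card * (S (j + 1)).card ≤ 16 * M ^ 2 * q := h1
          _ ≤ 16 * M ^ 2 * (D * (S (j + 1)).card) := Nat.mul_le_mul_left _ h2
          _ = _ := by ring
      have h4 : 0 < (S (j + 1)).card := by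
        rcases Nat.eq_zero_or_pos (S (j + 1)).card with h | h
        · rw [h] at h2; omega
        · exact h
      exact Nat.le_of_mul_le_mul_right h3 h4
    have hun : ((range K).biUnion bad ∪ bad0).card ≤ K * (16 * M ^ 2 * D) + E := by
      refine (card_union_le _ _).trans (add_le_add ?_ hbad0)
      refine card_biUnion_le.trans ?_
      refine (sum_le_card_nsmul _ _ _ hbadc).trans ?_
      simp
    have hex : ∃ x ∈ S 0, x ∉ (range K).biUnion bad ∪ bad0 := by
      by_contra hcon
      push Not at hcon
      have h5 : S 0 ⊆ (range K).biUnion bad ∪ bad0 := hcon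
      have h6 := (card_le_card h5).trans hun
      have h7 := hS 0 (by omega)
      have h8 : q ≤ D * (K * (16 * M ^ 2 * D) + E) := h7.trans (Nat.mul_le_mul_left _ h6)
      have h9 : D * (K * (16 * M ^ 2 * D) + E) = 16 * M ^ 2 * D ^ 2 * K + D * E := by ring
      omega
    obtain ⟨x0, hx0, hx0b⟩ := hex
    rw [mem_union, not_or] at hx0b
    set S' : ℕ → Finset F := fun j => (S (j + 1)).filter (fun y => (y - x0) ^ m = z 0 (j + 1))
      with hS'
    have hS'c : ∀ j < K, q ≤ 2 * M * D * (S' j).card := by
      intro j hj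
      have h1 : x0 ∉ bad j := by
        intro h
        exact hx0b.1 (mem_biUnion.2 ⟨j, mem_range.2 hj, h⟩)
      have h2 : (S (j + 1)).card ≤ 2 * M * nz (S (j + 1)) m (z 0 (j + 1)) x0 := by
        by_contra h
        exact h1 (by simp only [hbad, mem_filter, mem_univ, true_and]; omega)
      have h3 := hS (j + 1) (by omega)
      calc q ≤ D * (S (j + 1)).card := h3
        _ ≤ D * (2 * M * nz (S (j + 1)) m (z 0 (j + 1)) x0) := Nat.mul_le_mul_left _ h2
        _ = 2 * M * D * (S' j).card := by rw [nz]; ring
    obtain ⟨b', hb'1, hb'2, hb'3⟩ := hN0 F m hm hF (by omega) S' hS'c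
      (fun i j => z (i + 1) (j + 1))
      (fun i j hij hj => hz (i + 1) (j + 1) (by omega) (by omega))
      (fun l => Good (x0 :: l)) (hgood0 x0 hx0b.2)
      (fun l hl hg => hstep (x0 :: l) (by simpa using hl) hg)
    refine ⟨fun n => Nat.casesOn n x0 b', ?_, ?_, ?_⟩
    · intro i hi
      cases i with
      | zero => exact hx0
      | succ i =>
        have := hb'1 i (by omega)
        rw [hS', mem_filter] at this
        exact this.1
    · intro i j hij hj
      cases j with
      | zero => omega
      | succ j =>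
        cases i with
        | zero =>
          have := hb'1 j (by omega)
          rw [hS', mem_filter] at this
          exact this.2
        | succ i => exact hb'2 i j (by omega) (by omega)
    · rw [List.range_succ_eq_map, List.map_cons, List.map_map]
      exact hb'3

/-- A pencil of linear maps which is injective somewhere is injective outside a small set. -/
theorem pencil_injective {F : Type} [Field F] [Fintype F] [DecidableEq F] {n : ℕ} {I : Type}
    [Fintype I] (Φ0 Φ1 : (Fin n → F) →ₗ[F] (I → F)) (y0 : F)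
    (h : Function.Injective (Φ0 + y0 • Φ1)) :
    ∃ bad : Finset F, bad.card ≤ n ∧ ∀ y, y ∉ bad → Function.Injective (Φ0 + y • Φ1) := by
  classical
  obtain ⟨L, hL⟩ := LinearMap.exists_leftInverse_of_injective (Φ0 + y0 • Φ1)
    (LinearMap.ker_eq_bot.2 h)
  set A0 : Matrix (Fin n) (Fin n) F := LinearMap.toMatrix' (L ∘ₗ Φ0) with hA0
  set A1 : Matrix (Fin n) (Fin n) F := LinearMap.toMatrix' (L ∘ₗ Φ1) with hA1
  set P : Polynomial F := Matrix.det ((Polynomial.X : Polynomial F) • A1.map Polynomial.C +
    A0.map Polynomial.C) with hP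
  have heval : ∀ y, P.eval y = LinearMap.det (L ∘ₗ (Φ0 + y • Φ1)) := by
    intro y
    rw [← LinearMap.det_toMatrix', hP, ← Polynomial.coe_evalRingHom, RingHom.map_det]
    congr 1
    have e1 : LinearMap.toMatrix' (L ∘ₗ (Φ0 + y • Φ1)) = A0 + y • A1 := by
      rw [hA0, hA1, LinearMap.comp_add, LinearMap.comp_smul, map_add, map_smul]
    rw [e1]
    ext i j
    simp
    ring
  have hPne : P ≠ 0 := by
    intro h0
    have h1 := heval y0
    rw [hL, LinearMap.det_id, h0, Polynomial.eval_zero] at h1
    exact zero_ne_one h1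
  refine ⟨P.roots.toFinset, ?_, ?_⟩
  · refine (Multiset.toFinset_card_le _).trans ((Polynomial.card_roots' P).trans ?_)
    have := Polynomial.natDegree_det_X_add_C_le A1 A0
    simpa using this
  · intro y hy
    have h2 : P.eval y ≠ 0 := by
      intro h3
      exact hy (by rw [Multiset.mem_toFinset, Polynomial.mem_roots hPne]; exact h3)
    rw [heval] at h2
    have h4 : IsUnit (LinearMap.det (L ∘ₗ (Φ0 + y • Φ1))) := isUnit_iff_ne_zero.2 h2
    have h5 : IsUnit (L ∘ₗ (Φ0 + y • Φ1)) := (LinearMap.isUnit_iff_isUnit_det _).2 h4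
    have h6 : Function.Injective (L ∘ₗ (Φ0 + y • Φ1)) :=
      ((Module.End.isUnit_iff _).1 h5).injective
    intro a b hab
    apply h6
    simp only [LinearMap.comp_apply]
    rw [hab]

end Pool.Agent.Helper621
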