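import Mathlib

set_option autoImplicit false

namespace Pool.Agent.Helper621

/-- A Steiner quasigroup: the algebraic form of a Steiner triple system. -/
structure Squag (V : Type*) where
  op : V → V → V
  idem : ∀ x, op x x = x
  comm : ∀ x y, op x y = op y x
  inv : ∀ x y, op x (op x y) = y

namespace Squag

variable {V : Type*} (S : Squag V)

theorem inv' (x y : V) : S.op (S.op x y) y = x := by
  rw [S.comm, S.comm x y, S.inv]

theorem op_eq_left {x y : V} (h : S.op x y = x) : x = y := by
  have h1 := S.inv x y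
  rw [h, S.idem] at h1
  exact h1

theorem op_eq_right {x y : V} (h : S.op x y = y) : x = y := by
  have h1 := S.inv' x y
  rw [h, S.idem] at h1
  exact h1.symm

theorem op_cancel {x y z : V} (h : S.op x y = S.op x z) : y = z := by
  have := congrArg (S.op x) h
  rwa [S.inv, S.inv] at this

variable [Fintype V] [DecidableEq V]

/-- the blocks of a Steiner quasigroup -/
noncomputable def blocks : Finset (Finset V) := by
  classical
  exact Finset.univ.filter (fun b : Finset V => ∃ x y, x ≠ y ∧ b = {x, y, S.op x y})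

theorem mem_blocks (b : Finset V) : b ∈ S.blocks ↔ ∃ x y, x ≠ y ∧ b = {x, y, S.op x y} := by
  classical
  simp [blocks]

theorem card_block {b : Finset V} (hb : b ∈ S.blocks) : b.card = 3 := by
  obtain ⟨x, y, hxy, rfl⟩ := (S.mem_blocks b).1 hb
  rw [Finset.card_eq_three]
  refine ⟨x, y, S.op x y, hxy, ?_, ?_, rfl⟩
  · intro h; exact hxy (S.op_eq_left h.symm)
  · intro h; exact hxy (S.op_eq_right h.symm)

theorem block_eq {b : Finset V} (hb : b ∈ S.blocks) {x y : V} (hxy : x ≠ y) (hx : x ∈ b)
    (hy : y ∈ b) : b = {x, y, S.op x y} := by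
  obtain ⟨u, v, huv, rfl⟩ := (S.mem_blocks b).1 hb
  have e1 : S.op u (S.op u v) = v := S.inv u v
  have e2 : S.op v (S.op u v) = u := by rw [S.comm u v, S.inv]
  have e3 : S.op (S.op u v) u = v := by rw [S.comm, e1]
  have e4 : S.op (S.op u v) v = u := by rw [S.comm, e2]
  have e5 : S.op v u = S.op u v := S.comm v u
  simp only [Finset.mem_insert, Finset.mem_singleton] at hx hy
  rcases hx with rfl | rfl | rfl <;> rcases hy with rfl | rfl | rfl
  all_goals first
    | exact absurd rfl hxy
    | rfl
    | (ext z; simp only [Finset.mem_insert, Finset.mem_singleton, e1, e2, e3, e4, e5]; tauto)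

theorem existsUnique_block {x y : V} (hxy : x ≠ y) :
    ∃! b, b ∈ S.blocks ∧ x ∈ b ∧ y ∈ b := by
  refine ⟨{x, y, S.op x y}, ⟨(S.mem_blocks _).2 ⟨x, y, hxy, rfl⟩, by simp, by simp⟩, ?_⟩
  rintro b ⟨hb, hx, hy⟩
  exact S.block_eq hb hxy hx hy

theorem map_mem_blocks {σ : Equiv.Perm V} (hσ : ∀ x y, σ (S.op x y) = S.op (σ x) (σ y))
    {b : Finset V} (hb : b ∈ S.blocks) : b.map σ.toEmbedding ∈ S.blocks := by
  obtain ⟨x, y, hxy, rfl⟩ := (S.mem_blocks b).1 hb
  rw [S.mem_blocks]
  refine ⟨σ x, σ y, fun h => hxy (σ.injective h), ?_⟩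
  simp [Finset.map_insert, hσ]

theorem image_mem_blocks {σ : Equiv.Perm V} (hσ : ∀ x y, σ (S.op x y) = S.op (σ x) (σ y))
    {b : Finset V} (hb : b ∈ S.blocks) : b.image σ ∈ S.blocks := by
  have := S.map_mem_blocks hσ hb
  rwa [Finset.map_eq_image] at this

theorem aut_iff (σ : Equiv.Perm V) :
    (∀ x y, σ (S.op x y) = S.op (σ x) (σ y)) ↔
      ∀ b : Finset V, (b ∈ S.blocks ↔ b.map σ.toEmbedding ∈ S.blocks) := by
  constructor
  · intro h b
    constructor
    · exact S.map_mem_blocks h
    · intro hb
      have h' : ∀ x y, σ.symm (S.op x y) = S.op (σ.symm x) (σ.symm y) := by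
        intro x y
        rw [Equiv.symm_apply_eq, h]
        simp
      have := S.map_mem_blocks h' hb
      rw [Finset.map_map] at this
      convert this
      ext z
      simp
  · intro h x y
    by_cases hxy : x = y
    · subst hxy; rw [S.idem, S.idem]
    · have hb : ({x, y, S.op x y} : Finset V) ∈ S.blocks := (S.mem_blocks _).2 ⟨x, y, hxy, rfl⟩
      have hb' := (h _).1 hb
      have hne : σ x ≠ σ y := fun e => hxy (σ.injective e)
      have := S.block_eq hb' hne (by simp) (by simp)
      have hz : σ (S.op x y) ∈ (({x, y, S.op x y} : Finset V).map σ.toEmbedding) := by simp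
      rw [this] at hz
      simp only [Finset.mem_insert, Finset.mem_singleton] at hz
      rcases hz with hz | hz | hz
      · exact absurd (S.op_eq_left (σ.injective hz)) hxy
      · exact absurd (S.op_eq_right (σ.injective hz)) hxy
      · exact hz

/-- transport along an equivalence -/
def transport {V W : Type*} (S : Squag V) (e : W ≃ V) : Squag W where
  op x y := e.symm (S.op (e x) (e y))
  idem x := by simp [S.idem]
  comm x y := by rw [S.comm]
  inv x y := by simp [S.inv]

end Squag

end Pool.Agent.Helper621
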