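import Pool.Agent.Helper621.Frame

set_option autoImplicit false

namespace Pool.Agent.Helper621

namespace Frame

variable {G I Δ : Type*} [Group G] (Φ : Frame G I Δ)

/-- left multiplication on `G × I` -/
def lm (g : G) (w : G × I) : G × I := (g * w.1, w.2)

theorem act_lm (g : G) (u : Φ.Label) (w : G × I) : Φ.act u (lm g w) = lm g (Φ.act u w) := by
  rcases u with t | q
  · simp [act, lm, mul_assoc]
  · simp only [act, lm]
    by_cases hs : Φ.src w.2 (Φ.p q.1.1 w.2) = true <;> simp [hs, mul_assoc]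

theorem third_lm (g : G) (w w' : G × I) :
    Φ.third (lm g w) (lm g w') = (Φ.third w w').map id (lm g) := by
  rcases Φ.pair_cases w w' with ⟨x, a, d, hd, rfl, rfl⟩ | ⟨x, a, d, h1, h2, rfl, rfl⟩ |
      ⟨x, a, e, he, rfl, rfl⟩ | ⟨x, a, e, he, rfl, rfl⟩ | ⟨x, a, δ, g', h1, h2, rfl, rfl⟩ |
      ⟨x, a, δ, g', h1, h2, rfl, rfl⟩ | ⟨x, a, e, he, rfl, rfl⟩ | ⟨x, a, e, he, rfl, rfl⟩ |
      ⟨x, a, e, he, rfl, rfl⟩ | ⟨x, a, e, he, rfl, rfl⟩
  · simp only [lm, ← mul_assoc, third_z _ _ _ _ hd, Sum.map_inr]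
  · simp only [lm, ← mul_assoc, third_sq _ _ _ _ h1 h2, Sum.map_inl, id]
  · simp only [lm, ← mul_assoc, third_pos _ _ _ _ he, Sum.map_inr]
  · simp only [lm, ← mul_assoc, third_neg _ _ _ _ he, Sum.map_inr]
  · simp only [lm, ← mul_assoc, third_allowed _ _ _ _ _ h1 h2, Sum.map_inl, id]
  · simp only [lm, ← mul_assoc, third_allowed' _ _ _ _ _ h1 h2, Sum.map_inl, id]
  · simp only [lm, ← mul_assoc, third_s_one _ _ _ _ he, Sum.map_inr]
  · simp only [lm, ← mul_assoc, third_s_one' _ _ _ _ he, Sum.map_inr]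
  · simp only [lm, ← mul_assoc, third_s_e _ _ _ _ he, Sum.map_inr]
  · simp only [lm, ← mul_assoc, third_s_e' _ _ _ _ he, Sum.map_inr]

variable {F : Type*} (S : Squag F) (lam : Φ.Label ≃ F)

/-- the total operation -/
noncomputable def totalOp : F ⊕ (G × I) → F ⊕ (G × I) → F ⊕ (G × I)
  | Sum.inl u, Sum.inl v => Sum.inl (S.op u v)
  | Sum.inl u, Sum.inr w => Sum.inr (Φ.act (lam.symm u) w)
  | Sum.inr w, Sum.inl u => Sum.inr (Φ.act (lam.symm u) w)
  | Sum.inr w, Sum.inr w' => (Φ.third w w').map lam id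

/-- the total Steiner quasigroup -/
noncomputable def total : Squag (F ⊕ (G × I)) where
  op := Φ.totalOp S lam
  idem := by
    rintro (u | w)
    · simp [totalOp, S.idem]
    · simp [totalOp, third_self]
  comm := by
    rintro (u | w) (v | w')
    · simp [totalOp, S.comm u v]
    · simp [totalOp]
    · simp [totalOp]
    · simp [totalOp, Φ.third_comm w w']
  inv := by
    rintro (u | w) (v | w')
    · simp [totalOp, S.inv]
    · simp [totalOp, Φ.act_act]
    · simp [totalOp, Φ.third_act]
    · simp only [totalOp]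
      rcases h : Φ.third w w' with u | w''
      · simp [Φ.act_of_third h]
      · simp [Φ.third_third h]

/-- the action of `G` -/
def gact (F I : Type*) {G : Type*} [Group G] : G →* Equiv.Perm (F ⊕ (G × I)) where
  toFun g :=
    { toFun := Sum.map id (lm g)
      invFun := Sum.map id (lm g⁻¹)
      left_inv := by rintro (u | w) <;> simp [lm]
      right_inv := by rintro (u | w) <;> simp [lm] }
  map_one' := by ext (u | w) <;> simp [lm]
  map_mul' := by
    intro g h
    ext (u | w) <;> simp [lm, mul_assoc]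

theorem gact_inl (g : G) (u : F) : gact F I g (Sum.inl u) = Sum.inl u := rfl

theorem gact_inr (g : G) (w : G × I) : gact F I g (Sum.inr w) = Sum.inr (lm g w) := rfl

theorem gact_op (g : G) (a b : F ⊕ (G × I)) :
    gact F I g ((Φ.total S lam).op a b) =
      (Φ.total S lam).op (gact F I g a) (gact F I g b) := by
  rcases a with u | w <;> rcases b with v | w'
  · rfl
  · simp [total, totalOp, gact_inl, gact_inr, act_lm]
  · simp [total, totalOp, gact_inl, gact_inr, act_lm]
  · simp only [total, totalOp, gact_inr, third_lm]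
    rcases Φ.third w w' with u | w'' <;> simp [gact_inl, gact_inr]

theorem gact_injective [Nonempty I] : Function.Injective (gact F I : G →* _) := by
  intro g h e
  obtain ⟨i⟩ := ‹Nonempty I›
  have := Equiv.congr_fun e (Sum.inr (1, i))
  simpa [gact_inr, lm] using this

end Frame

end Pool.Agent.Helper621
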