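import Pool.Agent.Helper621.Auto2

/-!
# Marking the holes
-/

namespace Pool.Agent.Helper621

set_option linter.unusedSectionVars false

open Finset

/-- Many pairwise distinct relabelings of a design. -/
theorem exists_types {X : Type} [Fintype X] [DecidableEq X] {k : ℕ} (hk : 3 ≤ k)
    (𝓑 : Set (Finset X)) (h1 : ∀ B ∈ 𝓑, B.card = k)
    (h2 : ∀ x y, x ≠ y → ∃! B, B ∈ 𝓑 ∧ x ∈ B ∧ y ∈ B) (Ty : Type) [Fintype Ty]
    (hc : Fintype.card Ty + k ≤ Fintype.card X) :
    ∃ 𝓗 : Ty → Set (Finset X), Function.Injective 𝓗 ∧ ∀ τ, (∀ B ∈ 𝓗 τ, B.card = k) ∧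
      ∀ x y, x ≠ y → ∃! B, B ∈ 𝓗 τ ∧ x ∈ B ∧ y ∈ B := by
  classical
  obtain ⟨x, y, hxy⟩ := Fintype.exists_pair_of_one_lt_card (α := X) (by omega)
  obtain ⟨B0, ⟨hB0, hx0, _⟩, _⟩ := h2 x y hxy
  have hcard : Fintype.card Ty ≤ Fintype.card {u // u ∉ B0} := by
    have := Fintype.card_subtype_compl (fun u => u ∈ B0)
    rw [this, Fintype.card_coe, h1 B0 hB0]
    omega
  obtain ⟨ι⟩ := Function.Embedding.nonempty_of_card_le hcard
  have hmm : ∀ (π : Equiv.Perm X) (b : Finset X),
      (b.map π.toEmbedding).map π.symm.toEmbedding = b := by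
    intro π b
    ext x
    simp
  have hmm' : ∀ (π : Equiv.Perm X) (b : Finset X),
      (b.map π.symm.toEmbedding).map π.toEmbedding = b := by
    intro π b
    ext x
    simp
  have hdes : ∀ π : Equiv.Perm X, (∀ B ∈ {b : Finset X | b.map π.toEmbedding ∈ 𝓑}, B.card = k) ∧
      ∀ x y, x ≠ y → ∃! B, B ∈ {b : Finset X | b.map π.toEmbedding ∈ 𝓑} ∧ x ∈ B ∧ y ∈ B := by
    intro π
    refine ⟨?_, ?_⟩
    · intro b hb
      have := h1 _ hb
      rwa [card_map] at this
    · intro x y hxy
      obtain ⟨B, ⟨hB, hx, hy⟩, huniq⟩ := h2 (π x) (π y) (fun h => hxy (π.injective h))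
      refine ⟨B.map π.symm.toEmbedding, ⟨?_, ?_, ?_⟩, ?_⟩
      · change (B.map π.symm.toEmbedding).map π.toEmbedding ∈ 𝓑
        rw [hmm']; exact hB
      · rw [mem_map]
        exact ⟨π x, hx, by simp⟩
      · rw [mem_map]
        exact ⟨π y, hy, by simp⟩
      · rintro C ⟨hC, hxC, hyC⟩
        have h4 := huniq (C.map π.toEmbedding) ⟨hC, mem_map_of_mem _ hxC,
          mem_map_of_mem _ hyC⟩
        rw [← hmm π C, h4]
  refine ⟨fun τ => {b : Finset X | b.map (Equiv.swap x (ι τ : X)).toEmbedding ∈ 𝓑}, ?_,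
    fun τ => hdes _⟩
  intro τ τ' heq
  simp only at heq
  have hu := (ι τ).2
  have hu' := (ι τ').2
  have hD : ∀ τ, B0.map (Equiv.swap x (ι τ : X)).toEmbedding ∈
      {b : Finset X | b.map (Equiv.swap x (ι τ : X)).toEmbedding ∈ 𝓑} := by
    intro τ
    change (B0.map (Equiv.swap x (ι τ : X)).toEmbedding).map
      (Equiv.swap x (ι τ : X)).toEmbedding ∈ 𝓑
    have := hmm (Equiv.swap x (ι τ : X)) B0
    rw [Equiv.symm_swap] at this
    rw [this]; exact hB0
  -- two further points of the block
  have hcard2 : 2 ≤ (B0.erase x).card := by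
    rw [card_erase_of_mem hx0, h1 B0 hB0]; omega
  obtain ⟨y1, hy1, y2, hy2, hy12⟩ := one_lt_card.1 hcard2
  rw [mem_erase] at hy1 hy2
  have hstay : ∀ τ y, y ∈ B0 → y ≠ x → y ∈ B0.map (Equiv.swap x (ι τ : X)).toEmbedding := by
    intro τ y hy hyx
    rw [mem_map]
    refine ⟨y, hy, ?_⟩
    simp only [Equiv.coe_toEmbedding]
    apply Equiv.swap_apply_of_ne_of_ne hyx
    rintro rfl
    exact (ι τ).2 hy
  have h5 := hD τ'
  rw [← heq] at h5
  have h6 : B0.map (Equiv.swap x (ι τ : X)).toEmbedding =
      B0.map (Equiv.swap x (ι τ' : X)).toEmbedding :=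
    ((hdes _).2 y1 y2 hy12).unique
      ⟨hD τ, hstay τ y1 hy1.2 hy1.1, hstay τ y2 hy2.2 hy2.1⟩
      ⟨h5, hstay τ' y1 hy1.2 hy1.1, hstay τ' y2 hy2.2 hy2.1⟩
  have h7 : (ι τ : X) ∈ B0.map (Equiv.swap x (ι τ' : X)).toEmbedding := by
    rw [← h6, mem_map]
    exact ⟨x, hx0, by simp⟩
  obtain ⟨z, hz, hz2⟩ := mem_map.1 h7
  simp only [Equiv.coe_toEmbedding] at hz2
  by_cases hzx : z = x
  · rw [hzx, Equiv.swap_apply_left] at hz2
    exact ι.injective (Subtype.ext hz2.symm)
  · exfalso
    rw [Equiv.swap_apply_of_ne_of_ne hzx (by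
      rintro rfl
      exact hu' hz)] at hz2
    rw [hz2] at hz
    exact hu hz

section Mark

variable {G F : Type} [Group G] [DecidableEq G] [Field F]

/-- the marked vectors -/
def Mk (G F : Type) [Group G] [DecidableEq G] [Field F] :
    Option (Option (Option G)) → (Option G → F) → Prop
  | none, v => v = 0
  | some none, v => v = Pi.single none 1
  | some (some none), v => ∃ g : G, v = Pi.single (some g) 1
  | some (some (some s)), v => ∃ g : G, v = Pi.single (some g) 1 + (2 : F) • Pi.single (some (g * s)) 1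

theorem act2_single (h : G) (x : Option G) :
    act2 h (Pi.single x (1 : F)) = Pi.single (h • x) 1 := by
  funext y
  simp only [act2, Pi.single_apply]
  by_cases hy : y = h • x
  · rw [if_pos hy, if_pos (by rw [hy, inv_smul_smul])]
  · rw [if_neg hy, if_neg]
    intro h2
    apply hy
    rw [← h2, smul_inv_smul]

theorem mk_act (h : G) (j : Option (Option (Option G))) (v : Option G → F) (hv : Mk G F j v) :
    Mk G F j (act2 h v) := by
  rcases j with _ | _ | _ | s
  · change act2 h v = 0
    rw [show v = 0 from hv, act2_zero]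
  · change act2 h v = _
    rw [show v = _ from hv, act2_single]
    rfl
  · obtain ⟨g, hg⟩ := hv
    refine ⟨h * g, ?_⟩
    rw [hg, act2_single]
    rfl
  · obtain ⟨g, hg⟩ := hv
    refine ⟨h * g, ?_⟩
    rw [hg, act2_add, act2_smul, act2_single, act2_single, mul_assoc]
    rfl

/-- the type of a vector -/
noncomputable def tyV (v : Option G → F) : Option (Option (Option G)) → Bool :=
  fun j => @decide (Mk G F j v) (Classical.dec _)

theorem tyV_act (h : G) (v : Option G → F) : tyV (act2 h v) = tyV v := by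
  funext j
  unfold tyV
  rw [decide_eq_decide]
  constructor
  · intro h1
    have h2 := mk_act h⁻¹ j _ h1
    rwa [← act2_mul, inv_mul_cancel, act2_one] at h2
  · exact mk_act h j v

theorem mk_of_tyV {v v' : Option G → F} (h : tyV v = tyV v') (j : Option (Option (Option G)))
    (hv : Mk G F j v) : Mk G F j v' := by
  have h1 := congrFun h j
  unfold tyV at h1
  rw [decide_eq_decide] at h1
  exact h1.1 hv

theorem marked_is_group [Fintype G] (h2 : (2 : F) ≠ 0) (a f : (Option G → F) → (Option G → F))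
    (hainj : Function.Injective a) (haf : ∀ v, a v = a 0 + f v)
    (hadd : ∀ x y, f (x + y) = f x + f y) (hsmul : ∀ (c : F) x, f (c • x) = c • f x)
    (hty : ∀ v, tyV v = tyV (a v)) : ∃ g : G, ∀ v, a v = act2 g v := by
  have ha0 : a 0 = 0 := mk_of_tyV (hty 0) none rfl
  have hfa : ∀ v, a v = f v := by
    intro v
    rw [haf, ha0, zero_add]
  have hanone : a (Pi.single none 1) = Pi.single none 1 :=
    mk_of_tyV (hty (Pi.single none 1)) (some none) rfl
  have hsome : ∀ g : G, ∃ g', a (Pi.single (some g) 1) = Pi.single (some g') 1 := fun g =>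
    mk_of_tyV (hty (Pi.single (some g) 1)) (some (some none)) ⟨g, rfl⟩
  choose σ hσ using hsome
  have h12 : (1 : F) ≠ 2 := by
    intro h
    have : (1 : F) = 0 := by linear_combination -h
    exact one_ne_zero this
  have hsinj : ∀ x y : Option G, (Pi.single x (1 : F) : Option G → F) = Pi.single y 1 → x = y := by
    intro x y h
    by_contra hne
    have h1 := congrFun h x
    rw [Pi.single_eq_same, Pi.single_eq_of_ne hne] at h1
    exact one_ne_zero h1
  have hσinj : Function.Injective σ := by
    intro g g' h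
    have h1 : a (Pi.single (some g) 1) = a (Pi.single (some g') 1) := by rw [hσ, hσ, h]
    have h3 := hsinj _ _ (hainj h1)
    simpa using h3
  have hmul : ∀ g s, σ (g * s) = σ g * s := by
    intro g s
    by_cases hs : s = 1
    · rw [hs, mul_one, mul_one]
    · obtain ⟨h, hh⟩ := mk_of_tyV (hty (Pi.single (some g) 1 +
        (2 : F) • Pi.single (some (g * s)) 1)) (some (some (some s))) ⟨g, rfl⟩
      rw [hfa, hadd, hsmul, ← hfa, ← hfa, hσ, hσ] at hh
      have hne1 : g * s ≠ g := by
        intro h'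
        exact hs (mul_eq_left.1 h')
      have hne2 : σ (g * s) ≠ σ g := fun h' => hne1 (hσinj h')
      have hne3 : h * s ≠ h := by
        intro h'
        exact hs (mul_eq_left.1 h')
      have e1 := congrFun hh (some (σ g))
      have e2 := congrFun hh (some (σ (g * s)))
      simp only [Pi.add_apply, Pi.smul_apply, smul_eq_mul, Pi.single_apply, Option.some.injEq]
        at e1 e2
      rw [if_true, if_neg hne2.symm, mul_zero, add_zero] at e1
      rw [if_neg hne2, if_true, mul_one, zero_add] at e2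
      have hgh : σ g = h := by
        by_contra hcon
        rw [if_neg hcon, zero_add] at e1
        split_ifs at e1
        · rw [mul_one] at e1; exact h12 e1
        · rw [mul_zero] at e1; exact one_ne_zero e1
      rw [← hgh, if_neg hne2, zero_add] at e2
      by_contra hcon
      rw [if_neg hcon, mul_zero] at e2
      exact h2 e2
  refine ⟨σ 1, fun v => ?_⟩
  have hbasis : ∀ x : Option G, a (Pi.single x 1) = act2 (σ 1) (Pi.single x 1) := by
    intro x
    rw [act2_single]
    rcases x with _ | g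
    · rw [hanone]; rfl
    · rw [hσ]
      have : σ g = σ 1 * g := by rw [← hmul, one_mul]
      rw [this]; rfl
  have hf0 : f 0 = 0 := by rw [← hfa, ha0]
  have hsum : ∀ (s : Finset (Option G)) (φ : Option G → (Option G → F)),
      f (∑ x ∈ s, φ x) = ∑ x ∈ s, f (φ x) := by
    intro s φ
    induction s using Finset.induction_on with
    | empty => rw [sum_empty, sum_empty, hf0]
    | insert x s hx ih => rw [sum_insert hx, sum_insert hx, hadd, ih]
  have hsum2 : ∀ (s : Finset (Option G)) (φ : Option G → (Option G → F)),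
      act2 (σ 1) (∑ x ∈ s, φ x) = ∑ x ∈ s, act2 (σ 1) (φ x) := by
    intro s φ
    induction s using Finset.induction_on with
    | empty => rw [sum_empty, sum_empty, act2_zero]
    | insert x s hx ih => rw [sum_insert hx, sum_insert hx, act2_add, ih]
  have hv : v = ∑ x, v x • Pi.single x (1 : F) := by
    funext y
    rw [Finset.sum_apply]
    simp only [Pi.smul_apply, Pi.single_apply, smul_eq_mul, mul_ite, mul_one, mul_zero]
    rw [Finset.sum_ite_eq]
    simp
  rw [hfa]
  conv_lhs => rw [hv]
  conv_rhs => rw [hv]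
  rw [hsum, hsum2]
  refine sum_congr rfl fun x _ => ?_
  rw [hsmul, ← hfa, hbasis, act2_smul]

end Mark

end Pool.Agent.Helper621
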